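import Pool.Agent.Helper57.AN.US

/-! Construction of a frame for an irreducible unitary Harish-Chandra module: algebra. -/

open Filter Topology ComplexConjugate

universe u v

namespace AutNorm

lemma lie_decomp (X : Lie2) : X = X.1 0 0 • LA + ((X.1 0 1 + X.1 1 0) / 2) • LB +
    ((X.1 0 1 - X.1 1 0) / 2) • W := by
  have htr : X.1 0 0 + X.1 1 1 = 0 := by
    have hX : X.1 ∈ LinearMap.ker (Matrix.traceLinearMap (Fin 2) ℝ ℝ) := X.2
    rw [LinearMap.mem_ker, Matrix.traceLinearMap_apply, Matrix.trace_fin_two] at hX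
    exact hX
  apply Lie_ext
  · simp [LA, LB, W]
  · simp [LA, LB, W]; ring
  · simp [LA, LB, W]; ring
  · simp [LA, LB, W]; linarith

lemma lie_WA : ⁅W, LA⁆ = (-2 : ℝ) • LB := by
  apply Lie_ext
  all_goals
    simp [LA, LB, W, LieRing.of_associative_ring_bracket, Matrix.mul_apply, Fin.sum_univ_two]
  all_goals norm_num

lemma lie_WB : ⁅W, LB⁆ = (2 : ℝ) • LA := by
  apply Lie_ext
  all_goals
    simp [LA, LB, W, LieRing.of_associative_ring_bracket, Matrix.mul_apply, Fin.sum_univ_two]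
  all_goals norm_num

lemma lie_AB : ⁅LA, LB⁆ = (2 : ℝ) • W := by
  apply Lie_ext
  all_goals
    simp [LA, LB, W, LieRing.of_associative_ring_bracket, Matrix.mul_apply, Fin.sum_univ_two]
  all_goals norm_num

section

variable {V : Type u} [AddCommGroup V] [Module ℂ V] (M : LieMod V)

lemma act_decomp (X : Lie2) (v : V) : M.act X v = (X.1 0 0 : ℂ) • M.act LA v +
    (((X.1 0 1 + X.1 1 0) / 2 : ℝ) : ℂ) • M.act LB v +
    (((X.1 0 1 - X.1 1 0) / 2 : ℝ) : ℂ) • M.act W v := by
  conv_lhs => rw [lie_decomp X]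
  rw [M.act_add, M.act_add, M.act_smul, M.act_smul, M.act_smul]
  rfl

lemma invariant_of (U : Submodule ℂ V) (hA : ∀ v ∈ U, M.act LA v ∈ U)
    (hB : ∀ v ∈ U, M.act LB v ∈ U) (hW : ∀ v ∈ U, M.act W v ∈ U) :
    ∀ X : Lie2, ∀ v ∈ U, M.act X v ∈ U := by
  intro X v hv
  rw [act_decomp]
  exact U.add_mem (U.add_mem (U.smul_mem _ (hA v hv)) (U.smul_mem _ (hB v hv)))
    (U.smul_mem _ (hW v hv))

lemma act_WA (v : V) : M.act W (M.act LA v) = M.act LA (M.act W v) + (-2 : ℂ) • M.act LB v := by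
  have h := LinearMap.congr_fun (M.act_lie W LA) v
  rw [lie_WA, M.act_smul] at h
  simp only [LinearMap.smul_apply, LinearMap.sub_apply, LinearMap.comp_apply] at h
  push_cast at h
  rw [h]; abel

lemma act_WB (v : V) : M.act W (M.act LB v) = M.act LB (M.act W v) + (2 : ℂ) • M.act LA v := by
  have h := LinearMap.congr_fun (M.act_lie W LB) v
  rw [lie_WB, M.act_smul] at h
  simp only [LinearMap.smul_apply, LinearMap.sub_apply, LinearMap.comp_apply] at h
  push_cast at h
  rw [h]; abel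

lemma act_AB (v : V) : M.act LA (M.act LB v) = M.act LB (M.act LA v) + (2 : ℂ) • M.act W v := by
  have h := LinearMap.congr_fun (M.act_lie LA LB) v
  rw [lie_AB, M.act_smul] at h
  simp only [LinearMap.smul_apply, LinearMap.sub_apply, LinearMap.comp_apply] at h
  push_cast at h
  rw [h]; abel

/-- raising operator -/
noncomputable def Ep : V →ₗ[ℂ] V := (1 / 2 : ℂ) • (M.act LA + Complex.I • M.act LB)

/-- adjoint of the raising operator -/
noncomputable def Fm : V →ₗ[ℂ] V := (-1 / 2 : ℂ) • (M.act LA - Complex.I • M.act LB)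

lemma Ep_apply (v : V) : Ep M v = (1 / 2 : ℂ) • (M.act LA v + Complex.I • M.act LB v) := rfl

lemma Fm_apply (v : V) : Fm M v = (-1 / 2 : ℂ) • (M.act LA v - Complex.I • M.act LB v) := rfl

lemma act_A_eq (v : V) : M.act LA v = Ep M v - Fm M v := by
  rw [Ep_apply, Fm_apply]
  module

lemma act_B_eq (v : V) : M.act LB v = -(Complex.I • (Ep M v + Fm M v)) := by
  rw [Ep_apply, Fm_apply]
  have hI : Complex.I * Complex.I = -1 := Complex.I_mul_I
  have h1 : Complex.I • ((1 / 2 : ℂ) • (M.act LA v + Complex.I • M.act LB v) +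
      (-1 / 2 : ℂ) • (M.act LA v - Complex.I • M.act LB v)) =
      (Complex.I * Complex.I) • M.act LB v := by module
  rw [h1, hI]
  module

lemma W_Ep (v : V) : M.act W (Ep M v) = Ep M (M.act W v) + (2 * Complex.I) • Ep M v := by
  rw [Ep_apply, Ep_apply, map_smul, map_add, map_smul, act_WA, act_WB]
  have hI : Complex.I * Complex.I = -1 := Complex.I_mul_I
  have h1 : (2 * Complex.I) • ((1 / 2 : ℂ) • (M.act LA v + Complex.I • M.act LB v)) =
      Complex.I • M.act LA v + (Complex.I * Complex.I) • M.act LB v := by module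
  rw [h1, hI]
  module

lemma W_Fm (v : V) : M.act W (Fm M v) = Fm M (M.act W v) - (2 * Complex.I) • Fm M v := by
  rw [Fm_apply, Fm_apply, map_smul, map_sub, map_smul, act_WA, act_WB]
  have hI : Complex.I * Complex.I = -1 := Complex.I_mul_I
  have h1 : (2 * Complex.I) • ((-1 / 2 : ℂ) • (M.act LA v - Complex.I • M.act LB v)) =
      (-Complex.I) • M.act LA v + (Complex.I * Complex.I) • M.act LB v := by module
  rw [h1, hI]
  module

lemma Ep_Fm (v : V) : Ep M (Fm M v) = Fm M (Ep M v) + Complex.I • M.act W v := by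
  have hI : Complex.I * Complex.I = -1 := Complex.I_mul_I
  have h1 : Ep M (Fm M v) = (1 / 2 : ℂ) • (M.act LA (Fm M v) + Complex.I • M.act LB (Fm M v)) :=
    rfl
  have h2 : Fm M (Ep M v) = (-1 / 2 : ℂ) • (M.act LA (Ep M v) - Complex.I • M.act LB (Ep M v)) :=
    rfl
  rw [h1, h2, Ep_apply, Fm_apply]
  simp only [map_smul, map_add, map_sub]
  rw [act_AB]
  module

end

end AutNorm
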