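import Pool.Agent.Helper57.AN.Alg

/-! Construction of a frame for an irreducible unitary Harish-Chandra module. -/

open Filter Topology ComplexConjugate

universe u v

namespace AutNorm

section

variable {V : Type u} [AddCommGroup V] [Module ℂ V] (M : LieMod V)

/-- two-sided sequence -/
noncomputable def zz (v₀ : V) (j : ℤ) : V :=
  if 0 ≤ j then ((Ep M) ^ j.toNat) v₀ else ((Fm M) ^ (-j).toNat) v₀

lemma zz_zero (v₀ : V) : zz M v₀ 0 = v₀ := by simp [zz]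

lemma zz_up (v₀ : V) {j : ℤ} (hj : 0 ≤ j) : zz M v₀ (j + 1) = Ep M (zz M v₀ j) := by
  obtain ⟨k, rfl⟩ := Int.eq_ofNat_of_zero_le hj
  rw [zz, zz, if_pos (by omega), if_pos hj]
  have h1 : ((k : ℤ) + 1).toNat = k + 1 := by omega
  have h2 : ((k : ℤ)).toNat = k := by omega
  rw [h1, h2, pow_succ']
  rfl

lemma zz_down (v₀ : V) {j : ℤ} (hj : j ≤ 0) : zz M v₀ (j - 1) = Fm M (zz M v₀ j) := by
  have h0 : zz M v₀ j = ((Fm M) ^ (-j).toNat) v₀ := by
    rcases hj.eq_or_lt with rfl | h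
    · simp [zz]
    · rw [zz, if_neg (by omega)]
  rw [h0, zz, if_neg (by omega)]
  have h1 : (-(j - 1)).toNat = (-j).toNat + 1 := by omega
  rw [h1, pow_succ']
  rfl

lemma weight_Ep {n : ℤ} {v : V} (hv : M.act W v = ((n : ℂ) * Complex.I) • v) :
    M.act W (Ep M v) = (((n + 2 : ℤ) : ℂ) * Complex.I) • Ep M v := by
  rw [W_Ep, hv, map_smul, ← add_smul]
  congr 1
  push_cast; ring

lemma weight_Fm {n : ℤ} {v : V} (hv : M.act W v = ((n : ℂ) * Complex.I) • v) :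
    M.act W (Fm M v) = (((n - 2 : ℤ) : ℂ) * Complex.I) • Fm M v := by
  rw [W_Fm, hv, map_smul, ← sub_smul]
  congr 1
  push_cast; ring

lemma zz_weight {n₀ : ℤ} {v₀ : V} (hv : M.act W v₀ = ((n₀ : ℂ) * Complex.I) • v₀) (j : ℤ) :
    M.act W (zz M v₀ j) = (((n₀ + 2 * j : ℤ) : ℂ) * Complex.I) • zz M v₀ j := by
  induction j using Int.induction_on with
  | zero => rw [zz_zero, hv]; simp
  | succ i ih =>
    rw [zz_up M v₀ (by omega), weight_Ep M ih]
    congr 2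
    push_cast; ring
  | pred i ih =>
    rw [zz_down M v₀ (by omega), weight_Fm M ih]
    congr 2
    push_cast; ring

lemma zz_up' {n₀ : ℤ} {v₀ : V} (hv : M.act W v₀ = ((n₀ : ℂ) * Complex.I) • v₀) {μ : ℂ}
    (hμ : Fm M (Ep M v₀) = μ • v₀) {j : ℤ} (hj : 0 ≤ j) :
    ∃ c : ℂ, Fm M (zz M v₀ (j + 1)) = c • zz M v₀ j := by
  induction j, hj using Int.le_induction with
  | base => exact ⟨μ, by rw [zz_up M v₀ le_rfl, zz_zero, hμ]⟩
  | succ j hj ih =>
    obtain ⟨c, hc⟩ := ih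
    have h1 := Ep_Fm M (zz M v₀ (j + 1))
    rw [hc, map_smul, ← zz_up M v₀ hj, ← zz_up M v₀ (by omega : 0 ≤ j + 1),
      zz_weight M hv, smul_smul] at h1
    refine ⟨c - Complex.I * ((n₀ + 2 * (j + 1) : ℤ) * Complex.I), ?_⟩
    rw [sub_smul, h1]
    abel

lemma zz_down' {n₀ : ℤ} {v₀ : V} (hv : M.act W v₀ = ((n₀ : ℂ) * Complex.I) • v₀) {μ : ℂ}
    (hμ : Fm M (Ep M v₀) = μ • v₀) {j : ℤ} (hj : j ≤ 0) :
    ∃ c : ℂ, Ep M (zz M v₀ (j - 1)) = c • zz M v₀ j := by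
  induction j, hj using Int.le_induction_down with
  | base =>
    refine ⟨μ + Complex.I * (n₀ * Complex.I), ?_⟩
    rw [zz_down M v₀ le_rfl, zz_zero, Ep_Fm, hμ, hv, smul_smul, add_smul]
  | pred j hj ih =>
    obtain ⟨c, hc⟩ := ih
    have h1 := Ep_Fm M (zz M v₀ (j - 1))
    rw [hc, map_smul, ← zz_down M v₀ hj, ← zz_down M v₀ (by omega : j - 1 ≤ 0),
      zz_weight M hv, smul_smul, ← add_smul] at h1
    exact ⟨_, h1⟩

end

variable {V : Type u} [NormedAddCommGroup V] [InnerProductSpace ℂ V] {M : LieMod V}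

/-- normalization -/
noncomputable def nrm (x : V) : V := ((‖x‖ : ℂ)⁻¹) • x

lemma norm_nrm {x : V} (hx : x ≠ 0) : ‖nrm x‖ = 1 := by
  rw [nrm, norm_smul, norm_inv, Complex.norm_real, norm_norm]
  exact inv_mul_cancel₀ (norm_ne_zero_iff.mpr hx)

lemma nrm_eq_zero {x : V} : nrm x = 0 ↔ x = 0 := by
  constructor
  · intro h
    by_contra hx
    have := norm_nrm hx
    rw [h, norm_zero] at this
    exact zero_ne_one this
  · rintro rfl
    simp [nrm]

lemma nrm_ne_zero {x : V} : nrm x ≠ 0 ↔ x ≠ 0 := not_congr nrm_eq_zero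

/-- adjoint pair on normalized vectors -/
lemma pair_nrm (P Q : V →ₗ[ℂ] V) (hPQ : ∀ v w, inner ℂ (P v) w = inner ℂ v (Q w)) {x y : V}
    (hP : P x = y) {c : ℂ} (hQ : Q y = c • x) :
    P (nrm x) = ((‖y‖ / ‖x‖ : ℝ) : ℂ) • nrm y ∧ Q (nrm y) = ((‖y‖ / ‖x‖ : ℝ) : ℂ) • nrm x := by
  by_cases hx : x = 0
  · have hy : y = 0 := by rw [← hP, hx, map_zero]
    subst hx; subst hy
    simp [nrm]
  by_cases hy : y = 0
  · subst hy
    simp [nrm, hP]
  have hxn : (‖x‖ : ℂ) ≠ 0 := by exact_mod_cast norm_ne_zero_iff.mpr hx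
  have hyn : (‖y‖ : ℂ) ≠ 0 := by exact_mod_cast norm_ne_zero_iff.mpr hy
  have hc : (‖y‖ : ℂ) ^ 2 = c * (‖x‖ : ℂ) ^ 2 := by
    have h1 := hPQ x y
    rw [hP, hQ, inner_smul_right, inner_self_eq_norm_sq_to_K, inner_self_eq_norm_sq_to_K] at h1
    exact h1
  have hc' : c = (‖y‖ : ℂ) ^ 2 / (‖x‖ : ℂ) ^ 2 := by
    rw [eq_div_iff (pow_ne_zero 2 hxn)]
    exact hc.symm
  constructor
  · rw [nrm, nrm, map_smul, hP, smul_smul]
    congr 1
    push_cast
    field_simp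
  · rw [nrm, nrm, map_smul, hQ, smul_smul, smul_smul, hc']
    congr 1
    push_cast
    field_simp

lemma Ep_adj (hinv : ∀ (X : Lie2) (v w : V), inner ℂ (M.act X v) w = - inner ℂ v (M.act X w))
    (v w : V) : inner ℂ (Ep M v) w = inner ℂ v (Fm M w) := by
  rw [Ep_apply, Fm_apply, inner_smul_left, inner_add_left, inner_smul_left, inner_smul_right,
    inner_sub_right, inner_smul_right, hinv, hinv]
  have h1 : (starRingEnd ℂ) (1 / 2 : ℂ) = 1 / 2 := by
    rw [map_div₀, map_one, map_ofNat]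
  rw [h1, Complex.conj_I]
  ring

lemma Fm_adj (hinv : ∀ (X : Lie2) (v w : V), inner ℂ (M.act X v) w = - inner ℂ v (M.act X w))
    (v w : V) : inner ℂ (Fm M v) w = inner ℂ v (Ep M w) := by
  rw [← inner_conj_symm, ← Ep_adj hinv, inner_conj_symm]

lemma weight_orth (hinv : ∀ (X : Lie2) (v w : V), inner ℂ (M.act X v) w = - inner ℂ v (M.act X w))
    {n m : ℤ} {v w : V} (hv : M.act W v = ((n : ℂ) * Complex.I) • v)
    (hw : M.act W w = ((m : ℂ) * Complex.I) • w) (hnm : n ≠ m) : inner ℂ v w = 0 := by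
  have h1 := hinv W v w
  rw [hv, hw, inner_smul_left, inner_smul_right] at h1
  simp only [map_mul, map_intCast, Complex.conj_I] at h1
  have h2 : ((n : ℂ) - m) * Complex.I * inner ℂ v w = 0 := by linear_combination -h1
  have h3 : ((n : ℂ) - m) ≠ 0 := by
    rw [sub_ne_zero]
    exact_mod_cast hnm
  rcases mul_eq_zero.mp h2 with h | h
  · rcases mul_eq_zero.mp h with h | h
    · exact absurd h h3
    · exact absurd h Complex.I_ne_zero
  · exact h

/-- core data -/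
structure PreFrame (M : LieMod V) (e : ℤ → V) (α : ℤ → ℝ) (n₀ : ℤ) : Prop where
  orth : ∀ i j, i ≠ j → inner ℂ (e i) (e j) = 0
  norm_e : ∀ j, e j ≠ 0 → ‖e j‖ = 1
  actW : ∀ j, M.act W (e j) = (((n₀ + 2 * j : ℤ) : ℂ) * Complex.I) • e j
  ep : ∀ j, Ep M (e j) = (α j : ℂ) • e (j + 1)
  fm : ∀ j, Fm M (e j) = (α (j - 1) : ℂ) • e (j - 1)
  ne_zero_of_α : ∀ i, α i ≠ 0 → e i ≠ 0 ∧ e (i + 1) ≠ 0
  base : e 0 ≠ 0

lemma exists_preFrame (hHC : M.IsHarishChandra) (hirr : M.IsIrreducible)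
    (hinv : ∀ (X : Lie2) (v w : V), inner ℂ (M.act X v) w = - inner ℂ v (M.act X w)) :
    ∃ (e : ℤ → V) (α : ℤ → ℝ) (n₀ : ℤ), PreFrame M e α n₀ := by
  -- a nonzero K-type
  have h1 : ∃ n₀ : ℤ, M.kType n₀ ≠ ⊥ := by
    by_contra hcon
    push Not at hcon
    obtain ⟨v, hv⟩ := hirr.nonzero
    apply hv
    have : v ∈ (⨆ n : ℤ, M.kType n) := by rw [hHC.iSup_eq_top]; trivial
    simp only [hcon, iSup_bot] at this
    exact this
  obtain ⟨n₀, hn₀⟩ := h1
  have hmem : ∀ v, v ∈ M.kType n₀ ↔ M.act W v = ((n₀ : ℂ) * Complex.I) • v := by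
    intro v
    rw [LieMod.kType, LinearMap.mem_ker, LinearMap.sub_apply, sub_eq_zero]
    rfl
  have hpres : ∀ v ∈ M.kType n₀, (Fm M ∘ₗ Ep M) v ∈ M.kType n₀ := by
    intro v hv
    rw [hmem] at hv ⊢
    have := weight_Fm M (weight_Ep M hv)
    rw [show n₀ + 2 - 2 = n₀ by ring] at this
    exact this
  haveI := hHC.finiteDimensional n₀
  haveI : Nontrivial (M.kType n₀) := (Submodule.nontrivial_iff_ne_bot).mpr hn₀
  obtain ⟨μ, hμ⟩ := Module.End.exists_eigenvalue ((Fm M ∘ₗ Ep M).restrict hpres)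
  obtain ⟨⟨v₀, hv₀m⟩, hv₀⟩ := hμ.exists_hasEigenvector
  have hv₀0 : v₀ ≠ 0 := fun h => hv₀.2 (by subst h; rfl)
  have hv₀W := (hmem v₀).mp hv₀m
  have hv₀μ : Fm M (Ep M v₀) = μ • v₀ := by
    have := hv₀.apply_eq_smul
    exact congrArg Subtype.val this
  set z := zz M v₀ with hz
  set α : ℤ → ℝ := fun j => if 0 ≤ j then ‖z (j + 1)‖ / ‖z j‖ else ‖z j‖ / ‖z (j + 1)‖ with hα
  have hup : ∀ j : ℤ, 0 ≤ j → Ep M (nrm (z j)) = (α j : ℂ) • nrm (z (j + 1)) ∧
      Fm M (nrm (z (j + 1))) = (α j : ℂ) • nrm (z j) := by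
    intro j hj
    obtain ⟨c, hc⟩ := zz_up' M hv₀W hv₀μ hj
    have := pair_nrm (Ep M) (Fm M) (Ep_adj hinv) (x := z j) (y := z (j + 1))
      (zz_up M v₀ hj).symm hc
    simp only [hα, if_pos hj]
    exact this
  have hdown : ∀ j : ℤ, j < 0 → Ep M (nrm (z j)) = (α j : ℂ) • nrm (z (j + 1)) ∧
      Fm M (nrm (z (j + 1))) = (α j : ℂ) • nrm (z j) := by
    intro j hj
    have h2 := zz_down M v₀ (j := j + 1) (by omega)
    rw [add_sub_cancel_right] at h2
    obtain ⟨c, hc⟩ := zz_down' M hv₀W hv₀μ (j := j + 1) (by omega)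
    rw [add_sub_cancel_right] at hc
    have := pair_nrm (Fm M) (Ep M) (Fm_adj hinv) (x := z (j + 1)) (y := z j) h2.symm hc
    simp only [hα, if_neg (not_le.mpr hj)]
    exact ⟨this.2, this.1⟩
  have hboth : ∀ j : ℤ, Ep M (nrm (z j)) = (α j : ℂ) • nrm (z (j + 1)) ∧
      Fm M (nrm (z (j + 1))) = (α j : ℂ) • nrm (z j) := by
    intro j
    rcases le_or_gt 0 j with h | h
    · exact hup j h
    · exact hdown j h
  refine ⟨fun j => nrm (z j), α, n₀, ?_, ?_, ?_, ?_, ?_, ?_, ?_⟩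
  · intro i j hij
    simp only [nrm, inner_smul_left, inner_smul_right]
    rw [weight_orth hinv (zz_weight M hv₀W i) (zz_weight M hv₀W j) (by omega)]
    simp
  · intro j hj
    exact norm_nrm (nrm_ne_zero.mp hj)
  · intro j
    simp only [nrm, map_smul]
    rw [hz, zz_weight M hv₀W j, smul_comm]
  · intro j
    exact (hboth j).1
  · intro j
    have := (hboth (j - 1)).2
    rwa [sub_add_cancel] at this
  · intro i hi
    simp only [nrm_ne_zero]
    simp only [hα] at hi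
    split_ifs at hi with h0
    · rw [div_ne_zero_iff] at hi
      exact ⟨norm_ne_zero_iff.mp hi.2, norm_ne_zero_iff.mp hi.1⟩
    · rw [div_ne_zero_iff] at hi
      exact ⟨norm_ne_zero_iff.mp hi.1, norm_ne_zero_iff.mp hi.2⟩
  · rw [nrm_ne_zero, hz, zz_zero]
    exact hv₀0

end AutNorm
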