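import Pool.Agent.Helper57.AN.Alg2

/-! Construction of a frame for an irreducible unitary Harish-Chandra module. -/

open Filter Topology ComplexConjugate

universe u v

namespace AutNorm

variable {V : Type u} [NormedAddCommGroup V] [InnerProductSpace ℂ V] {M : LieMod V}
variable {e : ℤ → V} {α : ℤ → ℝ} {n₀ : ℤ}

namespace PreFrame

lemma actA (P : PreFrame M e α n₀) (j : ℤ) :
    M.act LA (e j) = (α j : ℂ) • e (j + 1) - (α (j - 1) : ℂ) • e (j - 1) := by
  rw [act_A_eq, P.ep, P.fm]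

lemma actB (P : PreFrame M e α n₀) (j : ℤ) :
    M.act LB (e j) = -((Complex.I * α j) • e (j + 1)) - (Complex.I * α (j - 1)) • e (j - 1) := by
  rw [act_B_eq, P.ep, P.fm, smul_add, smul_smul, smul_smul, neg_add]
  abel

/-- spans of convex index sets closed under the action are `0` or everything -/
lemma span_top (P : PreFrame M e α n₀) (hirr : M.IsIrreducible) (s : Set ℤ)
    (hup : ∀ j ∈ s, α j ≠ 0 → j + 1 ∈ s) (hdown : ∀ j ∈ s, α (j - 1) ≠ 0 → j - 1 ∈ s)
    (hne : ∃ j ∈ s, e j ≠ 0) : Submodule.span ℂ (e '' s) = ⊤ := by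
  have hEp : ∀ j ∈ s, (α j : ℂ) • e (j + 1) ∈ Submodule.span ℂ (e '' s) := by
    intro j hj
    by_cases h : α j = 0
    · rw [h]; simp
    · exact Submodule.smul_mem _ _ (Submodule.subset_span ⟨_, hup j hj h, rfl⟩)
  have hFm : ∀ j ∈ s, (α (j - 1) : ℂ) • e (j - 1) ∈ Submodule.span ℂ (e '' s) := by
    intro j hj
    by_cases h : α (j - 1) = 0
    · rw [h]; simp
    · exact Submodule.smul_mem _ _ (Submodule.subset_span ⟨_, hdown j hj h, rfl⟩)
  have hgen : ∀ L : V →ₗ[ℂ] V, (∀ j ∈ s, L (e j) ∈ Submodule.span ℂ (e '' s)) →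
      ∀ v ∈ Submodule.span ℂ (e '' s), L v ∈ Submodule.span ℂ (e '' s) := by
    intro L hL v hv
    have : Submodule.span ℂ (e '' s) ≤ (Submodule.span ℂ (e '' s)).comap L := by
      rw [Submodule.span_le]
      rintro _ ⟨j, hj, rfl⟩
      exact hL j hj
    exact this hv
  have hinv := invariant_of M (Submodule.span ℂ (e '' s))
    (hgen (M.act LA) (fun j hj => by
      rw [P.actA]
      exact Submodule.sub_mem _ (hEp j hj) (hFm j hj)))
    (hgen (M.act LB) (fun j hj => by
      rw [P.actB, ← smul_smul, ← smul_smul]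
      exact Submodule.sub_mem _ (Submodule.neg_mem _ (Submodule.smul_mem _ _ (hEp j hj)))
        (Submodule.smul_mem _ _ (hFm j hj))))
    (hgen (M.act W) (fun j hj => by
      rw [P.actW]
      exact Submodule.smul_mem _ _ (Submodule.subset_span ⟨_, hj, rfl⟩)))
  rcases hirr.eq_bot_or_top _ hinv with h | h
  · exfalso
    obtain ⟨j, hj, hj0⟩ := hne
    apply hj0
    have : e j ∈ Submodule.span ℂ (e '' s) := Submodule.subset_span ⟨_, hj, rfl⟩
    rw [h] at this
    exact (Submodule.mem_bot ℂ).mp this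
  · exact h

lemma zero_of_not_mem (P : PreFrame M e α n₀) {s : Set ℤ}
    (hs : Submodule.span ℂ (e '' s) = ⊤) {k : ℤ} (hk : k ∉ s) : e k = 0 := by
  have h1 : ∀ v ∈ Submodule.span ℂ (e '' s), inner ℂ (e k) v = 0 := by
    intro v hv
    induction hv using Submodule.span_induction with
    | mem x hx =>
      obtain ⟨j, hj, rfl⟩ := hx
      exact P.orth k j (by rintro rfl; exact hk hj)
    | zero => simp
    | add x y _ _ hx hy => rw [inner_add_right, hx, hy, add_zero]
    | smul c x _ hx => rw [inner_smul_right, hx, mul_zero]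
  have h2 := h1 (e k) (by rw [hs]; trivial)
  exact inner_self_eq_zero.mp h2

lemma span_eq (P : PreFrame M e α n₀) (hirr : M.IsIrreducible) :
    Submodule.span ℂ (Set.range e) = ⊤ := by
  rw [← Set.image_univ]
  exact P.span_top hirr Set.univ (fun _ _ _ => trivial) (fun _ _ _ => trivial)
    ⟨0, trivial, P.base⟩

lemma up (P : PreFrame M e α n₀) (hirr : M.IsIrreducible) (i : ℤ) (hi : e i ≠ 0) (hα : α i = 0)
    (k : ℤ) (hk : i < k) : e k = 0 := by
  refine P.zero_of_not_mem (s := {j | j ≤ i}) (P.span_top hirr _ ?_ ?_ ⟨i, le_refl i, hi⟩) ?_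
  · intro j hj hαj
    have : j ≠ i := by rintro rfl; exact hαj hα
    simp only [Set.mem_setOf_eq] at hj ⊢
    omega
  · intro j hj _
    simp only [Set.mem_setOf_eq] at hj ⊢
    omega
  · simp only [Set.mem_setOf_eq]; omega

lemma down (P : PreFrame M e α n₀) (hirr : M.IsIrreducible) (i : ℤ) (hi : e i ≠ 0)
    (hα : α (i - 1) = 0) (k : ℤ) (hk : k < i) : e k = 0 := by
  refine P.zero_of_not_mem (s := {j | i ≤ j}) (P.span_top hirr _ ?_ ?_ ⟨i, le_refl i, hi⟩) ?_
  · intro j hj _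
    simp only [Set.mem_setOf_eq] at hj ⊢
    omega
  · intro j hj hαj
    have : j ≠ i := by rintro rfl; exact hαj hα
    simp only [Set.mem_setOf_eq] at hj ⊢
    omega
  · simp only [Set.mem_setOf_eq]; omega

lemma rel (P : PreFrame M e α n₀) (j : ℤ) (hj : e j ≠ 0) :
    α j ^ 2 = α (j - 1) ^ 2 + ((n₀ + 2 * j : ℤ) : ℝ) := by
  have h1 := Ep_Fm M (e j)
  rw [P.fm, P.ep, map_smul, map_smul, P.ep, P.fm, P.actW, sub_add_cancel,
    add_sub_cancel_right, smul_smul, smul_smul, smul_smul, ← add_smul] at h1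
  have h2 : ((α (j - 1) : ℂ) * (α (j - 1) : ℂ) -
      ((α j : ℂ) * (α j : ℂ) + Complex.I * (((n₀ + 2 * j : ℤ) : ℂ) * Complex.I))) • e j = 0 := by
    rw [sub_smul, h1, sub_self]
  rcases smul_eq_zero.mp h2 with h | h
  · have hI := Complex.I_mul_I
    have h3 : ((α j ^ 2 : ℝ) : ℂ) = ((α (j - 1) ^ 2 + ((n₀ + 2 * j : ℤ) : ℝ) : ℝ) : ℂ) := by
      push_cast at h ⊢
      linear_combination -h - ((n₀ : ℂ) + 2 * j) * hI
    exact_mod_cast h3
  · exact absurd h hj

lemma rel_abs (P : PreFrame M e α n₀) (j : ℤ) :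
    |α j ^ 2 - α (j - 1) ^ 2| ≤ |(n₀ : ℝ)| + 2 * |(j : ℝ)| := by
  by_cases hj : e j = 0
  · have h1 : α j = 0 := by
      by_contra h
      exact (P.ne_zero_of_α j h).1 hj
    have h2 : α (j - 1) = 0 := by
      by_contra h
      have := (P.ne_zero_of_α (j - 1) h).2
      rw [sub_add_cancel] at this
      exact this hj
    rw [h1, h2]
    simp
    positivity
  · rw [P.rel j hj, add_sub_cancel_left]
    push_cast
    refine (abs_add_le _ _).trans ?_
    rw [abs_mul, abs_two]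

lemma bound_sq (P : PreFrame M e α n₀) (j : ℤ) :
    α j ^ 2 ≤ (α 0 ^ 2 + |(n₀ : ℝ)| + 2) * (1 + |(j : ℝ)|) ^ 2 := by
  set D : ℝ := α 0 ^ 2 + |(n₀ : ℝ)| + 2 with hD
  have hn : 0 ≤ |(n₀ : ℝ)| := abs_nonneg _
  have hα0 : 0 ≤ α 0 ^ 2 := by positivity
  have hD1 : |(n₀ : ℝ)| + 2 ≤ D := by rw [hD]; linarith
  induction j using Int.induction_on with
  | zero =>
    simp
    rw [hD]; linarith
  | succ i ih =>
    have h1 := P.rel_abs ((i : ℤ) + 1)
    rw [add_sub_cancel_right] at h1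
    have h2 := (abs_le.mp h1).2
    have e1 : |(((i : ℤ) + 1 : ℤ) : ℝ)| = (i : ℝ) + 1 := by
      push_cast; exact abs_of_nonneg (by positivity)
    have e2 : |((i : ℤ) : ℝ)| = (i : ℝ) := by
      push_cast; exact abs_of_nonneg (by positivity)
    rw [e1] at h2 ⊢
    rw [e2] at ih
    have hi : (0 : ℝ) ≤ i := Nat.cast_nonneg _
    nlinarith
  | pred i ih =>
    have h1 := P.rel_abs (-(i : ℤ))
    have h2 := (abs_le.mp h1).1
    have e1 : |((-(i : ℤ) - 1 : ℤ) : ℝ)| = (i : ℝ) + 1 := by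
      push_cast
      rw [show -(i : ℝ) - 1 = -((i : ℝ) + 1) by ring, abs_neg]
      exact abs_of_nonneg (by positivity)
    have e2 : |((-(i : ℤ) : ℤ) : ℝ)| = (i : ℝ) := by
      push_cast
      rw [abs_neg]
      exact abs_of_nonneg (by positivity)
    rw [e2] at h2 ih
    rw [e1]
    have hi : (0 : ℝ) ≤ i := Nat.cast_nonneg _
    nlinarith

lemma unbounded (P : PreFrame M e α n₀) (hirr : M.IsIrreducible)
    (hnt : ∃ (X : Lie2) (v : V), M.act X v ≠ 0) :
    (∀ i, ∃ k, i ≤ k ∧ e k ≠ 0) ∨ (∀ i, ∃ k, k ≤ i ∧ e k ≠ 0) := by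
  by_contra hcon
  push Not at hcon
  obtain ⟨⟨i₁, h1⟩, ⟨i₂, h2⟩⟩ := hcon
  obtain ⟨b, hb, hbmax⟩ := Int.exists_greatest_of_bdd (P := fun k => e k ≠ 0)
    ⟨i₁, fun k hk => by
      by_contra hlt
      exact hk (h1 k (by omega))⟩ ⟨0, P.base⟩
  obtain ⟨a, ha, hamin⟩ := Int.exists_least_of_bdd (P := fun k => e k ≠ 0)
    ⟨i₂, fun k hk => by
      by_contra hlt
      exact hk (h2 k (by omega))⟩ ⟨0, P.base⟩
  have hab : a ≤ b := hamin b hb
  have hαb : α b = 0 := by
    by_contra h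
    have := hbmax _ (P.ne_zero_of_α b h).2
    omega
  have hαa : α (a - 1) = 0 := by
    by_contra h
    have := hamin _ (P.ne_zero_of_α (a - 1) h).1
    omega
  have ra := P.rel a ha
  have rb := P.rel b hb
  rw [hαa] at ra
  rw [hαb] at rb
  have hna : 0 ≤ n₀ + 2 * a := by
    have : (0 : ℝ) ≤ ((n₀ + 2 * a : ℤ) : ℝ) := by
      have := sq_nonneg (α a); nlinarith
    exact_mod_cast this
  have hnb : n₀ + 2 * b ≤ 0 := by
    have : ((n₀ + 2 * b : ℤ) : ℝ) ≤ 0 := by
      have := sq_nonneg (α (b - 1)); nlinarith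
    exact_mod_cast this
  have hab' : a = b := by omega
  subst hab'
  have hn : n₀ + 2 * a = 0 := by omega
  have hz : ∀ k, k ≠ a → e k = 0 := by
    intro k hk
    by_contra h
    have e1 := hbmax k h
    have e2 := hamin k h
    omega
  have hact0 : ∀ (X : Lie2) (k : ℤ), M.act X (e k) = 0 := by
    intro X k
    by_cases hk : k = a
    · subst hk
      rw [act_decomp, P.actA, P.actB, P.actW, hn, hz (k + 1) (by omega), hz (k - 1) (by omega)]
      simp
    · rw [hz k hk, map_zero]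
  obtain ⟨X, v, hv⟩ := hnt
  apply hv
  have hmem : v ∈ Submodule.span ℂ (Set.range e) := by rw [P.span_eq hirr]; trivial
  induction hmem using Submodule.span_induction with
  | mem x hx =>
    obtain ⟨j, rfl⟩ := hx
    exact hact0 X j
  | zero => simp
  | add x y _ _ hx hy =>
    rw [map_add]
    by_cases hx0 : M.act X x = 0
    · by_cases hy0 : M.act X y = 0
      · rw [hx0, hy0, add_zero]
      · exact absurd (hy hy0) hy0
    · exact absurd (hx hx0) hx0
  | smul c x _ hx =>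
    rw [map_smul]
    by_cases hx0 : M.act X x = 0
    · rw [hx0, smul_zero]
    · exact absurd (hx hx0) hx0

end PreFrame

theorem exists_frame (hHC : M.IsHarishChandra) (hirr : M.IsIrreducible)
    (hinv : ∀ (X : Lie2) (v w : V), inner ℂ (M.act X v) w = - inner ℂ v (M.act X w))
    (hnt : ∃ (X : Lie2) (v : V), M.act X v ≠ 0) : Nonempty (Frame M) := by
  obtain ⟨e, α, n₀, P⟩ := exists_preFrame hHC hirr hinv
  refine ⟨{ e := e, α := α, n₀ := n₀, C₀ := Real.sqrt (α 0 ^ 2 + |(n₀ : ℝ)| + 2),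
            orth := P.orth, norm_e := P.norm_e, actW := P.actW, actA := P.actA, actB := P.actB,
            span := P.span_eq hirr, bound := ?_, up := P.up hirr, down := P.down hirr,
            ne_zero_of_α := P.ne_zero_of_α, unbounded := P.unbounded hirr hnt, base := P.base }⟩
  intro j
  have h1 := P.bound_sq j
  have h2 : |α j| ^ 2 ≤ (Real.sqrt (α 0 ^ 2 + |(n₀ : ℝ)| + 2) * (1 + |(j : ℝ)|)) ^ 2 := by
    rw [sq_abs, mul_pow, Real.sq_sqrt (by positivity)]
    exact h1
  exact le_of_sq_le_sq h2 (by positivity)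

end AutNorm
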