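import Pool.Agent.Helper57.AN.OF

/-! Frames (orthonormal `K`-bases) and unitary systems of matrix coefficients. -/

open Filter Topology ComplexConjugate

universe u v

namespace AutNorm

variable {V : Type u} [NormedAddCommGroup V] [InnerProductSpace ℂ V]

/-- adapted orthonormal basis of an irreducible unitarizable module -/
structure Frame (M : LieMod V) where
  e : ℤ → V
  α : ℤ → ℝ
  n₀ : ℤ
  C₀ : ℝ
  orth : ∀ i j, i ≠ j → inner ℂ (e i) (e j) = 0
  norm_e : ∀ j, e j ≠ 0 → ‖e j‖ = 1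
  actW : ∀ j, M.act W (e j) = (((n₀ + 2 * j : ℤ) : ℂ) * Complex.I) • e j
  actA : ∀ j, M.act LA (e j) = (α j : ℂ) • e (j + 1) - (α (j - 1) : ℂ) • e (j - 1)
  actB : ∀ j, M.act LB (e j) =
    -((Complex.I * α j) • e (j + 1)) - (Complex.I * α (j - 1)) • e (j - 1)
  span : Submodule.span ℂ (Set.range e) = ⊤
  bound : ∀ j, |α j| ≤ C₀ * (1 + |(j : ℝ)|)
  up : ∀ i, e i ≠ 0 → α i = 0 → ∀ k, i < k → e k = 0
  down : ∀ i, e i ≠ 0 → α (i - 1) = 0 → ∀ k, k < i → e k = 0
  ne_zero_of_α : ∀ i, α i ≠ 0 → e i ≠ 0 ∧ e (i + 1) ≠ 0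
  unbounded : (∀ i, ∃ k, i ≤ k ∧ e k ≠ 0) ∨ (∀ i, ∃ k, k ≤ i ∧ e k ≠ 0)
  base : e 0 ≠ 0

namespace Frame

variable {M : LieMod V} (F : Frame M)

/-- the weight of `e_j` -/
def n (j : ℤ) : ℤ := F.n₀ + 2 * j

lemma actW' (j : ℤ) : M.act W (F.e j) = ((F.n j : ℂ) * Complex.I) • F.e j := F.actW j

lemma norm_e_le (j : ℤ) : ‖F.e j‖ ≤ 1 := by
  by_cases h : F.e j = 0
  · simp [h]
  · exact (F.norm_e j h).le

end Frame

/-- matrix coefficients `mc w v g = ⟪w, g v⟫` of a unitary globalization -/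
structure USys (M : LieMod V) (mc : V → V →ₗ[ℂ] (G → ℂ)) : Prop where
  of : ∀ w, OF M (mc w)
  one : ∀ w v, mc w v 1 = inner ℂ w v
  inv : ∀ w v g, mc w v g⁻¹ = conj (mc v w g)
  bessel : ∀ (e : ℤ → V), (∀ i j, i ≠ j → inner ℂ (e i) (e j) = 0) →
    (∀ j, e j ≠ 0 → ‖e j‖ = 1) → ∀ (S : Finset ℤ) (v : V) (g : G),
      ∑ j ∈ S, ‖mc (e j) v g‖ ^ 2 ≤ ‖v‖ ^ 2

variable {M : LieMod V} {mc : V → V →ₗ[ℂ] (G → ℂ)}

lemma USys.inv' (h : USys M mc) (w v : V) (g : G) : mc w v g = conj (mc v w g⁻¹) := by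
  have := h.inv w v g⁻¹
  rwa [inv_inv] at this

lemma USys.add_left (h : USys M mc) (w w' v : V) (g : G) :
    mc (w + w') v g = mc w v g + mc w' v g := by
  rw [h.inv' (w + w'), h.inv' w, h.inv' w', map_add, Pi.add_apply, map_add]

lemma USys.smul_left (h : USys M mc) (c : ℂ) (w v : V) (g : G) :
    mc (c • w) v g = conj c * mc w v g := by
  rw [h.inv' (c • w), h.inv' w, map_smul, Pi.smul_apply, smul_eq_mul, map_mul]

lemma USys.neg_left (h : USys M mc) (w v : V) (g : G) :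
    mc (-w) v g = - mc w v g := by
  rw [h.inv' (-w), h.inv' w, map_neg, Pi.neg_apply, map_neg]

lemma USys.sub_left (h : USys M mc) (w w' v : V) (g : G) :
    mc (w - w') v g = mc w v g - mc w' v g := by
  rw [sub_eq_add_neg, h.add_left, h.neg_left, sub_eq_add_neg]

lemma USys.skew (h : USys M mc) {X : Lie2} {γ : ℝ → G} (hγ : IsOneParam X γ) (w v : V) (g : G) :
    mc w (M.act (Ad g⁻¹ X) v) g = - mc (M.act X w) v g := by
  have h1 : HasDerivAt (fun s : ℝ => mc w v (γ s * g)) (mc w (M.act (Ad g⁻¹ X) v) g) 0 := by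
    have := (h.of w).der _ _ (hγ.conj g⁻¹) v g
    refine this.congr_of_eventuallyEq (Eventually.of_forall fun s => ?_)
    simp only
    congr 1; group
  have h2 : HasDerivAt (fun s : ℝ => mc w v (γ s * g)) (- mc (M.act X w) v g) 0 := by
    have ha : HasDerivAt (fun s : ℝ => mc v w (g⁻¹ * γ s)) (mc v (M.act X w) g⁻¹) (-0) := by
      have := (h.of v).der _ _ hγ w g⁻¹
      simpa using this
    have hb := ha.scomp (0 : ℝ) (hasDerivAt_neg (0 : ℝ))
    have hc := (Complex.conjCLE.toContinuousLinearMap.hasFDerivAt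
      (x := mc v w (g⁻¹ * γ (-0)))).comp_hasDerivAt (0 : ℝ) hb
    have hd : HasDerivAt (fun s : ℝ => mc w v (γ s * g))
        (conj ((-1 : ℝ) • mc v (M.act X w) g⁻¹)) 0 := by
      refine hc.congr_of_eventuallyEq (Eventually.of_forall fun s => ?_)
      simp only [Function.comp_apply]
      rw [h.inv' w v (γ s * g), mul_inv_rev, ← hγ.map_neg]
      rfl
    rw [h.inv' (M.act X w) v g]
    convert hd using 1
    simp
  exact h1.unique h2

/-- `⟪e_j, a_t e_i⟫` -/
noncomputable def Frame.c (F : Frame M) (mc : V → V →ₗ[ℂ] (G → ℂ)) (i j : ℤ) (t : ℝ) : ℂ :=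
  mc (F.e j) (F.e i) (aa t)

lemma USys.weight (h : USys M mc) (F : Frame M) (j : ℤ) (v : V) (g : G) :
    mc (F.e j) (M.act (Ad g⁻¹ W) v) g = ((F.n j : ℂ) * Complex.I) * mc (F.e j) v g := by
  rw [h.skew oneParam_kk, F.actW', h.smul_left]
  simp

/-- the rotated generator `cosh(2t) W - sinh(2t) B` -/
noncomputable def ZZ (t : ℝ) : Lie2 := Real.cosh (2 * t) • W - Real.sinh (2 * t) • LB

lemma Ad_aa_inv_W (t : ℝ) : Ad (aa t)⁻¹ W = ZZ t := by
  rw [← aa_neg, Ad_aa_W, ZZ, sub_eq_add_neg, ← neg_smul, show 2 * -t = -(2 * t) by ring,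
    Real.cosh_neg, Real.sinh_neg]

lemma act_sub (M : LieMod V) (X Y : Lie2) : M.act (X - Y) = M.act X - M.act Y := by
  rw [sub_eq_add_neg, M.act_add, ← neg_one_smul ℝ Y, M.act_smul]
  simp [sub_eq_add_neg]

lemma act_ZZ (M : LieMod V) (t : ℝ) (v : V) : M.act (ZZ t) v =
    ((Real.cosh (2 * t) : ℝ) : ℂ) • M.act W v - ((Real.sinh (2 * t) : ℝ) : ℂ) • M.act LB v := by
  rw [ZZ, act_sub, M.act_smul, M.act_smul]
  simp

/-- derivative in the left index -/
lemma USys.deriv_left (h : USys M mc) (F : Frame M) (i j : ℤ) (t : ℝ) :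
    HasDerivAt (F.c mc i j)
      (F.α i * F.c mc (i + 1) j t - F.α (i - 1) * F.c mc (i - 1) j t) t := by
  have h1 := (h.of (F.e j)).der_at oneParam_aa (F.e i) 1 t
  rw [F.actA] at h1
  simp only [one_mul, map_sub, map_smul, Pi.sub_apply, Pi.smul_apply, smul_eq_mul] at h1
  exact h1

/-- derivative in the right index -/
lemma USys.deriv_right (h : USys M mc) (F : Frame M) (i j : ℤ) (t : ℝ) :
    HasDerivAt (F.c mc i j)
      (-(F.α j * F.c mc i (j + 1) t) + F.α (j - 1) * F.c mc i (j - 1) t) t := by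
  have h1 := (h.of (F.e j)).der_at oneParam_aa (F.e i) 1 t
  have h2 := h.skew oneParam_aa (F.e j) (F.e i) (aa t)
  rw [show Ad (aa t)⁻¹ LA = LA by rw [← aa_neg]; exact Ad_aa_A _] at h2
  simp only [one_mul] at h1
  rw [h2, F.actA, h.sub_left, h.smul_left, h.smul_left, Complex.conj_ofReal,
    Complex.conj_ofReal] at h1
  refine h1.congr_deriv ?_
  simp only [Frame.c]
  ring

lemma USys.rel_left (h : USys M mc) (F : Frame M) (i j : ℤ) (t : ℝ) :
    ((F.n j : ℂ) - F.n i * Real.cosh (2 * t)) * F.c mc i j t =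
      Real.sinh (2 * t) * (F.α i * F.c mc (i + 1) j t + F.α (i - 1) * F.c mc (i - 1) j t) := by
  have h1 := h.weight F j (F.e i) (aa t)
  rw [Ad_aa_inv_W, act_ZZ, F.actW', F.actB] at h1
  simp only [map_sub, map_smul, map_neg, Pi.sub_apply, Pi.smul_apply, Pi.neg_apply,
    smul_eq_mul] at h1
  simp only [Frame.c]
  have hI : Complex.I ≠ 0 := Complex.I_ne_zero
  apply mul_left_cancel₀ hI
  linear_combination -h1

lemma USys.rel_right (h : USys M mc) (F : Frame M) (i j : ℤ) (t : ℝ) :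
    ((F.n j : ℂ) * Real.cosh (2 * t) - F.n i) * F.c mc i j t =
      Real.sinh (2 * t) * (F.α j * F.c mc i (j + 1) t + F.α (j - 1) * F.c mc i (j - 1) t) := by
  have h1 := h.skew (oneParam_kk.conj (aa t)) (F.e j) (F.e i) (aa t)
  rw [← Ad_mul, inv_mul_cancel, Ad_one, Ad_aa_W, M.act_add, M.act_smul, M.act_smul] at h1
  simp only [LinearMap.add_apply, LinearMap.smul_apply] at h1
  rw [F.actW', F.actW', F.actB, h.add_left, h.smul_left, h.smul_left, h.smul_left, h.sub_left,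
    h.neg_left, h.smul_left, h.smul_left] at h1
  simp only [map_smul, Pi.smul_apply, smul_eq_mul, map_mul, Complex.conj_ofReal, Complex.conj_I,
    map_intCast] at h1
  simp only [Frame.c]
  have hI : Complex.I ≠ 0 := Complex.I_ne_zero
  apply mul_left_cancel₀ hI
  linear_combination -h1

end AutNorm
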