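import Pool.Agent.Helper57.AN.FD2
import Pool.Agent.Helper57.AN.US

/-! The inner product and the matrix coefficients from an automorphic orbit family. -/

open Filter Topology MeasureTheory ComplexConjugate

universe u v

namespace AutNorm

variable {V : Type u} [AddCommGroup V] [Module ℂ V]

/-- automorphic orbit family -/
structure AutData (M : LieMod V) (Γ : Subgroup G) (D : Set G) (φ : V →ₗ[ℂ] (G → ℂ)) : Prop where
  of : OF M φ
  inv : ∀ γ ∈ Γ, ∀ v g, φ v (γ * g) = φ v g
  inj : ∀ v, (∀ g, φ v g = 0) → v = 0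
  dom : Dom Γ D
  bdd : ∀ v, ∃ C : ℝ, ∀ g, ‖φ v g‖ ≤ C

/-- the Hilbert space -/
abbrev HH (D : Set G) : Type := Lp ℂ 2 ((mG : Measure G).restrict D)

namespace AutData

variable {M : LieMod V} {Γ : Subgroup G} {D : Set G} {φ : V →ₗ[ℂ] (G → ℂ)}

lemma fin (h : AutData M Γ D φ) : IsFiniteMeasure ((mG : Measure G).restrict D) :=
  ⟨by rw [Measure.restrict_apply_univ]; exact h.dom.measure_lt_top⟩

lemma cont (h : AutData M Γ D φ) (v : V) (g : G) : Continuous (fun x => φ v (x * g)) :=
  (h.of.cont v).comp (continuous_id.mul continuous_const)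

lemma memLp (h : AutData M Γ D φ) (v : V) (g : G) :
    MemLp (fun x => φ v (x * g)) 2 ((mG : Measure G).restrict D) := by
  haveI := h.fin
  obtain ⟨C, hC⟩ := h.bdd v
  exact MemLp.of_bound (h.cont v g).aestronglyMeasurable C (Eventually.of_forall fun x => hC _)

/-- right translates as vectors of the Hilbert space -/
noncomputable def R (h : AutData M Γ D φ) (g : G) : V →ₗ[ℂ] HH D where
  toFun v := (h.memLp v g).toLp _
  map_add' v w := by
    rw [← MemLp.toLp_add]
    congr 1
    ext x
    simp
  map_smul' c v := by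
    rw [RingHom.id_apply, ← MemLp.toLp_const_smul]
    congr 1
    ext x
    simp

lemma coe_R (h : AutData M Γ D φ) (g : G) (v : V) :
    (h.R g v : G → ℂ) =ᵐ[(mG : Measure G).restrict D] fun x => φ v (x * g) :=
  MemLp.coeFn_toLp (h.memLp v g)

lemma inner_R (h : AutData M Γ D φ) (a b : G) (w v : V) :
    inner ℂ (h.R a w) (h.R b v) = ∫ x in D, φ v (x * b) * conj (φ w (x * a)) ∂mG := by
  rw [L2.inner_def]
  refine integral_congr_ae ?_
  filter_upwards [h.coe_R a w, h.coe_R b v] with x h1 h2
  rw [h1, h2, RCLike.inner_apply]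

lemma prod_int (h : AutData M Γ D φ) (a b : G) (w v : V) :
    IntegrableOn (fun x => φ v (x * b) * conj (φ w (x * a))) D mG :=
  h.dom.integrableOn ((h.cont v b).mul (Complex.continuous_conj.comp (h.cont w a)))

/-- matrix coefficients -/
noncomputable def mcf (h : AutData M Γ D φ) (w : V) : V →ₗ[ℂ] (G → ℂ) where
  toFun v g := inner ℂ (h.R 1 w) (h.R g v)
  map_add' v v' := by
    ext g
    rw [map_add, inner_add_right]
    rfl
  map_smul' c v := by
    ext g
    rw [map_smul, inner_smul_right]
    rfl

lemma mcf_apply (h : AutData M Γ D φ) (w v : V) (g : G) :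
    h.mcf w v g = ∫ x in D, φ v (x * g) * conj (φ w x) ∂mG := by
  have := h.inner_R 1 g w v
  simp only [mul_one] at this
  exact this

lemma mcf_of (h : AutData M Γ D φ) (w : V) : OF M (h.mcf w) where
  cont v := by
    obtain ⟨C, hC⟩ := h.bdd v
    obtain ⟨C', hC'⟩ := h.bdd w
    have h1 : (h.mcf w v) = fun g => ∫ x in D, φ v (x * g) * conj (φ w x) ∂mG := by
      ext g; exact h.mcf_apply w v g
    rw [h1]
    haveI := h.fin
    refine continuous_of_dominated (bound := fun _ => C * C') (fun g => ?_) (fun g => ?_) ?_ ?_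
    · exact ((h.cont v g).mul (Complex.continuous_conj.comp (h.of.cont w))).aestronglyMeasurable
    · refine Eventually.of_forall fun x => ?_
      rw [norm_mul, RCLike.norm_conj]
      have e1 := hC (x * g)
      have e2 := hC' x
      have e3 : 0 ≤ C := (norm_nonneg _).trans e1
      gcongr
    · exact integrable_const _
    · refine Eventually.of_forall fun x => ?_
      exact ((h.of.cont v).comp (continuous_const.mul continuous_id)).mul continuous_const
  der X γ hγ v g := by
    obtain ⟨C, hC⟩ := h.bdd v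
    obtain ⟨C', hC'⟩ := h.bdd w
    obtain ⟨C'', hC''⟩ := h.bdd (M.act X v)
    haveI := h.fin
    have h1 : (fun t : ℝ => h.mcf w v (g * γ t)) =
        fun t => ∫ x in D, φ v (x * (g * γ t)) * conj (φ w x) ∂mG := by
      ext t; exact h.mcf_apply w v _
    rw [h1, h.mcf_apply]
    have h2 := hasDerivAt_integral_of_dominated_loc_of_deriv_le (μ := (mG : Measure G).restrict D)
      (F := fun (t : ℝ) x => φ v (x * (g * γ t)) * conj (φ w x))
      (F' := fun (t : ℝ) x => φ (M.act X v) (x * (g * γ t)) * conj (φ w x)) (x₀ := 0)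
      (s := Set.univ) (bound := fun _ => C'' * C') Filter.univ_mem
      (Eventually.of_forall fun t =>
        ((h.cont v (g * γ t)).mul (Complex.continuous_conj.comp (h.of.cont w))).aestronglyMeasurable)
      (by
        have := h.prod_int 1 (g * γ 0) w v
        simp only [mul_one] at this
        exact this)
      ((h.cont (M.act X v) (g * γ 0)).mul
        (Complex.continuous_conj.comp (h.of.cont w))).aestronglyMeasurable
      (Eventually.of_forall fun x t _ => by
        rw [norm_mul, RCLike.norm_conj]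
        have e1 := hC'' (x * (g * γ t))
        have e2 := hC' x
        have e3 : 0 ≤ C'' := (norm_nonneg _).trans e1
        gcongr)
      (integrable_const _)
      (Eventually.of_forall fun x t _ => by
        have := (h.of.der_at hγ v (x * g) t).mul_const (conj (φ w x))
        simp only [mul_assoc] at this ⊢
        exact this)
    have h3 := h2.2
    simp only [hγ.map_zero, mul_one] at h3
    exact h3

lemma mcf_inv [DiscreteTopology Γ] (h : AutData M Γ D φ) (w v : V) (g : G) :
    h.mcf w v g⁻¹ = conj (h.mcf v w g) := by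
  rw [h.mcf_apply, h.mcf_apply]
  have h1 := h.dom.right_inv g (f := fun x => φ v (x * g⁻¹) * conj (φ w x)) (fun γ hγ x => by
    rw [mul_assoc, h.inv γ hγ, h.inv γ hγ])
  rw [← h1]
  have h2 : ∫ x in D, φ v (x * g * g⁻¹) * conj (φ w (x * g)) ∂mG =
      ∫ x in D, conj (φ w (x * g) * conj (φ v x)) ∂mG := by
    refine integral_congr_ae (Eventually.of_forall fun x => ?_)
    simp only [map_mul, Complex.conj_conj, mul_inv_cancel_right]
    ring
  rw [h2, integral_conj]

lemma norm_R [DiscreteTopology Γ] (h : AutData M Γ D φ) (g : G) (v : V) :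
    ‖h.R g v‖ = ‖h.R 1 v‖ := by
  have h1 : inner ℂ (h.R g v) (h.R g v) = inner ℂ (h.R 1 v) (h.R 1 v) := by
    rw [h.inner_R, h.inner_R]
    have := h.dom.right_inv g (f := fun x => φ v x * conj (φ v x)) (fun γ hγ x => by
      rw [h.inv γ hγ])
    simp only [mul_one]
    exact this
  rw [inner_self_eq_norm_sq_to_K, inner_self_eq_norm_sq_to_K] at h1
  have h2 : ‖h.R g v‖ ^ 2 = ‖h.R 1 v‖ ^ 2 := by exact_mod_cast h1
  exact (sq_eq_sq₀ (norm_nonneg _) (norm_nonneg _)).mp h2

lemma norm_sq_R (h : AutData M Γ D φ) (v : V) :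
    ‖h.R 1 v‖ ^ 2 = ∫ x in D, ‖φ v x‖ ^ 2 ∂mG := by
  have h1 : ((‖h.R 1 v‖ ^ 2 : ℝ) : ℂ) = ((∫ x in D, ‖φ v x‖ ^ 2 ∂mG : ℝ) : ℂ) := by
    have h2 := h.inner_R 1 1 v v
    rw [inner_self_eq_norm_sq_to_K] at h2
    push_cast
    rw [← integral_complex_ofReal]
    refine Eq.trans h2 (integral_congr_ae (Eventually.of_forall fun x => ?_))
    simp only [mul_one]
    rw [Complex.mul_conj']
    push_cast
    rfl
  exact_mod_cast h1

lemma R_inj [DiscreteTopology Γ] (h : AutData M Γ D φ) {v : V} (hv : h.R 1 v = 0) : v = 0 := by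
  refine h.inj v fun g => ?_
  have h1 := h.norm_sq_R v
  rw [hv, norm_zero] at h1
  have h2 := h.dom.eq_zero_of_integral (f := fun x => ‖φ v x‖ ^ 2) ((h.of.cont v).norm.pow 2)
    (fun x => by positivity) (fun γ hγ x => by rw [h.inv γ hγ]) (by rw [← h1]; norm_num) g
  simpa using h2

/-- the inner product -/
noncomputable def core [DiscreteTopology Γ] (h : AutData M Γ D φ) :
    InnerProductSpace.Core ℂ V where
  inner w v := inner ℂ (h.R 1 w) (h.R 1 v)
  conj_inner_symm w v := inner_conj_symm _ _
  re_inner_nonneg v := inner_self_nonneg (𝕜 := ℂ) (x := h.R 1 v)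
  add_left u v w := by rw [map_add, inner_add_left]
  smul_left u v c := by rw [map_smul, inner_smul_left]
  definite v hv := h.R_inj (inner_self_eq_zero.mp hv)

end AutData

end AutNorm
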