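import Pool.Agent.Helper57.AN.Aut
import Pool.Agent.Helper57.AN.Alg3

/-! The unitary system of an automorphic orbit family. -/

open Filter Topology MeasureTheory ComplexConjugate

universe u v

namespace AutNorm

/-- hyperbolic rotation -/
noncomputable def bb (t : ℝ) : G :=
  ⟨!![Real.cosh t, Real.sinh t; Real.sinh t, Real.cosh t], by
    rw [Matrix.det_fin_two_of]; nlinarith [Real.cosh_sq_sub_sinh_sq t]⟩

@[simp] lemma bb_00 (t : ℝ) : (bb t).1 0 0 = Real.cosh t := rfl
@[simp] lemma bb_01 (t : ℝ) : (bb t).1 0 1 = Real.sinh t := rfl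
@[simp] lemma bb_10 (t : ℝ) : (bb t).1 1 0 = Real.sinh t := rfl
@[simp] lemma bb_11 (t : ℝ) : (bb t).1 1 1 = Real.cosh t := rfl

lemma oneParam_bb : IsOneParam LB bb where
  map_add s t := by
    apply G_ext <;> simp only [mul_val, bb_00, bb_01, bb_10, bb_11, Real.cosh_add,
      Real.sinh_add] <;> ring
  hasDerivAt := by
    intro i j
    fin_cases i <;> fin_cases j
    · simpa [LB] using Real.hasDerivAt_cosh 0
    · simpa [LB] using Real.hasDerivAt_sinh 0
    · simpa [LB] using Real.hasDerivAt_sinh 0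
    · simpa [LB] using Real.hasDerivAt_cosh 0

variable {V : Type u} [AddCommGroup V] [Module ℂ V]
variable {M : LieMod V} {Γ : Subgroup G} {D : Set G} {φ : V →ₗ[ℂ] (G → ℂ)}

namespace AutData

/-- norm on `V` -/
noncomputable abbrev nacg [DiscreteTopology Γ] (h : AutData M Γ D φ) : NormedAddCommGroup V :=
  h.core.toNormedAddCommGroup

/-- inner product space structure on `V` -/
noncomputable abbrev ips [DiscreteTopology Γ] (h : AutData M Γ D φ) :
    @InnerProductSpace ℂ V _ h.nacg.toSeminormedAddCommGroup :=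
  InnerProductSpace.ofCore h.core.toCore

lemma norm_eq [DiscreteTopology Γ] (h : AutData M Γ D φ) (v : V) :
    h.nacg.toNorm.norm v = ‖h.R 1 v‖ := by
  let i1 : NormedAddCommGroup V := h.nacg
  let i2 : InnerProductSpace ℂ V := h.ips
  have h1 : inner ℂ v v = inner ℂ (h.R 1 v) (h.R 1 v) := rfl
  rw [inner_self_eq_norm_sq_to_K, inner_self_eq_norm_sq_to_K] at h1
  have h2 : ‖v‖ ^ 2 = ‖h.R 1 v‖ ^ 2 := by exact_mod_cast h1
  exact (sq_eq_sq₀ (norm_nonneg _) (norm_nonneg _)).mp h2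

theorem usys [DiscreteTopology Γ] (h : AutData M Γ D φ) : @USys V h.nacg h.ips M h.mcf := by
  let i1 : NormedAddCommGroup V := h.nacg
  let i2 : InnerProductSpace ℂ V := h.ips
  refine ⟨h.mcf_of, fun w v => rfl, h.mcf_inv, ?_⟩
  intro e ho hn S v g
  classical
  have hnorm : ∀ v : V, ‖v‖ = ‖h.R 1 v‖ := h.norm_eq
  have horth : Orthonormal ℂ (fun j : {j // e j ≠ 0} => h.R 1 (e j)) := by
    refine ⟨fun j => ?_, fun i j hij => ?_⟩
    · rw [← hnorm]
      exact hn j j.2
    · exact ho i j (fun h' => hij (Subtype.ext h'))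
  have h1 := horth.sum_inner_products_le (x := h.R g v) (s := S.subtype fun j => e j ≠ 0)
  rw [h.norm_R, ← hnorm] at h1
  refine le_trans (le_of_eq ?_) h1
  have h2 : ∑ j ∈ S, ‖h.mcf (e j) v g‖ ^ 2 =
      ∑ j ∈ S.filter (fun j => e j ≠ 0), ‖h.mcf (e j) v g‖ ^ 2 := by
    rw [Finset.sum_filter]
    refine Finset.sum_congr rfl fun j _ => ?_
    split_ifs with hj
    · rfl
    · rw [not_not] at hj
      have h3 : h.mcf (e j) v g = inner ℂ (h.R 1 (e j)) (h.R g v) := rfl
      rw [h3, hj, map_zero, inner_zero_left]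
      simp
  rw [h2, ← Finset.sum_subtype_eq_sum_filter (f := fun j => ‖h.mcf (e j) v g‖ ^ 2)]
  rfl

/-- integrals over compact sets -/
lemma int_le [DiscreteTopology Γ] [CompactSpace (Quotient (QuotientGroup.rightRel Γ))]
    (h : AutData M Γ D φ) {U : Set G} (hU : IsCompact U) :
    ∃ C : ℝ, 0 ≤ C ∧ ∀ w g, ∫ u in U, ‖φ w (g * u)‖ ^ 2 ∂mG ≤
      C * h.nacg.toNorm.norm w ^ 2 := by
  obtain ⟨C, hC, hCf⟩ := h.dom.unif_le hU
  refine ⟨C, hC, fun w g => ?_⟩
  rw [h.norm_eq, h.norm_sq_R]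
  exact hCf (fun x => ‖φ w x‖ ^ 2) ((h.of.cont w).norm.pow 2) (fun x => by positivity)
    (fun γ hγ x => by rw [h.inv γ hγ]) g

/-- the Hilbert norm is dominated by the sup norm -/
lemma norm_le_sup [DiscreteTopology Γ] (h : AutData M Γ D φ) :
    ∃ C : ℝ, 0 ≤ C ∧ ∀ w, h.nacg.toNorm.norm w ≤ C * ⨆ g, ‖φ w g‖ := by
  refine ⟨Real.sqrt ((mG : Measure G).real D), Real.sqrt_nonneg _, fun w => ?_⟩
  obtain ⟨B, hB⟩ := h.bdd w
  have hbdd : BddAbove (Set.range fun g => ‖φ w g‖) := ⟨B, by rintro _ ⟨g, rfl⟩; exact hB g⟩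
  set s : ℝ := ⨆ g, ‖φ w g‖ with hs
  have hs0 : 0 ≤ s := Real.iSup_nonneg fun _ => norm_nonneg _
  have h1 : ∫ x in D, ‖φ w x‖ ^ 2 ∂mG ≤ ∫ _ in D, s ^ 2 ∂mG := by
    refine setIntegral_mono_on (h.dom.integrableOn ((h.of.cont w).norm.pow 2))
      (integrableOn_const h.dom.measure_lt_top.ne) h.dom.meas fun x _ => ?_
    have := le_ciSup hbdd x
    gcongr
  rw [setIntegral_const, smul_eq_mul, ← h.norm_sq_R, ← h.norm_eq] at h1
  have h2 : h.nacg.toNorm.norm w ^ 2 ≤ (Real.sqrt ((mG : Measure G).real D) * s) ^ 2 := by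
    rw [mul_pow, Real.sq_sqrt measureReal_nonneg]
    exact h1
  exact le_of_sq_le_sq h2 (by positivity)

/-- the Lie algebra acts by skew-Hermitian operators -/
lemma skewH [DiscreteTopology Γ] (h : AutData M Γ D φ) (X : Lie2) (v w : V) :
    h.core.inner (M.act X v) w = - h.core.inner v (M.act X w) := by
  let i1 : NormedAddCommGroup V := h.nacg
  let i2 : InnerProductSpace ℂ V := h.ips
  have hu := h.usys
  have key : ∀ (X : Lie2) (γ : ℝ → G), IsOneParam X γ → ∀ v w : V,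
      inner ℂ (M.act X v) w = - inner ℂ v (M.act X w) := by
    intro X γ hγ v w
    have h1 := hu.skew hγ v w 1
    rw [inv_one, Ad_one, hu.one, hu.one] at h1
    rw [h1, neg_neg]
  have hLB : ∃ γ, IsOneParam LB γ := ⟨bb, oneParam_bb⟩
  obtain ⟨γB, hγB⟩ := hLB
  have kA := key LA aa oneParam_aa
  have kW := key W kk oneParam_kk
  have kB := key LB γB hγB
  show inner ℂ (M.act X v) w = - inner ℂ v (M.act X w)
  rw [act_decomp M X v, act_decomp M X w]
  simp only [inner_add_left, inner_add_right, inner_smul_left, inner_smul_right, kA, kW, kB,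
    Complex.conj_ofReal]
  ring

end AutData

end AutNorm
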