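import Pool.Agent.Helper57.AN.Exp

/-! The bound `∑_{|n_j| ≤ N} |φ_j(g)|² ≤ C N`. -/

open Filter Topology ComplexConjugate MeasureTheory

universe u v

namespace AutNorm

variable {V : Type u} [NormedAddCommGroup V] [InnerProductSpace ℂ V]
variable {M : LieMod V} {mc : V → V →ₗ[ℂ] (G → ℂ)}

lemma norm_sum_le_of_orth (e : ℤ → V) (ho : ∀ i j, i ≠ j → inner ℂ (e i) (e j) = 0)
    (hn : ∀ j, ‖e j‖ ≤ 1) (S : Finset ℤ) (a : ℤ → ℂ) :
    ‖∑ j ∈ S, a j • e j‖ ^ 2 ≤ ∑ j ∈ S, ‖a j‖ ^ 2 := by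
  classical
  induction S using Finset.induction_on with
  | empty => simp
  | insert x S hx ih =>
    rw [Finset.sum_insert hx, Finset.sum_insert hx]
    have h0 : inner ℂ (a x • e x) (∑ j ∈ S, a j • e j) = 0 := by
      rw [inner_sum]
      refine Finset.sum_eq_zero fun j hj => ?_
      rw [inner_smul_left, inner_smul_right, ho x j (by rintro rfl; exact hx hj)]
      simp
    have h1 := norm_add_sq_eq_norm_sq_add_norm_sq_of_inner_eq_zero _ _ h0
    have h2 : ‖a x • e x‖ ^ 2 ≤ ‖a x‖ ^ 2 := by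
      rw [norm_smul]
      have : ‖a x‖ * ‖e x‖ ≤ ‖a x‖ * 1 := by
        gcongr
        exact hn x
      have h3 : 0 ≤ ‖a x‖ * ‖e x‖ := by positivity
      nlinarith
    nlinarith

lemma Frame.norm_act_le (F : Frame M) : ∃ C : ℝ, 0 ≤ C ∧ ∀ N : ℝ, 1 ≤ N → ∀ S : Finset ℤ,
    (∀ j ∈ S, |(F.n j : ℝ)| ≤ N) → ∀ a : ℤ → ℂ,
      ‖M.act W (∑ j ∈ S, a j • F.e j)‖ ≤ C * N * Real.sqrt (∑ j ∈ S, ‖a j‖ ^ 2) ∧
      ‖M.act LA (∑ j ∈ S, a j • F.e j)‖ ≤ C * N * Real.sqrt (∑ j ∈ S, ‖a j‖ ^ 2) ∧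
      ‖M.act LB (∑ j ∈ S, a j • F.e j)‖ ≤ C * N * Real.sqrt (∑ j ∈ S, ‖a j‖ ^ 2) := by
  have hC₀ := F.C₀_nonneg
  set D : ℝ := F.C₀ * (3 + |(F.n₀ : ℝ)|) with hD
  have hD0 : 0 ≤ D := by positivity
  refine ⟨1 + 2 * D, by positivity, fun N hN S hS a => ?_⟩
  have hN0 : 0 < N := by linarith
  set Q := ∑ j ∈ S, ‖a j‖ ^ 2 with hQ
  have hQ0 : 0 ≤ Q := Finset.sum_nonneg fun _ _ => by positivity
  -- general bound
  have key : ∀ (e : ℤ → V), (∀ i j, i ≠ j → inner ℂ (e i) (e j) = 0) → (∀ j, ‖e j‖ ≤ 1) →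
      ∀ (b : ℤ → ℂ) (R : ℝ), 0 ≤ R → (∀ j ∈ S, ‖b j‖ ≤ R) →
      ‖∑ j ∈ S, (b j * a j) • e j‖ ≤ R * Real.sqrt Q := by
    intro e ho hn b R hR hb
    have h1 := norm_sum_le_of_orth e ho hn S (fun j => b j * a j)
    have h2 : ∑ j ∈ S, ‖b j * a j‖ ^ 2 ≤ R ^ 2 * Q := by
      rw [hQ, Finset.mul_sum]
      refine Finset.sum_le_sum fun j hj => ?_
      rw [norm_mul, mul_pow]
      have := hb j hj
      gcongr
    have h3 : ‖∑ j ∈ S, (b j * a j) • e j‖ ^ 2 ≤ (R * Real.sqrt Q) ^ 2 := by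
      rw [mul_pow, Real.sq_sqrt hQ0]
      exact h1.trans h2
    exact le_of_sq_le_sq h3 (by positivity)
  have hj : ∀ j ∈ S, 2 * |(j : ℝ)| ≤ N + |(F.n₀ : ℝ)| := by
    intro j hj
    have h1 := hS j hj
    simp only [Frame.n] at h1
    push_cast at h1
    rw [abs_le] at h1
    have h2 := le_abs_self (F.n₀ : ℝ)
    have h3 := neg_abs_le (F.n₀ : ℝ)
    rcases abs_cases (j : ℝ) with ⟨e1, e2⟩ | ⟨e1, e2⟩ <;> linarith [h1.1, h1.2]
  have hα : ∀ j ∈ S, |F.α j| ≤ D * N := by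
    intro j hjS
    refine (F.bound j).trans ?_
    have h1 := hj j hjS
    have h2 : 0 ≤ |(F.n₀ : ℝ)| := abs_nonneg _
    rw [hD, mul_assoc]
    gcongr
    nlinarith
  have hα' : ∀ j ∈ S, |F.α (j - 1)| ≤ D * N := by
    intro j hjS
    refine (F.bound (j - 1)).trans ?_
    have h1 := hj j hjS
    have h2 : 0 ≤ |(F.n₀ : ℝ)| := abs_nonneg _
    have h3 : |((j - 1 : ℤ) : ℝ)| ≤ |(j : ℝ)| + 1 := by
      push_cast
      refine (abs_sub _ _).trans ?_
      rw [abs_one]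
    rw [hD, mul_assoc]
    gcongr
    nlinarith
  have shift_orth : ∀ k : ℤ, ∀ i j, i ≠ j → inner ℂ (F.e (i + k)) (F.e (j + k)) = 0 := by
    intro k i j hij
    exact F.orth _ _ (by omega)
  have shift_orth' : ∀ k : ℤ, ∀ i j, i ≠ j → inner ℂ (F.e (i - k)) (F.e (j - k)) = 0 := by
    intro k i j hij
    exact F.orth _ _ (by omega)
  have hsq : 0 ≤ Real.sqrt Q := Real.sqrt_nonneg _
  refine ⟨?_, ?_, ?_⟩
  · have e1 : M.act W (∑ j ∈ S, a j • F.e j) =
        ∑ j ∈ S, (((F.n j : ℂ) * Complex.I) * a j) • F.e j := by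
      rw [map_sum]
      refine Finset.sum_congr rfl fun j _ => ?_
      rw [map_smul, F.actW', smul_smul, mul_comm]
    rw [e1]
    refine (key F.e F.orth F.norm_e_le _ N hN0.le fun j hj => ?_).trans ?_
    · rw [norm_mul, Complex.norm_I, mul_one, Complex.norm_intCast]
      exact hS j hj
    · gcongr
      nlinarith
  · have e1 : M.act LA (∑ j ∈ S, a j • F.e j) =
        ∑ j ∈ S, ((F.α j : ℂ) * a j) • F.e (j + 1) -
        ∑ j ∈ S, ((F.α (j - 1) : ℂ) * a j) • F.e (j - 1) := by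
      rw [map_sum, ← Finset.sum_sub_distrib]
      refine Finset.sum_congr rfl fun j _ => ?_
      rw [map_smul, F.actA, smul_sub, smul_smul, smul_smul, mul_comm, mul_comm (a j)]
    rw [e1]
    refine (norm_sub_le _ _).trans ?_
    have k1 := key (fun j => F.e (j + 1)) (shift_orth 1) (fun j => F.norm_e_le _)
      (fun j => (F.α j : ℂ)) (D * N) (by positivity) (fun j hj => by
        rw [Complex.norm_real, Real.norm_eq_abs]; exact hα j hj)
    have k2 := key (fun j => F.e (j - 1)) (shift_orth' 1) (fun j => F.norm_e_le _)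
      (fun j => (F.α (j - 1) : ℂ)) (D * N) (by positivity) (fun j hj => by
        rw [Complex.norm_real, Real.norm_eq_abs]; exact hα' j hj)
    have : 0 ≤ N * Real.sqrt Q := by positivity
    nlinarith
  · have e1 : M.act LB (∑ j ∈ S, a j • F.e j) =
        ∑ j ∈ S, ((-(Complex.I * F.α j)) * a j) • F.e (j + 1) -
        ∑ j ∈ S, ((Complex.I * F.α (j - 1)) * a j) • F.e (j - 1) := by
      rw [map_sum, ← Finset.sum_sub_distrib]
      refine Finset.sum_congr rfl fun j _ => ?_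
      rw [map_smul, F.actB, smul_sub, smul_neg, smul_smul, smul_smul, neg_mul, neg_smul,
        mul_comm (a j), mul_comm (a j)]
    rw [e1]
    refine (norm_sub_le _ _).trans ?_
    have k1 := key (fun j => F.e (j + 1)) (shift_orth 1) (fun j => F.norm_e_le _)
      (fun j => -(Complex.I * F.α j)) (D * N) (by positivity) (fun j hj => by
        rw [norm_neg, norm_mul, Complex.norm_I, one_mul, Complex.norm_real, Real.norm_eq_abs]
        exact hα j hj)
    have k2 := key (fun j => F.e (j - 1)) (shift_orth' 1) (fun j => F.norm_e_le _)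
      (fun j => Complex.I * F.α (j - 1)) (D * N) (by positivity) (fun j hj => by
        rw [norm_mul, Complex.norm_I, one_mul, Complex.norm_real, Real.norm_eq_abs]
        exact hα' j hj)
    have : 0 ≤ N * Real.sqrt Q := by positivity
    nlinarith

lemma Ad_add (g : G) (X Y : Lie2) : Ad g (X + Y) = Ad g X + Ad g Y := by
  apply Subtype.ext
  simp [Ad, Matrix.mul_add, Matrix.add_mul]

lemma Ad_smul (g : G) (r : ℝ) (X : Lie2) : Ad g (r • X) = r • Ad g X := by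
  apply Subtype.ext
  simp [Ad]

lemma Ad_kk_W (θ : ℝ) : Ad (kk θ) W = W := by
  have h := Real.sin_sq_add_cos_sq θ
  apply Lie_ext
  all_goals
    simp only [Ad, ← kk_neg, Matrix.mul_apply, Fin.sum_univ_two, kk_00, kk_01, kk_10, kk_11, W,
      Real.cos_neg, Real.sin_neg]
    simp
  · ring
  · nlinarith
  · nlinarith
  · ring

lemma Ad_kk_B (θ : ℝ) :
    Ad (kk θ) LB = Real.cos (2 * θ) • LB + Real.sin (2 * θ) • LA := by
  have h := Real.sin_sq_add_cos_sq θ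
  apply Lie_ext
  all_goals
    simp only [Ad, ← kk_neg, Matrix.mul_apply, Fin.sum_univ_two, kk_00, kk_01, kk_10, kk_11, LB, LA,
      Real.cos_neg, Real.sin_neg]
    simp [Real.cos_two_mul, Real.sin_two_mul]
  · ring
  · nlinarith
  · nlinarith
  · ring

lemma Ad_cartan_W (θ t φ : ℝ) : Ad (kk θ * aa t * kk φ) W =
    Real.cosh (2 * t) • W +
      (Real.sinh (2 * t) • (Real.cos (2 * θ) • LB + Real.sin (2 * θ) • LA)) := by
  rw [Ad_mul, Ad_mul, Ad_kk_W, Ad_aa_W, Ad_add, Ad_smul, Ad_smul, Ad_kk_W, Ad_kk_B]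

lemma abs_sinh_le_cosh (x : ℝ) : |Real.sinh x| ≤ Real.cosh x := by
  rw [abs_le]
  have h1 := (Real.sinh_lt_cosh x).le
  have h2 := (Real.sinh_lt_cosh (-x)).le
  rw [Real.sinh_neg, Real.cosh_neg] at h2
  constructor <;> linarith

lemma norm_act_cartan_le (M : LieMod V) {v : V} {R : ℝ} (hW : ‖M.act W v‖ ≤ R)
    (hA : ‖M.act LA v‖ ≤ R) (hB : ‖M.act LB v‖ ≤ R) (θ φ : ℝ) {t T : ℝ} (ht : |t| ≤ T) :
    ‖M.act (Ad (kk θ * aa t * kk φ) W) v‖ ≤ 3 * Real.cosh (2 * T) * R := by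
  have hR : 0 ≤ R := (norm_nonneg _).trans hW
  have hcosh : Real.cosh (2 * t) ≤ Real.cosh (2 * T) := by
    rw [Real.cosh_le_cosh, abs_mul, abs_mul]
    have : |t| ≤ |T| := ht.trans (le_abs_self T)
    gcongr
  rw [Ad_cartan_W, M.act_add, M.act_smul, M.act_smul, M.act_add, M.act_smul, M.act_smul]
  simp only [LinearMap.add_apply, LinearMap.smul_apply]
  have h1 : ‖((Real.cosh (2 * t) : ℝ) : ℂ) • M.act W v‖ ≤ Real.cosh (2 * T) * R := by
    rw [norm_smul, Complex.norm_real, Real.norm_eq_abs, abs_of_pos (Real.cosh_pos _)]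
    gcongr
  have h2 : ‖((Real.cos (2 * θ) : ℝ) : ℂ) • M.act LB v‖ ≤ 1 * R := by
    rw [norm_smul, Complex.norm_real, Real.norm_eq_abs]
    gcongr
    exact Real.abs_cos_le_one _
  have h3 : ‖((Real.sin (2 * θ) : ℝ) : ℂ) • M.act LA v‖ ≤ 1 * R := by
    rw [norm_smul, Complex.norm_real, Real.norm_eq_abs]
    gcongr
    exact Real.abs_sin_le_one _
  have h4 : ‖((Real.sinh (2 * t) : ℝ) : ℂ) • (((Real.cos (2 * θ) : ℝ) : ℂ) • M.act LB v +
      ((Real.sin (2 * θ) : ℝ) : ℂ) • M.act LA v)‖ ≤ Real.cosh (2 * T) * (2 * R) := by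
    rw [norm_smul, Complex.norm_real, Real.norm_eq_abs]
    have : |Real.sinh (2 * t)| ≤ Real.cosh (2 * T) := (abs_sinh_le_cosh _).trans hcosh
    gcongr
    refine (norm_add_le _ _).trans ?_
    linarith
  refine (norm_add_le _ _).trans ?_
  linarith

lemma sum_inv_le (N : ℝ) (hN : 1 ≤ N) (R : ℕ) :
    ∑ n ∈ Finset.Icc (-(R : ℤ)) R, (1 + ((n : ℝ) / N) ^ 2)⁻¹ ≤
      1 + 4 * N ^ 2 * (1 / N - 1 / (N + R)) := by
  have hN0 : 0 < N := by linarith
  induction R with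
  | zero => simp
  | succ R ih =>
    have hI : Finset.Icc (-((R + 1 : ℕ) : ℤ)) ((R + 1 : ℕ) : ℤ) =
        insert ((R + 1 : ℕ) : ℤ) (insert (-((R + 1 : ℕ) : ℤ)) (Finset.Icc (-(R : ℤ)) R)) := by
      ext x; simp only [Finset.mem_Icc, Finset.mem_insert]; omega
    rw [hI, Finset.sum_insert (by simp only [Finset.mem_Icc, Finset.mem_insert]; omega),
      Finset.sum_insert (by simp only [Finset.mem_Icc]; omega)]
    have h1 : (1 + ((((R + 1 : ℕ) : ℤ) : ℝ) / N) ^ 2)⁻¹ ≤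
        2 * N ^ 2 * (1 / (N + R) - 1 / (N + (R + 1))) := by
      push_cast
      have e1 : 1 / (N + (R : ℝ)) - 1 / (N + (R + 1)) = 1 / ((N + R) * (N + (R + 1))) := by
        field_simp
        ring
      rw [e1]
      have e2 : 1 + (((R : ℝ) + 1) / N) ^ 2 = (N ^ 2 + (R + 1) ^ 2) / N ^ 2 := by
        field_simp
      rw [e2, inv_div, mul_one_div, div_le_div_iff₀ (by positivity) (by positivity)]
      have hR : (0 : ℝ) ≤ R := Nat.cast_nonneg _
      have e3 : (N + R) * (N + (R + 1)) ≤ 2 * (N ^ 2 + (R + 1) ^ 2) := by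
        nlinarith [sq_nonneg (N - (R + 1))]
      nlinarith [sq_nonneg N]
    have h2 : (1 + (((-((R + 1 : ℕ) : ℤ) : ℤ) : ℝ) / N) ^ 2)⁻¹ =
        (1 + ((((R + 1 : ℕ) : ℤ) : ℝ) / N) ^ 2)⁻¹ := by
      push_cast
      congr 2
      ring
    rw [h2]
    push_cast at h1 ih ⊢
    have e4 : 1 + 4 * N ^ 2 * (1 / N - 1 / (N + ((R : ℝ) + 1))) =
      1 + 4 * N ^ 2 * (1 / N - 1 / (N + R)) +
        2 * (2 * N ^ 2 * (1 / (N + R) - 1 / (N + (R + 1)))) := by ring
    rw [e4]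
    linarith

lemma sum_inv_le' (F : Frame M) (N : ℝ) (hN : 1 ≤ N) (S : Finset ℤ) :
    ∑ j ∈ S, (1 + ((F.n j : ℝ) / N) ^ 2)⁻¹ ≤ 5 * N := by
  classical
  have hN0 : 0 < N := by linarith
  have hinj : Function.Injective F.n := by
    intro i j hij
    simp only [Frame.n] at hij
    omega
  have h1 : ∑ j ∈ S, (1 + ((F.n j : ℝ) / N) ^ 2)⁻¹ =
      ∑ n ∈ S.image F.n, (1 + ((n : ℝ) / N) ^ 2)⁻¹ := by
    rw [Finset.sum_image (fun i _ j _ hij => hinj hij)]
  set R : ℕ := ∑ j ∈ S, (F.n j).natAbs with hR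
  have h2 : S.image F.n ⊆ Finset.Icc (-(R : ℤ)) R := by
    intro x hx
    rw [Finset.mem_image] at hx
    obtain ⟨j, hj, rfl⟩ := hx
    have : (F.n j).natAbs ≤ R := by
      rw [hR]
      exact Finset.single_le_sum (f := fun j => (F.n j).natAbs) (fun _ _ => Nat.zero_le _) hj
    rw [Finset.mem_Icc]
    omega
  rw [h1]
  refine (Finset.sum_le_sum_of_subset_of_nonneg h2 fun n _ _ => by positivity).trans ?_
  refine (sum_inv_le N hN R).trans ?_
  have h3 : 0 ≤ 1 / (N + (R : ℝ)) := by positivity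
  have h4 : 4 * N ^ 2 * (1 / N - 1 / (N + R)) ≤ 4 * N ^ 2 * (1 / N) := by
    gcongr
    linarith
  have h5 : 4 * N ^ 2 * (1 / N) = 4 * N := by field_simp
  linarith

end AutNorm
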