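import Pool.Agent.Helper57.AN.BR

/-! The bound `∑_{|n_j| ≤ N} |φ_j(g)|² ≤ C N`. -/

open Filter Topology ComplexConjugate MeasureTheory

universe u v

namespace AutNorm

variable {V : Type u} [NormedAddCommGroup V] [InnerProductSpace ℂ V]
variable {M : LieMod V} {mc : V → V →ₗ[ℂ] (G → ℂ)}

lemma cs_weight (S : Finset ℤ) (w : ℤ → ℝ) (hw : ∀ j, 0 < w j) (x y : ℤ → ℂ) :
    ‖∑ j ∈ S, x j * y j‖ ^ 2 ≤ (∑ j ∈ S, w j * ‖x j‖ ^ 2) * ∑ j ∈ S, (w j)⁻¹ * ‖y j‖ ^ 2 := by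
  have h1 : ‖∑ j ∈ S, x j * y j‖ ≤ ∑ j ∈ S, (Real.sqrt (w j) * ‖x j‖) *
      ((Real.sqrt (w j))⁻¹ * ‖y j‖) := by
    refine (norm_sum_le _ _).trans (le_of_eq (Finset.sum_congr rfl fun j _ => ?_))
    have : Real.sqrt (w j) ≠ 0 := (Real.sqrt_pos.mpr (hw j)).ne'
    rw [norm_mul]
    field_simp
  have h2 := Finset.sum_mul_sq_le_sq_mul_sq S (fun j => Real.sqrt (w j) * ‖x j‖)
    (fun j => (Real.sqrt (w j))⁻¹ * ‖y j‖)
  have h3 : ∑ j ∈ S, (Real.sqrt (w j) * ‖x j‖) ^ 2 = ∑ j ∈ S, w j * ‖x j‖ ^ 2 := by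
    refine Finset.sum_congr rfl fun j _ => ?_
    rw [mul_pow, Real.sq_sqrt (hw j).le]
  have h4 : ∑ j ∈ S, ((Real.sqrt (w j))⁻¹ * ‖y j‖) ^ 2 = ∑ j ∈ S, (w j)⁻¹ * ‖y j‖ ^ 2 := by
    refine Finset.sum_congr rfl fun j _ => ?_
    rw [mul_pow, inv_pow, Real.sq_sqrt (hw j).le]
  rw [h3, h4] at h2
  refine le_trans ?_ h2
  gcongr

theorem BR (F : Frame M) (h : USys M mc) {φ : V →ₗ[ℂ] (G → ℂ)} (hφ : OF M φ) {B : ℝ}
    (hB : ∀ g, ‖φ (F.e 0) g‖ ≤ B) [MeasurableSpace G] [BorelSpace G] (μ : Measure G)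
    [IsFiniteMeasureOnCompacts μ] {U : Set G} (hU : IsCompact U) (hμU : 0 < μ U)
    {CU : ℝ} (hCU : 0 ≤ CU)
    (hint : ∀ w g, ∫ u in U, ‖φ w (g * u)‖ ^ 2 ∂μ ≤ CU * ‖w‖ ^ 2) :
    ∃ C : ℝ, 0 ≤ C ∧ ∀ N : ℝ, 1 ≤ N → ∀ g, ∀ S : Finset ℤ, (∀ j ∈ S, |(F.n j : ℝ)| ≤ N) →
      ∑ j ∈ S, ‖φ (F.e j) g‖ ^ 2 ≤ C * N := by
  obtain ⟨T, hT, hcart⟩ := cartan_bdd hU
  obtain ⟨K', hK', hact⟩ := F.norm_act_le
  have hB0 : 0 ≤ B := (norm_nonneg _).trans (hB 1)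
  set m : ℝ := (μ U).toReal with hm
  have hm0 : 0 < m := ENNReal.toReal_pos hμU.ne' hU.measure_lt_top.ne
  set C₁ : ℝ := 1 + (3 * Real.cosh (2 * T) * K') ^ 2 with hC₁
  have hC₁0 : 0 ≤ C₁ := by positivity
  refine ⟨C₁ * CU * 5 / m, by positivity, fun N hN g₀ S hS => ?_⟩
  have hN0 : 0 < N := by linarith
  set a : ℤ → ℂ := fun j => conj (φ (F.e j) g₀) with ha
  set v₀ : V := ∑ j ∈ S, a j • F.e j with hv₀
  set Sg : ℝ := ∑ j ∈ S, ‖φ (F.e j) g₀‖ ^ 2 with hSg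
  have hSg0 : 0 ≤ Sg := Finset.sum_nonneg fun _ _ => by positivity
  have hna : ∑ j ∈ S, ‖a j‖ ^ 2 = Sg := by
    simp only [ha, RCLike.norm_conj, hSg]
  have hv1 : ‖v₀‖ ^ 2 ≤ Sg := by
    rw [← hna]
    exact norm_sum_le_of_orth F.e F.orth F.norm_e_le S a
  have hφv : φ v₀ g₀ = (Sg : ℂ) := by
    rw [hv₀, map_sum, Finset.sum_apply, hSg]
    push_cast
    refine Finset.sum_congr rfl fun j _ => ?_
    rw [map_smul, Pi.smul_apply, smul_eq_mul]
    simp only [ha]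
    rw [Complex.conj_mul']
  -- expansion
  choose CE hCE K₀ hK₀ hE using fun i => expG F h i T
  set E : ℝ := ∑ i ∈ S, ‖a i‖ * (CE i * B) with hEdef
  have hE0 : 0 ≤ E := Finset.sum_nonneg fun i _ => by
    have := hCE i
    positivity
  set KS : ℕ := ∑ i ∈ S, K₀ i + 1 with hKS
  set q : ℕ → G → ℝ := fun K u => ∑ j ∈ Finset.Ioc (-(K : ℤ)) K,
    (1 + ((F.n j : ℝ) / N) ^ 2)⁻¹ * ‖φ (F.e j) (g₀ * u)‖ ^ 2 with hq
  have hq0 : ∀ K u, 0 ≤ q K u := fun K u => Finset.sum_nonneg fun _ _ => by positivity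
  have key : ∀ K : ℕ, KS ≤ K → ∀ u ∈ U, Sg ≤ Real.sqrt (C₁ * Sg * q K u) + E / K := by
    intro K hK u hu
    obtain ⟨θ, t, ψ, ht0, htT, hu'⟩ := hcart u hu
    have hui : u⁻¹ = kk (-ψ) * aa (-t) * kk (-θ) := by
      rw [hu', mul_inv_rev, mul_inv_rev, ← kk_neg, ← kk_neg, ← aa_neg]
      simp only [mul_assoc]
    have htT' : |t| ≤ T := by rw [abs_of_nonneg ht0]; exact htT
    -- main expansion
    have h1 : ‖φ v₀ g₀ - ∑ j ∈ Finset.Ioc (-(K : ℤ)) K,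
        mc (F.e j) v₀ u⁻¹ * φ (F.e j) (g₀ * u)‖ ≤ E / K := by
      have e1 : φ v₀ g₀ - ∑ j ∈ Finset.Ioc (-(K : ℤ)) K,
          mc (F.e j) v₀ u⁻¹ * φ (F.e j) (g₀ * u) = ∑ i ∈ S, a i * (φ (F.e i) (g₀ * u * u⁻¹) -
          ∑ j ∈ Finset.Ioc (-(K : ℤ)) K, mc (F.e j) (F.e i) u⁻¹ * φ (F.e j) (g₀ * u)) := by
        simp only [mul_sub, Finset.sum_sub_distrib]
        congr 1
        · rw [hv₀, map_sum, Finset.sum_apply]
          refine Finset.sum_congr rfl fun i _ => ?_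
          rw [map_smul, Pi.smul_apply, smul_eq_mul, mul_inv_cancel_right]
        · simp only [Finset.mul_sum]
          rw [Finset.sum_comm]
          refine Finset.sum_congr rfl fun j _ => ?_
          rw [hv₀, map_sum, Finset.sum_apply, Finset.sum_mul]
          refine Finset.sum_congr rfl fun i _ => ?_
          rw [map_smul, Pi.smul_apply, smul_eq_mul, mul_assoc]
      rw [e1]
      refine (norm_sum_le _ _).trans ?_
      rw [hEdef, Finset.sum_div]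
      refine Finset.sum_le_sum fun i hi => ?_
      rw [norm_mul, mul_div_assoc]
      gcongr
      have hKi : K₀ i ≤ K := by
        have : K₀ i ≤ ∑ i ∈ S, K₀ i :=
          Finset.single_le_sum (f := K₀) (fun _ _ => Nat.zero_le _) hi
        omega
      have := hE i K hKi φ hφ B hB (g₀ * u) (-ψ) (-t) (-θ) (by rw [abs_neg]; exact htT')
      rw [← hui] at this
      exact this
    -- Cauchy-Schwarz
    have h2 : ‖∑ j ∈ Finset.Ioc (-(K : ℤ)) K, mc (F.e j) v₀ u⁻¹ * φ (F.e j) (g₀ * u)‖ ^ 2 ≤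
        C₁ * Sg * q K u := by
      refine (cs_weight (Finset.Ioc (-(K : ℤ)) K) (fun j => 1 + ((F.n j : ℝ) / N) ^ 2)
        (fun j => by positivity) (fun j => mc (F.e j) v₀ u⁻¹)
        (fun j => φ (F.e j) (g₀ * u))).trans ?_
      simp only [hq]
      have hq0' := hq0 K u
      simp only [hq] at hq0'
      refine mul_le_mul_of_nonneg_right ?_ hq0'
      have b1 := h.bessel F.e F.orth F.norm_e (Finset.Ioc (-(K : ℤ)) K) v₀ u⁻¹
      have b2 := h.bessel F.e F.orth F.norm_e (Finset.Ioc (-(K : ℤ)) K) (M.act (Ad u W) v₀) u⁻¹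
      have b3 : ∀ j, mc (F.e j) (M.act (Ad u W) v₀) u⁻¹ =
          ((F.n j : ℂ) * Complex.I) * mc (F.e j) v₀ u⁻¹ := by
        intro j
        have := h.weight F j v₀ u⁻¹
        rwa [inv_inv] at this
      simp only [b3, norm_mul, Complex.norm_I, mul_one, Complex.norm_intCast] at b2
      have hR := hact N hN S hS a
      rw [← hv₀, hna] at hR
      have b4 : ‖M.act (Ad u W) v₀‖ ≤ 3 * Real.cosh (2 * T) * (K' * N * Real.sqrt Sg) := by
        rw [hu']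
        exact norm_act_cartan_le M hR.1 hR.2.1 hR.2.2 θ ψ htT'
      have b5 : ‖M.act (Ad u W) v₀‖ ^ 2 ≤ (3 * Real.cosh (2 * T) * K') ^ 2 * Sg * N ^ 2 := by
        have : ‖M.act (Ad u W) v₀‖ ^ 2 ≤
            (3 * Real.cosh (2 * T) * (K' * N * Real.sqrt Sg)) ^ 2 := by gcongr
        refine this.trans (le_of_eq ?_)
        have hs := Real.sq_sqrt hSg0
        calc (3 * Real.cosh (2 * T) * (K' * N * Real.sqrt Sg)) ^ 2 =
          (3 * Real.cosh (2 * T) * K') ^ 2 * (Real.sqrt Sg ^ 2) * N ^ 2 := by ring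
          _ = _ := by rw [hs]
      have b6 : ∑ j ∈ Finset.Ioc (-(K : ℤ)) K, (1 + ((F.n j : ℝ) / N) ^ 2) *
          ‖mc (F.e j) v₀ u⁻¹‖ ^ 2 = ∑ j ∈ Finset.Ioc (-(K : ℤ)) K, ‖mc (F.e j) v₀ u⁻¹‖ ^ 2 +
          (N ^ 2)⁻¹ * ∑ j ∈ Finset.Ioc (-(K : ℤ)) K, (|(F.n j : ℝ)| *
            ‖mc (F.e j) v₀ u⁻¹‖) ^ 2 := by
        rw [Finset.mul_sum, ← Finset.sum_add_distrib]
        refine Finset.sum_congr rfl fun j _ => ?_
        rw [mul_pow, sq_abs]
        field_simp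
      rw [b6]
      have b7 : (N ^ 2)⁻¹ * ∑ j ∈ Finset.Ioc (-(K : ℤ)) K, (|(F.n j : ℝ)| *
            ‖mc (F.e j) v₀ u⁻¹‖) ^ 2 ≤ (3 * Real.cosh (2 * T) * K') ^ 2 * Sg := by
        rw [inv_mul_le_iff₀ (by positivity)]
        linarith
      rw [hC₁, add_mul, one_mul]
      exact add_le_add (b1.trans hv1) b7
    have h3 : ‖∑ j ∈ Finset.Ioc (-(K : ℤ)) K, mc (F.e j) v₀ u⁻¹ * φ (F.e j) (g₀ * u)‖ ≤
        Real.sqrt (C₁ * Sg * q K u) := Real.le_sqrt_of_sq_le h2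
    have h4 : ‖φ v₀ g₀‖ = Sg := by
      rw [hφv, Complex.norm_real, Real.norm_eq_abs, abs_of_nonneg hSg0]
    rw [← h4]
    have h5 := norm_sub_norm_le (φ v₀ g₀)
      (∑ j ∈ Finset.Ioc (-(K : ℤ)) K, mc (F.e j) v₀ u⁻¹ * φ (F.e j) (g₀ * u))
    rw [h4] at h5 ⊢
    linarith
  -- integrate
  have hcq : ∀ j, Continuous (fun u : G => (1 + ((F.n j : ℝ) / N) ^ 2)⁻¹ *
      ‖φ (F.e j) (g₀ * u)‖ ^ 2) := by
    intro j
    exact continuous_const.mul
      (((hφ.cont _).comp (continuous_const.mul continuous_id)).norm.pow 2)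
  have hqi : ∀ K, ∫ u in U, q K u ∂μ ≤ CU * (5 * N) := by
    intro K
    simp only [hq]
    rw [integral_finset_sum _ fun j _ => (hcq j).continuousOn.integrableOn_compact hU]
    have : ∀ j, ∫ u in U, (1 + ((F.n j : ℝ) / N) ^ 2)⁻¹ * ‖φ (F.e j) (g₀ * u)‖ ^ 2 ∂μ ≤
        (1 + ((F.n j : ℝ) / N) ^ 2)⁻¹ * CU := by
      intro j
      rw [integral_const_mul]
      gcongr
      refine (hint (F.e j) g₀).trans ?_
      have h1 := F.norm_e_le j
      have h2 : ‖F.e j‖ ^ 2 ≤ 1 := by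
        have := norm_nonneg (F.e j)
        nlinarith
      nlinarith
    refine (Finset.sum_le_sum fun j _ => this j).trans ?_
    rw [← Finset.sum_mul, mul_comm]
    gcongr
    exact sum_inv_le' F N hN _
  have hfin : ∀ K : ℕ, KS ≤ K → E / K ≤ Sg → (Sg - E / K) ^ 2 * m ≤ C₁ * Sg * (CU * (5 * N)) := by
    intro K hK hEK
    have h1 : ∀ u ∈ U, (Sg - E / K) ^ 2 ≤ C₁ * Sg * q K u := by
      intro u hu
      have h2 := key K hK u hu
      have h3 : 0 ≤ C₁ * Sg * q K u := by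
        have := hq0 K u
        positivity
      have h4 : Sg - E / K ≤ Real.sqrt (C₁ * Sg * q K u) := by linarith
      have h5 : 0 ≤ Sg - E / K := by linarith
      calc (Sg - E / K) ^ 2 ≤ Real.sqrt (C₁ * Sg * q K u) ^ 2 := by gcongr
        _ = _ := Real.sq_sqrt h3
    have hcont : Continuous (fun u => C₁ * Sg * q K u) := by
      simp only [hq]
      exact continuous_const.mul (continuous_finset_sum _ fun j _ => hcq j)
    have h6 : ∫ _ in U, (Sg - E / K) ^ 2 ∂μ ≤ ∫ u in U, C₁ * Sg * q K u ∂μ :=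
      setIntegral_mono_on (integrableOn_const hU.measure_lt_top.ne)
        (hcont.continuousOn.integrableOn_compact hU) hU.isClosed.measurableSet h1
    rw [setIntegral_const, integral_const_mul, smul_eq_mul] at h6
    have h7 : μ.real U = m := rfl
    rw [h7, mul_comm] at h6
    refine h6.trans ?_
    have := hqi K
    gcongr
  have hlim : Tendsto (fun K : ℕ => (Sg - E / K) ^ 2 * m) atTop (𝓝 ((Sg - 0) ^ 2 * m)) := by
    have h1 : Tendsto (fun K : ℕ => E / (K : ℝ)) atTop (𝓝 0) :=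
      tendsto_const_div_atTop_nhds_zero_nat E
    exact ((tendsto_const_nhds.sub h1).pow 2).mul_const _
  have hgoal : Sg ^ 2 * m ≤ C₁ * Sg * (CU * (5 * N)) := by
    rcases hSg0.eq_or_lt with h0 | h0
    · rw [← h0]; simp
    · have h1 : Tendsto (fun K : ℕ => E / (K : ℝ)) atTop (𝓝 0) :=
        tendsto_const_div_atTop_nhds_zero_nat E
      have h2 : ∀ᶠ K : ℕ in atTop, E / (K : ℝ) ≤ Sg := (h1.eventually (gt_mem_nhds h0)).mono
        fun K hK => hK.le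
      have h3 := le_of_tendsto hlim ((h2.and (eventually_ge_atTop KS)).mono fun K hK =>
        hfin K hK.2 hK.1)
      rwa [sub_zero] at h3
  rcases hSg0.eq_or_lt with h0 | h0
  · rw [← h0]; positivity
  · rw [div_mul_eq_mul_div, le_div_iff₀ hm0]
    have h1 : Sg * (Sg * m) ≤ Sg * (C₁ * CU * 5 * N) := by nlinarith
    exact le_of_mul_le_mul_left h1 h0

end AutNorm
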