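import Pool.Agent.Helper57.AN.Inst

/-! The `K`-Fourier coefficients of `θ ↦ Φ(e_i)(g k_θ a_t)` are `c_{iJ}(t) Φ(e_J)(g)`. -/

open Filter Topology ComplexConjugate MeasureTheory

universe u v

namespace AutNorm

/-- differentiation under the integral sign, continuous case -/
lemma hasDerivAt_param {f f' : ℝ → ℝ → ℂ} (hf : Continuous (Function.uncurry f))
    (hf' : Continuous (Function.uncurry f'))
    (hd : ∀ x θ, HasDerivAt (fun x => f x θ) (f' x θ) x) (a b t : ℝ) :
    HasDerivAt (fun x => ∫ θ in a..b, f x θ) (∫ θ in a..b, f' t θ) t := by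
  obtain ⟨C, hC⟩ := (isCompact_Icc (a := t - 1) (b := t + 1)).prod (isCompact_uIcc (a := a) (b := b))
    |>.exists_bound_of_continuousOn hf'.continuousOn
  have h1 : Set.Ioo (t - 1) (t + 1) ∈ 𝓝 t := Ioo_mem_nhds (by linarith) (by linarith)
  refine (intervalIntegral.hasDerivAt_integral_of_dominated_loc_of_deriv_le (bound := fun _ => C)
    h1 ?_ ?_ ?_ ?_ ?_ ?_).2
  · exact Eventually.of_forall fun x =>
      (hf.comp (continuous_const.prodMk continuous_id)).aestronglyMeasurable
  · exact (hf.comp (continuous_const.prodMk continuous_id)).intervalIntegrable _ _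
  · exact (hf'.comp (continuous_const.prodMk continuous_id)).aestronglyMeasurable
  · refine Eventually.of_forall fun θ hθ x hx => ?_
    exact hC (x, θ) ⟨⟨hx.1.le, hx.2.le⟩, Set.uIoc_subset_uIcc hθ⟩
  · exact intervalIntegrable_const
  · exact Eventually.of_forall fun θ _ x _ => hd x θ

/-- uniqueness for the pair `(J, J+1)` and propagation -/
lemma uniq {n₀ : ℤ} {α : ℤ → ℝ} {y : ℤ → ℝ → ℂ} {J : ℤ}
    (hd : ∀ i t, HasDerivAt (y i) (α i * y (i + 1) t - α (i - 1) * y (i - 1) t) t)
    (hr : ∀ i t, (((n₀ + 2 * J : ℤ) : ℂ) - ((n₀ + 2 * i : ℤ) : ℂ) * Real.cosh (2 * t)) * y i t =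
      Real.sinh (2 * t) * (α i * y (i + 1) t + α (i - 1) * y (i - 1) t))
    (h0 : ∀ i, y i 0 = 0)
    (hup : ∀ i, J ≤ i → α i = 0 → ∀ t, y (i + 1) t = 0)
    (hdown : ∀ i, i ≤ J → α (i - 1) = 0 → ∀ t, y (i - 1) t = 0) :
    ∀ i t, 0 ≤ t → y i t = 0 := by
  set N : ℝ := ((n₀ + 2 * J : ℤ) : ℝ) with hN
  -- energy of the pair
  have hq : ∀ i t, HasDerivAt (fun t => ‖y i t‖ ^ 2)
      (2 * (conj (y i t) * (α i * y (i + 1) t - α (i - 1) * y (i - 1) t)).re) t := by
    intro i t
    have h1 := (hd i t).norm_sq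
    refine h1.congr_deriv ?_
    rw [Complex.inner, mul_comm (conj (y i t))]
  have hrel : ∀ i t, (N - ((n₀ + 2 * i : ℤ) : ℝ) * Real.cosh (2 * t)) * ‖y i t‖ ^ 2 =
      Real.sinh (2 * t) * (α i * (conj (y i t) * y (i + 1) t).re +
        α (i - 1) * (conj (y i t) * y (i - 1) t).re) := by
    intro i t
    have h1 := hr i t
    have h2 : ((((n₀ + 2 * J : ℤ) : ℂ) - ((n₀ + 2 * i : ℤ) : ℂ) * Real.cosh (2 * t)) *
        (conj (y i t) * y i t)).re =
      (Real.sinh (2 * t) * (α i * (conj (y i t) * y (i + 1) t) +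
        α (i - 1) * (conj (y i t) * y (i - 1) t))).re := by
      congr 1
      linear_combination (conj (y i t)) * h1
    have h3 : ((((n₀ + 2 * J : ℤ) : ℂ) - ((n₀ + 2 * i : ℤ) : ℂ) * Real.cosh (2 * t)) *
        (conj (y i t) * y i t)).re =
        (N - ((n₀ + 2 * i : ℤ) : ℝ) * Real.cosh (2 * t)) * ‖y i t‖ ^ 2 := by
      rw [mul_comm (conj (y i t)), Complex.mul_conj, Complex.normSq_eq_norm_sq]
      rw [← Complex.ofReal_intCast, ← Complex.ofReal_intCast, ← Complex.ofReal_mul,
        ← Complex.ofReal_sub, ← Complex.ofReal_mul, Complex.ofReal_re]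
    rw [h3] at h2
    rw [h2]
    simp only [mul_add, Complex.add_re, Complex.mul_re,
      Complex.ofReal_re, Complex.ofReal_im, zero_mul, sub_zero]
  have hcross : ∀ t, (conj (y (J + 1) t) * y J t).re = (conj (y J t) * y (J + 1) t).re := by
    intro t
    simp only [Complex.mul_re, Complex.conj_re, Complex.conj_im]
    ring
  have hE : ∀ t, 0 < t → ∃ D, HasDerivAt (fun t => ‖y J t‖ ^ 2 + ‖y (J + 1) t‖ ^ 2) D t ∧
      D ≤ 2 * |N| * (‖y J t‖ ^ 2 + ‖y (J + 1) t‖ ^ 2) := by
    intro t ht
    refine ⟨_, (hq J t).add (hq (J + 1) t), ?_⟩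
    have hs : 0 < Real.sinh (2 * t) := Real.sinh_pos_iff.mpr (by linarith)
    have r1 := hrel J t
    have r2 := hrel (J + 1) t
    simp only [add_sub_cancel_right] at r2 ⊢
    rw [hcross] at r2
    set X := (conj (y J t) * y (J + 1) t).re with hX
    set Y := (conj (y J t) * y (J - 1) t).re with hY
    set Z := (conj (y (J + 1) t) * y (J + 1 + 1) t).re with hZ
    set a := ‖y J t‖ ^ 2 with ha
    set b := ‖y (J + 1) t‖ ^ 2 with hb
    have ha0 : 0 ≤ a := by positivity
    have hb0 : 0 ≤ b := by positivity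
    have e1 : (conj (y J t) * (α J * y (J + 1) t - α (J - 1) * y (J - 1) t)).re =
        α J * X - α (J - 1) * Y := by
      rw [hX, hY]
      simp only [mul_sub, Complex.sub_re, Complex.mul_re, Complex.mul_im,
        Complex.ofReal_re, Complex.ofReal_im, Complex.conj_re, Complex.conj_im]
      ring
    have e2 : (conj (y (J + 1) t) * (α (J + 1) * y (J + 1 + 1) t - α J * y J t)).re =
        α (J + 1) * Z - α J * X := by
      rw [hZ, hX, ← hcross]
      simp only [mul_sub, Complex.sub_re, Complex.mul_re, Complex.mul_im,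
        Complex.ofReal_re, Complex.ofReal_im, Complex.conj_re, Complex.conj_im]
      ring
    rw [e1, e2]
    have hch1 : 1 ≤ Real.cosh (2 * t) := Real.one_le_cosh _
    have hch2 : Real.cosh (2 * t) - 1 ≤ Real.sinh (2 * t) := by
      have h5 := Real.cosh_sub_sinh (2 * t)
      have h6 : Real.exp (-(2 * t)) ≤ 1 := Real.exp_le_one_iff.mpr (by linarith)
      linarith
    have hNJ : ((n₀ + 2 * (J + 1) : ℤ) : ℝ) = N + 2 := by rw [hN]; push_cast; ring
    rw [← hN] at r1
    rw [hNJ] at r2
    -- sinh * D = ...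
    have key : Real.sinh (2 * t) * (2 * (α J * X - α (J - 1) * Y) + 2 * (α (J + 1) * Z - α J * X)) =
        -2 * (N - N * Real.cosh (2 * t)) * a + 2 * (N - (N + 2) * Real.cosh (2 * t)) * b := by
      linear_combination 2 * r1 - 2 * r2
    have hle : Real.sinh (2 * t) * (2 * (α J * X - α (J - 1) * Y) + 2 * (α (J + 1) * Z - α J * X)) ≤
        Real.sinh (2 * t) * (2 * |N| * (a + b)) := by
      rw [key]
      have h7 : N * (Real.cosh (2 * t) - 1) ≤ |N| * Real.sinh (2 * t) := by
        calc N * (Real.cosh (2 * t) - 1) ≤ |N| * (Real.cosh (2 * t) - 1) := by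
              have := le_abs_self N
              have h8 : 0 ≤ Real.cosh (2 * t) - 1 := by linarith
              gcongr
          _ ≤ _ := by gcongr
      have h9 : -(N * (Real.cosh (2 * t) - 1)) ≤ |N| * Real.sinh (2 * t) := by
        calc -(N * (Real.cosh (2 * t) - 1)) = (-N) * (Real.cosh (2 * t) - 1) := by ring
          _ ≤ |N| * (Real.cosh (2 * t) - 1) := by
              have := neg_le_abs N
              have h8 : 0 ≤ Real.cosh (2 * t) - 1 := by linarith
              gcongr
          _ ≤ _ := by gcongr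
      nlinarith
    exact le_of_mul_le_mul_left hle hs
  have hcont : ∀ i, Continuous (y i) := fun i =>
    continuous_iff_continuousAt.mpr fun t => (hd i t).continuousAt
  have hbase : ∀ t, 0 ≤ t → ‖y J t‖ ^ 2 + ‖y (J + 1) t‖ ^ 2 = 0 := by
    have hanti : AntitoneOn (fun t => Real.exp (-(2 * |N| * t)) *
        (‖y J t‖ ^ 2 + ‖y (J + 1) t‖ ^ 2)) (Set.Ici 0) := by
      have hder : ∀ t, 0 < t → ∃ D, HasDerivAt (fun t => Real.exp (-(2 * |N| * t)) *
        (‖y J t‖ ^ 2 + ‖y (J + 1) t‖ ^ 2)) D t ∧ D ≤ 0 := by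
        intro t ht
        obtain ⟨D, hD, hD2⟩ := hE t ht
        have h1 : HasDerivAt (fun t => Real.exp (-(2 * |N| * t)))
            (Real.exp (-(2 * |N| * t)) * (-(2 * |N|))) t := by
          have : HasDerivAt (fun t : ℝ => -(2 * |N| * t)) (-(2 * |N|)) t := by
            simpa using ((hasDerivAt_id t).const_mul (2 * |N|)).fun_neg
          exact this.exp
        refine ⟨_, h1.mul hD, ?_⟩
        have := Real.exp_pos (-(2 * |N| * t))
        nlinarith
      refine antitoneOn_of_deriv_nonpos (convex_Ici 0) ?_ ?_ ?_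
      · have h1 := hcont J
        have h2 := hcont (J + 1)
        exact (Continuous.mul (by fun_prop) ((h1.norm.pow 2).add (h2.norm.pow 2))).continuousOn
      · intro t ht
        rw [interior_Ici] at ht
        obtain ⟨D, hD, _⟩ := hder t ht
        exact hD.differentiableAt.differentiableWithinAt
      · intro t ht
        rw [interior_Ici] at ht
        obtain ⟨D, hD, hD2⟩ := hder t ht
        rw [hD.deriv]; exact hD2
    intro t ht
    have h1 := hanti (Set.mem_Ici.mpr le_rfl) (Set.mem_Ici.mpr ht) ht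
    simp only [h0, norm_zero, ne_eq, OfNat.ofNat_ne_zero, not_false_eq_true, zero_pow, add_zero,
      mul_zero] at h1
    have h2 := Real.exp_pos (-(2 * |N| * t))
    have h3 : 0 ≤ ‖y J t‖ ^ 2 + ‖y (J + 1) t‖ ^ 2 := by positivity
    by_contra hne
    have h4 : 0 < ‖y J t‖ ^ 2 + ‖y (J + 1) t‖ ^ 2 := lt_of_le_of_ne h3 (Ne.symm hne)
    have := mul_pos h2 h4
    linarith
  have hJ : ∀ t, 0 ≤ t → y J t = 0 := by
    intro t ht
    have h1 := hbase t ht
    have h2 : 0 ≤ ‖y (J + 1) t‖ ^ 2 := by positivity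
    have h3 : 0 ≤ ‖y J t‖ ^ 2 := by positivity
    have h4 : ‖y J t‖ ^ 2 = 0 := by linarith
    simpa using h4
  -- algebraic step
  have hstep : ∀ i, (∀ t, 0 ≤ t → y i t = 0) → ∀ t, 0 < t →
      (α i : ℂ) * y (i + 1) t = 0 ∧ (α (i - 1) : ℂ) * y (i - 1) t = 0 := by
    intro i hi t ht
    have h1 : (α i : ℂ) * y (i + 1) t - α (i - 1) * y (i - 1) t = 0 := by
      have hc : HasDerivAt (y i) 0 t := by
        refine (hasDerivAt_const t (0 : ℂ)).congr_of_eventuallyEq ?_
        filter_upwards [Ioi_mem_nhds ht] with s hs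
        exact hi s (le_of_lt hs)
      exact (hd i t).unique hc
    have h2 := hr i t
    rw [hi t ht.le, mul_zero] at h2
    have hs : (Real.sinh (2 * t) : ℂ) ≠ 0 := by
      have : 0 < Real.sinh (2 * t) := Real.sinh_pos_iff.mpr (by linarith)
      exact_mod_cast this.ne'
    have h3 : (α i : ℂ) * y (i + 1) t + α (i - 1) * y (i - 1) t = 0 := by
      rcases mul_eq_zero.mp h2.symm with h | h
      · exact absurd h hs
      · exact h
    constructor
    · linear_combination (h1 + h3) / 2
    · linear_combination (h3 - h1) / 2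
  have hupw : ∀ i, J ≤ i → ∀ t, 0 ≤ t → y i t = 0 := by
    intro i hi
    induction i, hi using Int.le_induction with
    | base => exact hJ
    | succ i hi ih =>
      intro t ht
      by_cases hα : α i = 0
      · exact hup i hi hα t
      · rcases ht.eq_or_lt with h | h
        · rw [← h]; exact h0 _
        · have := (hstep i ih t h).1
          rcases mul_eq_zero.mp this with h' | h'
          · exact absurd (by exact_mod_cast h') hα
          · exact h'
  have hdnw : ∀ i, i ≤ J → ∀ t, 0 ≤ t → y i t = 0 := by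
    intro i hi
    induction i, hi using Int.le_induction_down with
    | base => exact hJ
    | pred i hi ih =>
      intro t ht
      by_cases hα : α (i - 1) = 0
      · exact hdown i hi hα t
      · rcases ht.eq_or_lt with h | h
        · rw [← h]; exact h0 _
        · have := (hstep i ih t h).2
          rcases mul_eq_zero.mp this with h' | h'
          · exact absurd (by exact_mod_cast h') hα
          · exact h'
  intro i
  rcases le_total J i with h | h
  · exact hupw i h
  · exact hdnw i h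

end AutNorm
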