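import Pool.Agent.Helper57.AN.CL

/-! The `K`-Fourier coefficients of `θ ↦ Φ(e_i)(g k_θ a_t)` are `c_{iJ}(t) Φ(e_J)(g)`. -/

open Filter Topology ComplexConjugate MeasureTheory

universe u v

namespace AutNorm

lemma continuous_kk : Continuous kk := by
  refine continuous_induced_rng.mpr (continuous_matrix fun i j => ?_)
  fin_cases i <;> fin_cases j
  · exact Real.continuous_cos
  · exact Real.continuous_sin
  · exact Real.continuous_sin.neg
  · exact Real.continuous_cos

lemma continuous_aa : Continuous aa := by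
  refine continuous_induced_rng.mpr (continuous_matrix fun i j => ?_)
  fin_cases i <;> fin_cases j
  · exact Real.continuous_exp
  · exact continuous_const
  · exact continuous_const
  · exact Real.continuous_exp.comp continuous_neg

section

variable {V : Type u} [AddCommGroup V] [Module ℂ V] {M : LieMod V} {Φ : V →ₗ[ℂ] (G → ℂ)}

/-- `K`-Fourier coefficient (times `2π`) -/
noncomputable def Fc (Φ : V →ₗ[ℂ] (G → ℂ)) (n : ℤ) (g : G) (v : V) (t : ℝ) : ℂ :=
  ∫ θ in (0 : ℝ)..(2 * Real.pi), Complex.exp (-(n * θ * Complex.I)) * Φ v (g * kk θ * aa t)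

lemma OF.cont2 (hΦ : OF M Φ) (n : ℤ) (g : G) (v : V) :
    Continuous (Function.uncurry fun (t θ : ℝ) =>
      Complex.exp (-(n * θ * Complex.I)) * Φ v (g * kk θ * aa t)) := by
  have h1 : Continuous fun p : ℝ × ℝ => g * kk p.2 * aa p.1 :=
    (continuous_const.mul (continuous_kk.comp continuous_snd)).mul
      (continuous_aa.comp continuous_fst)
  have h2 : Continuous fun p : ℝ × ℝ => Complex.exp (-(n * (p.2 : ℂ) * Complex.I)) := by
    fun_prop
  exact h2.mul ((hΦ.cont v).comp h1)

lemma OF.intble (hΦ : OF M Φ) (n : ℤ) (g : G) (v : V) (t a b : ℝ) :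
    IntervalIntegrable (fun θ : ℝ => Complex.exp (-(n * θ * Complex.I)) * Φ v (g * kk θ * aa t))
      volume a b :=
  ((hΦ.cont2 n g v).comp (continuous_const.prodMk continuous_id)).intervalIntegrable _ _

lemma OF.Fc_add (hΦ : OF M Φ) (n : ℤ) (g : G) (v w : V) (t : ℝ) :
    Fc Φ n g (v + w) t = Fc Φ n g v t + Fc Φ n g w t := by
  rw [Fc, Fc, Fc, ← intervalIntegral.integral_add (hΦ.intble n g v t _ _) (hΦ.intble n g w t _ _)]
  refine intervalIntegral.integral_congr fun θ _ => ?_
  simp only [map_add, Pi.add_apply]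
  ring

lemma Fc_smul (n : ℤ) (g : G) (c : ℂ) (v : V) (t : ℝ) :
    Fc Φ n g (c • v) t = c * Fc Φ n g v t := by
  rw [Fc, Fc, ← intervalIntegral.integral_const_mul]
  refine intervalIntegral.integral_congr fun θ _ => ?_
  simp only [map_smul, Pi.smul_apply, smul_eq_mul]
  ring

lemma OF.Fc_sub (hΦ : OF M Φ) (n : ℤ) (g : G) (v w : V) (t : ℝ) :
    Fc Φ n g (v - w) t = Fc Φ n g v t - Fc Φ n g w t := by
  rw [sub_eq_add_neg, hΦ.Fc_add, ← neg_one_smul ℂ w, Fc_smul]
  ring

lemma OF.Fc_neg (n : ℤ) (g : G) (v : V) (t : ℝ) :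
    Fc Φ n g (-v) t = - Fc Φ n g v t := by
  rw [← neg_one_smul ℂ v, Fc_smul]
  ring

lemma OF.Fc_deriv (hΦ : OF M Φ) (n : ℤ) (g : G) (v : V) (t : ℝ) :
    HasDerivAt (Fc Φ n g v) (Fc Φ n g (M.act LA v) t) t := by
  refine hasDerivAt_param (hΦ.cont2 n g v) (hΦ.cont2 n g (M.act LA v)) (fun x θ => ?_) _ _ _
  exact (hΦ.der_at oneParam_aa v (g * kk θ) x).const_mul _

lemma OF.Fc_rot (hΦ : OF M Φ) (n : ℤ) (g : G) (v : V) (t : ℝ) :
    (n * Complex.I) * Fc Φ n g v t = Fc Φ n g (M.act (Ad (aa t)⁻¹ W) v) t := by
  have hd : ∀ θ ∈ Set.uIcc (0 : ℝ) (2 * Real.pi), HasDerivAt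
      (fun θ : ℝ => Complex.exp (-(n * θ * Complex.I)) * Φ v (g * kk θ * aa t))
      (Complex.exp (-(n * θ * Complex.I)) * Φ (M.act (Ad (aa t)⁻¹ W) v) (g * kk θ * aa t) -
        (n * Complex.I) * (Complex.exp (-(n * θ * Complex.I)) * Φ v (g * kk θ * aa t))) θ := by
    intro θ _
    have hb : HasDerivAt (fun s : ℝ => Complex.exp (-(n * s * Complex.I)))
        (Complex.exp (-(n * θ * Complex.I)) * (-(n * Complex.I))) θ := by
      have hc : HasDerivAt (fun s : ℝ => -(n * (s : ℂ) * Complex.I)) (-(n * Complex.I)) θ := by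
        have := ((Complex.ofRealCLM.hasDerivAt (x := θ)).const_mul (n : ℂ)).mul_const Complex.I
        simpa using this.fun_neg
      exact hc.cexp
    refine (hb.fun_mul (hΦ.der_theta v g (aa t) θ)).congr_deriv ?_
    ring
  have hi1 := hΦ.intble n g (M.act (Ad (aa t)⁻¹ W) v) t 0 (2 * Real.pi)
  have hi2 := (hΦ.intble n g v t 0 (2 * Real.pi)).const_mul (n * Complex.I)
  have := intervalIntegral.integral_eq_sub_of_hasDerivAt hd (hi1.sub hi2)
  rw [intervalIntegral.integral_sub hi1 hi2, intervalIntegral.integral_const_mul] at this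
  have h1 : Complex.exp (-(n * (2 * Real.pi : ℝ) * Complex.I)) = 1 := by
    have := Complex.exp_int_mul_two_pi_mul_I (-n)
    rw [← this]
    congr 1
    push_cast
    ring
  rw [h1, kk_two_pi, kk_zero] at this
  simp only [Complex.ofReal_zero, mul_zero, zero_mul, neg_zero, Complex.exp_zero, sub_self] at this
  rw [sub_eq_zero] at this
  exact this.symm

end

variable {V : Type u} [NormedAddCommGroup V] [InnerProductSpace ℂ V]
variable {M : LieMod V} {mc : V → V →ₗ[ℂ] (G → ℂ)} {Φ : V →ₗ[ℂ] (G → ℂ)}

lemma integral_exp_int (k : ℤ) (hk : k ≠ 0) :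
    ∫ θ in (0 : ℝ)..(2 * Real.pi), Complex.exp (k * θ * Complex.I) = 0 := by
  have h1 : ∀ θ : ℝ, Complex.exp (k * θ * Complex.I) = Complex.exp ((k * Complex.I) * θ) := by
    intro θ; congr 1; ring
  simp only [h1]
  have hk' : (k : ℂ) * Complex.I ≠ 0 := mul_ne_zero (by exact_mod_cast hk) Complex.I_ne_zero
  rw [integral_exp_mul_complex hk']
  have h2 : Complex.exp (k * Complex.I * (2 * Real.pi : ℝ)) = 1 := by
    have := Complex.exp_int_mul_two_pi_mul_I k
    rw [← this]
    congr 1
    push_cast
    ring
  rw [h2]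
  simp

theorem CL (F : Frame M) (h : USys M mc) (hΦ : OF M Φ) (J : ℤ) (hJ : F.e J ≠ 0) (g : G)
    (i : ℤ) (t : ℝ) (ht : 0 ≤ t) :
    Fc Φ (F.n J) g (F.e i) t = 2 * Real.pi * (F.c mc i J t * Φ (F.e J) g) := by
  have key := uniq (n₀ := F.n₀) (α := F.α) (J := J)
    (y := fun i t => Fc Φ (F.n J) g (F.e i) t - 2 * Real.pi * (F.c mc i J t * Φ (F.e J) g))
    ?_ ?_ ?_ ?_ ?_ i t ht
  · exact sub_eq_zero.mp key
  · intro i t
    have h1 := hΦ.Fc_deriv (F.n J) g (F.e i) t
    rw [F.actA, hΦ.Fc_sub, Fc_smul, Fc_smul] at h1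
    have h2 := ((h.deriv_left F i J t).mul_const (Φ (F.e J) g)).const_mul (2 * Real.pi : ℂ)
    refine (h1.sub h2).congr_deriv ?_
    ring
  · intro i t
    have h1 := hΦ.Fc_rot (F.n J) g (F.e i) t
    rw [Ad_aa_inv_W, act_ZZ, F.actW', F.actB, hΦ.Fc_sub, Fc_smul, Fc_smul, Fc_smul, hΦ.Fc_sub,
      OF.Fc_neg, Fc_smul, Fc_smul] at h1
    have h2 := h.rel_left F i J t
    have hI : Complex.I ≠ 0 := Complex.I_ne_zero
    have h3 : ((F.n J : ℂ) - F.n i * Real.cosh (2 * t)) * Fc Φ (F.n J) g (F.e i) t =
        Real.sinh (2 * t) * (F.α i * Fc Φ (F.n J) g (F.e (i + 1)) t +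
          F.α (i - 1) * Fc Φ (F.n J) g (F.e (i - 1)) t) := by
      apply mul_left_cancel₀ hI
      linear_combination h1
    simp only [Frame.n] at h2 h3 ⊢
    linear_combination h3 - 2 * Real.pi * Φ (F.e J) g * h2
  · intro i
    have h1 : ∀ θ : ℝ, Complex.exp (-(F.n J * θ * Complex.I)) * Φ (F.e i) (g * kk θ * aa 0) =
        Complex.exp (((F.n i - F.n J : ℤ) : ℂ) * θ * Complex.I) * Φ (F.e i) g := by
      intro θ
      rw [aa_zero, mul_one, hΦ.kk_eq (F.actW' i), ← mul_assoc, ← Complex.exp_add]
      congr 2
      push_cast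
      ring
    have h2 : Fc Φ (F.n J) g (F.e i) 0 =
        (∫ θ in (0 : ℝ)..(2 * Real.pi), Complex.exp (((F.n i - F.n J : ℤ) : ℂ) * θ * Complex.I)) *
          Φ (F.e i) g := by
      rw [Fc, ← intervalIntegral.integral_mul_const]
      exact intervalIntegral.integral_congr fun θ _ => h1 θ
    rw [h2]
    by_cases hi : i = J
    · subst hi
      rw [Frame.c, aa_zero, h.one, F.inner_self hJ]
      simp
    · rw [integral_exp_int _ (by simp only [Frame.n]; omega), Frame.c, aa_zero, h.one,
        F.orth J i (Ne.symm hi)]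
      simp
  · intro i hi hα t
    have he : F.e (i + 1) = 0 := by
      by_contra hne
      exact hJ (F.down (i + 1) hne (by simpa using hα) J (by omega))
    simp only [he, Frame.c]
    have : Fc Φ (F.n J) g (0 : V) t = 0 := by
      rw [← zero_smul ℂ (0 : V), Fc_smul]; simp
    rw [this]
    simp
  · intro i hi hα t
    have he : F.e (i - 1) = 0 := by
      by_contra hne
      exact hJ (F.up (i - 1) hne hα J (by omega))
    simp only [he, Frame.c]
    have : Fc Φ (F.n J) g (0 : V) t = 0 := by
      rw [← zero_smul ℂ (0 : V), Fc_smul]; simp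
    rw [this]
    simp

/-- nonvanishing -/
lemma c_ne_zero (F : Frame M) (h : USys M mc) (i J : ℤ) (hi : F.e i ≠ 0) (hJ : F.e J ≠ 0) :
    ∃ t : ℝ, 0 < t ∧ F.c mc i J t ≠ 0 := by
  by_contra hcon
  push Not at hcon
  have hstep : ∀ i, (∀ t, 0 < t → F.c mc i J t = 0) → ∀ t, 0 < t →
      (F.α i : ℂ) * F.c mc (i + 1) J t = 0 ∧ (F.α (i - 1) : ℂ) * F.c mc (i - 1) J t = 0 := by
    intro i hi t ht
    have h1 : (F.α i : ℂ) * F.c mc (i + 1) J t - F.α (i - 1) * F.c mc (i - 1) J t = 0 := by
      have hc : HasDerivAt (F.c mc i J) 0 t := by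
        refine (hasDerivAt_const t (0 : ℂ)).congr_of_eventuallyEq ?_
        filter_upwards [Ioi_mem_nhds ht] with s hs
        exact hi s hs
      exact (h.deriv_left F i J t).unique hc
    have h2 := h.rel_left F i J t
    rw [hi t ht, mul_zero] at h2
    have hs : (Real.sinh (2 * t) : ℂ) ≠ 0 := by
      have : 0 < Real.sinh (2 * t) := Real.sinh_pos_iff.mpr (by linarith)
      exact_mod_cast this.ne'
    have h3 : (F.α i : ℂ) * F.c mc (i + 1) J t + F.α (i - 1) * F.c mc (i - 1) J t = 0 := by
      rcases mul_eq_zero.mp h2.symm with h | h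
      · exact absurd h hs
      · exact h
    constructor
    · linear_combination (h1 + h3) / 2
    · linear_combination (h3 - h1) / 2
  have hfin : ∀ t, 0 < t → F.c mc J J t = 0 := by
    rcases le_total i J with hiJ | hiJ
    · -- go up from i to J
      have : ∀ k, i ≤ k → k ≤ J → ∀ t, 0 < t → F.c mc k J t = 0 := by
        intro k hk
        induction k, hk using Int.le_induction with
        | base => exact fun _ => hcon
        | succ k hk ih =>
          intro hkJ t ht
          have h1 := (hstep k (ih (by omega)) t ht).1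
          rcases mul_eq_zero.mp h1 with h' | h'
          · exfalso
            have hα : F.α k = 0 := by exact_mod_cast h'
            by_cases hek : F.e k = 0
            · -- k > i, then alpha (k) = 0 with e (k+1) or beyond
              by_cases hek1 : F.e (k + 1) = 0
              · -- both zero: use e_J and e_i
                -- find contradiction by moving
                have h2 : ∀ l, k + 1 ≤ l → F.e l = 0 := by
                  intro l hl
                  induction l, hl using Int.le_induction with
                  | base => exact hek1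
                  | succ l hl ihl =>
                    by_contra hne
                    have hαl : F.α l = 0 := by
                      by_contra hαl
                      exact (F.ne_zero_of_α l hαl).1 ihl
                    exact hi (F.down (l + 1) hne (by simpa using hαl) i (by omega))
                exact hJ (h2 J hkJ)
              · exact hi (F.down (k + 1) hek1 (by simpa using hα) i (by omega))
            · exact hJ (F.up k hek hα J (by omega))
          · exact h'
      exact this J hiJ le_rfl
    · have : ∀ k, k ≤ i → J ≤ k → ∀ t, 0 < t → F.c mc k J t = 0 := by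
        intro k hk
        induction k, hk using Int.le_induction_down with
        | base => exact fun _ => hcon
        | pred k hk ih =>
          intro hkJ t ht
          have h1 := (hstep k (ih (by omega)) t ht).2
          rcases mul_eq_zero.mp h1 with h' | h'
          · exfalso
            have hα : F.α (k - 1) = 0 := by exact_mod_cast h'
            by_cases hek : F.e k = 0
            · by_cases hek1 : F.e (k - 1) = 0
              · have h2 : ∀ l, l ≤ k - 1 → F.e l = 0 := by
                  intro l hl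
                  induction l, hl using Int.le_induction_down with
                  | base => exact hek1
                  | pred l hl ihl =>
                    by_contra hne
                    have hαl : F.α (l - 1) = 0 := by
                      by_contra hαl
                      have := (F.ne_zero_of_α (l - 1) hαl).2
                      rw [sub_add_cancel] at this
                      exact this ihl
                    exact hi (F.up (l - 1) hne hαl i (by omega))
                exact hJ (h2 J hkJ)
              · exact hi (F.up (k - 1) hek1 hα i (by omega))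
            · exact hJ (F.down k hek hα J (by omega))
          · exact h'
      exact this J hiJ le_rfl
  have hc0 : F.c mc J J 0 = 1 := by rw [Frame.c, aa_zero, h.one, F.inner_self hJ]
  have hcont : ContinuousAt (F.c mc J J) 0 := (h.deriv_left F J J 0).continuousAt
  have h1 : Tendsto (F.c mc J J) (𝓝[>] 0) (𝓝 1) := by
    rw [← hc0]; exact hcont.tendsto.mono_left nhdsWithin_le_nhds
  have h2 : Tendsto (F.c mc J J) (𝓝[>] 0) (𝓝 0) := by
    refine tendsto_const_nhds.congr' ?_
    filter_upwards [self_mem_nhdsWithin] with s hs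
    exact (hfin s hs).symm
  exact one_ne_zero (tendsto_nhds_unique h1 h2)

end AutNorm
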