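import Pool.Agent.Helper57.AN.Sl2

/-! Cartan decomposition of `SL(2,ℝ)`. -/

open Filter Topology

namespace AutNorm

lemma det_eq (g : G) : g.1 0 0 * g.1 1 1 - g.1 0 1 * g.1 1 0 = 1 := by
  have := g.2
  rwa [Matrix.det_fin_two] at this

lemma cartan (g : G) : ∃ θ t φ : ℝ, 0 ≤ t ∧ g = kk θ * aa t * kk φ := by
  obtain ⟨p, hp⟩ : ∃ p, p = g.1 0 0 := ⟨_, rfl⟩
  obtain ⟨q, hq⟩ : ∃ q, q = g.1 0 1 := ⟨_, rfl⟩
  obtain ⟨r, hr⟩ : ∃ r, r = g.1 1 0 := ⟨_, rfl⟩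
  obtain ⟨s, hs⟩ : ∃ s, s = g.1 1 1 := ⟨_, rfl⟩
  have hdet : p * s - q * r = 1 := by rw [hp, hq, hr, hs]; exact det_eq g
  obtain ⟨a, ha⟩ : ∃ a, a = p ^ 2 + q ^ 2 - r ^ 2 - s ^ 2 := ⟨_, rfl⟩
  obtain ⟨b, hb⟩ : ∃ b, b = 2 * (p * r + q * s) := ⟨_, rfl⟩
  obtain ⟨ρ, ψ, hρ, h1, h2⟩ : ∃ ρ ψ : ℝ, 0 ≤ ρ ∧ a = ρ * Real.cos ψ ∧ -b = ρ * Real.sin ψ := by
    refine ⟨‖(⟨a, -b⟩ : ℂ)‖, Complex.arg ⟨a, -b⟩, norm_nonneg _, ?_, ?_⟩
    · rw [Complex.norm_mul_cos_arg]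
    · rw [Complex.norm_mul_sin_arg]
  obtain ⟨c, hc⟩ : ∃ c, c = Real.cos (ψ / 2) := ⟨_, rfl⟩
  obtain ⟨d, hd⟩ : ∃ d, d = Real.sin (ψ / 2) := ⟨_, rfl⟩
  have hcd : c ^ 2 + d ^ 2 = 1 := by rw [hc, hd]; exact Real.cos_sq_add_sin_sq _
  have hcψ : Real.cos ψ = c ^ 2 - d ^ 2 := by
    have := Real.cos_two_mul (ψ / 2)
    rw [show 2 * (ψ / 2) = ψ by ring, ← hc] at this
    linarith
  have hsψ : Real.sin ψ = 2 * d * c := by
    have := Real.sin_two_mul (ψ / 2)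
    rw [show 2 * (ψ / 2) = ψ by ring, ← hc, ← hd] at this
    linarith
  obtain ⟨u1, hu1⟩ : ∃ x, x = p * c - r * d := ⟨_, rfl⟩
  obtain ⟨u2, hu2⟩ : ∃ x, x = q * c - s * d := ⟨_, rfl⟩
  obtain ⟨w1, hw1⟩ : ∃ x, x = p * d + r * c := ⟨_, rfl⟩
  obtain ⟨w2, hw2⟩ : ∃ x, x = q * d + s * c := ⟨_, rfl⟩
  have huw : u1 * w1 + u2 * w2 = 0 := by
    have e : u1 * w1 + u2 * w2 = (a * (2 * d * c) + b * (c ^ 2 - d ^ 2)) / 2 := by
      rw [hu1, hu2, hw1, hw2, ha, hb]; ring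
    rw [e, ← hsψ, ← hcψ]
    have : b = -(ρ * Real.sin ψ) := by linarith
    rw [this]
    conv_lhs => rw [h1]
    ring
  have hdet2 : u1 * w2 - u2 * w1 = 1 := by
    have e : u1 * w2 - u2 * w1 = (p * s - q * r) * (c ^ 2 + d ^ 2) := by
      rw [hu1, hu2, hw1, hw2]; ring
    rw [e, hdet, hcd]; ring
  have hge : w1 ^ 2 + w2 ^ 2 ≤ u1 ^ 2 + u2 ^ 2 := by
    have e : u1 ^ 2 + u2 ^ 2 - (w1 ^ 2 + w2 ^ 2) = a * (c ^ 2 - d ^ 2) - b * (2 * d * c) := by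
      rw [hu1, hu2, hw1, hw2, ha, hb]; ring
    have e2 : a * (c ^ 2 - d ^ 2) - b * (2 * d * c) = ρ := by
      rw [← hcψ, ← hsψ]
      have : a * Real.cos ψ - b * Real.sin ψ = ρ * (Real.sin ψ ^ 2 + Real.cos ψ ^ 2) := by
        have hb' : b = -(ρ * Real.sin ψ) := by linarith
        rw [hb']
        conv_lhs => rw [h1]
        ring
      rw [this, Real.sin_sq_add_cos_sq]; ring
    linarith
  have hprod : (u1 ^ 2 + u2 ^ 2) * (w1 ^ 2 + w2 ^ 2) = 1 := by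
    have : (u1 ^ 2 + u2 ^ 2) * (w1 ^ 2 + w2 ^ 2) =
        (u1 * w1 + u2 * w2) ^ 2 + (u1 * w2 - u2 * w1) ^ 2 := by ring
    rw [this, huw, hdet2]; ring
  have hU1 : 1 ≤ u1 ^ 2 + u2 ^ 2 := by
    by_contra hcon
    push Not at hcon
    have h0 : 0 ≤ w1 ^ 2 + w2 ^ 2 := by positivity
    have h0' : 0 ≤ u1 ^ 2 + u2 ^ 2 := by positivity
    nlinarith
  obtain ⟨R, φ, hR, h3, h4⟩ : ∃ R φ : ℝ, 0 ≤ R ∧ u1 = R * Real.cos φ ∧ u2 = R * Real.sin φ := by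
    refine ⟨‖(⟨u1, u2⟩ : ℂ)‖, Complex.arg ⟨u1, u2⟩, norm_nonneg _, ?_, ?_⟩
    · rw [Complex.norm_mul_cos_arg]
    · rw [Complex.norm_mul_sin_arg]
  have hR2 : R ^ 2 = u1 ^ 2 + u2 ^ 2 := by
    have := Real.sin_sq_add_cos_sq φ
    have e : u1 ^ 2 + u2 ^ 2 = R ^ 2 * (Real.sin φ ^ 2 + Real.cos φ ^ 2) := by
      rw [h3, h4]; ring
    rw [e, this]; ring
  have hR1 : 1 ≤ R := by nlinarith
  have hRpos : 0 < R := by linarith
  have hw1' : w1 * R = -Real.sin φ := by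
    have e : w1 * R ^ 2 = -(R * Real.sin φ) := by
      rw [hR2, ← h4]
      have := huw
      have := hdet2
      linear_combination u1 * huw - u2 * hdet2
    have : R * (w1 * R + Real.sin φ) = 0 := by linear_combination e
    rcases mul_eq_zero.mp this with h | h
    · linarith
    · linarith
  have hw2' : w2 * R = Real.cos φ := by
    have e : w2 * R ^ 2 = R * Real.cos φ := by
      rw [hR2, ← h3]
      linear_combination u2 * huw + u1 * hdet2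
    have : R * (w2 * R - Real.cos φ) = 0 := by linear_combination e
    rcases mul_eq_zero.mp this with h | h
    · linarith
    · linarith
  refine ⟨ψ / 2, Real.log R, φ, Real.log_nonneg hR1, ?_⟩
  have hkey : kk (-(ψ / 2)) * g = aa (Real.log R) * kk φ := by
    have hRi : Real.exp (-Real.log R) = R⁻¹ := by rw [Real.exp_neg, Real.exp_log hRpos]
    apply G_ext
    · rw [mul_val, mul_val]
      simp only [kk_00, kk_01, kk_10, kk_11, aa_00, aa_01, aa_10, aa_11, Real.cos_neg,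
        Real.sin_neg, Real.exp_log hRpos, ← hp, ← hr, ← hc, ← hd]
      rw [← h3, hu1]; ring
    · rw [mul_val, mul_val]
      simp only [kk_00, kk_01, kk_10, kk_11, aa_00, aa_01, aa_10, aa_11, Real.cos_neg,
        Real.sin_neg, Real.exp_log hRpos, ← hq, ← hs, ← hc, ← hd]
      rw [← h4, hu2]; ring
    · rw [mul_val, mul_val]
      simp only [kk_00, kk_01, kk_10, kk_11, aa_00, aa_01, aa_10, aa_11, Real.cos_neg,
        Real.sin_neg, hRi, ← hp, ← hr, ← hc, ← hd]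
      rw [← hw1']
      field_simp
      rw [hw1]; ring
    · rw [mul_val, mul_val]
      simp only [kk_00, kk_01, kk_10, kk_11, aa_00, aa_01, aa_10, aa_11, Real.cos_neg,
        Real.sin_neg, hRi, ← hq, ← hs, ← hc, ← hd]
      rw [← hw2']
      field_simp
      rw [hw2]; ring
  rw [mul_assoc, ← hkey, ← mul_assoc, ← kk_add]
  simp

lemma cartan_cos (θ t φ : ℝ) : (kk θ * aa t * kk φ).1 0 0 + (kk θ * aa t * kk φ).1 1 1 =
    2 * Real.cosh t * Real.cos (θ + φ) := by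
  simp only [mul_val, kk_00, kk_01, kk_10, kk_11, aa_00, aa_01, aa_10, aa_11, Real.cos_add,
    Real.cosh_eq]
  ring

lemma cartan_sin (θ t φ : ℝ) : (kk θ * aa t * kk φ).1 0 1 - (kk θ * aa t * kk φ).1 1 0 =
    2 * Real.cosh t * Real.sin (θ + φ) := by
  simp only [mul_val, kk_00, kk_01, kk_10, kk_11, aa_00, aa_01, aa_10, aa_11, Real.sin_add,
    Real.cosh_eq]
  ring

/-- squared Hilbert-Schmidt norm -/
noncomputable def hs (g : G) : ℝ := g.1 0 0 ^ 2 + g.1 0 1 ^ 2 + g.1 1 0 ^ 2 + g.1 1 1 ^ 2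

lemma hs_cartan (θ t φ : ℝ) : hs (kk θ * aa t * kk φ) = 2 * Real.cosh (2 * t) := by
  have h1 : Real.exp t ^ 2 = Real.exp (2 * t) := by rw [← Real.exp_nat_mul]; simp
  have h2 : Real.exp (-t) ^ 2 = Real.exp (-(2 * t)) := by
    rw [← Real.exp_nat_mul]; congr 1; push_cast; ring
  have e : hs (kk θ * aa t * kk φ) = (Real.exp t ^ 2 + Real.exp (-t) ^ 2) *
      (Real.sin θ ^ 2 + Real.cos θ ^ 2) * (Real.sin φ ^ 2 + Real.cos φ ^ 2) := by
    simp only [hs, mul_val, kk_00, kk_01, kk_10, kk_11, aa_00, aa_01, aa_10, aa_11]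
    have h12 : Real.exp t * Real.exp (-t) = 1 := by rw [← Real.exp_add]; simp
    ring
  rw [e, Real.sin_sq_add_cos_sq, Real.sin_sq_add_cos_sq, h1, h2, Real.cosh_eq]
  ring

lemma continuous_entry (i j : Fin 2) : Continuous (fun g : G => g.1 i j) :=
  continuous_subtype_val.matrix_elem i j

lemma continuous_hs : Continuous hs := by
  unfold hs
  have h := continuous_entry
  exact ((((h 0 0).pow 2).add ((h 0 1).pow 2)).add ((h 1 0).pow 2)).add ((h 1 1).pow 2)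

/-- on a compact set the Cartan parameter is bounded -/
lemma cartan_bdd {K : Set G} (hK : IsCompact K) :
    ∃ T : ℝ, 0 < T ∧ ∀ g ∈ K, ∃ θ t φ : ℝ, 0 ≤ t ∧ t ≤ T ∧ g = kk θ * aa t * kk φ := by
  obtain ⟨C, hC⟩ := hK.exists_bound_of_continuousOn continuous_hs.continuousOn
  refine ⟨|C| + 1, by positivity, fun g hg => ?_⟩
  obtain ⟨θ, t, φ, ht, rfl⟩ := cartan g
  refine ⟨θ, t, φ, ht, ?_, rfl⟩
  have h1 := hC _ hg
  rw [hs_cartan, Real.norm_eq_abs] at h1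
  have h2 : Real.exp (2 * t) ≤ 2 * Real.cosh (2 * t) := by
    rw [Real.cosh_eq]; have := Real.exp_pos (-(2 * t)); linarith
  have h3 : 2 * t + 1 ≤ Real.exp (2 * t) := Real.add_one_le_exp _
  have h4 : 2 * Real.cosh (2 * t) ≤ |2 * Real.cosh (2 * t)| := le_abs_self _
  have h5 : C ≤ |C| := le_abs_self C
  linarith

end AutNorm
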