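import Mathlib

/-! Abstract analysis of the matrix coefficients `c_j(t) = ⟪e_j, a_t e_i⟫`. -/

open Filter Topology ComplexConjugate

namespace AutNorm

/-- abstract system of matrix coefficients -/
structure Core (n₀ : ℤ) (α : ℤ → ℝ) (m : ℤ) (c : ℤ → ℝ → ℂ) (C₀ C₁ : ℝ) : Prop where
  der : ∀ j t, HasDerivAt (c j) (-(α j * c (j + 1) t) + α (j - 1) * c (j - 1) t) t
  rel : ∀ j t, (((n₀ + 2 * j : ℤ) : ℂ) * Real.cosh (2 * t) - m) * c j t =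
    Real.sinh (2 * t) * (α j * c (j + 1) t + α (j - 1) * c (j - 1) t)
  bound : ∀ j, |α j| ≤ C₀ * (1 + |(j : ℝ)|)
  quad : ∀ (S : Finset ℤ) (L t : ℝ), ∑ j ∈ S, (((n₀ + 2 * j : ℤ) : ℝ) + L) ^ 2 * ‖c j t‖ ^ 2 ≤
    C₁ ^ 2 * Real.cosh (2 * t) ^ 2 + 2 * L * (m * Real.cosh (2 * t)) + L ^ 2
  mass : ∀ (S : Finset ℤ) (t : ℝ), ∑ j ∈ S, ‖c j t‖ ^ 2 ≤ 1
  init : ∃ k : ℤ, ‖c k 0‖ = 1
  hC₀ : 0 ≤ C₀
  hC₁ : 1 ≤ C₁

namespace Core

variable {n₀ : ℤ} {α : ℤ → ℝ} {m : ℤ} {c : ℤ → ℝ → ℂ} {C₀ C₁ : ℝ}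

/-- the flux -/
noncomputable def P (α : ℤ → ℝ) (c : ℤ → ℝ → ℂ) (j : ℤ) (t : ℝ) : ℝ :=
  2 * α j * (conj (c j t) * c (j + 1) t).re

lemma continuous_c (h : Core n₀ α m c C₀ C₁) (j : ℤ) : Continuous (c j) :=
  continuous_iff_continuousAt.mpr fun t => (h.der j t).continuousAt

lemma continuous_q (h : Core n₀ α m c C₀ C₁) (j : ℤ) : Continuous (fun t => ‖c j t‖ ^ 2) :=
  (h.continuous_c j).norm.pow 2

lemma continuous_P (h : Core n₀ α m c C₀ C₁) (j : ℤ) : Continuous (P α c j) := by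
  unfold P
  have h1 := h.continuous_c j
  have h2 := h.continuous_c (j + 1)
  exact continuous_const.mul (Complex.continuous_re.comp ((Complex.continuous_conj.comp h1).mul h2))

lemma der_q (h : Core n₀ α m c C₀ C₁) (j : ℤ) (t : ℝ) :
    HasDerivAt (fun t => ‖c j t‖ ^ 2) (P α c (j - 1) t - P α c j t) t := by
  have h1 := (h.der j t).norm_sq
  refine h1.congr_deriv ?_
  rw [Complex.inner, P, P]
  simp only [sub_add_cancel]
  simp only [mul_add, Complex.add_re, Complex.mul_re, Complex.neg_re, Complex.conj_re,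
    Complex.conj_im, Complex.ofReal_re, Complex.ofReal_im, Complex.mul_im, Complex.neg_im,
    Complex.add_im]
  ring

lemma rel_q (h : Core n₀ α m c C₀ C₁) (j : ℤ) (t : ℝ) :
    2 * (((n₀ + 2 * j : ℤ) : ℝ) * Real.cosh (2 * t) - m) * ‖c j t‖ ^ 2 =
      Real.sinh (2 * t) * (P α c j t + P α c (j - 1) t) := by
  have h1 := h.rel j t
  have h2 : ((((n₀ + 2 * j : ℤ) : ℂ) * Real.cosh (2 * t) - m) * (conj (c j t) * c j t)).re =
    (Real.sinh (2 * t) * (α j * (conj (c j t) * c (j + 1) t) +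
      α (j - 1) * (conj (c j t) * c (j - 1) t))).re := by
    congr 1
    linear_combination (conj (c j t)) * h1
  have h3 : ((((n₀ + 2 * j : ℤ) : ℂ) * Real.cosh (2 * t) - m) * (conj (c j t) * c j t)).re =
      (((n₀ + 2 * j : ℤ) : ℝ) * Real.cosh (2 * t) - m) * ‖c j t‖ ^ 2 := by
    rw [mul_comm (conj (c j t)), Complex.mul_conj, Complex.normSq_eq_norm_sq]
    rw [← Complex.ofReal_intCast, ← Complex.ofReal_intCast, ← Complex.ofReal_mul,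
      ← Complex.ofReal_sub, ← Complex.ofReal_mul, Complex.ofReal_re]
  rw [h3] at h2
  rw [mul_assoc, h2, P, P]
  simp only [sub_add_cancel]
  simp only [mul_add, Complex.add_re, Complex.mul_re, Complex.conj_re,
    Complex.conj_im, Complex.ofReal_re, Complex.ofReal_im, Complex.mul_im, Complex.add_im]
  ring

lemma decay (h : Core n₀ α m c C₀ C₁) (j : ℤ) (t : ℝ) :
    |((n₀ + 2 * j : ℤ) : ℝ)| * ‖c j t‖ ≤ C₁ * Real.cosh (2 * t) := by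
  have h1 := h.quad {j} 0 t
  simp only [Finset.sum_singleton, add_zero, mul_zero, zero_mul, ne_eq, OfNat.ofNat_ne_zero,
    not_false_eq_true, zero_pow] at h1
  have h2 : (|((n₀ + 2 * j : ℤ) : ℝ)| * ‖c j t‖) ^ 2 ≤ (C₁ * Real.cosh (2 * t)) ^ 2 := by
    rw [mul_pow, mul_pow, sq_abs]; exact h1
  have h3 : 0 ≤ C₁ * Real.cosh (2 * t) := by
    have := h.hC₁
    have := Real.cosh_pos (2 * t)
    positivity
  exact abs_le_of_sq_le_sq' h2 h3 |>.2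

lemma norm_c_le (h : Core n₀ α m c C₀ C₁) (j : ℤ) (t : ℝ) : ‖c j t‖ ≤ 1 := by
  have h1 := h.mass {j} t
  simp only [Finset.sum_singleton] at h1
  have h0 := norm_nonneg (c j t)
  nlinarith

lemma P_bound (h : Core n₀ α m c C₀ C₁) (T ε : ℝ) (hε : 0 < ε) :
    ∃ K₀ : ℕ, ∀ K : ℤ, (K₀ : ℤ) ≤ |K| → ∀ t, |t| ≤ T → |P α c K t| ≤ ε := by
  -- for |K| large, |n_K|, |n_{K+1}| ≥ |K|
  set A := C₁ * Real.cosh (2 * T) with hA
  have hA0 : 0 < A := by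
    have := h.hC₁
    have := Real.cosh_pos (2 * T)
    positivity
  obtain ⟨K₁, hK₁⟩ := exists_nat_gt (2 * C₀ * 2 * A ^ 2 / ε)
  refine ⟨max (n₀.natAbs + 2) K₁, fun K hK t ht => ?_⟩
  have hK2 : ((n₀.natAbs + 2 : ℕ) : ℤ) ≤ |K| :=
    le_trans (Int.ofNat_le.mpr (le_max_left _ _)) hK
  have hK3 : (K₁ : ℤ) ≤ |K| := le_trans (Int.ofNat_le.mpr (le_max_right _ _)) hK
  have hKpos : (0 : ℝ) < |(K : ℝ)| := by
    have : (0 : ℤ) < |K| := by omega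
    exact_mod_cast this
  have hn1 : |(K : ℝ)| ≤ |((n₀ + 2 * K : ℤ) : ℝ)| := by
    have : |K| ≤ |n₀ + 2 * K| := by
      rcases abs_cases K with ⟨h1, h2⟩ | ⟨h1, h2⟩ <;> rcases abs_cases (n₀ + 2 * K) with ⟨h3, h4⟩ | ⟨h3, h4⟩ <;> omega
    exact_mod_cast this
  have hn2 : |(K : ℝ)| ≤ |((n₀ + 2 * (K + 1) : ℤ) : ℝ)| := by
    have : |K| ≤ |n₀ + 2 * (K + 1)| := by
      rcases abs_cases K with ⟨h1, h2⟩ | ⟨h1, h2⟩ <;> rcases abs_cases (n₀ + 2 * (K + 1)) with ⟨h3, h4⟩ | ⟨h3, h4⟩ <;> omega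
    exact_mod_cast this
  have hcosh : Real.cosh (2 * t) ≤ Real.cosh (2 * T) := by
    rw [Real.cosh_le_cosh, abs_mul, abs_mul]
    have : |t| ≤ |T| := ht.trans (le_abs_self T)
    gcongr
  have hc1 : |(K : ℝ)| * ‖c K t‖ ≤ A := by
    calc |(K : ℝ)| * ‖c K t‖ ≤ |((n₀ + 2 * K : ℤ) : ℝ)| * ‖c K t‖ := by gcongr
      _ ≤ C₁ * Real.cosh (2 * t) := h.decay K t
      _ ≤ A := by rw [hA]; have := h.hC₁; gcongr
  have hc2 : |(K : ℝ)| * ‖c (K + 1) t‖ ≤ A := by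
    calc |(K : ℝ)| * ‖c (K + 1) t‖ ≤ |((n₀ + 2 * (K + 1) : ℤ) : ℝ)| * ‖c (K + 1) t‖ := by gcongr
      _ ≤ C₁ * Real.cosh (2 * t) := h.decay (K + 1) t
      _ ≤ A := by rw [hA]; have := h.hC₁; gcongr
  have hP : |P α c K t| ≤ 2 * |α K| * (‖c K t‖ * ‖c (K + 1) t‖) := by
    rw [P, abs_mul, abs_mul, abs_two]
    have : |(conj (c K t) * c (K + 1) t).re| ≤ ‖c K t‖ * ‖c (K + 1) t‖ := by
      refine (Complex.abs_re_le_norm _).trans ?_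
      rw [norm_mul, RCLike.norm_conj]
    gcongr
  have hα : |α K| ≤ C₀ * (2 * |(K : ℝ)|) := by
    refine (h.bound K).trans ?_
    have : (1 : ℝ) ≤ |(K : ℝ)| := by
      have : (1 : ℤ) ≤ |K| := by omega
      exact_mod_cast this
    have := h.hC₀
    gcongr
    linarith
  have hfin : 2 * |α K| * (‖c K t‖ * ‖c (K + 1) t‖) ≤ 2 * C₀ * 2 * A ^ 2 / |(K : ℝ)| := by
    rw [le_div_iff₀ hKpos]
    have e1 : (|(K : ℝ)| * ‖c K t‖) * (|(K : ℝ)| * ‖c (K + 1) t‖) ≤ A * A := by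
      gcongr
    calc 2 * |α K| * (‖c K t‖ * ‖c (K + 1) t‖) * |(K : ℝ)|
        ≤ 2 * (C₀ * (2 * |(K : ℝ)|)) * (‖c K t‖ * ‖c (K + 1) t‖) * |(K : ℝ)| := by gcongr
      _ = 2 * C₀ * 2 * ((|(K : ℝ)| * ‖c K t‖) * (|(K : ℝ)| * ‖c (K + 1) t‖)) := by ring
      _ ≤ 2 * C₀ * 2 * (A * A) := by
        have := h.hC₀
        gcongr
      _ = 2 * C₀ * 2 * A ^ 2 := by ring
  refine hP.trans (hfin.trans ?_)
  rw [div_le_iff₀ hKpos]
  have hK4 : (K₁ : ℝ) ≤ |(K : ℝ)| := by exact_mod_cast hK3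
  rw [div_lt_iff₀ hε] at hK₁
  nlinarith

/-- derivative of a block sum -/
lemma der_block (h : Core n₀ α m c C₀ C₁) (a b : ℤ) (hab : a ≤ b) (t : ℝ) :
    HasDerivAt (fun t => ∑ k ∈ Finset.Ioc a b, ‖c k t‖ ^ 2) (P α c a t - P α c b t) t := by
  induction b, hab using Int.le_induction with
  | base => simpa using hasDerivAt_const t (0 : ℝ)
  | succ b hab ih =>
    have hI : Finset.Ioc a (b + 1) = insert (b + 1) (Finset.Ioc a b) := by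
      ext x; simp only [Finset.mem_Ioc, Finset.mem_insert]; omega
    have hn : (b + 1) ∉ Finset.Ioc a b := by simp
    simp only [hI, Finset.sum_insert hn]
    refine ((h.der_q (b + 1) t).add ih).congr_deriv ?_
    simp

lemma total_mass (h : Core n₀ α m c C₀ C₁) (t ε : ℝ) (hε : 0 < ε) :
    ∃ K₀ : ℕ, ∀ K : ℤ, (K₀ : ℤ) ≤ K → 1 - ε ≤ ∑ k ∈ Finset.Ioc (-K) K, ‖c k t‖ ^ 2 := by
  obtain ⟨k₀, hk₀⟩ := h.init
  set δ := ε / (2 * (|t| + 1)) with hδ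
  have ht1 : 0 < |t| + 1 := by positivity
  have hδ0 : 0 < δ := by positivity
  obtain ⟨K₁, hK₁⟩ := h.P_bound (|t|) δ hδ0
  refine ⟨max K₁ (k₀.natAbs + 1), fun K hK => ?_⟩
  have hKa : (K₁ : ℤ) ≤ K := le_trans (Int.ofNat_le.mpr (le_max_left _ _)) hK
  have hKb : ((k₀.natAbs + 1 : ℕ) : ℤ) ≤ K := le_trans (Int.ofNat_le.mpr (le_max_right _ _)) hK
  have hKK : -K ≤ K := by omega
  have h0 : 1 ≤ ∑ k ∈ Finset.Ioc (-K) K, ‖c k 0‖ ^ 2 := by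
    have hmem : k₀ ∈ Finset.Ioc (-K) K := by
      rw [Finset.mem_Ioc]; omega
    calc (1 : ℝ) = ‖c k₀ 0‖ ^ 2 := by rw [hk₀]; norm_num
      _ ≤ _ := Finset.single_le_sum (f := fun k => ‖c k 0‖ ^ 2) (fun _ _ => by positivity) hmem
  have hmv := Convex.norm_image_sub_le_of_norm_hasDerivWithin_le
    (f := fun t => ∑ k ∈ Finset.Ioc (-K) K, ‖c k t‖ ^ 2)
    (f' := fun t => P α c (-K) t - P α c K t) (C := 2 * δ) (s := Set.uIcc 0 t) (x := 0) (y := t)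
    (fun x _ => (h.der_block (-K) K hKK x).hasDerivWithinAt)
    (fun x hx => by
      have hx' : |x| ≤ |t| := by
        have := Set.abs_sub_left_of_mem_uIcc hx
        simpa using this
      have e1 := hK₁ (-K) (by rw [abs_neg]; exact hKa.trans (le_abs_self K)) x hx'
      have e2 := hK₁ K (hKa.trans (le_abs_self K)) x hx'
      rw [Real.norm_eq_abs]
      calc |P α c (-K) x - P α c K x| ≤ |P α c (-K) x| + |P α c K x| := abs_sub _ _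
        _ ≤ 2 * δ := by linarith)
    (convex_uIcc 0 t) Set.left_mem_uIcc Set.right_mem_uIcc
  rw [Real.norm_eq_abs, sub_zero, Real.norm_eq_abs] at hmv
  have h2 : 2 * δ * |t| ≤ ε := by
    rw [hδ]
    rw [show 2 * (ε / (2 * (|t| + 1))) * |t| = ε * (|t| / (|t| + 1)) by field_simp]
    have : |t| / (|t| + 1) ≤ 1 := by rw [div_le_one ht1]; linarith
    nlinarith
  have h3 := (abs_le.mp hmv).1
  linarith

/-- first moment -/
lemma first_moment (h : Core n₀ α m c C₀ C₁) (t : ℝ) :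
    ∃ K₀ : ℕ, ∀ K : ℤ, (K₀ : ℤ) ≤ K →
      m * Real.cosh (2 * t) - 1 ≤
        ∑ k ∈ Finset.Ioc (-K) K, ((n₀ + 2 * k : ℤ) : ℝ) * ‖c k t‖ ^ 2 := by
  set L := C₁ ^ 2 * Real.cosh (2 * t) ^ 2 with hL
  have hL0 : 0 < L := by
    have := h.hC₁
    have := Real.cosh_pos (2 * t)
    positivity
  obtain ⟨K₀, hK₀⟩ := h.total_mass t (1 / L) (by positivity)
  refine ⟨K₀, fun K hK => ?_⟩
  have h1 := hK₀ K hK
  have h2 := h.quad (Finset.Ioc (-K) K) (-L) t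
  have e : ∑ j ∈ Finset.Ioc (-K) K, (((n₀ + 2 * j : ℤ) : ℝ) + -L) ^ 2 * ‖c j t‖ ^ 2 =
      ∑ j ∈ Finset.Ioc (-K) K, ((n₀ + 2 * j : ℤ) : ℝ) ^ 2 * ‖c j t‖ ^ 2 -
      2 * L * ∑ k ∈ Finset.Ioc (-K) K, ((n₀ + 2 * k : ℤ) : ℝ) * ‖c k t‖ ^ 2 +
      L ^ 2 * ∑ k ∈ Finset.Ioc (-K) K, ‖c k t‖ ^ 2 := by
    rw [Finset.mul_sum, Finset.mul_sum, ← Finset.sum_sub_distrib, ← Finset.sum_add_distrib]
    refine Finset.sum_congr rfl fun j _ => ?_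
    ring
  rw [e] at h2
  have h3 : 0 ≤ ∑ j ∈ Finset.Ioc (-K) K, ((n₀ + 2 * j : ℤ) : ℝ) ^ 2 * ‖c j t‖ ^ 2 :=
    Finset.sum_nonneg fun _ _ => by positivity
  have h4 : L ^ 2 * (1 - 1 / L) ≤ L ^ 2 * ∑ k ∈ Finset.Ioc (-K) K, ‖c k t‖ ^ 2 := by gcongr
  have h5 : L ^ 2 * (1 - 1 / L) = L ^ 2 - L := by field_simp
  rw [h5] at h4
  rw [← hL] at h2
  have h6 : 2 * L * (m * Real.cosh (2 * t) - 1) ≤
      2 * L * ∑ k ∈ Finset.Ioc (-K) K, ((n₀ + 2 * k : ℤ) : ℝ) * ‖c k t‖ ^ 2 := by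
    nlinarith
  exact le_of_mul_le_mul_left h6 (by positivity)

/-- mass beyond `j` at time `t` with `cosh 2t ≥ 4 n_j` -/
lemma mass_beyond (h : Core n₀ α m c C₀ C₁) (hm : 1 ≤ m) (j : ℤ) (hj : 1 ≤ n₀ + 2 * j) (t : ℝ)
    (ht : 4 * ((n₀ + 2 * j : ℤ) : ℝ) ≤ Real.cosh (2 * t)) :
    ∃ K₀ : ℕ, ∀ K : ℤ, (K₀ : ℤ) ≤ K → 1 / (4 * C₁ ^ 2) ≤ ∑ k ∈ Finset.Ioc j K, ‖c k t‖ ^ 2 := by
  obtain ⟨K₀, hK₀⟩ := h.first_moment t
  refine ⟨max K₀ (j.natAbs + 1), fun K hK => ?_⟩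
  have hKa : (K₀ : ℤ) ≤ K := le_trans (Int.ofNat_le.mpr (le_max_left _ _)) hK
  have hKb : ((j.natAbs + 1 : ℕ) : ℤ) ≤ K := le_trans (Int.ofNat_le.mpr (le_max_right _ _)) hK
  set N : ℝ := ((n₀ + 2 * j : ℤ) : ℝ) with hN
  set H := Real.cosh (2 * t) with hH
  have hN1 : 1 ≤ N := by rw [hN]; exact_mod_cast hj
  have hm1 : (1 : ℝ) ≤ m := by exact_mod_cast hm
  have hH0 : 0 < H := Real.cosh_pos _
  have h1 := hK₀ K hKa
  have hsplit : Finset.Ioc (-K) K = Finset.Ioc (-K) j ∪ Finset.Ioc j K := by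
    ext x; simp only [Finset.mem_Ioc, Finset.mem_union]; omega
  have hdisj : Disjoint (Finset.Ioc (-K) j) (Finset.Ioc j K) := by
    rw [Finset.disjoint_left]; intro x; simp only [Finset.mem_Ioc]; omega
  rw [hsplit, Finset.sum_union hdisj] at h1
  have h2 : ∑ k ∈ Finset.Ioc (-K) j, ((n₀ + 2 * k : ℤ) : ℝ) * ‖c k t‖ ^ 2 ≤ N := by
    calc ∑ k ∈ Finset.Ioc (-K) j, ((n₀ + 2 * k : ℤ) : ℝ) * ‖c k t‖ ^ 2
        ≤ ∑ k ∈ Finset.Ioc (-K) j, N * ‖c k t‖ ^ 2 := by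
          refine Finset.sum_le_sum fun k hk => ?_
          rw [Finset.mem_Ioc] at hk
          have : ((n₀ + 2 * k : ℤ) : ℝ) ≤ N := by
            rw [hN]; exact_mod_cast (by omega : n₀ + 2 * k ≤ n₀ + 2 * j)
          gcongr
      _ = N * ∑ k ∈ Finset.Ioc (-K) j, ‖c k t‖ ^ 2 := by rw [Finset.mul_sum]
      _ ≤ N * 1 := by have := h.mass (Finset.Ioc (-K) j) t; gcongr
      _ = N := mul_one N
  have h3 : H / 2 ≤ ∑ k ∈ Finset.Ioc j K, ((n₀ + 2 * k : ℤ) : ℝ) * ‖c k t‖ ^ 2 := by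
    have : H ≤ m * H := by nlinarith
    linarith
  have h4 : (∑ k ∈ Finset.Ioc j K, ((n₀ + 2 * k : ℤ) : ℝ) * ‖c k t‖ ^ 2) ^ 2 ≤
      (∑ k ∈ Finset.Ioc j K, ‖c k t‖ ^ 2) *
      (∑ k ∈ Finset.Ioc j K, (((n₀ + 2 * k : ℤ) : ℝ) + 0) ^ 2 * ‖c k t‖ ^ 2) := by
    have := Finset.sum_mul_sq_le_sq_mul_sq (Finset.Ioc j K) (fun k => ‖c k t‖)
      (fun k => (((n₀ + 2 * k : ℤ) : ℝ) + 0) * ‖c k t‖)
    refine le_trans (le_of_eq ?_) (this.trans (le_of_eq ?_))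
    · congr 1
      refine Finset.sum_congr rfl fun k _ => ?_
      ring
    · congr 1
      refine Finset.sum_congr rfl fun k _ => ?_
      ring
  have h5 := h.quad (Finset.Ioc j K) 0 t
  simp only [mul_zero, zero_mul, ne_eq, OfNat.ofNat_ne_zero, not_false_eq_true, zero_pow] at h5
  rw [← hH] at h5
  have h6 : 0 ≤ ∑ k ∈ Finset.Ioc j K, ‖c k t‖ ^ 2 := Finset.sum_nonneg fun _ _ => by positivity
  have h7 : (H / 2) ^ 2 ≤ (∑ k ∈ Finset.Ioc j K, ‖c k t‖ ^ 2) * (C₁ ^ 2 * H ^ 2) := by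
    calc (H / 2) ^ 2 ≤ (∑ k ∈ Finset.Ioc j K, ((n₀ + 2 * k : ℤ) : ℝ) * ‖c k t‖ ^ 2) ^ 2 := by
          gcongr
      _ ≤ _ := h4
      _ ≤ _ := by
        gcongr
        linarith
  have hC := h.hC₁
  rw [div_le_iff₀ (by positivity)]
  have h8 : H ^ 2 * 1 ≤ H ^ 2 * ((∑ k ∈ Finset.Ioc j K, ‖c k t‖ ^ 2) * (4 * C₁ ^ 2)) := by
    nlinarith
  exact le_of_mul_le_mul_left h8 (by positivity)

end Core

end AutNorm
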