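import Pool.Agent.Helper57.AN.Core

/-! Lower and upper bounds for `∫ |c_j|²`. -/

open Filter Topology ComplexConjugate MeasureTheory

namespace AutNorm

namespace Core

variable {n₀ : ℤ} {α : ℤ → ℝ} {m : ℤ} {c : ℤ → ℝ → ℂ} {C₀ C₁ : ℝ}

lemma flux_integral (h : Core n₀ α m c C₀ C₁) {j K : ℤ} (hjK : j ≤ K) (a b : ℝ) :
    ∫ t in a..b, (P α c j t + P α c (j - 1) t) / 2 =
      (‖c j b‖ ^ 2 / 2 + ∑ k ∈ Finset.Ioc j K, ‖c k b‖ ^ 2) -
      (‖c j a‖ ^ 2 / 2 + ∑ k ∈ Finset.Ioc j K, ‖c k a‖ ^ 2) + ∫ t in a..b, P α c K t := by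
  have hg : Continuous (fun t => (P α c j t + P α c (j - 1) t) / 2) :=
    ((h.continuous_P j).add (h.continuous_P (j - 1))).div_const 2
  have hd : ∀ t ∈ Set.uIcc a b, HasDerivAt
      (fun t => ‖c j t‖ ^ 2 / 2 + ∑ k ∈ Finset.Ioc j K, ‖c k t‖ ^ 2)
      ((P α c j t + P α c (j - 1) t) / 2 - P α c K t) t := by
    intro t _
    refine (((h.der_q j t).div_const 2).add (h.der_block j K hjK t)).congr_deriv ?_
    ring
  have := intervalIntegral.integral_eq_sub_of_hasDerivAt hd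
    ((hg.sub (h.continuous_P K)).intervalIntegrable a b)
  rw [intervalIntegral.integral_sub (hg.intervalIntegrable a b)
    ((h.continuous_P K).intervalIntegrable a b)] at this
  linarith

lemma P_int_bound (h : Core n₀ α m c C₀ C₁) {K : ℤ} {a b T ε : ℝ} (ha : |a| ≤ T) (hb : |b| ≤ T)
    (hP : ∀ t, |t| ≤ T → |P α c K t| ≤ ε) : |∫ t in a..b, P α c K t| ≤ ε * |b - a| := by
  have := intervalIntegral.norm_integral_le_of_norm_le_const (a := a) (b := b)
    (f := fun t => P α c K t) (C := ε) (fun x hx => by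
      rw [Real.norm_eq_abs]
      apply hP
      have hx' := Set.uIoc_subset_uIcc hx
      rw [Set.mem_uIcc] at hx'
      rw [abs_le] at ha hb ⊢
      rcases hx' with ⟨h1, h2⟩ | ⟨h1, h2⟩ <;> constructor <;> linarith [ha.1, ha.2, hb.1, hb.2])
  rwa [Real.norm_eq_abs] at this

lemma g_eq (h : Core n₀ α m c C₀ C₁) (j : ℤ) {t : ℝ} (ht : 0 < t) :
    (P α c j t + P α c (j - 1) t) / 2 =
      (((n₀ + 2 * j : ℤ) : ℝ) * Real.cosh (2 * t) - m) / Real.sinh (2 * t) * ‖c j t‖ ^ 2 := by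
  have h1 := h.rel_q j t
  have hs : 0 < Real.sinh (2 * t) := Real.sinh_pos_iff.mpr (by linarith)
  field_simp
  linarith

lemma cosh_le_two_sinh {t : ℝ} (ht : 1 ≤ t) : Real.cosh (2 * t) ≤ 2 * Real.sinh (2 * t) := by
  rw [Real.cosh_eq, Real.sinh_eq]
  have h1 : Real.exp (-(2 * t)) ≤ 1 := Real.exp_le_one_iff.mpr (by linarith)
  have h2 : 2 * t + 1 ≤ Real.exp (2 * t) := Real.add_one_le_exp _
  linarith

lemma cosh_log {N : ℝ} (hN : 1 ≤ N) :
    4 * N ≤ Real.cosh (2 * (Real.log (8 * N) / 2)) := by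
  have h8 : 0 < 8 * N := by linarith
  rw [show 2 * (Real.log (8 * N) / 2) = Real.log (8 * N) by ring, Real.cosh_eq, Real.exp_neg,
    Real.exp_log h8]
  have : 0 < (8 * N)⁻¹ := by positivity
  linarith

lemma one_le_logT {N : ℝ} (hN : 1 ≤ N) : 1 ≤ Real.log (8 * N) / 2 := by
  have h1 : Real.exp 2 ≤ 8 * N := by
    have := Real.exp_one_lt_d9
    have h2 : Real.exp 2 = Real.exp 1 * Real.exp 1 := by rw [← Real.exp_add]; norm_num
    have h3 := Real.exp_pos 1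
    nlinarith
  have h2 : 2 ≤ Real.log (8 * N) := by
    rw [Real.le_log_iff_exp_le (by linarith)]; exact h1
  linarith

/-- the lower bound -/
lemma lower (h : Core n₀ α m c C₀ C₁) (hm : 1 ≤ m) : ∃ c₁ : ℝ, 0 < c₁ ∧ ∃ N₀ : ℕ, 1 ≤ N₀ ∧
    ∀ j : ℤ, (N₀ : ℤ) ≤ n₀ + 2 * j →
      c₁ / ((n₀ + 2 * j : ℤ) : ℝ) ≤
        ∫ t in (1 : ℝ)..(Real.log (8 * ((n₀ + 2 * j : ℤ) : ℝ)) / 2), ‖c j t‖ ^ 2 := by
  have hC := h.hC₁
  set A := C₁ ^ 2 * Real.cosh (2 * 1) ^ 2 with hA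
  obtain ⟨N₀, hN₀⟩ := exists_nat_gt (A * (8 * C₁ ^ 2) + 1)
  refine ⟨1 / (16 * C₁ ^ 2), by positivity, N₀ + 1, by omega, fun j hj => ?_⟩
  have hj1 : (1 : ℤ) ≤ n₀ + 2 * j := by push_cast at hj; omega
  set N : ℝ := ((n₀ + 2 * j : ℤ) : ℝ) with hN
  have hN1 : 1 ≤ N := by rw [hN]; exact_mod_cast hj1
  have hNbig : A * (8 * C₁ ^ 2) + 1 ≤ N := by
    have : ((N₀ : ℝ) + 1) ≤ N := by rw [hN]; exact_mod_cast hj
    linarith
  set T := Real.log (8 * N) / 2 with hT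
  have hT1 : 1 ≤ T := one_le_logT hN1
  obtain ⟨K₁, hK₁⟩ := h.mass_beyond hm j hj1 T (cosh_log hN1)
  -- main inequality for every ε
  have main : ∀ ε : ℝ, 0 < ε → 1 / (8 * C₁ ^ 2) - ε * T ≤
      ∫ t in (1 : ℝ)..T, (P α c j t + P α c (j - 1) t) / 2 := by
    intro ε hε
    obtain ⟨K₂, hK₂⟩ := h.P_bound T ε hε
    obtain ⟨K, hKdef⟩ : ∃ K : ℤ, K = max (max (K₁ : ℤ) K₂) (max j 0) := ⟨_, rfl⟩
    have hK1 : (K₁ : ℤ) ≤ K := by omega
    have hK2 : (K₂ : ℤ) ≤ |K| := le_trans (by omega) (le_abs_self K)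
    have hjK : j ≤ K := by omega
    rw [h.flux_integral hjK]
    have e1 := hK₁ K hK1
    have e2 := h.P_int_bound (K := K) (a := 1) (b := T) (T := T) (ε := ε)
      (by rw [abs_one]; exact hT1) (by rw [abs_of_nonneg (by linarith)]) (hK₂ K hK2)
    have e3 : ‖c j 1‖ ^ 2 / 2 + ∑ k ∈ Finset.Ioc j K, ‖c k 1‖ ^ 2 ≤ 1 / (8 * C₁ ^ 2) := by
      have q := h.quad (Finset.Icc j K) 0 1
      simp only [mul_zero, zero_mul, ne_eq, OfNat.ofNat_ne_zero, not_false_eq_true, zero_pow,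
        add_zero] at q
      rw [← hA] at q
      have q2 : N * ∑ k ∈ Finset.Icc j K, ‖c k 1‖ ^ 2 ≤ A := by
        refine le_trans ?_ q
        rw [Finset.mul_sum]
        refine Finset.sum_le_sum fun k hk => ?_
        rw [Finset.mem_Icc] at hk
        have : N ≤ ((n₀ + 2 * k : ℤ) : ℝ) := by
          rw [hN]; exact_mod_cast (by omega : n₀ + 2 * j ≤ n₀ + 2 * k)
        have : N ≤ ((n₀ + 2 * k : ℤ) : ℝ) ^ 2 := by nlinarith
        gcongr
      have hI : Finset.Icc j K = insert j (Finset.Ioc j K) := by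
        ext x; simp only [Finset.mem_Icc, Finset.mem_Ioc, Finset.mem_insert]; omega
      have hn : j ∉ Finset.Ioc j K := by simp
      rw [hI, Finset.sum_insert hn] at q2
      have hS : 0 ≤ ∑ k ∈ Finset.Ioc j K, ‖c k 1‖ ^ 2 := Finset.sum_nonneg fun _ _ => by positivity
      have hq : 0 ≤ ‖c j 1‖ ^ 2 := by positivity
      have q3 : ‖c j 1‖ ^ 2 / 2 + ∑ k ∈ Finset.Ioc j K, ‖c k 1‖ ^ 2 ≤ A / N := by
        rw [le_div_iff₀ (by linarith)]
        nlinarith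
      refine q3.trans ?_
      rw [div_le_div_iff₀ (by linarith) (by positivity)]
      linarith
    have e4 := (abs_le.mp e2).1
    have e5 : |T - 1| ≤ T := by rw [abs_of_nonneg (by linarith)]; linarith
    have e6 : ε * |T - 1| ≤ ε * T := by gcongr
    have e7 : 1 / (4 * C₁ ^ 2) = 1 / (8 * C₁ ^ 2) + 1 / (8 * C₁ ^ 2) := by field_simp; norm_num
    have e8 : 0 ≤ ‖c j T‖ ^ 2 := by positivity
    linarith
  have main2 : 1 / (8 * C₁ ^ 2) ≤ ∫ t in (1 : ℝ)..T, (P α c j t + P α c (j - 1) t) / 2 := by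
    refine le_of_forall_pos_le_add fun δ hδ => ?_
    have := main (δ / T) (by positivity)
    rw [div_mul_cancel₀ _ (by linarith)] at this
    linarith
  have hle : ∫ t in (1 : ℝ)..T, (P α c j t + P α c (j - 1) t) / 2 ≤
      ∫ t in (1 : ℝ)..T, 2 * N * ‖c j t‖ ^ 2 := by
    refine intervalIntegral.integral_mono_on hT1 ?_ ?_ ?_
    · exact (((h.continuous_P j).add (h.continuous_P (j - 1))).div_const 2).intervalIntegrable _ _
    · exact ((h.continuous_q j).const_mul (2 * N)).intervalIntegrable _ _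
    · intro t ht
      rw [h.g_eq j (by linarith [ht.1])]
      have hs : 0 < Real.sinh (2 * t) := Real.sinh_pos_iff.mpr (by linarith [ht.1])
      have hm0 : (1 : ℝ) ≤ m := by exact_mod_cast hm
      have : (((n₀ + 2 * j : ℤ) : ℝ) * Real.cosh (2 * t) - m) / Real.sinh (2 * t) ≤ 2 * N := by
        rw [div_le_iff₀ hs, ← hN]
        have := cosh_le_two_sinh ht.1
        nlinarith
      gcongr
  rw [intervalIntegral.integral_const_mul] at hle
  rw [div_le_iff₀ (by linarith)]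
  have e9 : 1 / (8 * C₁ ^ 2) = 2 * (1 / (16 * C₁ ^ 2)) := by field_simp; norm_num
  nlinarith

/-- the upper bound -/
lemma upper (h : Core n₀ α m c C₀ C₁) (j : ℤ) (hj1 : 1 ≤ n₀ + 2 * j) (hj : 2 * m ≤ n₀ + 2 * j)
    (T : ℝ) (hT : 1 ≤ T) :
    ∫ t in (1 : ℝ)..T, ‖c j t‖ ^ 2 ≤ 4 / ((n₀ + 2 * j : ℤ) : ℝ) := by
  set N : ℝ := ((n₀ + 2 * j : ℤ) : ℝ) with hN
  have hN1 : 1 ≤ N := by rw [hN]; exact_mod_cast hj1
  obtain ⟨K₂, hK₂⟩ := h.P_bound T (1 / T) (by positivity)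
  obtain ⟨K, hKdef⟩ : ∃ K : ℤ, K = max (K₂ : ℤ) (max j 0) := ⟨_, rfl⟩
  have hK2 : (K₂ : ℤ) ≤ |K| := le_trans (by omega) (le_abs_self K)
  have hjK : j ≤ K := by omega
  have e0 := h.flux_integral hjK 1 T
  have e2 := h.P_int_bound (K := K) (a := 1) (b := T) (T := T) (ε := 1 / T)
      (by rw [abs_one]; exact hT) (by rw [abs_of_nonneg (by linarith)]) (hK₂ K hK2)
  have e5 : 1 / T * |T - 1| ≤ 1 := by
    rw [abs_of_nonneg (by linarith), one_div, inv_mul_le_iff₀ (by linarith)]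
    linarith
  have e6 : ‖c j T‖ ^ 2 / 2 + ∑ k ∈ Finset.Ioc j K, ‖c k T‖ ^ 2 ≤ 1 := by
    have q := h.mass (Finset.Icc j K) T
    have hI : Finset.Icc j K = insert j (Finset.Ioc j K) := by
      ext x; simp only [Finset.mem_Icc, Finset.mem_Ioc, Finset.mem_insert]; omega
    have hn : j ∉ Finset.Ioc j K := by simp
    rw [hI, Finset.sum_insert hn] at q
    have hq : 0 ≤ ‖c j T‖ ^ 2 := by positivity
    linarith
  have e7 : 0 ≤ ‖c j 1‖ ^ 2 / 2 + ∑ k ∈ Finset.Ioc j K, ‖c k 1‖ ^ 2 := by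
    have : 0 ≤ ∑ k ∈ Finset.Ioc j K, ‖c k 1‖ ^ 2 := Finset.sum_nonneg fun _ _ => by positivity
    positivity
  have e8 : ∫ t in (1 : ℝ)..T, (P α c j t + P α c (j - 1) t) / 2 ≤ 2 := by
    have := (abs_le.mp (e2.trans e5)).2
    linarith
  have hle : ∫ t in (1 : ℝ)..T, N / 2 * ‖c j t‖ ^ 2 ≤
      ∫ t in (1 : ℝ)..T, (P α c j t + P α c (j - 1) t) / 2 := by
    refine intervalIntegral.integral_mono_on hT ?_ ?_ ?_
    · exact ((h.continuous_q j).const_mul (N / 2)).intervalIntegrable _ _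
    · exact (((h.continuous_P j).add (h.continuous_P (j - 1))).div_const 2).intervalIntegrable _ _
    · intro t ht
      rw [h.g_eq j (by linarith [ht.1])]
      have hs : 0 < Real.sinh (2 * t) := Real.sinh_pos_iff.mpr (by linarith [ht.1])
      have hm0 : 2 * (m : ℝ) ≤ N := by rw [hN]; exact_mod_cast hj
      have : N / 2 ≤ (((n₀ + 2 * j : ℤ) : ℝ) * Real.cosh (2 * t) - m) / Real.sinh (2 * t) := by
        rw [le_div_iff₀ hs, ← hN]
        have h1 : Real.sinh (2 * t) ≤ Real.cosh (2 * t) := (Real.sinh_lt_cosh _).le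
        have h2 : 1 ≤ Real.cosh (2 * t) := Real.one_le_cosh _
        nlinarith
      gcongr
  rw [intervalIntegral.integral_const_mul] at hle
  rw [le_div_iff₀ (by linarith)]
  nlinarith

end Core

end AutNorm
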