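import Mathlib

/-!
# Definitions for MP_bb0caf_al

`G = SL(2,ℝ)`, `sl(2,ℝ)`, Harish-Chandra modules, globalizations, the set `Norm(V)`,
Sobolev shifts of norms, the pseudometric `d`, and the automorphic norm `p_aut`.
-/

open Filter Topology

universe u v

namespace AutNorm

/-- The group `G = SL(2,ℝ)`; its topology is the one induced from the real 2×2 matrices. -/
abbrev G : Type := Matrix.SpecialLinearGroup (Fin 2) ℝ

/-- The Lie algebra `sl(2,ℝ)` of real traceless 2×2 matrices. -/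
abbrev Lie2 : Type := LieAlgebra.SpecialLinear.sl (Fin 2) ℝ

/-- `γ` is the one-parameter subgroup `t ↦ exp(tX)` of `G`: a homomorphism `ℝ → G` with
velocity `X` at `t = 0`. -/
structure IsOneParam (X : Lie2) (γ : ℝ → G) : Prop where
  map_add : ∀ s t : ℝ, γ (s + t) = γ s * γ t
  hasDerivAt : ∀ i j : Fin 2, HasDerivAt (fun t : ℝ => (γ t).1 i j) (X.1 i j) 0

/-- The generator `W = [[0,1],[-1,0]]` of the maximal compact subgroup `K = SO(2)`;
`exp(θW)` is the rotation `k_θ = [[cos θ, sin θ],[-sin θ, cos θ]]`. -/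
def W : Lie2 :=
  ⟨!![0, 1; -1, 0], by
    show _ ∈ LinearMap.ker _
    simp [Matrix.trace_fin_two]⟩

/-- A complex vector space `V` with a complex-linear action of the real Lie algebra
`sl(2,ℝ)`. -/
structure LieMod (V : Type u) [AddCommGroup V] [Module ℂ V] where
  /-- the action of `X` on `V` -/
  act : Lie2 → V →ₗ[ℂ] V
  act_add : ∀ X Y : Lie2, act (X + Y) = act X + act Y
  act_smul : ∀ (r : ℝ) (X : Lie2), act (r • X) = (r : ℂ) • act X
  act_lie : ∀ X Y : Lie2, act ⁅X, Y⁆ = act X ∘ₗ act Y - act Y ∘ₗ act X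

variable {V : Type u} [AddCommGroup V] [Module ℂ V]

namespace LieMod

/-- The `K`-type `V_n`: the vectors on which `k_θ = exp(θW)` acts by `e^{inθ}`, that is
`W v = i n v`. -/
def kType (M : LieMod V) (n : ℤ) : Submodule ℂ V :=
  LinearMap.ker (M.act W - ((n : ℂ) * Complex.I) • LinearMap.id)

/-- `V` is a Harish-Chandra module (admissible `(𝔤,K)`-module): it is the sum of its
`K`-types and these are finite-dimensional. -/
structure IsHarishChandra (M : LieMod V) : Prop where
  finiteDimensional : ∀ n : ℤ, FiniteDimensional ℂ (M.kType n)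
  iSup_eq_top : ⨆ n : ℤ, M.kType n = ⊤

/-- `V` is irreducible. -/
structure IsIrreducible (M : LieMod V) : Prop where
  nonzero : ∃ v : V, v ≠ 0
  eq_bot_or_top : ∀ U : Submodule ℂ V, (∀ X : Lie2, ∀ v ∈ U, M.act X v ∈ U) → U = ⊥ ∨ U = ⊤

/-- A globalization of `V`: a continuous representation `π` of `G` on a topological vector
space `E` and an embedding `j : V → E` with dense image that intertwines the actions of the
Lie algebra, i.e. `d/dt π(exp tX) j(v) = j(X v)` at `t = 0`. The smooth Frechet globalization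
`V^∞` is one example. -/
structure IsGlobalization (M : LieMod V) {E : Type v} [AddCommGroup E] [Module ℂ E]
    [TopologicalSpace E] (π : G →* (E →L[ℂ] E)) (j : V →ₗ[ℂ] E) : Prop where
  continuous : Continuous fun x : G × E => π x.1 x.2
  injective : Function.Injective j
  denseRange : DenseRange j
  deriv : ∀ (X : Lie2) (γ : ℝ → G), IsOneParam X γ → ∀ v : V,
    Tendsto (fun t : ℝ => ((t : ℂ)⁻¹) • (π (γ t) (j v) - j v)) (𝓝[≠] 0) (𝓝 (j (M.act X v)))

/-- `p ∈ Norm(V)`: `p` is a `G`-continuous norm on `V` with bounded growth function. That is,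
the completion `E` of `(V, p)` (a Banach space `E` with a linear isometric embedding `j` of
`(V, p)` with dense image) carries a continuous action `π` of `G` that makes it a globalization
of `V`, and the growth function `w_p(g) = ‖π(g)‖` is bounded on `G`. As `j(V)` is dense and the
`K`-types of `V` are finite-dimensional, the `K`-finite vectors of `E` are then exactly `j(V)`. -/
def MemNorm (M : LieMod V) (p : V → ℝ) : Prop :=
  ∃ (E : Type u) (_ : NormedAddCommGroup E) (_ : NormedSpace ℂ E) (_ : CompleteSpace E)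
    (π : G →* (E →L[ℂ] E)) (j : V →ₗ[ℂ] E),
    M.IsGlobalization π j ∧ (∀ v, ‖j v‖ = p v) ∧ ∃ C : ℝ, ∀ g x, ‖π g x‖ ≤ C * ‖x‖

/-- `p ≲ q_s`, where `q_s(∑ v_n) = q(∑ (1+n²)^{s/2} v_n)` for `v_n ∈ V_n`. -/
def LESobolev (M : LieMod V) (p q : V → ℝ) (s : ℝ) : Prop :=
  ∃ C : ℝ, 0 < C ∧ ∀ c : ℤ →₀ V, (∀ n, c n ∈ M.kType n) →
    p (c.sum fun _ x => x) ≤
      C * q (c.sum fun n x => (((1 + (n : ℝ) ^ 2) ^ (s / 2) : ℝ) : ℂ) • x)

/-- `d_→([p],[q]) = inf {s ≥ 0 : p ≲ q_s}`. -/
noncomputable def dArrow (M : LieMod V) (p q : V → ℝ) : ℝ :=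
  sInf {s : ℝ | 0 ≤ s ∧ M.LESobolev p q s}

/-- `d([p],[q]) = max (d_→([p],[q])) (d_→([q],[p]))`. -/
noncomputable def dNorm (M : LieMod V) (p q : V → ℝ) : ℝ :=
  max (M.dArrow p q) (M.dArrow q p)

/-- `p` represents the maximal class `[p_max]` of `Norm(V)`. -/
def IsMaxNorm (M : LieMod V) (p : V → ℝ) : Prop :=
  M.MemNorm p ∧ ∀ q : V → ℝ, M.MemNorm q → ∃ C : ℝ, 0 < C ∧ ∀ v, q v ≤ C * p v

end LieMod

/-- The automorphic norm `p_aut(v) = sup_{Γg ∈ Γ\G} |η(g·v)|`. -/
noncomputable def pAut {E : Type v} [AddCommGroup E] [Module ℂ E] [TopologicalSpace E]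
    (π : G →* (E →L[ℂ] E)) (j : V →ₗ[ℂ] E) (η : E →L[ℂ] ℂ) (v : V) : ℝ :=
  ⨆ g : G, ‖η (π g (j v))‖

end AutNorm
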