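import Pool.Agent.Helper57.AN.U3

/-! Expansion of `Φ(e_i)(g h)` in the `Φ(e_j)(g)`. -/

open Filter Topology ComplexConjugate MeasureTheory

universe u v

namespace AutNorm

variable {V : Type u} [NormedAddCommGroup V] [InnerProductSpace ℂ V]
variable {M : LieMod V} {mc : V → V →ₗ[ℂ] (G → ℂ)}

lemma norm_comp_ZZ_le (M : LieMod V) (L : V →ₗ[ℂ] V) (t : ℝ) (v : V) :
    ‖L (M.act (ZZ t) v)‖ ≤ Real.cosh (2 * t) * (‖L (M.act W v)‖ + ‖L (M.act LB v)‖) := by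
  rw [act_ZZ, map_sub, map_smul, map_smul]
  refine (norm_sub_le _ _).trans ?_
  rw [norm_smul, norm_smul, Complex.norm_real, Complex.norm_real, Real.norm_eq_abs,
    Real.norm_eq_abs, abs_of_pos (Real.cosh_pos _)]
  have : |Real.sinh (2 * t)| ≤ Real.cosh (2 * t) := by
    rw [abs_le]
    have h1 := (Real.sinh_lt_cosh (2 * t)).le
    have h2 := (Real.sinh_lt_cosh (-(2 * t))).le
    rw [Real.sinh_neg, Real.cosh_neg] at h2
    constructor <;> linarith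
  have h3 : |Real.sinh (2 * t)| * ‖L (M.act LB v)‖ ≤ Real.cosh (2 * t) * ‖L (M.act LB v)‖ := by
    gcongr
  linarith

lemma norm_ZZ3_le (M : LieMod V) (v : V) (T : ℝ) : ∃ D : ℝ, 0 ≤ D ∧ ∀ t : ℝ, |t| ≤ T →
    ‖M.act (ZZ t) (M.act (ZZ t) (M.act (ZZ t) v))‖ ≤ D := by
  set P := M.act W with hP
  set Q := M.act LB with hQ
  set D0 : ℝ := (‖P (P (P v))‖ + ‖P (P (Q v))‖) + (‖P (Q (P v))‖ + ‖P (Q (Q v))‖) +
    ((‖Q (P (P v))‖ + ‖Q (P (Q v))‖) + (‖Q (Q (P v))‖ + ‖Q (Q (Q v))‖)) with hD0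
  refine ⟨Real.cosh (2 * T) ^ 3 * D0, by positivity, fun t ht => ?_⟩
  have hcosh : Real.cosh (2 * t) ≤ Real.cosh (2 * T) := by
    rw [Real.cosh_le_cosh, abs_mul, abs_mul]
    have : |t| ≤ |T| := ht.trans (le_abs_self T)
    gcongr
  have hc0 : 0 ≤ Real.cosh (2 * t) := (Real.cosh_pos _).le
  set c := Real.cosh (2 * t) with hc
  set Z := M.act (ZZ t) with hZ
  have a1 : ‖Z (Z (Z v))‖ ≤ c * (‖P (Z (Z v))‖ + ‖Q (Z (Z v))‖) :=
    norm_comp_ZZ_le M LinearMap.id t (Z (Z v))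
  have b1 : ‖P (Z (Z v))‖ ≤ c * (‖P (P (Z v))‖ + ‖P (Q (Z v))‖) :=
    norm_comp_ZZ_le M P t (Z v)
  have b2 : ‖Q (Z (Z v))‖ ≤ c * (‖Q (P (Z v))‖ + ‖Q (Q (Z v))‖) :=
    norm_comp_ZZ_le M Q t (Z v)
  have c1 : ‖P (P (Z v))‖ ≤ c * (‖P (P (P v))‖ + ‖P (P (Q v))‖) :=
    norm_comp_ZZ_le M (P ∘ₗ P) t v
  have c2 : ‖P (Q (Z v))‖ ≤ c * (‖P (Q (P v))‖ + ‖P (Q (Q v))‖) :=
    norm_comp_ZZ_le M (P ∘ₗ Q) t v
  have c3 : ‖Q (P (Z v))‖ ≤ c * (‖Q (P (P v))‖ + ‖Q (P (Q v))‖) :=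
    norm_comp_ZZ_le M (Q ∘ₗ P) t v
  have c4 : ‖Q (Q (Z v))‖ ≤ c * (‖Q (Q (P v))‖ + ‖Q (Q (Q v))‖) :=
    norm_comp_ZZ_le M (Q ∘ₗ Q) t v
  have h1 : ‖Z (Z (Z v))‖ ≤ c * (c * (c * (‖P (P (P v))‖ + ‖P (P (Q v))‖) +
      c * (‖P (Q (P v))‖ + ‖P (Q (Q v))‖)) + c * (c * (‖Q (P (P v))‖ + ‖Q (P (Q v))‖) +
      c * (‖Q (Q (P v))‖ + ‖Q (Q (Q v))‖))) := by
    refine a1.trans ?_
    gcongr
    · refine b1.trans ?_
      gcongr
    · refine b2.trans ?_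
      gcongr
  have h2 : c * (c * (c * (‖P (P (P v))‖ + ‖P (P (Q v))‖) +
      c * (‖P (Q (P v))‖ + ‖P (Q (Q v))‖)) + c * (c * (‖Q (P (P v))‖ + ‖Q (P (Q v))‖) +
      c * (‖Q (Q (P v))‖ + ‖Q (Q (Q v))‖))) = c ^ 3 * D0 := by rw [hD0]; ring
  rw [h2] at h1
  refine h1.trans ?_
  have : 0 ≤ D0 := by positivity
  gcongr

lemma decay3 (F : Frame M) (h : USys M mc) (i : ℤ) (T : ℝ) : ∃ D : ℝ, 0 ≤ D ∧ ∀ t : ℝ, |t| ≤ T →
    ∀ j, |(F.n j : ℝ)| ^ 3 * ‖F.c mc i j t‖ ≤ D := by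
  obtain ⟨D, hD, hb⟩ := norm_ZZ3_le M (F.e i) T
  refine ⟨D, hD, fun t ht j => ?_⟩
  have h1 : ∀ v, mc (F.e j) (M.act (ZZ t) v) (aa t) = ((F.n j : ℂ) * Complex.I) *
      mc (F.e j) v (aa t) := by
    intro v
    have := h.weight F j v (aa t)
    rwa [Ad_aa_inv_W] at this
  have h2 : mc (F.e j) (M.act (ZZ t) (M.act (ZZ t) (M.act (ZZ t) (F.e i)))) (aa t) =
      ((F.n j : ℂ) * Complex.I) ^ 3 * F.c mc i j t := by
    rw [h1, h1, h1, Frame.c]; ring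
  have h3 := h.bessel F.e F.orth F.norm_e {j} (M.act (ZZ t) (M.act (ZZ t) (M.act (ZZ t) (F.e i))))
    (aa t)
  rw [Finset.sum_singleton] at h3
  have h4 := abs_le_of_sq_le_sq' h3 (norm_nonneg _) |>.2
  rw [h2, norm_mul, norm_pow, norm_mul, Complex.norm_I, mul_one, Complex.norm_intCast] at h4
  exact h4.trans (hb t ht)

/-- Expansion along `a_t`. -/
lemma expA (F : Frame M) (h : USys M mc) (i : ℤ) (T : ℝ) :
    ∃ C : ℝ, 0 ≤ C ∧ ∃ K₀ : ℕ, 1 ≤ K₀ ∧ ∀ K : ℕ, K₀ ≤ K → ∀ Φ : V →ₗ[ℂ] (G → ℂ), OF M Φ →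
      ∀ B : ℝ, (∀ g, ‖Φ (F.e 0) g‖ ≤ B) → ∀ g, ∀ t : ℝ, |t| ≤ T →
        ‖Φ (F.e i) (g * aa t) - ∑ j ∈ Finset.Ioc (-(K : ℤ)) K, F.c mc i j t * Φ (F.e j) g‖ ≤
          C * B / K := by
  obtain ⟨D, hD, hdec⟩ := decay3 F h i T
  obtain ⟨Cp, hCp, hpoly⟩ := U_poly F h
  have hC₀ := F.C₀_nonneg
  refine ⟨2 * (F.C₀ * 2 * (2 * (Cp * 3) * D)) * |T|, by positivity, F.n₀.natAbs + i.natAbs + 2,
    by omega, fun K hK Φ hΦ B hB g t ht => ?_⟩
  have hB0 : 0 ≤ B := (norm_nonneg _).trans (hB 1)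
  have hKpos : (0 : ℝ) < K := by
    have : 0 < K := by omega
    exact_mod_cast this
  have hK1 : (1 : ℝ) ≤ K := by
    have : 1 ≤ K := by omega
    exact_mod_cast this
  -- boundary terms
  set R : ℤ → ℝ → ℂ := fun j s => F.α j * (F.c mc i (j + 1) s * Φ (F.e j) (g * aa (t - s)) +
    F.c mc i j s * Φ (F.e (j + 1)) (g * aa (t - s))) with hR
  set H : ℝ → ℂ := fun s => ∑ j ∈ Finset.Ioc (-(K : ℤ)) K,
    F.c mc i j s * Φ (F.e j) (g * aa (t - s)) with hH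
  have hd1 : ∀ j s, HasDerivAt (fun s => F.c mc i j s * Φ (F.e j) (g * aa (t - s)))
      (R (j - 1) s - R j s) s := by
    intro j s
    have a1 := h.deriv_right F i j s
    have a2 : HasDerivAt (fun s => Φ (F.e j) (g * aa (t - s)))
        (-(Φ (M.act LA (F.e j)) (g * aa (t - s)))) s := by
      have := (hΦ.der_at oneParam_aa (F.e j) g (t - s))
      have h2 := HasDerivAt.comp_const_sub t s this
      exact h2
    rw [F.actA, map_sub, map_smul, map_smul] at a2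
    refine (a1.mul a2).congr_deriv ?_
    simp only [hR, Pi.sub_apply, Pi.smul_apply, smul_eq_mul, sub_add_cancel]
    ring
  have hd2 : ∀ s, HasDerivAt H (R (-(K : ℤ)) s - R K s) s := by
    intro s
    have hgen : ∀ b : ℤ, -(K : ℤ) ≤ b → HasDerivAt (fun s => ∑ j ∈ Finset.Ioc (-(K : ℤ)) b,
        F.c mc i j s * Φ (F.e j) (g * aa (t - s))) (R (-(K : ℤ)) s - R b s) s := by
      intro b hb
      induction b, hb using Int.le_induction with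
      | base => simpa using hasDerivAt_const s (0 : ℂ)
      | succ b hab ih =>
        have hI : Finset.Ioc (-(K : ℤ)) (b + 1) = insert (b + 1) (Finset.Ioc (-(K : ℤ)) b) := by
          ext x; simp only [Finset.mem_Ioc, Finset.mem_insert]; omega
        have hn : (b + 1) ∉ Finset.Ioc (-(K : ℤ)) b := by simp
        simp only [hI, Finset.sum_insert hn]
        refine ((hd1 (b + 1) s).add ih).congr_deriv ?_
        simp
    exact hgen K (by omega)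
  -- decay of c
  have hc : ∀ j : ℤ, (K : ℤ) - 1 ≤ |j| → |j| ≤ K + 1 → F.n₀.natAbs + 1 ≤ |j| →
      ∀ s, |s| ≤ T → (K : ℝ) ^ 3 * ‖F.c mc i j s‖ ≤ D := by
    intro j hj1 hj2 hj3 s hs
    have h1 := hdec s hs j
    have h2 : (K : ℝ) ≤ |(F.n j : ℝ)| := by
      have : (K : ℤ) ≤ |F.n j| := by
        simp only [Frame.n]
        rcases abs_cases j with ⟨e1, e2⟩ | ⟨e1, e2⟩ <;>
          rcases abs_cases (F.n₀ + 2 * j) with ⟨e3, e4⟩ | ⟨e3, e4⟩ <;> omega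
      exact_mod_cast this
    have h3 : (K : ℝ) ^ 3 ≤ |(F.n j : ℝ)| ^ 3 := by gcongr
    exact (mul_le_mul_of_nonneg_right h3 (norm_nonneg _)).trans h1
  have hRb : ∀ j : ℤ, (j = K ∨ j = -(K : ℤ)) → ∀ s, |s| ≤ |t| →
      ‖R j s‖ ≤ F.C₀ * 2 * (2 * (Cp * 3) * D) * B / K := by
    intro j hj s hs
    have hs' : |s| ≤ T := hs.trans ht
    have hjK : |(j : ℝ)| = K := by
      rcases hj with rfl | rfl
      · simp
      · simp
    have hα : |F.α j| ≤ F.C₀ * (2 * K) := by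
      refine (F.bound j).trans ?_
      rw [hjK]
      gcongr
      linarith
    have hb1 : (K : ℤ) - 1 ≤ |j + 1| ∧ |j + 1| ≤ K + 1 ∧ F.n₀.natAbs + 1 ≤ |j + 1| := by
      rcases abs_cases (j + 1) with ⟨e1, e2⟩ | ⟨e1, e2⟩ <;> rcases hj with hj | hj <;>
        refine ⟨?_, ?_, ?_⟩ <;> omega
    have hb2 : (K : ℤ) - 1 ≤ |j| ∧ |j| ≤ K + 1 ∧ F.n₀.natAbs + 1 ≤ |j| := by
      rcases abs_cases j with ⟨e1, e2⟩ | ⟨e1, e2⟩ <;> rcases hj with hj | hj <;>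
        refine ⟨?_, ?_, ?_⟩ <;> omega
    have c1 : (K : ℝ) ^ 3 * ‖F.c mc i (j + 1) s‖ ≤ D :=
      hc (j + 1) hb1.1 hb1.2.1 hb1.2.2 s hs'
    have c2 : (K : ℝ) ^ 3 * ‖F.c mc i j s‖ ≤ D :=
      hc j hb2.1 hb2.2.1 hb2.2.2 s hs'
    have p1 : ‖Φ (F.e j) (g * aa (t - s))‖ ≤ Cp * B * (3 * K) := by
      refine (hpoly Φ hΦ B hB _ j).trans ?_
      rw [hjK]
      gcongr
      linarith
    have p2 : ‖Φ (F.e (j + 1)) (g * aa (t - s))‖ ≤ Cp * B * (3 * K) := by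
      refine (hpoly Φ hΦ B hB _ (j + 1)).trans ?_
      have : |((j + 1 : ℤ) : ℝ)| ≤ K + 1 := by
        push_cast
        refine (abs_add_le _ _).trans ?_
        rw [hjK, abs_one]
      gcongr
      linarith
    have hn : ‖R j s‖ ≤ |F.α j| * (‖F.c mc i (j + 1) s‖ * ‖Φ (F.e j) (g * aa (t - s))‖ +
        ‖F.c mc i j s‖ * ‖Φ (F.e (j + 1)) (g * aa (t - s))‖) := by
      simp only [hR]
      rw [norm_mul, Complex.norm_real, Real.norm_eq_abs]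
      gcongr
      refine (norm_add_le _ _).trans ?_
      rw [norm_mul, norm_mul]
    have hn2 : ‖R j s‖ ≤ F.C₀ * (2 * K) * (‖F.c mc i (j + 1) s‖ * (Cp * B * (3 * K)) +
        ‖F.c mc i j s‖ * (Cp * B * (3 * K))) := by
      refine hn.trans ?_
      gcongr
    rw [le_div_iff₀ hKpos]
    calc ‖R j s‖ * K ≤ F.C₀ * (2 * K) * (‖F.c mc i (j + 1) s‖ * (Cp * B * (3 * K)) +
        ‖F.c mc i j s‖ * (Cp * B * (3 * K))) * K := by gcongr
      _ = F.C₀ * 2 * (Cp * B * 3) * ((K : ℝ) ^ 3 * ‖F.c mc i (j + 1) s‖ +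
          (K : ℝ) ^ 3 * ‖F.c mc i j s‖) := by ring
      _ ≤ F.C₀ * 2 * (Cp * B * 3) * (D + D) := by gcongr
      _ = F.C₀ * 2 * (2 * (Cp * 3) * D) * B := by ring
  have hmv := Convex.norm_image_sub_le_of_norm_hasDerivWithin_le
    (f := H) (f' := fun s => R (-(K : ℤ)) s - R K s)
    (C := 2 * (F.C₀ * 2 * (2 * (Cp * 3) * D) * B / K)) (s := Set.uIcc 0 t) (x := t) (y := 0)
    (fun x _ => (hd2 x).hasDerivWithinAt)
    (fun x hx => by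
      have hx' : |x| ≤ |t| := by
        have := Set.abs_sub_left_of_mem_uIcc hx
        simpa using this
      have e1 := hRb (-(K : ℤ)) (Or.inr rfl) x hx'
      have e2 := hRb K (Or.inl rfl) x hx'
      refine (norm_sub_le _ _).trans ?_
      linarith)
    (convex_uIcc 0 t) Set.right_mem_uIcc Set.left_mem_uIcc
  have hH0 : H 0 = Φ (F.e i) (g * aa t) := by
    simp only [hH, sub_zero]
    rw [Finset.sum_eq_single i]
    · by_cases hi : F.e i = 0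
      · rw [hi]; simp
      · rw [Frame.c, aa_zero, h.one, F.inner_self hi, one_mul]
    · intro j _ hj
      rw [Frame.c, aa_zero, h.one, F.orth j i hj, zero_mul]
    · intro hi
      exfalso
      apply hi
      rw [Finset.mem_Ioc]
      omega
  have hHt : H t = ∑ j ∈ Finset.Ioc (-(K : ℤ)) K, F.c mc i j t * Φ (F.e j) g := by
    simp only [hH, sub_self, aa_zero, mul_one]
  rw [hH0, hHt] at hmv
  refine hmv.trans ?_
  rw [zero_sub, norm_neg, Real.norm_eq_abs]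
  have : |t| ≤ |T| := ht.trans (le_abs_self T)
  calc 2 * (F.C₀ * 2 * (2 * (Cp * 3) * D) * B / K) * |t| ≤
      2 * (F.C₀ * 2 * (2 * (Cp * 3) * D) * B / K) * |T| := by gcongr
    _ = _ := by ring

lemma USys.kk_left (h : USys M mc) (F : Frame M) (j : ℤ) (v : V) (θ : ℝ) (g : G) :
    mc (F.e j) v (kk θ * g) = Complex.exp (F.n j * θ * Complex.I) * mc (F.e j) v g := by
  rw [h.inv' (F.e j) v (kk θ * g), mul_inv_rev, ← kk_neg, (h.of v).kk_eq (F.actW' j), map_mul,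
    ← h.inv' (F.e j) v g, ← Complex.exp_conj]
  congr 2
  simp

/-- General expansion. -/
lemma expG (F : Frame M) (h : USys M mc) (i : ℤ) (T : ℝ) :
    ∃ C : ℝ, 0 ≤ C ∧ ∃ K₀ : ℕ, 1 ≤ K₀ ∧ ∀ K : ℕ, K₀ ≤ K → ∀ Φ : V →ₗ[ℂ] (G → ℂ), OF M Φ →
      ∀ B : ℝ, (∀ g, ‖Φ (F.e 0) g‖ ≤ B) → ∀ g, ∀ θ t φ : ℝ, |t| ≤ T →
        ‖Φ (F.e i) (g * (kk θ * aa t * kk φ)) - ∑ j ∈ Finset.Ioc (-(K : ℤ)) K,
          mc (F.e j) (F.e i) (kk θ * aa t * kk φ) * Φ (F.e j) g‖ ≤ C * B / K := by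
  obtain ⟨C, hC, K₀, hK₀, hE⟩ := expA F h i T
  refine ⟨C, hC, K₀, hK₀, fun K hK Φ hΦ B hB g θ t φ ht => ?_⟩
  have h1 := hE K hK Φ hΦ B hB (g * kk θ) t ht
  have h2 : Φ (F.e i) (g * (kk θ * aa t * kk φ)) =
      Complex.exp (F.n i * φ * Complex.I) * Φ (F.e i) (g * kk θ * aa t) := by
    rw [← hΦ.kk_eq (F.actW' i)]
    congr 1
    simp only [mul_assoc]
  have h3 : ∀ j, mc (F.e j) (F.e i) (kk θ * aa t * kk φ) * Φ (F.e j) g =
      Complex.exp (F.n i * φ * Complex.I) * (F.c mc i j t * Φ (F.e j) (g * kk θ)) := by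
    intro j
    rw [(h.of (F.e j)).kk_eq (F.actW' i), h.kk_left, hΦ.kk_eq (F.actW' j), Frame.c]
    ring
  rw [h2]
  simp only [h3]
  rw [← Finset.mul_sum, ← mul_sub, norm_mul]
  have h4 : ‖Complex.exp (F.n i * φ * Complex.I)‖ = 1 := by
    have : (F.n i : ℂ) * φ * Complex.I = ((F.n i * φ : ℝ) : ℂ) * Complex.I := by push_cast; ring
    rw [this, Complex.norm_exp_ofReal_mul_I]
  rw [h4, one_mul]
  exact h1

end AutNorm
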