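import Pool.Agent.Helper57.AN.CL2

/-! Topology of `G`, lattices, a bounded strict fundamental domain. -/

open Filter Topology MeasureTheory

namespace AutNorm

lemma isClosedEmbedding_val :
    Topology.IsClosedEmbedding (Subtype.val : G → Matrix (Fin 2) (Fin 2) ℝ) := by
  have h : IsClosed {A : Matrix (Fin 2) (Fin 2) ℝ | A.det = 1} := by
    have hc : Continuous (fun A : Matrix (Fin 2) (Fin 2) ℝ => A.det) :=
      Continuous.matrix_det continuous_id
    exact isClosed_eq hc continuous_const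
  exact h.isClosedEmbedding_subtypeVal

noncomputable instance instLCG : LocallyCompactSpace G := by
  haveI : LocallyCompactSpace (Matrix (Fin 2) (Fin 2) ℝ) :=
    inferInstanceAs (LocallyCompactSpace (Fin 2 → Fin 2 → ℝ))
  exact isClosedEmbedding_val.locallyCompactSpace

instance instSCG : SecondCountableTopology G := by
  haveI : SecondCountableTopology (Matrix (Fin 2) (Fin 2) ℝ) :=
    inferInstanceAs (SecondCountableTopology (Fin 2 → Fin 2 → ℝ))
  exact isClosedEmbedding_val.isEmbedding.secondCountableTopology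

/-- the Borel structure -/
instance instMSG : MeasurableSpace G := borel G

instance instBSG : BorelSpace G := ⟨rfl⟩

/-- compact boxes -/
noncomputable def boxG (T : ℝ) : Set G :=
  (fun p : ℝ × ℝ × ℝ => kk p.1 * aa p.2.1 * kk p.2.2) ''
    (Set.Icc 0 (2 * Real.pi) ×ˢ (Set.Icc 0 T ×ˢ Set.Icc 0 (2 * Real.pi)))

lemma isCompact_boxG (T : ℝ) : IsCompact (boxG T) := by
  refine IsCompact.image (isCompact_Icc.prod (isCompact_Icc.prod isCompact_Icc)) ?_
  exact ((continuous_kk.comp continuous_fst).mul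
    (continuous_aa.comp (continuous_fst.comp continuous_snd))).mul
    (continuous_kk.comp (continuous_snd.comp continuous_snd))

lemma kk_period (θ : ℝ) : ∃ θ' ∈ Set.Icc (0 : ℝ) (2 * Real.pi), kk θ = kk θ' := by
  have hpi : (0 : ℝ) < 2 * Real.pi := by positivity
  refine ⟨toIcoMod hpi 0 θ, ?_, ?_⟩
  · have := toIcoMod_mem_Ico hpi 0 θ
    rw [zero_add] at this
    exact ⟨this.1, this.2.le⟩
  · have h := self_sub_toIcoDiv_zsmul hpi 0 θ
    rw [← h]
    apply G_ext
    all_goals
      simp only [kk_00, kk_01, kk_10, kk_11, zsmul_eq_mul, Real.cos_sub_int_mul_two_pi,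
        Real.sin_sub_int_mul_two_pi]

lemma mem_boxG {T : ℝ} {g : G} (h : hs g ≤ T) : g ∈ boxG T := by
  obtain ⟨θ, t, φ, ht, rfl⟩ := cartan g
  obtain ⟨θ', hθ', e1⟩ := kk_period θ
  obtain ⟨φ', hφ', e2⟩ := kk_period φ
  refine ⟨(θ', t, φ'), ⟨hθ', ⟨ht, ?_⟩, hφ'⟩, ?_⟩
  · rw [hs_cartan] at h
    have h2 : Real.exp (2 * t) ≤ 2 * Real.cosh (2 * t) := by
      rw [Real.cosh_eq]; have := Real.exp_pos (-(2 * t)); linarith
    have h3 : 2 * t + 1 ≤ Real.exp (2 * t) := Real.add_one_le_exp _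
    simp only
    linarith
  · simp only [← e1, ← e2]

/-- sublevel sets are relatively compact -/
lemma isCompact_hs (n : ℝ) : IsCompact {g : G | hs g ≤ n} := by
  refine (isCompact_boxG n).of_isClosed_subset ?_ fun g hg => mem_boxG hg
  exact isClosed_le continuous_hs continuous_const

variable (Γ : Subgroup G)

lemma cocompact_bdd [CompactSpace (Quotient (QuotientGroup.rightRel Γ))] :
    ∃ n : ℕ, ∀ g : G, ∃ γ ∈ Γ, hs (γ * g) < n := by
  set q : G → Quotient (QuotientGroup.rightRel Γ) := Quotient.mk (QuotientGroup.rightRel Γ) with hq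
  have hopen : ∀ U : Set G, IsOpen U → IsOpen (q '' U) := by
    intro U hU
    have : q ⁻¹' (q '' U) = ⋃ γ : Γ, (fun g => (γ : G) * g) ⁻¹' U := by
      ext g
      simp only [Set.mem_preimage, Set.mem_image, Set.mem_iUnion]
      constructor
      · rintro ⟨u, hu, hug⟩
        have h1 : QuotientGroup.rightRel Γ u g := Quotient.exact hug
        rw [QuotientGroup.rightRel_apply] at h1
        refine ⟨⟨_, Γ.inv_mem h1⟩, ?_⟩
        simpa using hu
      · rintro ⟨γ, hγ⟩
        refine ⟨(γ : G) * g, hγ, ?_⟩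
        have h1 : QuotientGroup.rightRel Γ ((γ : G) * g) g := by
          rw [QuotientGroup.rightRel_apply]
          simp
        exact Quotient.sound h1
    have h2 : IsOpen (q ⁻¹' (q '' U)) := by
      rw [this]
      exact isOpen_iUnion fun γ => hU.preimage (continuous_const.mul continuous_id)
    exact h2
  have hc : IsCompact (Set.univ : Set (Quotient (QuotientGroup.rightRel Γ))) := isCompact_univ
  obtain ⟨n, hn⟩ := hc.elim_directed_cover (fun n : ℕ => q '' {g | hs g < n})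
    (fun n => hopen _ (isOpen_lt continuous_hs continuous_const)) (by
      intro x _
      obtain ⟨g, rfl⟩ := Quotient.exists_rep x
      obtain ⟨n, hn⟩ := exists_nat_gt (hs g)
      exact Set.mem_iUnion.mpr ⟨n, g, hn, rfl⟩) (by
      intro m n
      refine ⟨max m n, ?_, ?_⟩
      · apply Set.image_mono
        intro g hg
        simp only [Set.mem_setOf_eq] at hg ⊢
        have : (m : ℝ) ≤ ((max m n : ℕ) : ℝ) := by exact_mod_cast le_max_left m n
        linarith
      · apply Set.image_mono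
        intro g hg
        simp only [Set.mem_setOf_eq] at hg ⊢
        have : (n : ℝ) ≤ ((max m n : ℕ) : ℝ) := by exact_mod_cast le_max_right m n
        linarith)
  refine ⟨n, fun g => ?_⟩
  obtain ⟨u, hu, hug⟩ := hn (Set.mem_univ (q g))
  have h1 : QuotientGroup.rightRel Γ u g := Quotient.exact hug
  rw [QuotientGroup.rightRel_apply] at h1
  refine ⟨_, Γ.inv_mem h1, ?_⟩
  simpa using hu

lemma finite_inter [DiscreteTopology Γ] {K : Set G} (hK : IsCompact K) :
    {γ : Γ | (γ : G) ∈ K}.Finite := by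
  have h1 := Γ.tendsto_coe_cofinite_of_discrete (isDiscrete_iff_discreteTopology.mpr inferInstance)
  have h2 := h1 hK.compl_mem_cocompact
  have h3 : ((fun γ : Γ => (γ : G)) ⁻¹' Kᶜ) ∈ (cofinite : Filter Γ) := h2
  rw [mem_cofinite] at h3
  refine h3.subset fun γ hγ => ?_
  simpa using hγ

lemma small_nhd [DiscreteTopology Γ] : ∃ O : Set G, IsOpen O ∧ (1 : G) ∈ O ∧
    ∀ a ∈ O, ∀ b ∈ O, a * b⁻¹ ∈ Γ → a = b := by
  have h1 : ∃ V : Set G, IsOpen V ∧ V ∩ (Γ : Set G) = {1} := by
    have h2 : IsOpen ({1} : Set Γ) := isOpen_discrete _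
    rw [isOpen_induced_iff] at h2
    obtain ⟨V, hV, hV1⟩ := h2
    refine ⟨V, hV, ?_⟩
    ext g
    constructor
    · rintro ⟨hg1, hg2⟩
      have : (⟨g, hg2⟩ : Γ) ∈ ({1} : Set Γ) := by rw [← hV1]; exact hg1
      rw [Set.mem_singleton_iff] at this ⊢
      exact congrArg Subtype.val this
    · rintro rfl
      refine ⟨?_, Γ.one_mem⟩
      have : (1 : Γ) ∈ Subtype.val ⁻¹' V := by rw [hV1]; rfl
      exact this
  obtain ⟨V, hV, hV1⟩ := h1
  have h1V : (1 : G) ∈ V := by
    have : (1 : G) ∈ V ∩ (Γ : Set G) := by rw [hV1]; rfl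
    exact this.1
  obtain ⟨O, hO, h1O, hOV⟩ := exists_open_nhds_one_split (hV.mem_nhds h1V)
  refine ⟨O ∩ O⁻¹, hO.inter hO.inv, ⟨h1O, by simpa using h1O⟩, fun a ha b hb hab => ?_⟩
  have h3 : a * b⁻¹ ∈ V := hOV a ha.1 b⁻¹ (by simpa using hb.2)
  have h4 : a * b⁻¹ ∈ V ∩ (Γ : Set G) := ⟨h3, hab⟩
  rw [hV1, Set.mem_singleton_iff] at h4
  exact mul_inv_eq_one.mp h4

/-- a bounded strict measurable fundamental domain -/
lemma exists_domain [DiscreteTopology Γ] [CompactSpace (Quotient (QuotientGroup.rightRel Γ))] :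
    ∃ D : Set G, MeasurableSet D ∧ (∃ n : ℝ, ∀ g ∈ D, hs g ≤ n) ∧
      ∀ x : G, ∃! γ : Γ, (γ : G) * x ∈ D := by
  classical
  obtain ⟨n, hn⟩ := cocompact_bdd Γ
  obtain ⟨O, hO, h1O, hOΓ⟩ := small_nhd Γ
  set x : ℕ → G := TopologicalSpace.denseSeq G with hx
  set A : ℕ → Set G := fun i => (fun g => g * (x i)⁻¹) ⁻¹' O ∩ {g | hs g < n} with hA
  have hAopen : ∀ i, IsOpen (A i) := fun i =>
    (hO.preimage (continuous_id.mul continuous_const)).inter
      (isOpen_lt continuous_hs continuous_const)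
  have hcov : ∀ g : G, hs g < n → ∃ i, g ∈ A i := by
    intro g hg
    have hU : IsOpen ((fun y : G => g * y⁻¹) ⁻¹' O) :=
      hO.preimage (continuous_const.mul continuous_inv)
    obtain ⟨i, hi⟩ := (TopologicalSpace.denseRange_denseSeq G).exists_mem_open hU
      ⟨g, by simpa using h1O⟩
    exact ⟨i, hi, hg⟩
  set sat : ℕ → Set G := fun i => ⋃ γ : Γ, (fun g => (γ : G) * g) ⁻¹' (A i) with hsat
  have hsatopen : ∀ i, IsOpen (sat i) := fun i =>
    isOpen_iUnion fun γ => (hAopen i).preimage (continuous_const.mul continuous_id)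
  have hmemsat : ∀ i g, g ∈ sat i ↔ ∃ γ : Γ, (γ : G) * g ∈ A i := by
    intro i g
    simp only [hsat, Set.mem_iUnion, Set.mem_preimage]
  refine ⟨⋃ i, (A i ∩ ⋂ k ∈ Finset.range i, (sat k)ᶜ), ?_, ⟨n, ?_⟩, ?_⟩
  · refine MeasurableSet.iUnion fun i => (hAopen i).measurableSet.inter ?_
    exact Finset.measurableSet_biInter _ fun k _ => (hsatopen k).measurableSet.compl
  · intro g hg
    rw [Set.mem_iUnion] at hg
    obtain ⟨i, hi, _⟩ := hg
    exact le_of_lt hi.2
  · intro g
    have hex : ∃ i, ∃ γ : Γ, (γ : G) * g ∈ A i := by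
      obtain ⟨γ, hγ, hlt⟩ := hn g
      obtain ⟨i, hi⟩ := hcov _ hlt
      exact ⟨i, ⟨γ, hγ⟩, hi⟩
    obtain ⟨γ, hγ⟩ := Nat.find_spec hex
    refine ⟨γ, ?_, ?_⟩
    · simp only
      rw [Set.mem_iUnion]
      refine ⟨Nat.find hex, hγ, ?_⟩
      rw [Set.mem_iInter₂]
      intro k hk hmem
      rw [hmemsat] at hmem
      obtain ⟨γ', hγ'⟩ := hmem
      rw [Finset.mem_range] at hk
      refine Nat.find_min hex hk ⟨γ' * γ, ?_⟩
      rw [Subgroup.coe_mul, mul_assoc]
      exact hγ'
    · intro γ' hγ'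
      rw [Set.mem_iUnion] at hγ'
      obtain ⟨i, hi, hi2⟩ := hγ'
      have hle : Nat.find hex ≤ i := Nat.find_min' hex ⟨γ', hi⟩
      have hge : i ≤ Nat.find hex := by
        by_contra hlt
        rw [not_le] at hlt
        rw [Set.mem_iInter₂] at hi2
        refine hi2 (Nat.find hex) (Finset.mem_range.mpr hlt) ?_
        rw [hmemsat]
        refine ⟨γ * γ'⁻¹, ?_⟩
        rw [Subgroup.coe_mul, Subgroup.coe_inv, mul_assoc, inv_mul_cancel_left]
        exact hγ
      have heq : i = Nat.find hex := le_antisymm hge hle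
      rw [heq] at hi
      have h1 := hOΓ _ hi.1 _ hγ.1 (by
        have : (γ' : G) * g * (x (Nat.find hex))⁻¹ * ((γ : G) * g * (x (Nat.find hex))⁻¹)⁻¹ =
            γ' * (γ : G)⁻¹ := by group
        rw [this]
        exact Γ.mul_mem γ'.2 (Γ.inv_mem γ.2))
      have h2 : (γ' : G) * g = γ * g := mul_right_cancel h1
      exact Subtype.ext (mul_right_cancel h2)

end AutNorm
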