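import Pool.Agent.Helper57.AN.FD

/-! Integration over a bounded strict fundamental domain. -/

open Filter Topology MeasureTheory Pointwise

namespace AutNorm

/-- a bounded strict measurable fundamental domain -/
structure Dom (Γ : Subgroup G) (D : Set G) : Prop where
  meas : MeasurableSet D
  bdd : ∃ n : ℝ, ∀ g ∈ D, hs g ≤ n
  ex : ∀ x : G, ∃! γ : Γ, (γ : G) * x ∈ D

/-- Haar measure -/
noncomputable abbrev mG : Measure G := Measure.haar

variable {Γ : Subgroup G} {D : Set G}

namespace Dom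

lemma subset_compact (h : Dom Γ D) : ∃ B : Set G, IsCompact B ∧ D ⊆ B := by
  obtain ⟨n, hn⟩ := h.bdd
  exact ⟨_, isCompact_hs n, hn⟩

lemma measure_lt_top (h : Dom Γ D) : mG D < ⊤ := by
  obtain ⟨B, hB, hDB⟩ := h.subset_compact
  exact (measure_mono hDB).trans_lt hB.measure_lt_top

lemma integrableOn (h : Dom Γ D) {E : Type*} [NormedAddCommGroup E] {f : G → E}
    (hf : Continuous f) : IntegrableOn f D mG := by
  obtain ⟨B, hB, hDB⟩ := h.subset_compact
  exact (hf.continuousOn.integrableOn_compact hB).mono_set hDB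

lemma isFD (h : Dom Γ D) : IsFundamentalDomain Γ D mG := by
  refine IsFundamentalDomain.mk' h.meas.nullMeasurableSet fun x => ?_
  obtain ⟨γ, hγ, huniq⟩ := h.ex x
  exact ⟨γ, hγ, fun γ' hγ' => huniq γ' hγ'⟩

lemma translate (h : Dom Γ D) (g : G) : IsFundamentalDomain Γ ((fun y => y * g⁻¹) ⁻¹' D) mG := by
  refine IsFundamentalDomain.mk'
    (h.meas.preimage (measurable_mul_const g⁻¹)).nullMeasurableSet fun x => ?_
  obtain ⟨γ, hγ, huniq⟩ := h.ex (x * g⁻¹)
  refine ⟨γ, ?_, fun γ' hγ' => huniq γ' ?_⟩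
  · simp only [Subgroup.smul_def, smul_eq_mul, Set.mem_preimage]
    rw [mul_assoc]; exact hγ
  · simp only [Subgroup.smul_def, smul_eq_mul, Set.mem_preimage] at hγ'
    rw [← mul_assoc]; exact hγ'

lemma countable [DiscreteTopology Γ] : Countable Γ := by
  have : SecondCountableTopology Γ := inferInstance
  exact TopologicalSpace.separableSpace_iff_countable.mp inferInstance

lemma measure_ne_zero [DiscreteTopology Γ] (h : Dom Γ D) : mG D ≠ 0 := by
  haveI : Countable Γ := countable
  exact h.isFD.measure_ne_zero (NeZero.ne _)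

lemma map_eq [DiscreteTopology Γ] (h : Dom Γ D) (g : G) :
    Measure.map (fun x => x * g) (mG : Measure G) = mG := by
  haveI : Countable Γ := countable
  have h1 : Measure.map (fun x => x * g) (mG : Measure G) =
      Measure.haarScalarFactor (Measure.map (fun x => x * g) (mG : Measure G)) mG • mG :=
    Measure.isMulLeftInvariant_eq_smul _ _
  set c := Measure.haarScalarFactor (Measure.map (fun x => x * g) (mG : Measure G)) mG with hc
  have h2 : Measure.map (fun x => x * g) (mG : Measure G) ((fun y => y * g⁻¹) ⁻¹' D) = mG D := by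
    rw [Measure.map_apply (measurable_mul_const g) (h.meas.preimage (measurable_mul_const g⁻¹))]
    congr 1
    ext x
    simp
  have h3 : mG ((fun y => y * g⁻¹) ⁻¹' D) = mG D := (h.translate g).measure_eq h.isFD
  rw [h1, Measure.smul_apply, h3] at h2
  have h4 : (c : ENNReal) = 1 := by
    have h5 : (c : ENNReal) * mG D = 1 * mG D := by
      rw [one_mul]
      exact h2
    exact (ENNReal.mul_left_inj h.measure_ne_zero h.measure_lt_top.ne).mp h5
  have h6 : c = 1 := by exact_mod_cast h4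
  rw [h1, h6, one_smul]

lemma right_inv [DiscreteTopology Γ] (h : Dom Γ D) (g : G) {f : G → ℂ}
    (hf : ∀ γ ∈ Γ, ∀ x, f (γ * x) = f x) : ∫ x in D, f (x * g) ∂mG = ∫ x in D, f x ∂mG := by
  haveI : Countable Γ := countable
  have h1 : ∫ x in D, f (x * g) ∂mG =
      ∫ y in (fun y => y * g⁻¹) ⁻¹' D, f y ∂(Measure.map (fun x => x * g) (mG : Measure G)) := by
    have hemb : MeasurableEmbedding (fun x : G => x * g) := measurableEmbedding_mulRight g
    rw [hemb.setIntegral_map]
    congr 2
    ext x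
    simp
  rw [h1, h.map_eq g]
  refine (h.translate g).setIntegral_eq h.isFD fun γ x => ?_
  rw [Subgroup.smul_def, smul_eq_mul]
  exact hf γ γ.2 x

/-- integrals over compact sets are controlled by the integral over the domain -/
lemma compact_le [DiscreteTopology Γ] (h : Dom Γ D) {K : Set G} (hK : IsCompact K) :
    ∃ C : ℝ, 0 ≤ C ∧ ∀ f : G → ℝ, Continuous f → (∀ x, 0 ≤ f x) →
      (∀ γ ∈ Γ, ∀ x, f (γ * x) = f x) → ∫ x in K, f x ∂mG ≤ C * ∫ x in D, f x ∂mG := by
  classical
  obtain ⟨B, hB, hDB⟩ := h.subset_compact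
  have hfin := finite_inter Γ (hK.mul hB.inv)
  set S : Finset Γ := hfin.toFinset with hS
  refine ⟨S.card, by positivity, fun f hf hf0 hfΓ => ?_⟩
  set F : G → ℝ := D.indicator f with hF
  have hFint : Integrable F mG := (integrable_indicator_iff h.meas).mpr (h.integrableOn hf)
  have hF0 : ∀ x, 0 ≤ F x := fun x => Set.indicator_nonneg (fun y _ => hf0 y) x
  have hFγ : ∀ γ : Γ, Integrable (fun x => F ((γ : G)⁻¹ * x)) mG := fun γ =>
    hFint.comp_mul_left _
  have h1 : ∫ x in K, f x ∂mG ≤ ∫ x, ∑ γ ∈ S, F ((γ : G)⁻¹ * x) ∂mG := by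
    rw [← integral_indicator hK.isClosed.measurableSet]
    refine integral_mono ((integrable_indicator_iff hK.isClosed.measurableSet).mpr
      (hf.continuousOn.integrableOn_compact hK)) (integrable_finset_sum _ fun γ _ => hFγ γ)
      fun x => ?_
    by_cases hx : x ∈ K
    · rw [Set.indicator_of_mem hx]
      obtain ⟨γ, hγ, _⟩ := h.ex x
      have hmem : γ⁻¹ ∈ S := by
        rw [hS, Set.Finite.mem_toFinset]
        show ((γ⁻¹ : Γ) : G) ∈ K * B⁻¹
        refine ⟨x, hx, ((γ : G) * x)⁻¹, ?_, ?_⟩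
        · simpa using hDB hγ
        · simp
      have h2 : f x = F (((γ⁻¹ : Γ) : G)⁻¹ * x) := by
        rw [hF, Subgroup.coe_inv, inv_inv, Set.indicator_of_mem hγ]
        exact (hfΓ γ γ.2 x).symm
      rw [h2]
      exact Finset.single_le_sum (f := fun γ : Γ => F ((γ : G)⁻¹ * x)) (fun γ _ => hF0 _) hmem
    · rw [Set.indicator_of_notMem hx]
      exact Finset.sum_nonneg fun γ _ => hF0 _
  refine h1.trans (le_of_eq ?_)
  rw [integral_finset_sum _ fun γ _ => hFγ γ]
  have h3 : ∀ γ : Γ, ∫ x, F ((γ : G)⁻¹ * x) ∂mG = ∫ x in D, f x ∂mG := by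
    intro γ
    rw [integral_mul_left_eq_self F (γ : G)⁻¹, hF, integral_indicator h.meas]
  simp only [h3]
  rw [Finset.sum_const, nsmul_eq_mul]

/-- uniform version -/
lemma unif_le [DiscreteTopology Γ] [CompactSpace (Quotient (QuotientGroup.rightRel Γ))]
    (h : Dom Γ D) {U : Set G} (hU : IsCompact U) :
    ∃ C : ℝ, 0 ≤ C ∧ ∀ f : G → ℝ, Continuous f → (∀ x, 0 ≤ f x) →
      (∀ γ ∈ Γ, ∀ x, f (γ * x) = f x) → ∀ g, ∫ u in U, f (g * u) ∂mG ≤
        C * ∫ x in D, f x ∂mG := by
  obtain ⟨n, hn⟩ := cocompact_bdd Γ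
  set B : Set G := {g | hs g ≤ n} with hB
  have hBc : IsCompact B := isCompact_hs n
  obtain ⟨C, hC, hCf⟩ := h.compact_le (hBc.mul hU)
  refine ⟨C, hC, fun f hf hf0 hfΓ g => ?_⟩
  obtain ⟨γ, hγ, hlt⟩ := hn g
  set g' : G := γ * g with hg'
  have hg'B : g' ∈ B := le_of_lt hlt
  have e1 : ∀ u, f (g * u) = f (g' * u) := by
    intro u
    rw [hg', mul_assoc, hfΓ γ hγ]
  simp only [e1]
  refine le_trans ?_ (hCf f hf hf0 hfΓ)
  set F : G → ℝ := (B * U).indicator f with hF
  have hBU : MeasurableSet (B * U) := (hBc.mul hU).isClosed.measurableSet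
  have hFint : Integrable F mG := (integrable_indicator_iff hBU).mpr
    (hf.continuousOn.integrableOn_compact (hBc.mul hU))
  have e2 : ∫ x in B * U, f x ∂mG = ∫ x, F (g' * x) ∂mG := by
    rw [integral_mul_left_eq_self F g', hF, integral_indicator hBU]
  rw [e2, ← integral_indicator hU.isClosed.measurableSet]
  have hcont : Continuous (fun u => f (g' * u)) := hf.comp (continuous_const.mul continuous_id)
  refine integral_mono ((integrable_indicator_iff hU.isClosed.measurableSet).mpr
    (hcont.continuousOn.integrableOn_compact hU)) (hFint.comp_mul_left g') fun u => ?_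
  by_cases hu : u ∈ U
  · rw [Set.indicator_of_mem hu, hF, Set.indicator_of_mem]
    exact ⟨g', hg'B, u, hu, rfl⟩
  · rw [Set.indicator_of_notMem hu]
    exact Set.indicator_nonneg (fun y _ => hf0 y) _

/-- positivity -/
lemma eq_zero_of_integral [DiscreteTopology Γ]
    (h : Dom Γ D) {f : G → ℝ} (hf : Continuous f) (hf0 : ∀ x, 0 ≤ f x)
    (hfΓ : ∀ γ ∈ Γ, ∀ x, f (γ * x) = f x) (hint : ∫ x in D, f x ∂mG = 0) (x : G) : f x = 0 := by
  by_contra hne
  have hpos : 0 < f x := lt_of_le_of_ne (hf0 x) (Ne.symm hne)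
  set K : Set G := {g | hs g ≤ hs x + 1} with hK
  have hKc : IsCompact K := isCompact_hs _
  obtain ⟨C, hC, hCf⟩ := h.compact_le hKc
  have h1 := hCf f hf hf0 hfΓ
  rw [hint, mul_zero] at h1
  set O : Set G := {g | f x / 2 < f g} ∩ {g | hs g < hs x + 1} with hO
  have hOo : IsOpen O := (isOpen_lt continuous_const hf).inter (isOpen_lt continuous_hs
    continuous_const)
  have hxO : x ∈ O := by
    refine ⟨?_, ?_⟩
    · simp only [Set.mem_setOf_eq]; linarith
    · simp only [Set.mem_setOf_eq]; linarith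
  have hOK : O ⊆ K := fun g hg => by
    have := hg.2
    simp only [Set.mem_setOf_eq, hK] at this ⊢
    exact this.le
  have hOpos : 0 < mG O := hOo.measure_pos mG ⟨x, hxO⟩
  have hOfin : mG O < ⊤ := (measure_mono hOK).trans_lt hKc.measure_lt_top
  have hint2 : IntegrableOn f K mG := hf.continuousOn.integrableOn_compact hKc
  have h2 : ∫ _ in O, f x / 2 ∂mG ≤ ∫ g in O, f g ∂mG :=
    setIntegral_mono_on (integrableOn_const hOfin.ne) (hint2.mono_set hOK)
      hOo.measurableSet (fun g hg => le_of_lt hg.1)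
  have h3 : ∫ g in O, f g ∂mG ≤ ∫ g in K, f g ∂mG :=
    setIntegral_mono_set hint2 (ae_of_all _ hf0) (HasSubset.Subset.eventuallyLE hOK)
  rw [setIntegral_const, smul_eq_mul] at h2
  have h4 : 0 < (mG : Measure G).real O := ENNReal.toReal_pos hOpos.ne' hOfin.ne
  have h5 : 0 < (mG : Measure G).real O * (f x / 2) := by positivity
  linarith

end Dom

end AutNorm
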