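import Pool.Agent.Helper57.AN.Net2

/-! Sup norms over families of orbit families belong to `Norm(V)`. -/

open Filter Topology ComplexConjugate MeasureTheory ENNReal

universe u v

namespace AutNorm

section Gen

variable (X : Type u)

/-- bounded functions -/
abbrev LI : Type u := lp (fun _ : X => ℂ) ∞

variable {X}

/-- composition with a self-map -/
noncomputable def compL (σ : X → X) : LI X →L[ℂ] LI X :=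
  LinearMap.mkContinuous
    { toFun := fun f => ⟨fun x => (f : X → ℂ) (σ x), memℓp_infty (by
        refine ⟨‖f‖, ?_⟩
        rintro _ ⟨x, rfl⟩
        exact lp.norm_apply_le_norm (by simp) f _)⟩
      map_add' := fun f g => by
        apply lp.ext
        ext x
        simp [lp.coeFn_add]
      map_smul' := fun c f => by
        apply lp.ext
        ext x
        simp [lp.coeFn_smul] } 1 (fun f => by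
      rw [one_mul]
      refine lp.norm_le_of_forall_le (norm_nonneg _) fun x => ?_
      exact lp.norm_apply_le_norm (by simp) f _)

lemma compL_apply (σ : X → X) (f : LI X) (x : X) :
    (compL σ f : X → ℂ) x = (f : X → ℂ) (σ x) := rfl

lemma compL_norm_le (σ : X → X) (f : LI X) : ‖compL σ f‖ ≤ ‖f‖ := by
  refine lp.norm_le_of_forall_le (norm_nonneg _) fun x => ?_
  rw [compL_apply]
  exact lp.norm_apply_le_norm (by simp) f _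

lemma LI_ext {f g : LI X} (h : ∀ x, (f : X → ℂ) x = (g : X → ℂ) x) : f = g := by
  apply lp.ext
  ext x
  exact h x

end Gen

variable {V : Type u} [AddCommGroup V] [Module ℂ V]

/-- the embedding -/
noncomputable def jL (𝓕 : Set (V →ₗ[ℂ] (G → ℂ)))
    (hb : ∀ v, ∃ C : ℝ, ∀ Φ ∈ 𝓕, ∀ g, ‖Φ v g‖ ≤ C) : V →ₗ[ℂ] LI (𝓕 × G) where
  toFun v := ⟨fun x => x.1.1 v x.2, memℓp_infty (by
    obtain ⟨C, hC⟩ := hb v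
    refine ⟨C, ?_⟩
    rintro _ ⟨x, rfl⟩
    exact hC _ x.1.2 _)⟩
  map_add' v w := by
    apply LI_ext
    intro x
    simp [lp.coeFn_add]
  map_smul' c v := by
    apply LI_ext
    intro x
    simp [lp.coeFn_smul]

lemma jL_apply (𝓕 : Set (V →ₗ[ℂ] (G → ℂ))) (hb : ∀ v, ∃ C : ℝ, ∀ Φ ∈ 𝓕, ∀ g, ‖Φ v g‖ ≤ C)
    (v : V) (x : 𝓕 × G) : (jL 𝓕 hb v : 𝓕 × G → ℂ) x = x.1.1 v x.2 := rfl

/-- right translation -/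
noncomputable def rho (𝓕 : Set (V →ₗ[ℂ] (G → ℂ))) (h : G) : LI (𝓕 × G) →L[ℂ] LI (𝓕 × G) :=
  compL (fun x => (x.1, x.2 * h))

lemma rho_apply (𝓕 : Set (V →ₗ[ℂ] (G → ℂ))) (h : G) (f : LI (𝓕 × G)) (x : 𝓕 × G) :
    (rho 𝓕 h f : 𝓕 × G → ℂ) x = (f : 𝓕 × G → ℂ) (x.1, x.2 * h) := rfl

lemma rho_one (𝓕 : Set (V →ₗ[ℂ] (G → ℂ))) (f : LI (𝓕 × G)) : rho 𝓕 1 f = f := by
  apply LI_ext
  intro x
  rw [rho_apply, mul_one]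

lemma rho_mul (𝓕 : Set (V →ₗ[ℂ] (G → ℂ))) (a b : G) (f : LI (𝓕 × G)) :
    rho 𝓕 (a * b) f = rho 𝓕 a (rho 𝓕 b f) := by
  apply LI_ext
  intro x
  rw [rho_apply, rho_apply, rho_apply, mul_assoc]

/-- the completion -/
noncomputable def EE (𝓕 : Set (V →ₗ[ℂ] (G → ℂ)))
    (hb : ∀ v, ∃ C : ℝ, ∀ Φ ∈ 𝓕, ∀ g, ‖Φ v g‖ ≤ C) : Submodule ℂ (LI (𝓕 × G)) :=
  (LinearMap.range (jL 𝓕 hb)).topologicalClosure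

lemma jL_mem (𝓕 : Set (V →ₗ[ℂ] (G → ℂ))) (hb : ∀ v, ∃ C : ℝ, ∀ Φ ∈ 𝓕, ∀ g, ‖Φ v g‖ ≤ C)
    (v : V) : jL 𝓕 hb v ∈ EE 𝓕 hb :=
  Submodule.le_topologicalClosure _ ⟨v, rfl⟩

lemma rho_mem (𝓕 : Set (V →ₗ[ℂ] (G → ℂ))) (hb : ∀ v, ∃ C : ℝ, ∀ Φ ∈ 𝓕, ∀ g, ‖Φ v g‖ ≤ C)
    (h : G) (hj : ∀ v, rho 𝓕 h (jL 𝓕 hb v) ∈ EE 𝓕 hb) (x : LI (𝓕 × G)) (hx : x ∈ EE 𝓕 hb) :
    rho 𝓕 h x ∈ EE 𝓕 hb := by
  have hx' : x ∈ closure ((LinearMap.range (jL 𝓕 hb) : Submodule ℂ (LI (𝓕 × G))) :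
      Set (LI (𝓕 × G))) := hx
  have h1 : rho 𝓕 h x ∈ closure ((EE 𝓕 hb : Submodule ℂ (LI (𝓕 × G))) : Set (LI (𝓕 × G))) := by
    refine map_mem_closure (rho 𝓕 h).continuous hx' ?_
    rintro _ ⟨v, rfl⟩
    exact hj v
  have h2 : IsClosed ((EE 𝓕 hb : Submodule ℂ (LI (𝓕 × G))) : Set (LI (𝓕 × G))) :=
    Submodule.isClosed_topologicalClosure _
  rwa [h2.closure_eq] at h1

/-- the representation on the completion -/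
noncomputable def piE (𝓕 : Set (V →ₗ[ℂ] (G → ℂ)))
    (hb : ∀ v, ∃ C : ℝ, ∀ Φ ∈ 𝓕, ∀ g, ‖Φ v g‖ ≤ C)
    (hj : ∀ h v, rho 𝓕 h (jL 𝓕 hb v) ∈ EE 𝓕 hb) : G →* (EE 𝓕 hb →L[ℂ] EE 𝓕 hb) where
  toFun h := ((rho 𝓕 h).comp (EE 𝓕 hb).subtypeL).codRestrict (EE 𝓕 hb)
    (fun x => rho_mem 𝓕 hb h (hj h) x.1 x.2)
  map_one' := by
    ext1 x
    apply Subtype.ext
    exact rho_one 𝓕 x.1
  map_mul' a b := by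
    ext1 x
    apply Subtype.ext
    exact rho_mul 𝓕 a b x.1

lemma piE_apply (𝓕 : Set (V →ₗ[ℂ] (G → ℂ)))
    (hb : ∀ v, ∃ C : ℝ, ∀ Φ ∈ 𝓕, ∀ g, ‖Φ v g‖ ≤ C)
    (hj : ∀ h v, rho 𝓕 h (jL 𝓕 hb v) ∈ EE 𝓕 hb) (h : G) (x : EE 𝓕 hb) :
    (piE 𝓕 hb hj h x : LI (𝓕 × G)) = rho 𝓕 h x := rfl

/-- the embedding into the completion -/
noncomputable def jE (𝓕 : Set (V →ₗ[ℂ] (G → ℂ)))
    (hb : ∀ v, ∃ C : ℝ, ∀ Φ ∈ 𝓕, ∀ g, ‖Φ v g‖ ≤ C) : V →ₗ[ℂ] EE 𝓕 hb :=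
  (jL 𝓕 hb).codRestrict (EE 𝓕 hb) (jL_mem 𝓕 hb)

lemma jE_apply (𝓕 : Set (V →ₗ[ℂ] (G → ℂ)))
    (hb : ∀ v, ∃ C : ℝ, ∀ Φ ∈ 𝓕, ∀ g, ‖Φ v g‖ ≤ C) (v : V) :
    (jE 𝓕 hb v : LI (𝓕 × G)) = jL 𝓕 hb v := rfl

lemma denseRange_jE (𝓕 : Set (V →ₗ[ℂ] (G → ℂ)))
    (hb : ∀ v, ∃ C : ℝ, ∀ Φ ∈ 𝓕, ∀ g, ‖Φ v g‖ ≤ C) : DenseRange (jE 𝓕 hb) := by
  rintro ⟨x, hx⟩
  have hx' : x ∈ closure ((LinearMap.range (jL 𝓕 hb) : Submodule ℂ (LI (𝓕 × G))) :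
      Set (LI (𝓕 × G))) := hx
  rw [Metric.mem_closure_iff] at hx' ⊢
  intro ε hε
  obtain ⟨_, ⟨v, rfl⟩, hv⟩ := hx' ε hε
  exact ⟨jE 𝓕 hb v, ⟨v, rfl⟩, hv⟩

lemma norm_rho_le (𝓕 : Set (V →ₗ[ℂ] (G → ℂ))) (h : G) (f : LI (𝓕 × G)) :
    ‖rho 𝓕 h f‖ ≤ ‖f‖ := compL_norm_le _ _

/-- strong continuity from continuity at `1` on the image of `V` -/
lemma continuous_piE (𝓕 : Set (V →ₗ[ℂ] (G → ℂ)))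
    (hb : ∀ v, ∃ C : ℝ, ∀ Φ ∈ 𝓕, ∀ g, ‖Φ v g‖ ≤ C)
    (hj : ∀ h v, rho 𝓕 h (jL 𝓕 hb v) ∈ EE 𝓕 hb)
    (hc : ∀ v, Tendsto (fun h : G => ‖rho 𝓕 h (jL 𝓕 hb v) - jL 𝓕 hb v‖) (𝓝 1) (𝓝 0)) :
    Continuous fun x : G × EE 𝓕 hb => piE 𝓕 hb hj x.1 x.2 := by
  rw [continuous_iff_continuousAt]
  rintro ⟨h₀, x₀⟩
  rw [Metric.continuousAt_iff']
  intro ε hε
  obtain ⟨v, hv⟩ := Metric.denseRange_iff.mp (denseRange_jE 𝓕 hb) x₀ (ε / 4) (by positivity)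
  have h1 : ∀ᶠ h : G in 𝓝 h₀, ‖rho 𝓕 (h₀⁻¹ * h) (jL 𝓕 hb v) - jL 𝓕 hb v‖ < ε / 4 := by
    have h2 : Tendsto (fun h : G => h₀⁻¹ * h) (𝓝 h₀) (𝓝 1) := by
      have : Continuous (fun h : G => h₀⁻¹ * h) := continuous_const.mul continuous_id
      have h3 := this.tendsto h₀
      rwa [inv_mul_cancel] at h3
    have h4 := (hc v).comp h2
    exact h4.eventually (gt_mem_nhds (by positivity))
  have h2 : ∀ᶠ x : EE 𝓕 hb in 𝓝 x₀, dist x x₀ < ε / 4 := Metric.ball_mem_nhds _ (by positivity)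
  rw [nhds_prod_eq]
  filter_upwards [h1.prod_mk h2] with p hp
  obtain ⟨hp1, hp2⟩ := hp
  have e1 : dist (piE 𝓕 hb hj p.1 p.2) (piE 𝓕 hb hj h₀ x₀) =
      ‖rho 𝓕 p.1 p.2 - rho 𝓕 h₀ x₀‖ := by
    rw [Subtype.dist_eq, dist_eq_norm, piE_apply, piE_apply]
  have hv' : ‖(x₀ : LI (𝓕 × G)) - jL 𝓕 hb v‖ < ε / 4 := by
    rw [Subtype.dist_eq, dist_eq_norm] at hv
    exact hv
  have hp2' : ‖(p.2 : LI (𝓕 × G)) - x₀‖ < ε / 4 := by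
    rw [Subtype.dist_eq, dist_eq_norm] at hp2
    exact hp2
  have e2 : rho 𝓕 p.1 (p.2 : LI (𝓕 × G)) - rho 𝓕 h₀ (x₀ : LI (𝓕 × G)) =
      rho 𝓕 p.1 ((p.2 : LI (𝓕 × G)) - x₀) + rho 𝓕 p.1 ((x₀ : LI (𝓕 × G)) - jL 𝓕 hb v) +
      rho 𝓕 h₀ (rho 𝓕 (h₀⁻¹ * p.1) (jL 𝓕 hb v) - jL 𝓕 hb v) -
      rho 𝓕 h₀ ((x₀ : LI (𝓕 × G)) - jL 𝓕 hb v) := by
    have e3 : rho 𝓕 h₀ (rho 𝓕 (h₀⁻¹ * p.1) (jL 𝓕 hb v)) = rho 𝓕 p.1 (jL 𝓕 hb v) := by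
      rw [← rho_mul, mul_inv_cancel_left]
    simp only [map_sub]
    rw [e3]
    abel
  rw [e1, e2]
  have n1 := norm_rho_le 𝓕 p.1 ((p.2 : LI (𝓕 × G)) - x₀)
  have n2 := norm_rho_le 𝓕 p.1 ((x₀ : LI (𝓕 × G)) - jL 𝓕 hb v)
  have n3 := norm_rho_le 𝓕 h₀ (rho 𝓕 (h₀⁻¹ * p.1) (jL 𝓕 hb v) - jL 𝓕 hb v)
  have n4 := norm_rho_le 𝓕 h₀ ((x₀ : LI (𝓕 × G)) - jL 𝓕 hb v)
  calc ‖rho 𝓕 p.1 ((p.2 : LI (𝓕 × G)) - x₀) + rho 𝓕 p.1 ((x₀ : LI (𝓕 × G)) - jL 𝓕 hb v) +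
      rho 𝓕 h₀ (rho 𝓕 (h₀⁻¹ * p.1) (jL 𝓕 hb v) - jL 𝓕 hb v) -
      rho 𝓕 h₀ ((x₀ : LI (𝓕 × G)) - jL 𝓕 hb v)‖ ≤ ‖rho 𝓕 p.1 ((p.2 : LI (𝓕 × G)) - x₀)‖ +
      ‖rho 𝓕 p.1 ((x₀ : LI (𝓕 × G)) - jL 𝓕 hb v)‖ +
      ‖rho 𝓕 h₀ (rho 𝓕 (h₀⁻¹ * p.1) (jL 𝓕 hb v) - jL 𝓕 hb v)‖ +
      ‖rho 𝓕 h₀ ((x₀ : LI (𝓕 × G)) - jL 𝓕 hb v)‖ := by
        refine (norm_sub_le _ _).trans ?_
        gcongr
        refine (norm_add_le _ _).trans ?_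
        gcongr
        exact norm_add_le _ _
    _ < ε := by linarith

end AutNorm
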