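import Pool.Agent.Helper57.AN.GL

/-! Sup norms over families of orbit families belong to `Norm(V)`. -/

open Filter Topology ComplexConjugate MeasureTheory ENNReal

universe u v

namespace AutNorm

variable {V : Type u} [NormedAddCommGroup V] [InnerProductSpace ℂ V]
variable {M : LieMod V} {mc : V → V →ₗ[ℂ] (G → ℂ)}

lemma fam_bdd (F : Frame M) (h : USys M mc) (𝓕 : Set (V →ₗ[ℂ] (G → ℂ)))
    (hOF : ∀ Φ ∈ 𝓕, OF M Φ) (B : ℝ) (hB : ∀ Φ ∈ 𝓕, ∀ g, ‖Φ (F.e 0) g‖ ≤ B) (v : V) :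
    ∃ C : ℝ, ∀ Φ ∈ 𝓕, ∀ g, ‖Φ v g‖ ≤ C := by
  obtain ⟨C, hC, hp⟩ := U_poly F h
  have hv : v ∈ Submodule.span ℂ (Set.range F.e) := by rw [F.span]; trivial
  induction hv using Submodule.span_induction with
  | mem x hx =>
    obtain ⟨j, rfl⟩ := hx
    exact ⟨C * B * (1 + |(j : ℝ)|), fun Φ hΦ g => hp Φ (hOF Φ hΦ) B (hB Φ hΦ) g j⟩
  | zero => exact ⟨0, fun Φ _ g => by simp⟩
  | add x y _ _ hx hy =>
    obtain ⟨a, ha⟩ := hx
    obtain ⟨b, hb⟩ := hy
    refine ⟨a + b, fun Φ hΦ g => ?_⟩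
    rw [map_add, Pi.add_apply]
    exact (norm_add_le _ _).trans (add_le_add (ha Φ hΦ g) (hb Φ hΦ g))
  | smul c x _ hx =>
    obtain ⟨a, ha⟩ := hx
    refine ⟨‖c‖ * a, fun Φ hΦ g => ?_⟩
    rw [map_smul, Pi.smul_apply, norm_smul]
    have := ha Φ hΦ g
    gcongr

lemma fam_inv (F : Frame M) (h : USys M mc) (𝓕 : Set (V →ₗ[ℂ] (G → ℂ)))
    (hOF : ∀ Φ ∈ 𝓕, OF M Φ) (B : ℝ) (hB : ∀ Φ ∈ 𝓕, ∀ g, ‖Φ (F.e 0) g‖ ≤ B)
    (hb : ∀ v, ∃ C : ℝ, ∀ Φ ∈ 𝓕, ∀ g, ‖Φ v g‖ ≤ C) (k : G) (v : V) :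
    rho 𝓕 k (jL 𝓕 hb v) ∈ EE 𝓕 hb := by
  have hv : v ∈ Submodule.span ℂ (Set.range F.e) := by rw [F.span]; trivial
  induction hv using Submodule.span_induction with
  | mem x hx =>
    obtain ⟨i, rfl⟩ := hx
    obtain ⟨θ, t, φ, ht, rfl⟩ := cartan k
    obtain ⟨C, hC, K₀, hK₀, hE⟩ := expG F h i t
    set k : G := kk θ * aa t * kk φ with hk
    have hlim : Tendsto (fun K : ℕ => jL 𝓕 hb (∑ j ∈ Finset.Ioc (-(K : ℤ)) K,
        mc (F.e j) (F.e i) k • F.e j)) atTop (𝓝 (rho 𝓕 k (jL 𝓕 hb (F.e i)))) := by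
      rw [tendsto_iff_norm_sub_tendsto_zero]
      have h1 : Tendsto (fun K : ℕ => |C * B| / (K : ℝ)) atTop (𝓝 0) :=
        tendsto_const_div_atTop_nhds_zero_nat _
      refine squeeze_zero' (Eventually.of_forall fun _ => norm_nonneg _) ?_ h1
      filter_upwards [eventually_ge_atTop K₀] with K hK
      refine lp.norm_le_of_forall_le (by positivity) fun x => ?_
      have h2 := hE K hK x.1.1 (hOF _ x.1.2) B (hB _ x.1.2) x.2 θ t φ (by rw [abs_of_nonneg ht])
      rw [← hk] at h2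
      rw [lp.coeFn_sub, Pi.sub_apply, jL_apply, rho_apply, jL_apply, norm_sub_rev, map_sum,
        Finset.sum_apply]
      simp only [map_smul, Pi.smul_apply, smul_eq_mul]
      refine h2.trans ?_
      gcongr
      exact le_abs_self _
    have hcl : rho 𝓕 k (jL 𝓕 hb (F.e i)) ∈ closure
        ((LinearMap.range (jL 𝓕 hb) : Submodule ℂ (LI (𝓕 × G))) : Set (LI (𝓕 × G))) :=
      mem_closure_of_tendsto hlim (Eventually.of_forall fun K => ⟨_, rfl⟩)
    exact hcl
  | zero => rw [map_zero, map_zero]; exact Submodule.zero_mem _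
  | add x y _ _ hx hy => rw [map_add, map_add]; exact Submodule.add_mem _ hx hy
  | smul c x _ hx => rw [map_smul, map_smul]; exact Submodule.smul_mem _ _ hx

/-- modulus of continuity -/
noncomputable def modc (a b : ℝ) (g : G) : ℝ :=
  a * (Real.sqrt (hs g - 2) / 2) + b * (|(g.1 0 0 + g.1 1 1) / Real.sqrt (hs g + 2) - 1| +
    |(g.1 0 1 - g.1 1 0) / Real.sqrt (hs g + 2)|)

lemma hs_one : hs 1 = 2 := by
  simp [hs]
  norm_num

lemma modc_tendsto (a b : ℝ) : Tendsto (modc a b) (𝓝 1) (𝓝 0) := by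
  have h1 : modc a b 1 = 0 := by
    have hs4 : Real.sqrt 4 = 2 := by
      rw [show (4 : ℝ) = 2 ^ 2 by norm_num]
      exact Real.sqrt_sq (by norm_num)
    rw [modc, hs_one, show (2 : ℝ) + 2 = 4 by norm_num, hs4]
    norm_num
  have hne : Real.sqrt (hs 1 + 2) ≠ 0 := by
    rw [hs_one]
    have : (0 : ℝ) < 2 + 2 := by norm_num
    exact (Real.sqrt_pos.mpr this).ne'
  have h2 : ContinuousAt (modc a b) 1 := by
    have e : ∀ i j : Fin 2, ContinuousAt (fun g : G => g.1 i j) 1 := fun i j =>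
      (continuous_entry i j).continuousAt
    have ehs : ContinuousAt hs 1 := continuous_hs.continuousAt
    unfold modc
    refine ContinuousAt.add ?_ ?_
    · exact continuousAt_const.mul
        (((ehs.sub continuousAt_const).sqrt).div_const 2)
    · refine continuousAt_const.mul (ContinuousAt.add ?_ ?_)
      · exact ((((e 0 0).add (e 1 1)).div ((ehs.add continuousAt_const).sqrt) hne).sub
          continuousAt_const).abs
      · exact (((e 0 1).sub (e 1 0)).div ((ehs.add continuousAt_const).sqrt) hne).abs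
  have h3 := h2.tendsto
  rwa [h1] at h3

lemma norm_exp_int_sub_one (n : ℤ) (x : ℝ) :
    ‖Complex.exp ((n : ℂ) * x * Complex.I) - 1‖ ≤
      |(n : ℝ)| * (|Real.cos x - 1| + |Real.sin x|) := by
  have h1 : ‖Complex.exp (x * Complex.I) - 1‖ ≤ |Real.cos x - 1| + |Real.sin x| := by
    refine (Complex.norm_le_abs_re_add_abs_im _).trans (le_of_eq ?_)
    rw [Complex.sub_re, Complex.sub_im, Complex.exp_ofReal_mul_I_re, Complex.exp_ofReal_mul_I_im,
      Complex.one_re, Complex.one_im, sub_zero]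
  have hz : ‖Complex.exp (x * Complex.I)‖ = 1 := Complex.norm_exp_ofReal_mul_I x
  have key : ∀ m : ℕ, ‖Complex.exp (x * Complex.I) ^ m - 1‖ ≤
      m * ‖Complex.exp (x * Complex.I) - 1‖ := by
    intro m
    induction m with
    | zero => simp
    | succ m ih =>
      have e1 : Complex.exp (x * Complex.I) ^ (m + 1) - 1 =
          Complex.exp (x * Complex.I) ^ m * (Complex.exp (x * Complex.I) - 1) +
          (Complex.exp (x * Complex.I) ^ m - 1) := by ring
      rw [e1]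
      refine (norm_add_le _ _).trans ?_
      rw [norm_mul, norm_pow, hz, one_pow, one_mul]
      push_cast
      linarith
  have h2 : ‖Complex.exp ((n : ℂ) * x * Complex.I) - 1‖ ≤
      |(n : ℝ)| * ‖Complex.exp (x * Complex.I) - 1‖ := by
    rcases Int.eq_nat_or_neg n with ⟨m, rfl | rfl⟩
    · have e2 : Complex.exp (((m : ℤ) : ℂ) * x * Complex.I) = Complex.exp (x * Complex.I) ^ m := by
        rw [← Complex.exp_nat_mul]
        congr 1
        push_cast; ring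
      rw [e2]
      simpa using key m
    · have e2 : Complex.exp (((-(m : ℤ) : ℤ) : ℂ) * x * Complex.I) =
          (Complex.exp (x * Complex.I) ^ m)⁻¹ := by
        rw [← Complex.exp_nat_mul, ← Complex.exp_neg]
        congr 1
        push_cast; ring
      have hne : Complex.exp (x * Complex.I) ^ m ≠ 0 := pow_ne_zero _ (Complex.exp_ne_zero _)
      have e3 : (Complex.exp (x * Complex.I) ^ m)⁻¹ - 1 =
          -((Complex.exp (x * Complex.I) ^ m)⁻¹ * (Complex.exp (x * Complex.I) ^ m - 1)) := by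
        rw [mul_sub, inv_mul_cancel₀ hne]
        ring
      rw [e2, e3, norm_neg, norm_mul, norm_inv, norm_pow, hz, one_pow, inv_one, one_mul]
      simpa using key m
  refine h2.trans ?_
  gcongr

lemma fam_cont (F : Frame M) (𝓕 : Set (V →ₗ[ℂ] (G → ℂ)))
    (hOF : ∀ Φ ∈ 𝓕, OF M Φ)
    (hb : ∀ v, ∃ C : ℝ, ∀ Φ ∈ 𝓕, ∀ g, ‖Φ v g‖ ≤ C) (v : V) :
    Tendsto (fun k : G => ‖rho 𝓕 k (jL 𝓕 hb v) - jL 𝓕 hb v‖) (𝓝 1) (𝓝 0) := by
  have hv : v ∈ Submodule.span ℂ (Set.range F.e) := by rw [F.span]; trivial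
  induction hv using Submodule.span_induction with
  | mem x hx =>
    obtain ⟨i, rfl⟩ := hx
    obtain ⟨L, hL⟩ := hb (M.act LA (F.e i))
    obtain ⟨B, hB⟩ := hb (F.e i)
    refine squeeze_zero (fun _ => norm_nonneg _) ?_
      (modc_tendsto |L| (|B| * |(F.n i : ℝ)|))
    intro k
    have hbound : 0 ≤ modc |L| (|B| * |(F.n i : ℝ)|) k := by
      rw [modc]; positivity
    refine lp.norm_le_of_forall_le hbound fun y => ?_
    obtain ⟨⟨Φ, hΦ⟩, g⟩ := y
    rw [lp.coeFn_sub, Pi.sub_apply, rho_apply, jL_apply, jL_apply]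
    simp only
    obtain ⟨θ, t, φ, ht, rfl⟩ := cartan k
    have hΦ' := hOF Φ hΦ
    have e1 : Φ (F.e i) (g * (kk θ * aa t * kk φ)) =
        Complex.exp ((F.n i : ℂ) * φ * Complex.I) * Φ (F.e i) (g * kk θ * aa t) := by
      rw [← hΦ'.kk_eq (F.actW' i)]
      congr 1
      simp only [mul_assoc]
    have e2 : Φ (F.e i) (g * kk θ) = Complex.exp ((F.n i : ℂ) * θ * Complex.I) * Φ (F.e i) g :=
      hΦ'.kk_eq (F.actW' i) g θ
    have e3 := hΦ'.mvt oneParam_aa (F.e i) (C := |L|)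
      (fun x => (hL Φ hΦ x).trans (le_abs_self L)) (g * kk θ) t
    have e4 : Φ (F.e i) (g * (kk θ * aa t * kk φ)) - Φ (F.e i) g =
        Complex.exp ((F.n i : ℂ) * φ * Complex.I) *
          (Φ (F.e i) (g * kk θ * aa t) - Φ (F.e i) (g * kk θ)) +
        (Complex.exp ((F.n i : ℂ) * ((θ + φ : ℝ) : ℂ) * Complex.I) - 1) * Φ (F.e i) g := by
      rw [e1, e2]
      have : Complex.exp ((F.n i : ℂ) * ((θ + φ : ℝ) : ℂ) * Complex.I) =
          Complex.exp ((F.n i : ℂ) * φ * Complex.I) * Complex.exp ((F.n i : ℂ) * θ * Complex.I) := by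
        rw [← Complex.exp_add]
        congr 1
        push_cast; ring
      rw [this]
      ring
    rw [e4]
    refine (norm_add_le _ _).trans ?_
    rw [norm_mul, norm_mul, norm_phase, one_mul]
    have hcosh : 0 < Real.cosh t := Real.cosh_pos t
    have hcosh2 : Real.cosh (2 * t) = 2 * Real.cosh t ^ 2 - 1 := by
      rw [Real.cosh_two_mul, ← Real.cosh_sq_sub_sinh_sq t]; ring
    have hcosh3 : Real.cosh (2 * t) = 1 + 2 * Real.sinh t ^ 2 := by
      rw [hcosh2]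
      have := Real.cosh_sq_sub_sinh_sq t
      linarith
    have hhs := hs_cartan θ t φ
    have hst : Real.sqrt (hs (kk θ * aa t * kk φ) - 2) / 2 = Real.sinh t := by
      rw [hhs, hcosh3]
      have : 2 * (1 + 2 * Real.sinh t ^ 2) - 2 = (2 * Real.sinh t) ^ 2 := by ring
      rw [this, Real.sqrt_sq (by
        have := Real.sinh_nonneg_iff.mpr ht
        positivity)]
      ring
    have hct : Real.sqrt (hs (kk θ * aa t * kk φ) + 2) = 2 * Real.cosh t := by
      rw [hhs, hcosh2]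
      have : 2 * (2 * Real.cosh t ^ 2 - 1) + 2 = (2 * Real.cosh t) ^ 2 := by ring
      rw [this, Real.sqrt_sq (by positivity)]
    have hcos : ((kk θ * aa t * kk φ).1 0 0 + (kk θ * aa t * kk φ).1 1 1) /
        Real.sqrt (hs (kk θ * aa t * kk φ) + 2) = Real.cos (θ + φ) := by
      rw [hct, cartan_cos]
      field_simp
    have hsin : ((kk θ * aa t * kk φ).1 0 1 - (kk θ * aa t * kk φ).1 1 0) /
        Real.sqrt (hs (kk θ * aa t * kk φ) + 2) = Real.sin (θ + φ) := by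
      rw [hct, cartan_sin]
      field_simp
    rw [modc, hst, hcos, hsin]
    have f1 : ‖Φ (F.e i) (g * kk θ * aa t) - Φ (F.e i) (g * kk θ)‖ ≤ |L| * Real.sinh t := by
      refine e3.trans ?_
      gcongr
      rw [abs_of_nonneg ht]
      exact Real.self_le_sinh_iff.mpr ht
    have f2 : ‖Complex.exp ((F.n i : ℂ) * ((θ + φ : ℝ) : ℂ) * Complex.I) - 1‖ * ‖Φ (F.e i) g‖ ≤
        (|(F.n i : ℝ)| * (|Real.cos (θ + φ) - 1| + |Real.sin (θ + φ)|)) * |B| := by
      have f3 := norm_exp_int_sub_one (F.n i) (θ + φ)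
      have f4 : ‖Φ (F.e i) g‖ ≤ |B| := (hB Φ hΦ g).trans (le_abs_self B)
      gcongr
    calc _ ≤ |L| * Real.sinh t +
        (|(F.n i : ℝ)| * (|Real.cos (θ + φ) - 1| + |Real.sin (θ + φ)|)) * |B| := by
          linarith
      _ = _ := by ring
  | zero =>
    simp only [map_zero, sub_zero, norm_zero]
    exact tendsto_const_nhds
  | add x y _ _ hx hy =>
    have h1 := hx.add hy
    rw [add_zero] at h1
    refine squeeze_zero (fun _ => norm_nonneg _) (fun k => ?_) h1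
    rw [map_add, map_add, add_sub_add_comm]
    exact norm_add_le _ _
  | smul c x _ hx =>
    have h1 := hx.const_mul ‖c‖
    rw [mul_zero] at h1
    refine squeeze_zero (fun _ => norm_nonneg _) (fun k => ?_) h1
    rw [map_smul, map_smul, ← smul_sub, norm_smul]

theorem memNorm_family (F : Frame M) (h : USys M mc) (𝓕 : Set (V →ₗ[ℂ] (G → ℂ)))
    (hOF : ∀ Φ ∈ 𝓕, OF M Φ) (B : ℝ) (hB : ∀ Φ ∈ 𝓕, ∀ g, ‖Φ (F.e 0) g‖ ≤ B)
    (hsep : ∀ v, (∀ Φ ∈ 𝓕, ∀ g, Φ v g = 0) → v = 0) :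
    M.MemNorm (fun v => ⨆ x : 𝓕 × G, ‖x.1.1 v x.2‖) := by
  have hb := fun v => fam_bdd F h 𝓕 hOF B hB v
  have hj := fun k v => fam_inv F h 𝓕 hOF B hB hb k v
  have hc := fun v => fam_cont F 𝓕 hOF hb v
  haveI : CompleteSpace (EE 𝓕 hb) := by
    have : IsClosed ((EE 𝓕 hb : Submodule ℂ (LI (𝓕 × G))) : Set (LI (𝓕 × G))) :=
      Submodule.isClosed_topologicalClosure _
    exact this.completeSpace_coe
  refine ⟨EE 𝓕 hb, inferInstance, inferInstance, inferInstance, piE 𝓕 hb hj, jE 𝓕 hb,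
    ⟨continuous_piE 𝓕 hb hj hc, ?_, denseRange_jE 𝓕 hb, ?_⟩, fun v => rfl, 1, fun g x => ?_⟩
  · intro v w hvw
    rw [← sub_eq_zero]
    refine hsep _ fun Φ hΦ g => ?_
    have h1 : jL 𝓕 hb v = jL 𝓕 hb w := congrArg Subtype.val hvw
    have h2 : (jL 𝓕 hb v : 𝓕 × G → ℂ) (⟨Φ, hΦ⟩, g) = (jL 𝓕 hb w : 𝓕 × G → ℂ) (⟨Φ, hΦ⟩, g) := by
      rw [h1]
    rw [jL_apply, jL_apply] at h2
    rw [map_sub, Pi.sub_apply]
    exact sub_eq_zero.mpr h2
  · intro X γ hγ v
    obtain ⟨C, hC⟩ := hb (M.act X (M.act X v))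
    rw [tendsto_iff_norm_sub_tendsto_zero]
    have h1 : Tendsto (fun t : ℝ => |C| * |t|) (𝓝[≠] 0) (𝓝 0) := by
      have : Continuous (fun t : ℝ => |C| * |t|) := continuous_const.mul continuous_abs
      have h2 := this.tendsto 0
      rw [abs_zero, mul_zero] at h2
      exact h2.mono_left nhdsWithin_le_nhds
    refine squeeze_zero' (Eventually.of_forall fun _ => norm_nonneg _) ?_ h1
    filter_upwards [self_mem_nhdsWithin] with t ht
    have ht0 : (t : ℂ) ≠ 0 := by exact_mod_cast ht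
    have ht1 : 0 < |t| := abs_pos.mpr ht
    have h3 : ‖(((t : ℂ)⁻¹) • (rho 𝓕 (γ t) (jL 𝓕 hb v) - jL 𝓕 hb v) -
        jL 𝓕 hb (M.act X v) : LI (𝓕 × G))‖ ≤ |C| * |t| := by
      refine lp.norm_le_of_forall_le (by positivity) fun y => ?_
      obtain ⟨⟨Φ, hΦ⟩, g⟩ := y
      rw [lp.coeFn_sub, Pi.sub_apply, lp.coeFn_smul, Pi.smul_apply, lp.coeFn_sub, Pi.sub_apply,
        rho_apply, jL_apply, jL_apply, jL_apply]
      simp only
      have e1 := (hOF Φ hΦ).taylor hγ v (C := |C|)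
        (fun x => (hC Φ hΦ x).trans (le_abs_self C)) g t
      have e2 : (t : ℂ)⁻¹ • (Φ v (g * γ t) - Φ v g) - Φ (M.act X v) g =
          (t : ℂ)⁻¹ * (Φ v (g * γ t) - Φ v g - (t : ℂ) * Φ (M.act X v) g) := by
        rw [smul_eq_mul]
        field_simp
      rw [e2, norm_mul, norm_inv, Complex.norm_real, Real.norm_eq_abs,
        inv_mul_le_iff₀ ht1]
      refine e1.trans (le_of_eq ?_)
      ring
    exact h3
  · rw [one_mul]
    exact norm_rho_le 𝓕 g x.1

end AutNorm
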