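import Pool.Agent.Helper57.AN.US
import Pool.Agent.Helper57.AN.Core2

/-! The matrix coefficients of a unitary system form a `Core`; mirror symmetry. -/

open Filter Topology ComplexConjugate

universe u v

namespace AutNorm

lemma Core.mirror {n₀ : ℤ} {α : ℤ → ℝ} {m : ℤ} {c : ℤ → ℝ → ℂ} {C₀ C₁ : ℝ}
    (h : Core n₀ α m c C₀ C₁) :
    Core (-n₀) (fun j => -α (-j - 1)) (-m) (fun j => c (-j)) (2 * C₀) C₁ where
  der j t := by
    refine (h.der (-j) t).congr_deriv ?_
    rw [show -(j + 1) = -j - 1 by ring, show -(j - 1) = -j + 1 by ring,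
      show -j + 1 - 1 = -j by ring]
    push_cast
    ring
  rel j t := by
    have h1 := h.rel (-j) t
    rw [show -(j + 1) = -j - 1 by ring, show -(j - 1) = -j + 1 by ring,
      show -j + 1 - 1 = -j by ring]
    push_cast at h1 ⊢
    linear_combination -h1
  bound j := by
    rw [abs_neg]
    refine (h.bound (-j - 1)).trans ?_
    have h1 : |((-j - 1 : ℤ) : ℝ)| ≤ |(j : ℝ)| + 1 := by
      push_cast
      rw [show (-(j : ℝ) - 1) = -((j : ℝ) + 1) by ring, abs_neg]
      refine (abs_add_le _ _).trans ?_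
      simp
    have h2 := h.hC₀
    have h3 : 1 + |((-j - 1 : ℤ) : ℝ)| ≤ 2 * (1 + |(j : ℝ)|) := by
      have := abs_nonneg (j : ℝ); linarith
    calc C₀ * (1 + |((-j - 1 : ℤ) : ℝ)|) ≤ C₀ * (2 * (1 + |(j : ℝ)|)) := by gcongr
      _ = 2 * C₀ * (1 + |(j : ℝ)|) := by ring
  quad S L t := by
    have h1 := h.quad (S.map (Equiv.neg ℤ).toEmbedding) (-L) t
    rw [Finset.sum_map] at h1
    simp only [Equiv.coe_toEmbedding, Equiv.neg_apply] at h1
    push_cast at h1 ⊢
    refine le_trans (le_of_eq ?_) (h1.trans (le_of_eq ?_))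
    · refine Finset.sum_congr rfl fun k _ => ?_
      ring
    · ring
  mass S t := by
    have h1 := h.mass (S.map (Equiv.neg ℤ).toEmbedding) t
    rw [Finset.sum_map] at h1
    simpa using h1
  init := by
    obtain ⟨k, hk⟩ := h.init
    exact ⟨-k, by simpa using hk⟩
  hC₀ := by have := h.hC₀; positivity
  hC₁ := h.hC₁

variable {V : Type u} [NormedAddCommGroup V] [InnerProductSpace ℂ V]
variable {M : LieMod V} {mc : V → V →ₗ[ℂ] (G → ℂ)}

lemma Frame.inner_self (F : Frame M) {j : ℤ} (hj : F.e j ≠ 0) : inner ℂ (F.e j) (F.e j) = 1 := by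
  rw [inner_self_eq_norm_sq_to_K, F.norm_e j hj]; simp

lemma Frame.C₀_nonneg (F : Frame M) : 0 ≤ F.C₀ := by
  have h1 := F.bound 0
  have h2 := abs_nonneg (F.α 0)
  simp at h1
  linarith

/-- constant for the index `i` -/
noncomputable def Frame.C₁ (F : Frame M) (i : ℤ) : ℝ :=
  1 + ‖M.act W (F.e i)‖ + ‖M.act LB (F.e i)‖

lemma norm_act_ZZ_le (M : LieMod V) (t : ℝ) (v : V) :
    ‖M.act (ZZ t) v‖ ≤ Real.cosh (2 * t) * (‖M.act W v‖ + ‖M.act LB v‖) := by
  rw [act_ZZ]
  refine (norm_sub_le _ _).trans ?_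
  rw [norm_smul, norm_smul, Complex.norm_real, Complex.norm_real, Real.norm_eq_abs,
    Real.norm_eq_abs, abs_of_pos (Real.cosh_pos _)]
  have : |Real.sinh (2 * t)| ≤ Real.cosh (2 * t) := by
    rw [abs_le]
    have h1 := (Real.sinh_lt_cosh (2 * t)).le
    have h2 := (Real.sinh_lt_cosh (-(2 * t))).le
    rw [Real.sinh_neg, Real.cosh_neg] at h2
    constructor <;> linarith
  have h3 : |Real.sinh (2 * t)| * ‖M.act LB v‖ ≤ Real.cosh (2 * t) * ‖M.act LB v‖ := by gcongr
  linarith

lemma USys.core (h : USys M mc) (F : Frame M) (i : ℤ) (hi : F.e i ≠ 0) :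
    Core F.n₀ F.α (F.n i) (fun j t => F.c mc i j t) F.C₀ (F.C₁ i) where
  der j t := h.deriv_right F i j t
  rel j t := h.rel_right F i j t
  bound j := F.bound j
  quad S L t := by
    have hb := h.bessel F.e F.orth F.norm_e S
      (M.act (ZZ t) (F.e i) + (Complex.I * L) • F.e i) (aa t)
    have hcoef : ∀ j, mc (F.e j) (M.act (ZZ t) (F.e i) + (Complex.I * L) • F.e i) (aa t) =
        Complex.I * ((((F.n₀ + 2 * j : ℤ) : ℝ) + L : ℝ) : ℂ) * F.c mc i j t := by
      intro j
      have hw := h.weight F j (F.e i) (aa t)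
      rw [Ad_aa_inv_W] at hw
      rw [map_add, Pi.add_apply, hw, map_smul, Pi.smul_apply, smul_eq_mul]
      simp only [Frame.c, Frame.n]
      push_cast
      ring
    have hnorm : ∀ j, ‖mc (F.e j) (M.act (ZZ t) (F.e i) + (Complex.I * L) • F.e i) (aa t)‖ ^ 2 =
        (((F.n₀ + 2 * j : ℤ) : ℝ) + L) ^ 2 * ‖F.c mc i j t‖ ^ 2 := by
      intro j
      rw [hcoef, norm_mul, norm_mul, Complex.norm_I, one_mul, Complex.norm_real, mul_pow,
        Real.norm_eq_abs, sq_abs]
    simp only [hnorm] at hb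
    refine hb.trans ?_
    have h1 := F.inner_self hi
    have hiB : inner ℂ (F.e i) (M.act LB (F.e i)) = 0 := by
      rw [F.actB, inner_sub_right, inner_neg_right, inner_smul_right, inner_smul_right,
        F.orth i (i + 1) (by omega), F.orth i (i - 1) (by omega)]
      simp
    have hiZ : inner ℂ (M.act (ZZ t) (F.e i)) (F.e i) =
        -(Complex.I * (F.n i * Real.cosh (2 * t))) := by
      rw [← inner_conj_symm, act_ZZ, inner_sub_right, inner_smul_right, inner_smul_right, hiB,
        F.actW', inner_smul_right, h1]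
      simp only [mul_one, mul_zero, sub_zero, map_mul, Complex.conj_ofReal, Complex.conj_I,
        map_intCast]
      ring
    rw [norm_add_sq (𝕜 := ℂ), inner_smul_right, hiZ, norm_smul, F.norm_e i hi]
    have h2 : ‖M.act (ZZ t) (F.e i)‖ ^ 2 ≤ F.C₁ i ^ 2 * Real.cosh (2 * t) ^ 2 := by
      have h3 := norm_act_ZZ_le M t (F.e i)
      have h4 : ‖M.act (ZZ t) (F.e i)‖ ≤ F.C₁ i * Real.cosh (2 * t) := by
        refine h3.trans ?_
        rw [Frame.C₁]
        have := Real.cosh_pos (2 * t)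
        nlinarith
      calc ‖M.act (ZZ t) (F.e i)‖ ^ 2 ≤ (F.C₁ i * Real.cosh (2 * t)) ^ 2 := by gcongr
        _ = _ := by ring
    have h5 : RCLike.re (Complex.I * (L : ℂ) * -(Complex.I * (F.n i * Real.cosh (2 * t)))) =
        L * (F.n i * Real.cosh (2 * t)) := by
      have : Complex.I * (L : ℂ) * -(Complex.I * (F.n i * Real.cosh (2 * t))) =
          ((L * (F.n i * Real.cosh (2 * t)) : ℝ) : ℂ) := by
        push_cast
        linear_combination (-(L : ℂ) * (F.n i * Complex.cosh (2 * t))) * Complex.I_mul_I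
      rw [this]
      exact Complex.ofReal_re _
    rw [h5]
    have h6 : ‖Complex.I * (L : ℂ)‖ = |L| := by simp
    rw [h6, mul_one, sq_abs]
    linarith
  mass S t := by
    have := h.bessel F.e F.orth F.norm_e S (F.e i) (aa t)
    rw [F.norm_e i hi, one_pow] at this
    exact this
  init := ⟨i, by
    simp only [Frame.c, aa_zero]
    rw [h.one, F.inner_self hi]; simp⟩
  hC₀ := F.C₀_nonneg
  hC₁ := by
    rw [Frame.C₁]
    have h1 := norm_nonneg (M.act W (F.e i))
    have h2 := norm_nonneg (M.act LB (F.e i))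
    linarith

end AutNorm
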