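import Pool.Agent.Helper57.AN.Net3

/-! The lower bound `1/2 ≤ s`. -/

open Filter Topology ComplexConjugate MeasureTheory

universe u v

namespace AutNorm

variable {V : Type u} [NormedAddCommGroup V] [InnerProductSpace ℂ V]
variable {M : LieMod V} {mc : V → V →ₗ[ℂ] (G → ℂ)}

lemma poly_le_exp (a δ : ℝ) (ha : 0 ≤ a) (hδ : 0 < δ) :
    ∀ᶠ N : ℕ in atTop, a * (N : ℝ) ^ 12 ≤ Real.exp (((N : ℝ) ^ δ) ^ 2 / 2) := by
  have h1 := (isLittleO_rpow_exp_atTop (6 / δ)).def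
    (c := (a * 2 ^ (6 / δ) + 1)⁻¹) (by positivity)
  have h2 : Tendsto (fun N : ℕ => ((N : ℝ) ^ δ) ^ 2 / 2) atTop atTop := by
    have h3 : Tendsto (fun N : ℕ => (N : ℝ) ^ δ) atTop atTop :=
      (tendsto_rpow_atTop hδ).comp tendsto_natCast_atTop_atTop
    exact ((tendsto_pow_atTop (by norm_num : 2 ≠ 0)).comp h3).atTop_div_const (by norm_num)
  have h4 := h2.eventually h1
  filter_upwards [h4, eventually_ge_atTop 1] with N hN hN1
  have hNr : (1 : ℝ) ≤ N := by exact_mod_cast hN1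
  have hN0 : (0 : ℝ) < N := by linarith
  set x : ℝ := ((N : ℝ) ^ δ) ^ 2 / 2 with hx
  have hx0 : 0 < x := by positivity
  rw [Real.norm_of_nonneg (by positivity), Real.norm_of_nonneg (by positivity)] at hN
  have hx2 : (N : ℝ) ^ 12 = 2 ^ (6 / δ) * x ^ (6 / δ) := by
    rw [← Real.mul_rpow (by norm_num) hx0.le, hx, mul_div_cancel₀ _ (by norm_num : (2 : ℝ) ≠ 0),
      ← Real.rpow_natCast ((N : ℝ) ^ δ), ← Real.rpow_mul hN0.le, ← Real.rpow_mul hN0.le,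
      ← Real.rpow_natCast]
    congr 1
    field_simp
    norm_num
  rw [hx2, ← mul_assoc]
  calc a * 2 ^ (6 / δ) * x ^ (6 / δ) ≤ (a * 2 ^ (6 / δ) + 1) * x ^ (6 / δ) := by
        gcongr
        linarith
    _ ≤ (a * 2 ^ (6 / δ) + 1) * ((a * 2 ^ (6 / δ) + 1)⁻¹ * Real.exp x) := by gcongr
    _ = Real.exp x := by
        rw [← mul_assoc, mul_inv_cancel₀ (by positivity), one_mul]

lemma exists_signs (F : Frame M) (h : USys M mc) {φ : V →ₗ[ℂ] (G → ℂ)} (hφ : OF M φ) {B : ℝ}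
    (hB : ∀ g, ‖φ (F.e 0) g‖ ≤ B) {CBR : ℝ} (hCBR : 0 ≤ CBR)
    (hBR : ∀ N : ℝ, 1 ≤ N → ∀ g, ∀ S : Finset ℤ, (∀ j ∈ S, |(F.n j : ℝ)| ≤ N) →
      ∑ j ∈ S, ‖φ (F.e j) g‖ ^ 2 ≤ CBR * N) (T : ℝ) (hT0 : 0 ≤ T)
    (hT : ∀ g, ∃ θ t ψ : ℝ, 0 ≤ t ∧ t ≤ T ∧ ∀ v, φ v g = φ v (kk θ * aa t * kk ψ))
    (s : ℝ) (hs : 0 ≤ s) :
    ∃ D : ℝ, 0 < D ∧ ∀ δ : ℝ, 0 < δ → ∀ᶠ N : ℕ in atTop, ∃ S : Finset ℤ, Block F mc N S ∧
      ∃ ε : ℤ → ℝ, (∀ j, ε j = 1 ∨ ε j = -1) ∧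
        (∀ g, ‖∑ j ∈ S, (ε j : ℂ) * mc (F.e j) (F.e 0) g‖ ≤ 3 * (N : ℝ) ^ δ) ∧
        ∀ g, ‖∑ j ∈ S, (ε j : ℂ) * ((((1 + (F.n j : ℝ) ^ 2) ^ (s / 2) : ℝ) : ℂ) *
          φ (F.e j) g)‖ ≤ D * (N : ℝ) ^ (s + 1 / 2) * (3 * (N : ℝ) ^ δ) := by
  classical
  obtain ⟨N₁, hb⟩ := exists_block F h
  obtain ⟨N₂, hf1⟩ := family1 F h
  obtain ⟨D, hD, c, N₃, hf2⟩ := family2 F h hφ hB hCBR hBR T hT0 hT s hs
  refine ⟨D, hD, fun δ hδ => ?_⟩
  filter_upwards [eventually_ge_atTop (N₁ + N₂ + N₃ + 1),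
    poly_le_exp (4 * (9 + c)) δ (by positivity) hδ] with N hN hexp
  obtain ⟨S, hS⟩ := hb N (by omega)
  obtain ⟨T₁, hT₁, hT₁b, hT₁c⟩ := hf1 N (by omega) S hS
  obtain ⟨T₂, hT₂, hT₂b, hT₂c⟩ := hf2 N (by omega) S hS
  have hN1 : 1 ≤ N := by omega
  have hNr1 : (1 : ℝ) ≤ N := by exact_mod_cast hN1
  have hr1 : 1 ≤ (N : ℝ) ^ δ := Real.one_le_rpow hNr1 hδ.le
  have hcard : 4 * (((T₁ ∪ T₂).card : ℕ) : ℝ) ≤ Real.exp (((N : ℝ) ^ δ) ^ 2 / 2) := by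
    refine le_trans ?_ hexp
    have h1 : (T₁ ∪ T₂).card ≤ (9 + c) * N ^ 12 := by
      have h2 := Finset.card_union_le T₁ T₂
      have h3 : N ^ 7 ≤ N ^ 12 := Nat.pow_le_pow_right hN1 (by norm_num)
      calc (T₁ ∪ T₂).card ≤ T₁.card + T₂.card := h2
        _ ≤ 9 * N ^ 7 + c * N ^ 12 := by omega
        _ ≤ 9 * N ^ 12 + c * N ^ 12 := by omega
        _ = (9 + c) * N ^ 12 := by ring
    have h4 : (((T₁ ∪ T₂).card : ℕ) : ℝ) ≤ (9 + c) * (N : ℝ) ^ 12 := by exact_mod_cast h1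
    linarith
  obtain ⟨ε, hε, hε2⟩ := rs_complex (T₁ ∪ T₂) S (fun x hx => by
    rcases Finset.mem_union.mp hx with hx | hx
    · exact hT₁b x hx
    · exact hT₂b x hx) ((N : ℝ) ^ δ) (by positivity) hcard
  refine ⟨S, hS, ε, hε, fun g => ?_, fun g => ?_⟩
  · have := hT₁c ε hε (2 * (N : ℝ) ^ δ) (by positivity)
      (fun x hx => hε2 x (Finset.mem_union_left _ hx)) g
    linarith
  · have := hT₂c ε hε (2 * (N : ℝ) ^ δ) (by positivity)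
      (fun x hx => hε2 x (Finset.mem_union_right _ hx)) g
    refine this.trans ?_
    gcongr
    linarith

lemma USys.sum_left (h : USys M mc) (S : Finset ℤ) (a : ℤ → ℝ) (e : ℤ → V) (v : V) (g : G) :
    mc (∑ j ∈ S, (a j : ℂ) • e j) v g = ∑ j ∈ S, (a j : ℂ) * mc (e j) v g := by
  classical
  induction S using Finset.induction_on with
  | empty =>
    have := h.smul_left 0 0 v g
    simpa using this
  | insert x S hx ih =>
    rw [Finset.sum_insert hx, Finset.sum_insert hx, h.add_left, ih, h.smul_left,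
      Complex.conj_ofReal]

theorem lower_bound (F : Frame M) (h : USys M mc) {φ : V →ₗ[ℂ] (G → ℂ)} (hφ : OF M φ) {B : ℝ}
    (hB : ∀ g, ‖φ (F.e 0) g‖ ≤ B) {CBR : ℝ} (hCBR : 0 ≤ CBR)
    (hBR : ∀ N : ℝ, 1 ≤ N → ∀ g, ∀ S : Finset ℤ, (∀ j ∈ S, |(F.n j : ℝ)| ≤ N) →
      ∑ j ∈ S, ‖φ (F.e j) g‖ ^ 2 ≤ CBR * N) (T : ℝ) (hT0 : 0 ≤ T)
    (hT : ∀ g, ∃ θ t ψ : ℝ, 0 ≤ t ∧ t ≤ T ∧ ∀ v, φ v g = φ v (kk θ * aa t * kk ψ))
    (s : ℝ) (hs : 0 ≤ s) (C : ℝ)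
    (hle : ∀ Φ : V →ₗ[ℂ] (G → ℂ), OF M Φ → (∀ g, ‖Φ (F.e 0) g‖ ≤ 1) →
      ∀ c : ℤ →₀ V, (∀ n, c n ∈ M.kType n) → ‖Φ (c.sum fun _ x => x) 1‖ ≤
        C * ⨆ g, ‖φ (c.sum fun n x => (((1 + (n : ℝ) ^ 2) ^ (s / 2) : ℝ) : ℂ) • x) g‖) :
    1 / 2 ≤ s := by
  classical
  obtain ⟨D, hD, hsig⟩ := exists_signs F h hφ hB hCBR hBR T hT0 hT s hs
  by_contra hlt
  rw [not_le] at hlt
  set δ : ℝ := (1 / 2 - s) / 4 with hδ
  have hδ0 : 0 < δ := by rw [hδ]; linarith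
  have hev := hsig δ hδ0
  -- main inequality
  have hmain : ∀ᶠ N : ℕ in atTop, (N : ℝ) ≤
      9 * |C| * D * ((N : ℝ) ^ (s + 1 / 2) * (N : ℝ) ^ δ * (N : ℝ) ^ δ) := by
    filter_upwards [hev, eventually_ge_atTop 1] with N hN hN1
    have hNr1 : (1 : ℝ) ≤ N := by exact_mod_cast hN1
    have hN0 : (0 : ℝ) < N := by linarith
    obtain ⟨S, hS, ε, hε, h1, h2⟩ := hN
    set A : ℝ := 3 * (N : ℝ) ^ δ with hA
    have hA0 : 0 < A := by positivity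
    set v : V := ∑ j ∈ S, (ε j : ℂ) • F.e j with hv
    have hmcv : ∀ w g, mc v w g = ∑ j ∈ S, (ε j : ℂ) * mc (F.e j) w g := fun w g =>
      h.sum_left S ε F.e w g
    set Φ : V →ₗ[ℂ] (G → ℂ) := ((A : ℂ)⁻¹) • mc v with hΦ
    have hΦOF : OF M Φ := (h.of v).smul _
    have hΦ1 : ∀ g, ‖Φ (F.e 0) g‖ ≤ 1 := by
      intro g
      rw [hΦ, LinearMap.smul_apply, Pi.smul_apply, smul_eq_mul, norm_mul, norm_inv,
        Complex.norm_real, Real.norm_eq_abs, abs_of_pos hA0, inv_mul_le_iff₀ hA0, mul_one, hmcv]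
      exact h1 g
    set c : ℤ →₀ V := ∑ j ∈ S, Finsupp.single (F.n j) ((ε j : ℂ) • F.e j) with hc
    have hck : ∀ n, c n ∈ M.kType n := by
      intro n
      rw [hc, Finsupp.finsetSum_apply]
      refine Submodule.sum_mem _ fun j _ => ?_
      rw [Finsupp.single_apply]
      split_ifs with hn
      · refine Submodule.smul_mem _ _ ?_
        rw [← hn, LieMod.kType, LinearMap.mem_ker, LinearMap.sub_apply, F.actW']
        simp
      · exact Submodule.zero_mem _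
    have hcs1 : (c.sum fun _ x => x) = v := by
      rw [hc, ← Finsupp.sum_finsetSum_index (fun _ => rfl) (fun _ _ _ => rfl), hv]
      refine Finset.sum_congr rfl fun j _ => ?_
      rw [Finsupp.sum_single_index rfl]
    have hcs2 : (c.sum fun n x => (((1 + (n : ℝ) ^ 2) ^ (s / 2) : ℝ) : ℂ) • x) =
        ∑ j ∈ S, (((1 + (F.n j : ℝ) ^ 2) ^ (s / 2) : ℝ) : ℂ) • ((ε j : ℂ) • F.e j) := by
      rw [hc, ← Finsupp.sum_finsetSum_index (fun _ => smul_zero _) (fun _ _ _ => smul_add _ _ _)]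
      refine Finset.sum_congr rfl fun j _ => ?_
      exact Finsupp.sum_single_index
        (h := fun (n : ℤ) (x : V) => (((1 + (n : ℝ) ^ 2) ^ (s / 2) : ℝ) : ℂ) • x) (smul_zero _)
    have h3 := hle Φ hΦOF hΦ1 c hck
    rw [hcs1, hcs2] at h3
    have h4 : Φ v 1 = (A : ℂ)⁻¹ * (N : ℂ) := by
      rw [hΦ, LinearMap.smul_apply, Pi.smul_apply, smul_eq_mul]
      congr 1
      rw [hmcv]
      have : ∀ j ∈ S, (ε j : ℂ) * mc (F.e j) v 1 = 1 := by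
        intro j hj
        rw [h.one, hv, inner_sum, Finset.sum_eq_single j]
        · rw [inner_smul_right, F.inner_self (hS.ne j hj), mul_one]
          rcases hε j with h' | h' <;> rw [h'] <;> simp
        · intro i _ hij
          rw [inner_smul_right, F.orth j i (fun h' => hij h'.symm), mul_zero]
        · intro hj'; exact absurd hj hj'
      rw [Finset.sum_congr rfl this, Finset.sum_const, hS.card]
      simp
    have h5 : ‖Φ v 1‖ = A⁻¹ * N := by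
      rw [h4, norm_mul, norm_inv, Complex.norm_real, Real.norm_eq_abs, abs_of_pos hA0,
        Complex.norm_natCast]
    rw [h5] at h3
    have h6 : (⨆ g, ‖φ (∑ j ∈ S, (((1 + (F.n j : ℝ) ^ 2) ^ (s / 2) : ℝ) : ℂ) •
        ((ε j : ℂ) • F.e j)) g‖) ≤ D * (N : ℝ) ^ (s + 1 / 2) * (3 * (N : ℝ) ^ δ) := by
      refine ciSup_le fun g => ?_
      refine le_trans (le_of_eq ?_) (h2 g)
      congr 1
      rw [map_sum, Finset.sum_apply]
      refine Finset.sum_congr rfl fun j _ => ?_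
      rw [map_smul, map_smul, Pi.smul_apply, Pi.smul_apply, smul_eq_mul, smul_eq_mul]
      ring
    have h7 : 0 ≤ ⨆ g, ‖φ (∑ j ∈ S, (((1 + (F.n j : ℝ) ^ 2) ^ (s / 2) : ℝ) : ℂ) •
        ((ε j : ℂ) • F.e j)) g‖ := Real.iSup_nonneg fun _ => norm_nonneg _
    have h8 : A⁻¹ * N ≤ |C| * (D * (N : ℝ) ^ (s + 1 / 2) * (3 * (N : ℝ) ^ δ)) := by
      refine h3.trans ?_
      refine (mul_le_mul_of_nonneg_right (le_abs_self C) h7).trans ?_
      gcongr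
    rw [inv_mul_le_iff₀ hA0] at h8
    refine h8.trans (le_of_eq ?_)
    rw [hA]; ring
  -- contradiction
  have hpow : ∀ᶠ N : ℕ in atTop, (N : ℝ) ^ (2 * δ) ≤ 9 * |C| * D := by
    filter_upwards [hmain, eventually_ge_atTop 1] with N hN hN1
    have hNr1 : (1 : ℝ) ≤ N := by exact_mod_cast hN1
    have hN0 : (0 : ℝ) < N := by linarith
    have e1 : (N : ℝ) ^ (s + 1 / 2) * (N : ℝ) ^ δ * (N : ℝ) ^ δ = (N : ℝ) ^ (s + 1 / 2 + 2 * δ) := by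
      rw [← Real.rpow_add hN0, ← Real.rpow_add hN0]
      congr 1; ring
    rw [e1] at hN
    have e2 : (N : ℝ) ^ (2 * δ) * (N : ℝ) ^ (s + 1 / 2 + 2 * δ) = N := by
      rw [← Real.rpow_add hN0]
      have : 2 * δ + (s + 1 / 2 + 2 * δ) = 1 := by rw [hδ]; ring
      rw [this, Real.rpow_one]
    have e3 : 0 < (N : ℝ) ^ (s + 1 / 2 + 2 * δ) := by positivity
    refine le_of_mul_le_mul_right ?_ e3
    rw [e2]
    exact hN
  have htend : Tendsto (fun N : ℕ => (N : ℝ) ^ (2 * δ)) atTop atTop :=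
    (tendsto_rpow_atTop (by positivity)).comp tendsto_natCast_atTop_atTop
  have h9 := htend.eventually (eventually_gt_atTop (9 * |C| * D))
  obtain ⟨N, hN1, hN2⟩ := (hpow.and h9).exists
  linarith

end AutNorm
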