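import Pool.Agent.Helper57.AN.Exp

/-! The upper bound in terms of the Hilbert norm. -/

open Filter Topology ComplexConjugate MeasureTheory

universe u v

namespace AutNorm

variable {V : Type u} [NormedAddCommGroup V] [InnerProductSpace ℂ V]
variable {M : LieMod V} {mc : V → V →ₗ[ℂ] (G → ℂ)}

lemma Frame.n_inj (F : Frame M) : Function.Injective F.n := by
  intro i j hij
  simp only [Frame.n] at hij
  omega

lemma Frame.kType_eq (F : Frame M) {n : ℤ} {x : V} (hx : x ∈ M.kType n) (hx0 : x ≠ 0) :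
    ∃ (j : ℤ) (a : ℂ), F.n j = n ∧ x = a • F.e j := by
  have hspan : x ∈ Submodule.span ℂ (Set.range F.e) := by rw [F.span]; trivial
  obtain ⟨l, hl⟩ := (Finsupp.mem_span_range_iff_exists_finsupp).mp hspan
  rw [LieMod.kType, LinearMap.mem_ker, LinearMap.sub_apply, sub_eq_zero] at hx
  have h1 : ∑ j ∈ l.support, (l j * ((F.n j : ℂ) - n) * Complex.I) • F.e j = 0 := by
    have e1 : M.act W x = ∑ j ∈ l.support, (l j * ((F.n j : ℂ) * Complex.I)) • F.e j := by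
      rw [← hl, Finsupp.sum, map_sum]
      refine Finset.sum_congr rfl fun j _ => ?_
      rw [map_smul, F.actW', smul_smul]
    have e2 : (((n : ℂ) * Complex.I) • (LinearMap.id : V →ₗ[ℂ] V)) x =
        ∑ j ∈ l.support, (l j * ((n : ℂ) * Complex.I)) • F.e j := by
      rw [LinearMap.smul_apply, LinearMap.id_apply, ← hl, Finsupp.sum, Finset.smul_sum]
      refine Finset.sum_congr rfl fun j _ => ?_
      rw [smul_smul, mul_comm]
    rw [e1, e2] at hx
    rw [← sub_eq_zero, ← Finset.sum_sub_distrib] at hx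
    rw [← hx]
    refine Finset.sum_congr rfl fun j _ => ?_
    rw [← sub_smul]
    congr 1
    ring
  have h2 : ∀ k ∈ l.support, F.n k ≠ n → l k • F.e k = 0 := by
    intro k hk hkn
    by_cases hek : F.e k = 0
    · rw [hek, smul_zero]
    · have e3 : inner ℂ (F.e k) (∑ j ∈ l.support, (l j * ((F.n j : ℂ) - n) * Complex.I) • F.e j) =
          l k * ((F.n k : ℂ) - n) * Complex.I := by
        rw [inner_sum, Finset.sum_eq_single k]
        · rw [inner_smul_right, F.inner_self hek, mul_one]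
        · intro j _ hjk
          rw [inner_smul_right, F.orth k j (fun h => hjk h.symm), mul_zero]
        · intro hk'; exact absurd hk hk'
      rw [h1, inner_zero_right] at e3
      have hne : ((F.n k : ℂ) - n) ≠ 0 := by
        rw [sub_ne_zero]
        exact_mod_cast hkn
      have : l k = 0 := by
        have := e3.symm
        simpa [hne, Complex.I_ne_zero] using this
      rw [this, zero_smul]
  by_cases hex : ∃ k ∈ l.support, F.n k = n
  · obtain ⟨k, hk, hkn⟩ := hex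
    refine ⟨k, l k, hkn, ?_⟩
    rw [← hl, Finsupp.sum, Finset.sum_eq_single k]
    · intro j hj hjk
      exact h2 j hj (fun h => hjk (F.n_inj (h.trans hkn.symm)))
    · intro hk'; exact absurd hk hk'
  · exfalso
    push Not at hex
    apply hx0
    rw [← hl, Finsupp.sum]
    exact Finset.sum_eq_zero fun j hj => h2 j hj (hex j hj)

lemma Frame.decomp (F : Frame M) (c : ℤ →₀ V) (hc : ∀ n, c n ∈ M.kType n) :
    ∃ (S : Finset ℤ) (a : ℤ → ℂ), (∀ j ∈ S, F.e j ≠ 0) ∧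
      ∀ (f : ℤ → V → V), c.sum f = ∑ j ∈ S, f (F.n j) (a j • F.e j) := by
  classical
  have h1 : ∀ n ∈ c.support, ∃ (j : ℤ) (a : ℂ), F.n j = n ∧ c n = a • F.e j := fun n hn =>
    F.kType_eq (hc n) (Finsupp.mem_support_iff.mp hn)
  have h2 : ∀ j : ℤ, ∃ a : ℂ, F.n j ∈ c.support → (c (F.n j) = a • F.e j ∧ F.e j ≠ 0) := by
    intro j
    by_cases hj : F.n j ∈ c.support
    · obtain ⟨k, a, hk, ha⟩ := h1 _ hj
      have hkj : k = j := F.n_inj hk
      subst hkj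
      refine ⟨a, fun _ => ⟨ha, fun h0 => ?_⟩⟩
      rw [h0, smul_zero] at ha
      exact (Finsupp.mem_support_iff.mp hj) ha
    · exact ⟨0, fun h => absurd h hj⟩
  choose a ha using h2
  refine ⟨c.support.preimage F.n F.n_inj.injOn, a, fun j hj => ?_, fun f => ?_⟩
  · rw [Finset.mem_preimage] at hj
    exact (ha j hj).2
  · rw [Finsupp.sum, ← Finset.sum_preimage F.n c.support F.n_inj.injOn (fun n => f n (c n))]
    · refine Finset.sum_congr rfl fun j hj => ?_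
      rw [Finset.mem_preimage] at hj
      rw [(ha j hj).1]
    · intro n hn hn'
      exfalso
      obtain ⟨j, _, hj, _⟩ := h1 n hn
      exact hn' ⟨j, hj⟩

lemma Frame.norm_sum_eq (F : Frame M) (S : Finset ℤ) (hS : ∀ j ∈ S, F.e j ≠ 0) (a : ℤ → ℂ) :
    ‖∑ j ∈ S, a j • F.e j‖ ^ 2 = ∑ j ∈ S, ‖a j‖ ^ 2 := by
  classical
  induction S using Finset.induction_on with
  | empty => simp
  | insert x S hx ih =>
    rw [Finset.sum_insert hx, Finset.sum_insert hx]
    have h0 : inner ℂ (a x • F.e x) (∑ j ∈ S, a j • F.e j) = 0 := by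
      rw [inner_sum]
      refine Finset.sum_eq_zero fun j hj => ?_
      rw [inner_smul_left, inner_smul_right, F.orth x j (by rintro rfl; exact hx hj)]
      simp
    have h1 := norm_add_sq_eq_norm_sq_add_norm_sq_of_inner_eq_zero _ _ h0
    have h2 : ‖a x • F.e x‖ ^ 2 = ‖a x‖ ^ 2 := by
      rw [norm_smul, F.norm_e x (hS x (Finset.mem_insert_self _ _)), mul_one]
    have h3 := ih (fun j hj => hS j (Finset.mem_insert_of_mem hj))
    nlinarith

theorem upper_bound (F : Frame M) (h : USys M mc) (s : ℝ) (hs : 1 / 2 < s) :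
    ∃ C : ℝ, 0 ≤ C ∧ ∀ Φ : V →ₗ[ℂ] (G → ℂ), OF M Φ → (∀ g, ‖Φ (F.e 0) g‖ ≤ 1) →
      ∀ c : ℤ →₀ V, (∀ n, c n ∈ M.kType n) → ∀ g, ‖Φ (c.sum fun _ x => x) g‖ ≤
        C * ‖c.sum fun n x => (((1 + (n : ℝ) ^ 2) ^ (s / 2) : ℝ) : ℂ) • x‖ := by
  obtain ⟨C, hC, hU⟩ := U_main F h s hs
  refine ⟨Real.sqrt C, Real.sqrt_nonneg _, fun Φ hΦ hΦ1 c hc g => ?_⟩
  obtain ⟨S, a, hS, hsum⟩ := F.decomp c hc
  rw [hsum, hsum]
  have hU' := hU Φ hΦ 1 hΦ1 g S
  rw [one_pow, mul_one] at hU'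
  set w : ℤ → ℝ := fun j => (1 + (F.n j : ℝ) ^ 2) ^ (s / 2) with hw
  have hw0 : ∀ j, 0 < w j := fun j => by simp only [hw]; positivity
  have hwsq : ∀ j, (w j ^ 2)⁻¹ = (1 + (F.n j : ℝ) ^ 2) ^ (-s) := by
    intro j
    simp only [hw]
    rw [← Real.rpow_natCast, ← Real.rpow_mul (by positivity), Real.rpow_neg (by positivity)]
    congr 2
    push_cast
    ring
  have h1 : ‖Φ (∑ j ∈ S, a j • F.e j) g‖ ≤ ∑ j ∈ S, (w j * ‖a j‖) * ((w j)⁻¹ *
      ‖Φ (F.e j) g‖) := by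
    rw [map_sum, Finset.sum_apply]
    refine (norm_sum_le _ _).trans (le_of_eq (Finset.sum_congr rfl fun j _ => ?_))
    rw [map_smul, Pi.smul_apply, smul_eq_mul, norm_mul]
    have := (hw0 j).ne'
    field_simp
  have h2 := Finset.sum_mul_sq_le_sq_mul_sq S (fun j => w j * ‖a j‖)
    (fun j => (w j)⁻¹ * ‖Φ (F.e j) g‖)
  have h3 : ∑ j ∈ S, ((w j)⁻¹ * ‖Φ (F.e j) g‖) ^ 2 ≤ C := by
    refine le_trans (le_of_eq (Finset.sum_congr rfl fun j _ => ?_)) hU'
    rw [mul_pow, inv_pow, hwsq, mul_comm]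
  have h4 : ∑ j ∈ S, (w j * ‖a j‖) ^ 2 =
      ‖∑ j ∈ S, ((w j : ℝ) : ℂ) • (a j • F.e j)‖ ^ 2 := by
    have := F.norm_sum_eq S hS (fun j => (w j : ℂ) * a j)
    simp only [smul_smul]
    rw [this]
    refine Finset.sum_congr rfl fun j _ => ?_
    rw [norm_mul, Complex.norm_real, Real.norm_eq_abs, abs_of_pos (hw0 j)]
  have h5 : ‖Φ (∑ j ∈ S, a j • F.e j) g‖ ^ 2 ≤
      (Real.sqrt C * ‖∑ j ∈ S, ((w j : ℝ) : ℂ) • (a j • F.e j)‖) ^ 2 := by
    rw [mul_pow, Real.sq_sqrt hC, ← h4]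
    calc ‖Φ (∑ j ∈ S, a j • F.e j) g‖ ^ 2 ≤ (∑ j ∈ S, (w j * ‖a j‖) * ((w j)⁻¹ *
          ‖Φ (F.e j) g‖)) ^ 2 := by gcongr
      _ ≤ (∑ j ∈ S, (w j * ‖a j‖) ^ 2) * ∑ j ∈ S, ((w j)⁻¹ * ‖Φ (F.e j) g‖) ^ 2 := h2
      _ ≤ (∑ j ∈ S, (w j * ‖a j‖) ^ 2) * C := by
          gcongr
      _ = _ := by ring
  exact le_of_sq_le_sq h5 (by positivity)

end AutNorm
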