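import Pool.Agent.Helper57.AN.GL2
import Pool.Agent.Helper57.AN.Up
import Pool.Agent.Helper57.AN.Net4

/-! Assembly, normed version. -/

open Filter Topology MeasureTheory ComplexConjugate

universe u v

namespace AutNorm

variable {V : Type u} [NormedAddCommGroup V] [InnerProductSpace ℂ V]
variable {M : LieMod V} {mc : V → V →ₗ[ℂ] (G → ℂ)}

/-- the family defining the maximal norm -/
def Fam (F : Frame M) : Set (V →ₗ[ℂ] (G → ℂ)) :=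
  {Φ | OF M Φ ∧ ∀ g, ‖Φ (F.e 0) g‖ ≤ 1}

/-- the maximal norm -/
noncomputable def Pm (F : Frame M) (v : V) : ℝ := ⨆ x : Fam F × G, ‖x.1.1 v x.2‖

lemma Pm_bdd (F : Frame M) (h : USys M mc) (v : V) :
    BddAbove (Set.range fun x : Fam F × G => ‖x.1.1 v x.2‖) := by
  obtain ⟨C, hC⟩ := fam_bdd F h (Fam F) (fun Φ hΦ => hΦ.1) 1 (fun Φ hΦ => hΦ.2) v
  exact ⟨C, by rintro _ ⟨x, rfl⟩; exact hC _ x.1.2 _⟩

lemma le_Pm (F : Frame M) (h : USys M mc) {Φ : V →ₗ[ℂ] (G → ℂ)} (hΦ : Φ ∈ Fam F) (v : V) (g : G) :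
    ‖Φ v g‖ ≤ Pm F v :=
  le_ciSup (Pm_bdd F h v) (⟨⟨Φ, hΦ⟩, g⟩ : Fam F × G)

lemma Pm_nonneg (F : Frame M) (v : V) : 0 ≤ Pm F v := Real.iSup_nonneg fun _ => norm_nonneg _

lemma Pm_le (F : Frame M) {v : V} {C : ℝ} (hC : 0 ≤ C)
    (h : ∀ Φ ∈ Fam F, ∀ g, ‖Φ v g‖ ≤ C) : Pm F v ≤ C :=
  Real.iSup_le (fun x => h _ x.1.2 _) hC

lemma Pm_memNorm (F : Frame M) (h : USys M mc) {φ : V →ₗ[ℂ] (G → ℂ)} (hφ : OF M φ)
    (hbdd : ∀ v, ∃ C : ℝ, ∀ g, ‖φ v g‖ ≤ C) (hinj : ∀ v, (∀ g, φ v g = 0) → v = 0) :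
    M.MemNorm (Pm F) := by
  refine memNorm_family F h (Fam F) (fun Φ hΦ => hΦ.1) 1 (fun Φ hΦ => hΦ.2) fun v hv => ?_
  obtain ⟨B, hB⟩ := hbdd (F.e 0)
  have hB0 : 0 ≤ B := (norm_nonneg _).trans (hB 1)
  have hpos : 0 < B + 1 := by linarith
  have hmem : (((B + 1 : ℝ) : ℂ)⁻¹ • φ) ∈ Fam F := by
    refine ⟨hφ.smul _, fun g => ?_⟩
    rw [LinearMap.smul_apply, Pi.smul_apply, smul_eq_mul, norm_mul, norm_inv, Complex.norm_real,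
      Real.norm_eq_abs, abs_of_pos hpos, inv_mul_le_iff₀ hpos, mul_one]
    linarith [hB g]
  refine hinj v fun g => ?_
  have h1 := hv _ hmem g
  rw [LinearMap.smul_apply, Pi.smul_apply, smul_eq_mul] at h1
  rcases mul_eq_zero.mp h1 with h2 | h2
  · exfalso
    rw [inv_eq_zero] at h2
    have : (B + 1 : ℝ) = 0 := by exact_mod_cast h2
    linarith
  · exact h2

lemma Pm_max (F : Frame M) (h : USys M mc) (q : V → ℝ) (hq : M.MemNorm q) :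
    ∃ C : ℝ, 0 < C ∧ ∀ v, q v ≤ C * Pm F v := by
  obtain ⟨E, i1, i2, i3, π, j, hg, hqj, C, hC⟩ := hq
  set K : ℝ := |C| * ‖j (F.e 0)‖ + 1 with hK
  have hK0 : 0 < K := by positivity
  refine ⟨K, hK0, fun v => ?_⟩
  obtain ⟨l, hl1, hl2⟩ := exists_dual_vector'' ℂ (j v)
  have hmem : ((K : ℂ)⁻¹ • glob π j l) ∈ Fam F := by
    refine ⟨(OF.glob hg l).smul _, fun g => ?_⟩
    rw [LinearMap.smul_apply, Pi.smul_apply, smul_eq_mul, norm_mul, norm_inv, Complex.norm_real,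
      Real.norm_eq_abs, abs_of_pos hK0, inv_mul_le_iff₀ hK0, mul_one]
    have h1 : ‖glob π j l (F.e 0) g‖ ≤ ‖l‖ * ‖π g (j (F.e 0))‖ := l.le_opNorm _
    have h2 := hC g (j (F.e 0))
    have h3 : C * ‖j (F.e 0)‖ ≤ |C| * ‖j (F.e 0)‖ := by gcongr; exact le_abs_self C
    have h4 : ‖l‖ * ‖π g (j (F.e 0))‖ ≤ 1 * ‖π g (j (F.e 0))‖ := by gcongr
    linarith
  have h1 := le_Pm F h hmem v 1
  have h2 : ‖((K : ℂ)⁻¹ • glob π j l) v 1‖ = K⁻¹ * q v := by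
    rw [LinearMap.smul_apply, Pi.smul_apply, smul_eq_mul, norm_mul, norm_inv, Complex.norm_real,
      Real.norm_eq_abs, abs_of_pos hK0]
    congr 1
    have h3 : glob π j l v 1 = l (π 1 (j v)) := rfl
    rw [h3, map_one]
    have h4 : (1 : E →L[ℂ] E) (j v) = j v := rfl
    rw [h4, hl2, ← hqj v]
    simp
  rw [h2, inv_mul_le_iff₀ hK0] at h1
  exact h1

theorem main_normed (F : Frame M) (h : USys M mc) {φ : V →ₗ[ℂ] (G → ℂ)} (hφ : OF M φ)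
    (hbdd : ∀ v, ∃ C : ℝ, ∀ g, ‖φ v g‖ ≤ C) (hinj : ∀ v, (∀ g, φ v g = 0) → v = 0)
    {CBR : ℝ} (hCBR : 0 ≤ CBR)
    (hBR : ∀ N : ℝ, 1 ≤ N → ∀ g, ∀ S : Finset ℤ, (∀ j ∈ S, |(F.n j : ℝ)| ≤ N) →
      ∑ j ∈ S, ‖φ (F.e j) g‖ ^ 2 ≤ CBR * N) (T : ℝ) (hT0 : 0 ≤ T)
    (hT : ∀ g, ∃ θ t ψ : ℝ, 0 ≤ t ∧ t ≤ T ∧ ∀ v, φ v g = φ v (kk θ * aa t * kk ψ))
    {CN : ℝ} (hCN : 0 ≤ CN) (hnorm : ∀ w, ‖w‖ ≤ CN * ⨆ g, ‖φ w g‖) :
    M.MemNorm (fun v => ⨆ g, ‖φ v g‖) ∧ (∃ p, M.IsMaxNorm p) ∧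
      ∀ p, M.IsMaxNorm p → M.dNorm (fun v => ⨆ g, ‖φ v g‖) p = 1 / 2 := by
  obtain ⟨B, hB⟩ := hbdd (F.e 0)
  have hpA : M.MemNorm (fun v => ⨆ g, ‖φ v g‖) := by
    have h1 := memNorm_family F h {φ} (fun Φ hΦ => by rw [Set.mem_singleton_iff] at hΦ; rwa [hΦ])
      B (fun Φ hΦ => by rw [Set.mem_singleton_iff] at hΦ; rwa [hΦ])
      (fun v hv => hinj v (hv φ rfl))
    have h2 : (fun v => ⨆ g, ‖φ v g‖) =
        fun v => ⨆ x : ({φ} : Set (V →ₗ[ℂ] (G → ℂ))) × G, ‖x.1.1 v x.2‖ := by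
      ext v
      let e : G ≃ ({φ} : Set (V →ₗ[ℂ] (G → ℂ))) × G :=
        { toFun := fun g => (⟨φ, rfl⟩, g)
          invFun := fun x => x.2
          left_inv := fun _ => rfl
          right_inv := fun x => by
            obtain ⟨⟨Φ, hΦ⟩, g⟩ := x
            rw [Set.mem_singleton_iff] at hΦ
            subst hΦ
            rfl }
      exact e.iSup_congr (fun g => rfl)
    rw [h2]
    exact h1
  have hPm := Pm_memNorm F h hφ hbdd hinj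
  refine ⟨hpA, ⟨Pm F, hPm, fun q hq => Pm_max F h q hq⟩, fun p hp => ?_⟩
  obtain ⟨C₁, hC₁, hPp⟩ := hp.2 _ hPm
  obtain ⟨C₂, hC₂, hpP⟩ := Pm_max F h p hp.1
  obtain ⟨C₃, hC₃, hAp⟩ := hp.2 _ hpA
  have hA0 : ∀ v, 0 ≤ ⨆ g, ‖φ v g‖ := fun v => Real.iSup_nonneg fun _ => norm_nonneg _
  have hd1 : M.dArrow (fun v => ⨆ g, ‖φ v g‖) p = 0 := by
    have hmem : (0 : ℝ) ∈ {s : ℝ | 0 ≤ s ∧ M.LESobolev (fun v => ⨆ g, ‖φ v g‖) p s} := by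
      refine ⟨le_rfl, C₃, hC₃, fun c _ => ?_⟩
      have h1 := hAp (c.sum fun _ x => x)
      simpa using h1
    refine le_antisymm (csInf_le ⟨0, fun s hs => hs.1⟩ hmem) ?_
    exact le_csInf ⟨0, hmem⟩ fun s hs => hs.1
  have hlow : ∀ s ∈ {s : ℝ | 0 ≤ s ∧ M.LESobolev p (fun v => ⨆ g, ‖φ v g‖) s}, 1 / 2 ≤ s := by
    rintro s ⟨hs0, C, hC, hle⟩
    refine lower_bound F h hφ hB hCBR hBR T hT0 hT s hs0 (C₁ * C) fun Φ hΦ hΦ1 c hc => ?_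
    calc ‖Φ (c.sum fun _ x => x) 1‖ ≤ Pm F (c.sum fun _ x => x) := le_Pm F h ⟨hΦ, hΦ1⟩ _ _
      _ ≤ C₁ * p (c.sum fun _ x => x) := hPp _
      _ ≤ C₁ * (C * ⨆ g, ‖φ (c.sum fun n x => (((1 + (n : ℝ) ^ 2) ^ (s / 2) : ℝ) : ℂ) • x) g‖) := by
          have := hle c hc
          gcongr
      _ = _ := by ring
  have hup : ∀ s : ℝ, 1 / 2 < s →
      s ∈ {s : ℝ | 0 ≤ s ∧ M.LESobolev p (fun v => ⨆ g, ‖φ v g‖) s} := by
    intro s hs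
    obtain ⟨Cu, hCu, hU⟩ := upper_bound F h s hs
    refine ⟨by linarith, C₂ * (Cu * CN) + 1, by positivity, fun c hc => ?_⟩
    set w : V := c.sum fun n x => (((1 + (n : ℝ) ^ 2) ^ (s / 2) : ℝ) : ℂ) • x with hw
    have h1 : Pm F (c.sum fun _ x => x) ≤ Cu * ‖w‖ :=
      Pm_le F (by positivity) fun Φ hΦ g => hU Φ hΦ.1 hΦ.2 c hc g
    have h2 := hnorm w
    have h3 := hA0 w
    calc p (c.sum fun _ x => x) ≤ C₂ * Pm F (c.sum fun _ x => x) := hpP _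
      _ ≤ C₂ * (Cu * (CN * ⨆ g, ‖φ w g‖)) := by
          gcongr
          refine h1.trans ?_
          gcongr
      _ = C₂ * (Cu * CN) * ⨆ g, ‖φ w g‖ := by ring
      _ ≤ (C₂ * (Cu * CN) + 1) * ⨆ g, ‖φ w g‖ := by
          gcongr
          linarith
  have hd2 : M.dArrow p (fun v => ⨆ g, ‖φ v g‖) = 1 / 2 := by
    refine le_antisymm ?_ (le_csInf ⟨1, hup 1 (by norm_num)⟩ hlow)
    refine le_of_forall_pos_le_add fun ε hε => ?_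
    exact csInf_le ⟨0, fun s hs => hs.1⟩ (hup (1 / 2 + ε) (by linarith))
  rw [LieMod.dNorm, hd1, hd2]
  norm_num

end AutNorm
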