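import Pool.Agent.Helper57.AN.Main1
import Pool.Agent.Helper57.AN.Aut2
import Pool.Agent.Helper57.AN.BR2

/-! Final theorem. -/

open Filter Topology MeasureTheory ComplexConjugate

universe u v

namespace AutNorm

variable {V : Type u} [AddCommGroup V] [Module ℂ V] {M : LieMod V}

lemma OF.act_zero {φ : V →ₗ[ℂ] (G → ℂ)} (hφ : OF M φ) {X : Lie2} {γ : ℝ → G}
    (hγ : IsOneParam X γ) {v : V} (hv : ∀ g, φ v g = 0) (g : G) : φ (M.act X v) g = 0 := by
  have h1 := hφ.der X γ hγ v g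
  simp only [hv] at h1
  exact h1.unique (hasDerivAt_const (0 : ℝ) (0 : ℂ))

lemma orbit_inj (hirr : M.IsIrreducible) {φ : V →ₗ[ℂ] (G → ℂ)} (hφ : OF M φ)
    (hne : ∃ v g, φ v g ≠ 0) (v : V) (hv : ∀ g, φ v g = 0) : v = 0 := by
  set U : Submodule ℂ V := LinearMap.ker φ with hU
  have hmem : ∀ v, v ∈ U ↔ ∀ g, φ v g = 0 := by
    intro v
    rw [hU, LinearMap.mem_ker]
    exact ⟨fun h g => by rw [h]; rfl, fun h => by ext g; exact h g⟩
  have hinv := invariant_of M U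
    (fun v hv => (hmem _).mpr fun g => hφ.act_zero oneParam_aa ((hmem v).mp hv) g)
    (fun v hv => (hmem _).mpr fun g => hφ.act_zero oneParam_bb ((hmem v).mp hv) g)
    (fun v hv => (hmem _).mpr fun g => hφ.act_zero oneParam_kk ((hmem v).mp hv) g)
  rcases hirr.eq_bot_or_top U hinv with h | h
  · have : v ∈ U := (hmem v).mpr hv
    rw [h] at this
    exact (Submodule.mem_bot ℂ).mp this
  · exfalso
    obtain ⟨w, g, hw⟩ := hne
    have : w ∈ U := by rw [h]; trivial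
    exact hw ((hmem w).mp this g)

theorem main_theorem (M : LieMod V) (hHC : M.IsHarishChandra) (hirr : M.IsIrreducible)
    (hnt : ∃ (X : Lie2) (v : V), M.act X v ≠ 0)
    (Γ : Subgroup G) [DiscreteTopology Γ] [CompactSpace (Quotient (QuotientGroup.rightRel Γ))]
    {E : Type v} [AddCommGroup E] [Module ℂ E] [TopologicalSpace E]
    (π : G →* (E →L[ℂ] E)) (j : V →ₗ[ℂ] E) (hg : M.IsGlobalization π j)
    (η : E →L[ℂ] ℂ) (hη : η ≠ 0) (hinv : ∀ γ ∈ Γ, ∀ x, η (π γ x) = η x) :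
    M.MemNorm (pAut π j η) ∧ (∃ p, M.IsMaxNorm p) ∧
      ∀ p, M.IsMaxNorm p → M.dNorm (pAut π j η) p = 1 / 2 := by
  set φ : V →ₗ[ℂ] (G → ℂ) := glob π j η with hφdef
  have hφ : OF M φ := OF.glob hg η
  have hφΓ : ∀ γ ∈ Γ, ∀ v g, φ v (γ * g) = φ v g := by
    intro γ hγ v g
    have h1 : φ v (γ * g) = η (π (γ * g) (j v)) := rfl
    have h2 : φ v g = η (π g (j v)) := rfl
    rw [h1, h2, map_mul]
    exact hinv γ hγ _
  have hne : ∃ v g, φ v g ≠ 0 := by
    by_contra hcon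
    push Not at hcon
    apply hη
    have h1 : (η : E → ℂ) = (0 : E →L[ℂ] ℂ) := by
      refine hg.denseRange.equalizer η.continuous continuous_const ?_
      ext v
      have h2 : φ v 1 = η (π 1 (j v)) := rfl
      rw [map_one] at h2
      have h3 : (1 : E →L[ℂ] E) (j v) = j v := rfl
      rw [h3, hcon] at h2
      exact h2.symm
    exact DFunLike.coe_injective h1
  have hinj := orbit_inj hirr hφ hne
  obtain ⟨n, hn⟩ := cocompact_bdd Γ
  have hB : IsCompact {g : G | hs g ≤ n} := isCompact_hs n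
  have hbdd : ∀ v, ∃ C : ℝ, ∀ g, ‖φ v g‖ ≤ C := by
    intro v
    obtain ⟨C, hC⟩ := hB.exists_bound_of_continuousOn (hφ.cont v).continuousOn
    refine ⟨C, fun g => ?_⟩
    obtain ⟨γ, hγ, hlt⟩ := hn g
    rw [← hφΓ γ hγ v g]
    exact hC _ hlt.le
  obtain ⟨D, hD1, hD2, hD3⟩ := exists_domain Γ
  have hA : AutData M Γ D φ :=
    { of := hφ, inv := hφΓ, inj := hinj, dom := ⟨hD1, hD2, hD3⟩, bdd := hbdd }
  let i1 : NormedAddCommGroup V := hA.nacg
  let i2 : InnerProductSpace ℂ V := hA.ips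
  have hu : USys M hA.mcf := hA.usys
  obtain ⟨F⟩ := exists_frame hHC hirr hA.skewH hnt
  obtain ⟨B, hBb⟩ := hbdd (F.e 0)
  have hU : IsCompact {g : G | hs g ≤ 3} := isCompact_hs 3
  obtain ⟨CU, hCU, hint⟩ := hA.int_le hU
  have hpos : 0 < (mG : Measure G) {g : G | hs g ≤ 3} := by
    have h2 : {g : G | hs g < 3} ⊆ {g : G | hs g ≤ 3} := fun g hg => by
      simp only [Set.mem_setOf_eq] at hg ⊢
      exact hg.le
    have h3 : IsOpen {g : G | hs g < 3} := isOpen_lt continuous_hs continuous_const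
    have h4 : (1 : G) ∈ {g : G | hs g < 3} := by
      simp only [Set.mem_setOf_eq, hs_one]
      norm_num
    exact (h3.measure_pos mG ⟨1, h4⟩).trans_le (measure_mono h2)
  obtain ⟨CBR, hCBR, hBR⟩ := BR F hu hφ hBb mG hU hpos hCU hint
  obtain ⟨T, hT0, hT⟩ := cartan_bdd hB
  obtain ⟨CN, hCN, hnorm⟩ := hA.norm_le_sup
  have hT' : ∀ g, ∃ θ t ψ : ℝ, 0 ≤ t ∧ t ≤ T ∧ ∀ v, φ v g = φ v (kk θ * aa t * kk ψ) := by
    intro g
    obtain ⟨γ, hγ, hlt⟩ := hn g
    obtain ⟨θ, t, ψ, h1, h2, h3⟩ := hT (γ * g) hlt.le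
    refine ⟨θ, t, ψ, h1, h2, fun v => ?_⟩
    rw [← h3, hφΓ γ hγ v g]
  exact main_normed F hu hφ hbdd hinj hCBR hBR T hT0.le hT' hCN hnorm

end AutNorm
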