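import Pool.Agent.Helper57.AN.U3

/-! Blocks and nets. -/

open Filter Topology ComplexConjugate MeasureTheory

universe u v

namespace AutNorm

variable {V : Type u} [NormedAddCommGroup V] [InnerProductSpace ℂ V]
variable {M : LieMod V} {mc : V → V →ₗ[ℂ] (G → ℂ)}

/-- block property -/
structure Block (F : Frame M) (mc : V → V →ₗ[ℂ] (G → ℂ)) (N : ℕ) (S : Finset ℤ) : Prop where
  card : S.card = N
  ne : ∀ j ∈ S, F.e j ≠ 0
  lo : ∀ j ∈ S, (N : ℝ) ≤ |(F.n j : ℝ)|
  hi : ∀ j ∈ S, |(F.n j : ℝ)| ≤ 5 * N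
  idx : ∀ j ∈ S, |(j : ℝ)| ≤ 2 * N
  int : ∀ j ∈ S, ∀ T : ℝ, 1 ≤ T → ∫ t in (1 : ℝ)..T, ‖F.c mc 0 j t‖ ^ 2 ≤ 4 / N

lemma Frame.pos_ne (F : Frame M) (hu : ∀ i, ∃ k, i ≤ k ∧ F.e k ≠ 0) :
    ∀ k : ℕ, F.e (k : ℤ) ≠ 0 := by
  intro k
  induction k with
  | zero => exact F.base
  | succ k ih =>
    intro h0
    push_cast at h0
    have h1 : F.α k = 0 := by
      by_contra hne
      exact (F.ne_zero_of_α k hne).2 h0
    obtain ⟨l, hl1, hl2⟩ := hu (k + 1)
    exact hl2 (F.up k ih h1 l (by omega))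

lemma Frame.neg_ne (F : Frame M) (hu : ∀ i, ∃ k, k ≤ i ∧ F.e k ≠ 0) :
    ∀ k : ℕ, F.e (-(k : ℤ)) ≠ 0 := by
  intro k
  induction k with
  | zero => simpa using F.base
  | succ k ih =>
    intro h0
    push_cast at h0
    have h1 : F.α (-(k : ℤ) - 1) = 0 := by
      by_contra hne
      have := (F.ne_zero_of_α _ hne).1
      apply this
      rw [← h0]
      congr 1
      ring
    obtain ⟨l, hl1, hl2⟩ := hu (-(k : ℤ) - 1)
    exact hl2 (F.down _ ih h1 l (by omega))

lemma exists_block (F : Frame M) (h : USys M mc) :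
    ∃ N₁ : ℕ, ∀ N : ℕ, N₁ ≤ N → ∃ S : Finset ℤ, Block F mc N S := by
  refine ⟨2 * F.n₀.natAbs + 1, fun N hN => ?_⟩
  have hn0 : (N : ℝ) ≠ 0 := by
    have : 0 < N := by omega
    exact_mod_cast this.ne'
  have hNpos : (0 : ℝ) < N := by
    have : 0 < N := by omega
    exact_mod_cast this
  rcases F.unbounded with hu | hu
  · refine ⟨Finset.Ioc (N : ℤ) (2 * N), ?_, ?_, ?_, ?_, ?_, ?_⟩
    · simp
      omega
    · intro j hj
      rw [Finset.mem_Ioc] at hj
      have := F.pos_ne hu j.toNat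
      rwa [Int.toNat_of_nonneg (by omega)] at this
    · intro j hj
      rw [Finset.mem_Ioc] at hj
      have : (N : ℤ) ≤ |F.n j| := by
        simp only [Frame.n]
        rcases abs_cases (F.n₀ + 2 * j) with ⟨e3, e4⟩ | ⟨e3, e4⟩ <;> omega
      exact_mod_cast this
    · intro j hj
      rw [Finset.mem_Ioc] at hj
      have : |F.n j| ≤ 5 * (N : ℤ) := by
        simp only [Frame.n]
        rcases abs_cases (F.n₀ + 2 * j) with ⟨e3, e4⟩ | ⟨e3, e4⟩ <;> omega
      exact_mod_cast this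
    · intro j hj
      rw [Finset.mem_Ioc] at hj
      have : |j| ≤ 2 * (N : ℤ) := by
        rcases abs_cases j with ⟨e3, e4⟩ | ⟨e3, e4⟩ <;> omega
      exact_mod_cast this
    · intro j hj T hT
      rw [Finset.mem_Ioc] at hj
      have h1 := (h.core F 0 F.base).upper j (by omega) (by simp only [Frame.n]; omega) T hT
      refine h1.trans ?_
      have h2 : (N : ℝ) ≤ ((F.n₀ + 2 * j : ℤ) : ℝ) := by
        have : (N : ℤ) ≤ F.n₀ + 2 * j := by omega
        exact_mod_cast this
      gcongr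
  · refine ⟨Finset.Ico (-(2 * N : ℤ)) (-N), ?_, ?_, ?_, ?_, ?_, ?_⟩
    · simp
      omega
    · intro j hj
      rw [Finset.mem_Ico] at hj
      have := F.neg_ne hu (-j).toNat
      rwa [Int.toNat_of_nonneg (by omega), neg_neg] at this
    · intro j hj
      rw [Finset.mem_Ico] at hj
      have : (N : ℤ) ≤ |F.n j| := by
        simp only [Frame.n]
        rcases abs_cases (F.n₀ + 2 * j) with ⟨e3, e4⟩ | ⟨e3, e4⟩ <;> omega
      exact_mod_cast this
    · intro j hj
      rw [Finset.mem_Ico] at hj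
      have : |F.n j| ≤ 5 * (N : ℤ) := by
        simp only [Frame.n]
        rcases abs_cases (F.n₀ + 2 * j) with ⟨e3, e4⟩ | ⟨e3, e4⟩ <;> omega
      exact_mod_cast this
    · intro j hj
      rw [Finset.mem_Ico] at hj
      have : |j| ≤ 2 * (N : ℤ) := by
        rcases abs_cases j with ⟨e3, e4⟩ | ⟨e3, e4⟩ <;> omega
      exact_mod_cast this
    · intro j hj T hT
      rw [Finset.mem_Ico] at hj
      have h1 := (h.core F 0 F.base).mirror.upper (-j) (by omega) (by simp only [Frame.n]; omega)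
        T hT
      simp only [neg_neg] at h1
      refine h1.trans ?_
      have h2 : (N : ℝ) ≤ ((-F.n₀ + 2 * (-j) : ℤ) : ℝ) := by
        have : (N : ℤ) ≤ -F.n₀ + 2 * (-j) := by omega
        exact_mod_cast this
      gcongr

lemma kk_add_int (θ : ℝ) (k : ℤ) : kk (θ + k * (2 * Real.pi)) = kk θ := by
  apply G_ext <;> simp only [kk_00, kk_01, kk_10, kk_11, Real.cos_add_int_mul_two_pi,
    Real.sin_add_int_mul_two_pi]

lemma circle_net (A : ℕ) (hA : 0 < A) (θ : ℝ) : ∃ a ∈ Finset.range A, ∃ θ' : ℝ,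
    |θ - θ'| ≤ 2 * Real.pi / A ∧ ∃ k : ℤ, θ' = 2 * Real.pi * a / A + k * (2 * Real.pi) := by
  have hA' : (0 : ℝ) < A := by exact_mod_cast hA
  have hpi := Real.pi_pos
  set q : ℤ := ⌊θ * A / (2 * Real.pi)⌋ with hq
  have h1 : (q : ℝ) ≤ θ * A / (2 * Real.pi) := Int.floor_le _
  have h2 : θ * A / (2 * Real.pi) < q + 1 := Int.lt_floor_add_one _
  have hAz : (0 : ℤ) < A := by exact_mod_cast hA
  have hmod0 : 0 ≤ q % A := Int.emod_nonneg _ hAz.ne'
  have hmod1 : q % A < A := Int.emod_lt_of_pos _ hAz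
  refine ⟨(q % A).toNat, ?_, 2 * Real.pi * q / A, ?_, q / A, ?_⟩
  · rw [Finset.mem_range]
    omega
  · have e1 : θ - 2 * Real.pi * q / A =
        (θ * A / (2 * Real.pi) - q) * (2 * Real.pi / A) := by
      field_simp
    rw [e1, abs_mul, abs_of_nonneg (by linarith), abs_of_pos (by positivity)]
    have : (θ * A / (2 * Real.pi) - q) * (2 * Real.pi / A) ≤ 1 * (2 * Real.pi / A) := by
      gcongr
      linarith
    linarith
  · have e2 : ((((q % A).toNat : ℕ) : ℤ) : ℝ) = ((q % A : ℤ) : ℝ) := by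
      rw [Int.toNat_of_nonneg hmod0]
    have e3 : (((q % A).toNat : ℕ) : ℝ) = ((q % A : ℤ) : ℝ) := by
      rw [← e2, Int.cast_natCast]
    have e4 : (q : ℝ) = ((q % A : ℤ) : ℝ) + (A : ℝ) * ((q / A : ℤ) : ℝ) := by
      have := Int.emod_add_mul_ediv q A
      exact_mod_cast this.symm
    rw [e3]
    conv_lhs => rw [e4]
    field_simp

/-- bad cells of a small-mass nonnegative Lipschitz function -/
lemma t_net {g : ℝ → ℝ} (hg : Continuous g) (hg0 : ∀ t, 0 ≤ g t) {L I c : ℝ} (hL : 0 ≤ L)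
    (hlip : ∀ t t', |g t - g t'| ≤ L * |t - t'|) (hI : ∀ T : ℝ, 1 ≤ T → ∫ t in (1 : ℝ)..T, g t ≤ I)
    (hc : 0 < c) (H : ℕ) (hH : 0 < H) (hcH : L / H ≤ c) (Q : ℕ) (hQ : I * H ≤ c * Q) :
    ∃ T : Finset ℕ, T.card ≤ H + Q ∧ ∀ t : ℝ, 0 ≤ t → 2 * c < g t →
      ∃ k ∈ T, |t - k / H| ≤ 1 / H := by
  classical
  have hH' : (0 : ℝ) < H := by exact_mod_cast hH
  set bad : Set ℕ := {k | H ≤ k ∧ ∃ t, (k : ℝ) / H ≤ t ∧ t ≤ (k + 1) / H ∧ 2 * c < g t} with hbad
  have hlow : ∀ k ∈ bad, c / H ≤ ∫ t in ((k : ℝ) / H)..((k + 1 : ℕ) : ℝ) / H, g t := by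
    rintro k ⟨_, t₀, h1, h2, h3⟩
    have hle : (k : ℝ) / H ≤ ((k + 1 : ℕ) : ℝ) / H := by
      push_cast
      gcongr
      linarith
    have : ∫ _ in ((k : ℝ) / H)..((k + 1 : ℕ) : ℝ) / H, c ≤
        ∫ t in ((k : ℝ) / H)..((k + 1 : ℕ) : ℝ) / H, g t := by
      refine intervalIntegral.integral_mono_on hle
        (continuous_const.intervalIntegrable _ _) (hg.intervalIntegrable _ _) fun t ht => ?_
      push_cast at ht
      have h4 : |t₀ - t| ≤ 1 / H := by
        have : (k + 1 : ℝ) / H = k / H + 1 / H := by ring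
        rw [abs_le]
        constructor <;> linarith [ht.1, ht.2]
      have h5 := hlip t₀ t
      have h6 : L * |t₀ - t| ≤ L / H := by
        rw [div_eq_mul_one_div]
        gcongr
      have h7 := le_abs_self (g t₀ - g t)
      linarith
    refine le_trans (le_of_eq ?_) this
    rw [intervalIntegral.integral_const, smul_eq_mul]
    push_cast
    field_simp
    ring
  have hcard : ∀ T : Finset ℕ, (∀ k ∈ T, k ∈ bad) → T.card ≤ Q := by
    intro T hT
    set K : ℕ := T.sup id + H + 1 with hK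
    have hsub : T ⊆ Finset.Ico H K := by
      intro k hk
      rw [Finset.mem_Ico]
      refine ⟨(hT k hk).1, ?_⟩
      have : k ≤ T.sup id := Finset.le_sup (f := id) hk
      omega
    have h1 : (T.card : ℝ) * (c / H) ≤ I := by
      calc (T.card : ℝ) * (c / H) = ∑ k ∈ T, c / H := by rw [Finset.sum_const, nsmul_eq_mul]
        _ ≤ ∑ k ∈ T, ∫ t in ((k : ℝ) / H)..((k + 1 : ℕ) : ℝ) / H, g t :=
            Finset.sum_le_sum fun k hk => hlow k (hT k hk)
        _ ≤ ∑ k ∈ Finset.Ico H K, ∫ t in ((k : ℝ) / H)..((k + 1 : ℕ) : ℝ) / H, g t := by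
            refine Finset.sum_le_sum_of_subset_of_nonneg hsub fun k _ _ => ?_
            refine intervalIntegral.integral_nonneg ?_ fun t _ => hg0 t
            push_cast
            gcongr
            linarith
        _ = ∫ t in ((H : ℝ) / H)..((K : ℝ) / H), g t := by
            exact intervalIntegral.sum_integral_adjacent_intervals_Ico
              (a := fun k : ℕ => (k : ℝ) / H) (by omega)
              (fun k _ => hg.intervalIntegrable _ _)
        _ ≤ I := by
            rw [div_self hH'.ne']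
            refine hI _ ?_
            rw [le_div_iff₀ hH', one_mul]
            have : H ≤ K := by omega
            exact_mod_cast this
    have h2 : (T.card : ℝ) * c ≤ c * Q := by
      have : (T.card : ℝ) * c = (T.card : ℝ) * (c / H) * H := by field_simp
      rw [this]
      refine le_trans ?_ hQ
      gcongr
    have h3 : (T.card : ℝ) ≤ Q := by
      rw [mul_comm] at h2
      exact le_of_mul_le_mul_left h2 hc
    exact_mod_cast h3
  have hfin : bad.Finite := by
    by_contra hinf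
    obtain ⟨t, ht1, ht2⟩ := Set.Infinite.exists_subset_card_eq hinf (Q + 1)
    have := hcard t (fun k hk => ht1 hk)
    omega
  refine ⟨Finset.range H ∪ hfin.toFinset, ?_, fun t ht hgt => ?_⟩
  · refine (Finset.card_union_le _ _).trans ?_
    rw [Finset.card_range]
    have := hcard hfin.toFinset (fun k hk => hfin.mem_toFinset.mp hk)
    omega
  · set k : ℕ := ⌊t * H⌋₊ with hk
    have h1 : (k : ℝ) ≤ t * H := Nat.floor_le (by positivity)
    have h2 : t * H < k + 1 := Nat.lt_floor_add_one _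
    have h3 : (k : ℝ) / H ≤ t := by rw [div_le_iff₀ hH']; exact h1
    have h4 : t ≤ (k + 1) / H := by rw [le_div_iff₀ hH']; exact h2.le
    refine ⟨k, ?_, ?_⟩
    · rw [Finset.mem_union]
      by_cases hkH : k < H
      · exact Or.inl (Finset.mem_range.mpr hkH)
      · exact Or.inr (hfin.mem_toFinset.mpr ⟨by omega, t, h3, h4, hgt⟩)
    · have : ((k : ℝ) + 1) / H = k / H + 1 / H := by ring
      rw [abs_le]
      constructor
      · have : 0 < 1 / (H : ℝ) := by positivity
        linarith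
      · linarith

end AutNorm
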