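import Pool.Agent.Helper57.AN.Net1
import Pool.Agent.Helper57.AN.Exp

/-! Test vectors for the two families. -/

open Filter Topology ComplexConjugate MeasureTheory

universe u v

namespace AutNorm

variable {V : Type u} [NormedAddCommGroup V] [InnerProductSpace ℂ V]
variable {M : LieMod V} {mc : V → V →ₗ[ℂ] (G → ℂ)}

lemma norm_phase (n : ℤ) (θ : ℝ) : ‖Complex.exp ((n : ℂ) * θ * Complex.I)‖ = 1 := by
  have : (n : ℂ) * θ * Complex.I = ((n * θ : ℝ) : ℂ) * Complex.I := by push_cast; ring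
  rw [this, Complex.norm_exp_ofReal_mul_I]

lemma phase_lip (n : ℤ) (θ θ' : ℝ) :
    ‖Complex.exp ((n : ℂ) * θ * Complex.I) - Complex.exp ((n : ℂ) * θ' * Complex.I)‖ ≤
      |(n : ℝ)| * |θ - θ'| := by
  have h1 : Complex.exp ((n : ℂ) * θ * Complex.I) - Complex.exp ((n : ℂ) * θ' * Complex.I) =
      Complex.exp ((n : ℂ) * θ' * Complex.I) *
        (Complex.exp (Complex.I * ((n * (θ - θ') : ℝ) : ℂ)) - 1) := by
    rw [mul_sub, ← Complex.exp_add, mul_one]
    congr 2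
    push_cast
    ring
  rw [h1, norm_mul, norm_phase, one_mul]
  refine Real.norm_exp_I_mul_ofReal_sub_one_le.trans ?_
  rw [Real.norm_eq_abs, abs_mul]

lemma phase_int (n : ℤ) (θ : ℝ) (k : ℤ) :
    Complex.exp ((n : ℂ) * ((θ + k * (2 * Real.pi) : ℝ) : ℂ) * Complex.I) =
      Complex.exp ((n : ℂ) * θ * Complex.I) := by
  have : (n : ℂ) * ((θ + k * (2 * Real.pi) : ℝ) : ℂ) * Complex.I =
      (n : ℂ) * θ * Complex.I + ((n * k : ℤ) : ℂ) * (2 * Real.pi * Complex.I) := by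
    push_cast; ring
  rw [this, Complex.exp_add, Complex.exp_int_mul_two_pi_mul_I, mul_one]

lemma USys.c_lip (h : USys M mc) (F : Frame M) (j : ℤ) (t t' : ℝ) :
    ‖F.c mc 0 j t - F.c mc 0 j t'‖ ≤ (|F.α 0| + |F.α (-1)|) * |t - t'| := by
  have hb : ∀ i x, ‖F.c mc i j x‖ ≤ 1 := by
    intro i x
    by_cases hi : F.e i = 0
    · rw [Frame.c, hi, map_zero]; simp
    · exact (h.core F i hi).norm_c_le j x
  have := Convex.norm_image_sub_le_of_norm_hasDerivWithin_le (f := F.c mc 0 j)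
    (f' := fun t => F.α 0 * F.c mc (0 + 1) j t - F.α (0 - 1) * F.c mc (0 - 1) j t)
    (C := |F.α 0| + |F.α (-1)|) (s := Set.univ) (x := t') (y := t)
    (fun x _ => (h.deriv_left F 0 j x).hasDerivWithinAt) (fun x _ => by
      refine (norm_sub_le _ _).trans ?_
      rw [norm_mul, norm_mul, Complex.norm_real, Complex.norm_real, Real.norm_eq_abs,
        Real.norm_eq_abs]
      have h1 := hb (0 + 1) x
      have h2 := hb (0 - 1) x
      have h3 : |F.α 0| * ‖F.c mc (0 + 1) j x‖ ≤ |F.α 0| * 1 := by gcongr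
      have h4 : |F.α (0 - 1)| * ‖F.c mc (0 - 1) j x‖ ≤ |F.α (0 - 1)| * 1 := by gcongr
      have h5 : (0 : ℤ) - 1 = -1 := by norm_num
      rw [h5] at h4 ⊢
      linarith) convex_univ (Set.mem_univ _) (Set.mem_univ _)
  simpa using this

lemma family1 (F : Frame M) (h : USys M mc) : ∃ N₁ : ℕ, ∀ N : ℕ, N₁ ≤ N → ∀ S : Finset ℤ,
    Block F mc N S → ∃ T : Finset (ℤ → ℂ), T.card ≤ 9 * N ^ 7 ∧
      (∀ x ∈ T, ∑ j ∈ S, ‖x j‖ ^ 2 ≤ 1) ∧
      ∀ ε : ℤ → ℝ, (∀ j, ε j = 1 ∨ ε j = -1) → ∀ r : ℝ, 0 ≤ r →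
        (∀ x ∈ T, ‖∑ j ∈ S, (ε j : ℂ) * x j‖ ≤ r) →
        ∀ g, ‖∑ j ∈ S, (ε j : ℂ) * mc (F.e j) (F.e 0) g‖ ≤ r + 1 := by
  classical
  set L₀ : ℝ := |F.α 0| + |F.α (-1)| with hL₀
  have hL₀0 : 0 ≤ L₀ := by positivity
  refine ⟨⌈4 * L₀⌉₊ + 64, fun N hN S hS => ?_⟩
  have hNL : 4 * L₀ + 64 ≤ (N : ℝ) := by
    have h1 : 4 * L₀ ≤ (⌈4 * L₀⌉₊ : ℝ) := Nat.le_ceil _
    have h2 : ((⌈4 * L₀⌉₊ + 64 : ℕ) : ℝ) ≤ N := by exact_mod_cast hN
    push_cast at h2
    linarith
  have hN64 : (64 : ℝ) ≤ N := by linarith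
  have hN0 : (0 : ℝ) < N := by linarith
  have hNn : 0 < N := by exact_mod_cast hN0
  set g : ℝ → ℝ := fun t => ∑ j ∈ S, ‖F.c mc 0 j t‖ ^ 2 with hg
  have hcore := h.core F 0 F.base
  have hcont : ∀ j, Continuous (fun t => ‖F.c mc 0 j t‖ ^ 2) := fun j => hcore.continuous_q j
  have hgc : Continuous g := continuous_finset_sum _ fun j _ => hcont j
  have hcl := fun j t t' => h.c_lip F j t t'
  have hc1 : ∀ j t, ‖F.c mc 0 j t‖ ≤ 1 := fun j t => hcore.norm_c_le j t
  have hNN : (((N ^ 3 : ℕ) : ℕ) : ℝ) = (N : ℝ) ^ 3 := by push_cast; ring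
  obtain ⟨T₀, hT₀, hnet⟩ := t_net (g := g) hgc (fun t => Finset.sum_nonneg fun _ _ => by positivity)
    (L := 2 * N * L₀) (I := 4) (c := 1 / (2 * N)) (by positivity)
    (fun t t' => by
      simp only [hg]
      rw [← Finset.sum_sub_distrib]
      refine (Finset.abs_sum_le_sum_abs _ _).trans ?_
      have : ∀ j ∈ S, |‖F.c mc 0 j t‖ ^ 2 - ‖F.c mc 0 j t'‖ ^ 2| ≤ 2 * L₀ * |t - t'| := by
        intro j _
        have e1 : ‖F.c mc 0 j t‖ ^ 2 - ‖F.c mc 0 j t'‖ ^ 2 =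
          (‖F.c mc 0 j t‖ + ‖F.c mc 0 j t'‖) * (‖F.c mc 0 j t‖ - ‖F.c mc 0 j t'‖) := by ring
        rw [e1, abs_mul, abs_of_nonneg (by positivity : 0 ≤ ‖F.c mc 0 j t‖ + ‖F.c mc 0 j t'‖)]
        have e2 := abs_norm_sub_norm_le (F.c mc 0 j t) (F.c mc 0 j t')
        have e3 := hcl j t t'
        have e4 := hc1 j t
        have e5 := hc1 j t'
        rw [mul_assoc 2 L₀]
        have e6 : ‖F.c mc 0 j t‖ + ‖F.c mc 0 j t'‖ ≤ 2 := by linarith
        have e7 := e2.trans e3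
        gcongr
      refine (Finset.sum_le_sum this).trans ?_
      rw [Finset.sum_const, hS.card, nsmul_eq_mul]
      exact le_of_eq (by ring))
    (fun T hT => by
      simp only [hg]
      rw [intervalIntegral.integral_finset_sum fun j _ => (hcont j).intervalIntegrable _ _]
      refine (Finset.sum_le_sum fun j hj => hS.int j hj T hT).trans ?_
      rw [Finset.sum_const, hS.card, nsmul_eq_mul]
      exact le_of_eq (by field_simp)) (by positivity) (N ^ 3) (by positivity)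
    (by
      rw [hNN, div_le_div_iff₀ (by positivity) (by positivity)]
      have : 4 * L₀ ≤ N := by linarith
      have h3 : (N : ℝ) ^ 2 * (4 * L₀) ≤ (N : ℝ) ^ 2 * N := by gcongr
      nlinarith)
    (8 * N ^ 4) (by
      push_cast
      field_simp
      nlinarith [pow_pos hN0 3])
  set A : ℕ := N ^ 3 with hA
  have hA0 : 0 < A := by positivity
  have hAr : (A : ℝ) = (N : ℝ) ^ 3 := hNN
  set vec : ℕ × ℕ → ℤ → ℂ := fun p j =>
    Complex.exp ((F.n j : ℂ) * ((2 * Real.pi * p.1 / A : ℝ) : ℂ) * Complex.I) *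
      F.c mc 0 j (p.2 / A) with hvec
  refine ⟨(Finset.range A ×ˢ T₀).image vec, ?_, ?_, ?_⟩
  · refine Finset.card_image_le.trans ?_
    rw [Finset.card_product, Finset.card_range]
    have : N ^ 3 + 8 * N ^ 4 ≤ 9 * N ^ 4 := by
      have : N ^ 3 ≤ N ^ 4 := Nat.pow_le_pow_right hNn (by norm_num)
      omega
    calc A * T₀.card ≤ N ^ 3 * (9 * N ^ 4) := Nat.mul_le_mul le_rfl (hT₀.trans this)
      _ = 9 * N ^ 7 := by ring
  · intro x hx
    rw [Finset.mem_image] at hx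
    obtain ⟨p, _, rfl⟩ := hx
    simp only [hvec, norm_mul, norm_phase, one_mul]
    exact hcore.mass S _
  · intro ε hε r hr hT g'
    have hε1 : ∀ j, ‖(ε j : ℂ)‖ = 1 := by
      intro j
      rcases hε j with h' | h' <;> rw [h'] <;> simp
    obtain ⟨θ, t, ψ, ht, rfl⟩ := cartan g'
    have hmc : ∀ j, mc (F.e j) (F.e 0) (kk θ * aa t * kk ψ) =
        Complex.exp ((F.n 0 : ℂ) * ψ * Complex.I) *
          (Complex.exp ((F.n j : ℂ) * θ * Complex.I) * F.c mc 0 j t) := by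
      intro j
      rw [(h.of (F.e j)).kk_eq (F.actW' 0), h.kk_left, Frame.c]
    have hsum : ‖∑ j ∈ S, (ε j : ℂ) * mc (F.e j) (F.e 0) (kk θ * aa t * kk ψ)‖ =
        ‖∑ j ∈ S, (ε j : ℂ) * (Complex.exp ((F.n j : ℂ) * θ * Complex.I) * F.c mc 0 j t)‖ := by
      have : ∑ j ∈ S, (ε j : ℂ) * mc (F.e j) (F.e 0) (kk θ * aa t * kk ψ) =
          Complex.exp ((F.n 0 : ℂ) * ψ * Complex.I) *
          ∑ j ∈ S, (ε j : ℂ) * (Complex.exp ((F.n j : ℂ) * θ * Complex.I) * F.c mc 0 j t) := by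
        rw [Finset.mul_sum]
        refine Finset.sum_congr rfl fun j _ => ?_
        rw [hmc]; ring
      rw [this, norm_mul, norm_phase, one_mul]
    rw [hsum]
    by_cases hgt : 2 * (1 / (2 * (N : ℝ))) < g t
    · obtain ⟨k, hk, hkt⟩ := hnet t ht hgt
      obtain ⟨a, ha, θ', hθ', m, hm⟩ := circle_net A hA0 θ
      have hx := hT (vec (a, k)) (Finset.mem_image.mpr ⟨(a, k), Finset.mem_product.mpr ⟨ha, hk⟩, rfl⟩)
      have hvec' : ∀ j, vec (a, k) j = Complex.exp ((F.n j : ℂ) * θ' * Complex.I) *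
          F.c mc 0 j (k / A) := by
        intro j
        simp only [hvec]
        rw [hm, phase_int]
      simp only [hvec'] at hx
      have hdiff : ∀ j ∈ S, ‖(ε j : ℂ) * (Complex.exp ((F.n j : ℂ) * θ * Complex.I) *
          F.c mc 0 j t) - (ε j : ℂ) * (Complex.exp ((F.n j : ℂ) * θ' * Complex.I) *
          F.c mc 0 j (k / A))‖ ≤ 5 * N * (2 * Real.pi / A) + L₀ * (1 / A) := by
        intro j hj
        rw [← mul_sub, norm_mul, hε1, one_mul]
        have e1 : Complex.exp ((F.n j : ℂ) * θ * Complex.I) * F.c mc 0 j t -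
            Complex.exp ((F.n j : ℂ) * θ' * Complex.I) * F.c mc 0 j (k / A) =
            (Complex.exp ((F.n j : ℂ) * θ * Complex.I) -
              Complex.exp ((F.n j : ℂ) * θ' * Complex.I)) * F.c mc 0 j t +
            Complex.exp ((F.n j : ℂ) * θ' * Complex.I) *
              (F.c mc 0 j t - F.c mc 0 j (k / A)) := by ring
        rw [e1]
        refine (norm_add_le _ _).trans ?_
        rw [norm_mul, norm_mul, norm_phase, one_mul]
        have e2 := phase_lip (F.n j) θ θ'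
        have e3 := hc1 j t
        have e4 := hcl j t (k / A)
        have e5 := hS.hi j hj
        have e6 : ‖Complex.exp ((F.n j : ℂ) * θ * Complex.I) -
              Complex.exp ((F.n j : ℂ) * θ' * Complex.I)‖ ≤ 5 * N * (2 * Real.pi / A) := by
          refine e2.trans ?_
          gcongr
        have e7 : ‖Complex.exp ((F.n j : ℂ) * θ * Complex.I) -
              Complex.exp ((F.n j : ℂ) * θ' * Complex.I)‖ * ‖F.c mc 0 j t‖ ≤
              (5 * N * (2 * Real.pi / A)) * 1 := by gcongr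
        have e8 : ‖F.c mc 0 j t - F.c mc 0 j (k / A)‖ ≤ L₀ * (1 / A) := by
          refine e4.trans ?_
          gcongr
        linarith
      have h1 : ‖∑ j ∈ S, (ε j : ℂ) * (Complex.exp ((F.n j : ℂ) * θ * Complex.I) *
          F.c mc 0 j t) - ∑ j ∈ S, (ε j : ℂ) * (Complex.exp ((F.n j : ℂ) * θ' * Complex.I) *
          F.c mc 0 j (k / A))‖ ≤ 1 := by
        rw [← Finset.sum_sub_distrib]
        refine (norm_sum_le _ _).trans ((Finset.sum_le_sum hdiff).trans ?_)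
        rw [Finset.sum_const, hS.card, nsmul_eq_mul, hAr]
        have hpi : Real.pi ≤ 3.15 := Real.pi_lt_d2.le
        have e1 : (N : ℝ) * (5 * N * (2 * Real.pi / N ^ 3) + L₀ * (1 / N ^ 3)) =
            (10 * Real.pi * N + L₀) / N ^ 2 := by
          field_simp
          ring
        rw [e1, div_le_one (by positivity)]
        nlinarith
      have h2 := norm_add_le (∑ j ∈ S, (ε j : ℂ) * (Complex.exp ((F.n j : ℂ) * θ * Complex.I) *
          F.c mc 0 j t) - ∑ j ∈ S, (ε j : ℂ) * (Complex.exp ((F.n j : ℂ) * θ' * Complex.I) *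
          F.c mc 0 j (k / A))) (∑ j ∈ S, (ε j : ℂ) * (Complex.exp ((F.n j : ℂ) * θ' * Complex.I) *
          F.c mc 0 j (k / A)))
      rw [sub_add_cancel] at h2
      linarith
    · have hgt' : g t ≤ 1 / N := by
        rw [not_lt] at hgt
        refine hgt.trans (le_of_eq ?_)
        field_simp
      have h1 : ‖∑ j ∈ S, (ε j : ℂ) * (Complex.exp ((F.n j : ℂ) * θ * Complex.I) *
          F.c mc 0 j t)‖ ≤ ∑ j ∈ S, ‖F.c mc 0 j t‖ := by
        refine (norm_sum_le _ _).trans (le_of_eq (Finset.sum_congr rfl fun j _ => ?_))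
        rw [norm_mul, norm_mul, hε1, norm_phase, one_mul, one_mul]
      have h2 := sq_sum_le_card_mul_sum_sq (s := S) (f := fun j => ‖F.c mc 0 j t‖)
      rw [hS.card] at h2
      have h3 : (N : ℝ) * ∑ j ∈ S, ‖F.c mc 0 j t‖ ^ 2 ≤ 1 := by
        have : (N : ℝ) * g t ≤ N * (1 / N) := by gcongr
        rw [mul_one_div_cancel hN0.ne'] at this
        exact this
      have h4 : ∑ j ∈ S, ‖F.c mc 0 j t‖ ≤ 1 := by
        have : (∑ j ∈ S, ‖F.c mc 0 j t‖) ^ 2 ≤ 1 ^ 2 := by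
          rw [one_pow]
          exact h2.trans h3
        exact le_of_sq_le_sq this zero_le_one
      linarith

end AutNorm
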