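import Mathlib

/-! Random signs, derandomized. -/

namespace AutNorm

lemma rs_step {ι : Type*} (T : Finset ι) (S : Finset ℤ) (r : ℝ) (y : ι → ℤ → ℝ) :
    ∀ w : ι → ℝ, (∀ x, 0 ≤ w x) → ∃ ε : ℤ → ℝ, (∀ j, ε j = 1 ∨ ε j = -1) ∧
      ∑ x ∈ T, w x * Real.exp (r * ∑ j ∈ S, ε j * y x j) ≤
        ∑ x ∈ T, w x * ∏ j ∈ S, Real.cosh (r * y x j) := by
  classical
  induction S using Finset.induction_on with
  | empty => intro w hw; exact ⟨fun _ => 1, fun _ => Or.inl rfl, by simp⟩
  | insert a S ha ih =>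
    intro w hw
    obtain ⟨ε, hε, hle⟩ := ih (fun x => w x * Real.cosh (r * y x a))
      (fun x => mul_nonneg (hw x) (Real.cosh_pos _).le)
    set A : ℝ := ∑ x ∈ T, w x * Real.exp (r * (y x a + ∑ j ∈ S, ε j * y x j)) with hA
    set B : ℝ := ∑ x ∈ T, w x * Real.exp (r * (-y x a + ∑ j ∈ S, ε j * y x j)) with hB
    have hAB : (A + B) / 2 = ∑ x ∈ T, w x * Real.cosh (r * y x a) *
        Real.exp (r * ∑ j ∈ S, ε j * y x j) := by
      rw [hA, hB, ← Finset.sum_add_distrib, Finset.sum_div]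
      refine Finset.sum_congr rfl fun x _ => ?_
      rw [mul_add, mul_add, Real.exp_add, Real.exp_add, Real.cosh_eq, mul_neg]
      ring
    have hR : ∑ x ∈ T, w x * Real.cosh (r * y x a) * ∏ j ∈ S, Real.cosh (r * y x j) =
        ∑ x ∈ T, w x * ∏ j ∈ insert a S, Real.cosh (r * y x j) := by
      refine Finset.sum_congr rfl fun x _ => ?_
      rw [Finset.prod_insert ha, mul_assoc]
    have hle2 : (A + B) / 2 ≤ ∑ x ∈ T, w x * ∏ j ∈ insert a S, Real.cosh (r * y x j) := by
      rw [hAB, ← hR]; exact hle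
    have hsum : ∀ (s : ℝ) x, ∑ j ∈ insert a S, Function.update ε a s j * y x j =
        s * y x a + ∑ j ∈ S, ε j * y x j := by
      intro s x
      rw [Finset.sum_insert ha, Function.update_self]
      congr 1
      refine Finset.sum_congr rfl fun j hj => ?_
      rw [Function.update_of_ne (by rintro rfl; exact ha hj)]
    rcases le_total A B with h | h
    · refine ⟨Function.update ε a 1, fun j => ?_, ?_⟩
      · by_cases hj : j = a
        · subst hj; simp
        · rw [Function.update_of_ne hj]; exact hε j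
      · simp only [hsum, one_mul]
        rw [← hA]
        linarith
    · refine ⟨Function.update ε a (-1), fun j => ?_, ?_⟩
      · by_cases hj : j = a
        · subst hj; simp
        · rw [Function.update_of_ne hj]; exact hε j
      · simp only [hsum, neg_one_mul]
        rw [← hB]
        linarith

lemma rs_real (T : Finset (ℤ → ℝ)) (S : Finset ℤ) (hT : ∀ x ∈ T, ∑ j ∈ S, x j ^ 2 ≤ 1) (r : ℝ)
    (hr : 0 < r) (hcard : (T.card : ℝ) ≤ Real.exp (r ^ 2 / 2)) :
    ∃ ε : ℤ → ℝ, (∀ j, ε j = 1 ∨ ε j = -1) ∧ ∀ x ∈ T, ∑ j ∈ S, ε j * x j ≤ r := by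
  obtain ⟨ε, hε, hle⟩ := rs_step T S r (fun x => x) (fun _ => 1) (fun _ => zero_le_one)
  refine ⟨ε, hε, fun x hx => ?_⟩
  have h1 : ∑ x ∈ T, (1 : ℝ) * ∏ j ∈ S, Real.cosh (r * x j) ≤ T.card * Real.exp (r ^ 2 / 2) := by
    rw [← nsmul_eq_mul, ← Finset.sum_const]
    refine Finset.sum_le_sum fun x hx => ?_
    rw [one_mul]
    calc ∏ j ∈ S, Real.cosh (r * x j) ≤ ∏ j ∈ S, Real.exp ((r * x j) ^ 2 / 2) :=
          Finset.prod_le_prod (fun j _ => (Real.cosh_pos _).le)
            (fun j _ => Real.cosh_le_exp_half_sq _)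
      _ = Real.exp (∑ j ∈ S, (r * x j) ^ 2 / 2) := (Real.exp_sum _ _).symm
      _ ≤ Real.exp (r ^ 2 / 2) := by
          rw [Real.exp_le_exp]
          have : ∑ j ∈ S, (r * x j) ^ 2 / 2 = r ^ 2 / 2 * ∑ j ∈ S, x j ^ 2 := by
            rw [Finset.mul_sum]
            refine Finset.sum_congr rfl fun j _ => ?_
            ring
          rw [this]
          have h2 := hT x hx
          have h3 : 0 ≤ r ^ 2 / 2 := by positivity
          nlinarith
  have h2 : Real.exp (r * ∑ j ∈ S, ε j * x j) ≤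
      ∑ x ∈ T, (1 : ℝ) * Real.exp (r * ∑ j ∈ S, ε j * x j) := by
    have := Finset.single_le_sum (f := fun x : ℤ → ℝ =>
      (1 : ℝ) * Real.exp (r * ∑ j ∈ S, ε j * x j)) (fun x _ => by positivity) hx
    simpa using this
  have h3 : Real.exp (r * ∑ j ∈ S, ε j * x j) ≤ Real.exp (r * r) := by
    refine (h2.trans (hle.trans h1)).trans ?_
    have : Real.exp (r * r) = Real.exp (r ^ 2 / 2) * Real.exp (r ^ 2 / 2) := by
      rw [← Real.exp_add]; ring_nf
    rw [this]
    gcongr
  rw [Real.exp_le_exp] at h3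
  exact le_of_mul_le_mul_left h3 hr

/-- signs that work for all test vectors -/
lemma rs_complex (T : Finset (ℤ → ℂ)) (S : Finset ℤ) (hT : ∀ x ∈ T, ∑ j ∈ S, ‖x j‖ ^ 2 ≤ 1) (r : ℝ)
    (hr : 0 < r) (hcard : 4 * (T.card : ℝ) ≤ Real.exp (r ^ 2 / 2)) :
    ∃ ε : ℤ → ℝ, (∀ j, ε j = 1 ∨ ε j = -1) ∧ ∀ x ∈ T, ‖∑ j ∈ S, (ε j : ℂ) * x j‖ ≤ 2 * r := by
  classical
  set T' : Finset (ℤ → ℝ) := (T.image fun x j => (x j).re) ∪ ((T.image fun x j => -(x j).re) ∪
    ((T.image fun x j => (x j).im) ∪ (T.image fun x j => -(x j).im))) with hT'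
  have hc : T'.card ≤ 4 * T.card := by
    rw [hT']
    refine (Finset.card_union_le _ _).trans ?_
    have h1 := Finset.card_union_le (T.image fun x j => -(x j).re)
      ((T.image fun x j => (x j).im) ∪ (T.image fun x j => -(x j).im))
    have h2 := Finset.card_union_le (T.image fun x j => (x j).im) (T.image fun x j => -(x j).im)
    have h3 : (T.image fun x j => (x j).re).card ≤ T.card := Finset.card_image_le
    have h4 : (T.image fun x j => -(x j).re).card ≤ T.card := Finset.card_image_le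
    have h5 : (T.image fun x j => (x j).im).card ≤ T.card := Finset.card_image_le
    have h6 : (T.image fun x j => -(x j).im).card ≤ T.card := Finset.card_image_le
    omega
  have hre : ∀ z : ℂ, z.re ^ 2 ≤ ‖z‖ ^ 2 := by
    intro z
    have := Complex.abs_re_le_norm z
    rw [← sq_abs]
    gcongr
  have him : ∀ z : ℂ, z.im ^ 2 ≤ ‖z‖ ^ 2 := by
    intro z
    have := Complex.abs_im_le_norm z
    rw [← sq_abs]
    gcongr
  have h1 : ∀ x ∈ T', ∑ j ∈ S, x j ^ 2 ≤ 1 := by
    intro x hx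
    simp only [hT', Finset.mem_union, Finset.mem_image] at hx
    rcases hx with ⟨z, hz, rfl⟩ | ⟨z, hz, rfl⟩ | ⟨z, hz, rfl⟩ | ⟨z, hz, rfl⟩
    · exact (Finset.sum_le_sum fun j _ => hre (z j)).trans (hT z hz)
    · simp only [neg_sq]
      exact (Finset.sum_le_sum fun j _ => hre (z j)).trans (hT z hz)
    · exact (Finset.sum_le_sum fun j _ => him (z j)).trans (hT z hz)
    · simp only [neg_sq]
      exact (Finset.sum_le_sum fun j _ => him (z j)).trans (hT z hz)
  obtain ⟨ε, hε, hb⟩ := rs_real T' S h1 r hr (by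
    have : (T'.card : ℝ) ≤ 4 * (T.card : ℝ) := by exact_mod_cast hc
    linarith)
  refine ⟨ε, hε, fun x hx => ?_⟩
  have a1 := hb (fun j => (x j).re) (by
    simp only [hT', Finset.mem_union, Finset.mem_image]; exact Or.inl ⟨x, hx, rfl⟩)
  have a2 := hb (fun j => -(x j).re) (by
    simp only [hT', Finset.mem_union, Finset.mem_image]; exact Or.inr (Or.inl ⟨x, hx, rfl⟩))
  have a3 := hb (fun j => (x j).im) (by
    simp only [hT', Finset.mem_union, Finset.mem_image]
    exact Or.inr (Or.inr (Or.inl ⟨x, hx, rfl⟩)))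
  have a4 := hb (fun j => -(x j).im) (by
    simp only [hT', Finset.mem_union, Finset.mem_image]
    exact Or.inr (Or.inr (Or.inr ⟨x, hx, rfl⟩)))
  simp only [mul_neg, Finset.sum_neg_distrib] at a2 a4
  set z : ℂ := ∑ j ∈ S, (ε j : ℂ) * x j with hz
  have b1 : z.re = ∑ j ∈ S, ε j * (x j).re := by
    rw [hz, Complex.re_sum]
    refine Finset.sum_congr rfl fun j _ => ?_
    simp
  have b2 : z.im = ∑ j ∈ S, ε j * (x j).im := by
    rw [hz, Complex.im_sum]
    refine Finset.sum_congr rfl fun j _ => ?_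
    simp
  have h3 := Complex.norm_le_abs_re_add_abs_im z
  have h4 : |z.re| ≤ r := by rw [b1, abs_le]; constructor <;> linarith
  have h5 : |z.im| ≤ r := by rw [b2, abs_le]; constructor <;> linarith
  linarith

end AutNorm
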