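import Pool.Agent.Helper57.AN.Net2
import Pool.Agent.Helper57.AN.RS

/-! Test vectors for the second family and the choice of signs. -/

open Filter Topology ComplexConjugate MeasureTheory

universe u v

namespace AutNorm

variable {V : Type u} [NormedAddCommGroup V] [InnerProductSpace ℂ V]
variable {M : LieMod V} {mc : V → V →ₗ[ℂ] (G → ℂ)}

lemma phi_lip (F : Frame M) (h : USys M mc) {φ : V →ₗ[ℂ] (G → ℂ)} (hφ : OF M φ) {B : ℝ}
    (hB : ∀ g, ‖φ (F.e 0) g‖ ≤ B) (T : ℝ) : ∃ E : ℝ, 0 ≤ E ∧ ∀ N : ℕ, 1 ≤ N → ∀ j : ℤ,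
      |(F.n j : ℝ)| ≤ 5 * N → |(j : ℝ)| ≤ 2 * N → ∀ θ t ψ θ' t' ψ' : ℝ, |t'| ≤ T →
        ‖φ (F.e j) (kk θ * aa t * kk ψ) - φ (F.e j) (kk θ' * aa t' * kk ψ')‖ ≤
          E * N ^ 2 * (|θ - θ'| + |t - t'| + |ψ - ψ'|) := by
  obtain ⟨Cp, hCp, hpoly⟩ := U_poly F h
  have hB0 : 0 ≤ B := (norm_nonneg _).trans (hB 1)
  have hC₀ := F.C₀_nonneg
  set D : ℝ := Cp * B with hD
  have hD0 : 0 ≤ D := by positivity
  set E₁ : ℝ := 15 * D + 32 * F.C₀ * D with hE₁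
  have hE₁0 : 0 ≤ E₁ := by positivity
  set E : ℝ := E₁ * (2 * Real.cosh (2 * T)) with hE
  have hch : 1 ≤ Real.cosh (2 * T) := Real.one_le_cosh _
  have hE0 : 0 ≤ E := by positivity
  have hE1E : E₁ ≤ E := by rw [hE]; nlinarith
  refine ⟨E, hE0, fun N hN j hn hj θ t ψ θ' t' ψ' ht' => ?_⟩
  have hN1 : (1 : ℝ) ≤ N := by exact_mod_cast hN
  have hp : ∀ k : ℤ, |(k : ℝ)| ≤ 2 * N + 1 → ∀ g, ‖φ (F.e k) g‖ ≤ D * (4 * N) := by
    intro k hk g
    refine (hpoly φ hφ B hB g k).trans ?_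
    rw [hD]
    gcongr
    linarith
  have hpj : ∀ g, ‖φ (F.e j) g‖ ≤ D * (3 * N) := by
    intro g
    refine (hpoly φ hφ B hB g j).trans ?_
    rw [hD]
    gcongr
    linarith
  have hj1 : |((j + 1 : ℤ) : ℝ)| ≤ 2 * N + 1 := by
    push_cast
    refine (abs_add_le _ _).trans ?_
    rw [abs_one]; linarith
  have hj2 : |((j - 1 : ℤ) : ℝ)| ≤ 2 * N + 1 := by
    push_cast
    refine (abs_sub _ _).trans ?_
    rw [abs_one]; linarith
  have hα1 : |F.α j| ≤ F.C₀ * (4 * N) := by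
    refine (F.bound j).trans ?_
    gcongr
    linarith
  have hα2 : |F.α (j - 1)| ≤ F.C₀ * (4 * N) := by
    refine (F.bound (j - 1)).trans ?_
    gcongr
    linarith
  have hWb : ∀ g, ‖φ (M.act W (F.e j)) g‖ ≤ E₁ * N ^ 2 := by
    intro g
    rw [F.actW', map_smul, Pi.smul_apply, smul_eq_mul, norm_mul, norm_mul, Complex.norm_I, mul_one,
      Complex.norm_intCast]
    calc |(F.n j : ℝ)| * ‖φ (F.e j) g‖ ≤ (5 * N) * (D * (3 * N)) := by
          gcongr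
          exact hpj g
      _ = 15 * D * N ^ 2 := by ring
      _ ≤ E₁ * N ^ 2 := by
          gcongr
          rw [hE₁]
          have : 0 ≤ 32 * F.C₀ * D := by positivity
          linarith
  have hAb : ∀ g, ‖φ (M.act LA (F.e j)) g‖ ≤ E₁ * N ^ 2 := by
    intro g
    rw [F.actA, map_sub, map_smul, map_smul, Pi.sub_apply, Pi.smul_apply, Pi.smul_apply,
      smul_eq_mul, smul_eq_mul]
    refine (norm_sub_le _ _).trans ?_
    rw [norm_mul, norm_mul, Complex.norm_real, Complex.norm_real, Real.norm_eq_abs,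
      Real.norm_eq_abs]
    calc |F.α j| * ‖φ (F.e (j + 1)) g‖ + |F.α (j - 1)| * ‖φ (F.e (j - 1)) g‖ ≤
        F.C₀ * (4 * N) * (D * (4 * N)) + F.C₀ * (4 * N) * (D * (4 * N)) := by
          gcongr
          · exact hp _ hj1 g
          · exact hp _ hj2 g
      _ = 32 * F.C₀ * D * N ^ 2 := by ring
      _ ≤ E₁ * N ^ 2 := by
          gcongr
          rw [hE₁]
          have : 0 ≤ 15 * D := by positivity
          linarith
  have hBb : ∀ g, ‖φ (M.act LB (F.e j)) g‖ ≤ E₁ * N ^ 2 := by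
    intro g
    rw [F.actB, map_sub, map_neg, map_smul, map_smul, Pi.sub_apply, Pi.neg_apply, Pi.smul_apply,
      Pi.smul_apply, smul_eq_mul, smul_eq_mul]
    refine (norm_sub_le _ _).trans ?_
    rw [norm_neg, norm_mul, norm_mul, norm_mul, norm_mul, Complex.norm_I, one_mul, one_mul,
      Complex.norm_real, Complex.norm_real, Real.norm_eq_abs, Real.norm_eq_abs]
    calc |F.α j| * ‖φ (F.e (j + 1)) g‖ + |F.α (j - 1)| * ‖φ (F.e (j - 1)) g‖ ≤
        F.C₀ * (4 * N) * (D * (4 * N)) + F.C₀ * (4 * N) * (D * (4 * N)) := by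
          gcongr
          · exact hp _ hj1 g
          · exact hp _ hj2 g
      _ = 32 * F.C₀ * D * N ^ 2 := by ring
      _ ≤ E₁ * N ^ 2 := by
          gcongr
          rw [hE₁]
          have : 0 ≤ 15 * D := by positivity
          linarith
  -- step 1
  have s1 : ‖φ (F.e j) (kk θ * aa t * kk ψ) - φ (F.e j) (kk θ * aa t * kk ψ')‖ ≤
      E * N ^ 2 * |ψ - ψ'| := by
    rw [hφ.kk_eq (F.actW' j), hφ.kk_eq (F.actW' j), ← sub_mul, norm_mul]
    have e1 := phase_lip (F.n j) ψ ψ'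
    calc ‖Complex.exp ((F.n j : ℂ) * ψ * Complex.I) - Complex.exp ((F.n j : ℂ) * ψ' * Complex.I)‖ *
        ‖φ (F.e j) (kk θ * aa t)‖ ≤ (5 * N * |ψ - ψ'|) * (D * (3 * N)) := by
          gcongr
          · refine e1.trans ?_
            gcongr
          · exact hpj _
      _ = 15 * D * N ^ 2 * |ψ - ψ'| := by ring
      _ ≤ E * N ^ 2 * |ψ - ψ'| := by
          gcongr
          refine le_trans ?_ hE1E
          rw [hE₁]
          have : 0 ≤ 32 * F.C₀ * D := by positivity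
          linarith
  -- step 2
  have s2 : ‖φ (F.e j) (kk θ * aa t * kk ψ') - φ (F.e j) (kk θ * aa t' * kk ψ')‖ ≤
      E * N ^ 2 * |t - t'| := by
    rw [hφ.kk_eq (F.actW' j), hφ.kk_eq (F.actW' j), ← mul_sub, norm_mul, norm_phase, one_mul]
    have e1 := hφ.mvt oneParam_aa (F.e j) hAb (kk θ * aa t') (t - t')
    rw [mul_assoc (kk θ), ← aa_add, add_sub_cancel] at e1
    refine e1.trans ?_
    gcongr
  -- step 3
  have s3 : ‖φ (F.e j) (kk θ * aa t' * kk ψ') - φ (F.e j) (kk θ' * aa t' * kk ψ')‖ ≤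
      E * N ^ 2 * |θ - θ'| := by
    rw [hφ.kk_eq (F.actW' j), hφ.kk_eq (F.actW' j), ← mul_sub, norm_mul, norm_phase, one_mul]
    have e2 : ∀ x, ‖φ (M.act (Ad (aa t')⁻¹ W) (F.e j)) x‖ ≤ E * N ^ 2 := by
      intro x
      rw [Ad_aa_inv_W, act_ZZ, map_sub, map_smul, map_smul, Pi.sub_apply, Pi.smul_apply,
        Pi.smul_apply, smul_eq_mul, smul_eq_mul]
      refine (norm_sub_le _ _).trans ?_
      rw [norm_mul, norm_mul, Complex.norm_real, Complex.norm_real, Real.norm_eq_abs,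
        Real.norm_eq_abs, abs_of_pos (Real.cosh_pos _)]
      have hcosh : Real.cosh (2 * t') ≤ Real.cosh (2 * T) := by
        rw [Real.cosh_le_cosh, abs_mul, abs_mul]
        have : |t'| ≤ |T| := ht'.trans (le_abs_self T)
        gcongr
      have hsinh : |Real.sinh (2 * t')| ≤ Real.cosh (2 * T) := by
        refine le_trans ?_ hcosh
        rw [abs_le]
        have h1 := (Real.sinh_lt_cosh (2 * t')).le
        have h2 := (Real.sinh_lt_cosh (-(2 * t'))).le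
        rw [Real.sinh_neg, Real.cosh_neg] at h2
        constructor <;> linarith
      calc Real.cosh (2 * t') * ‖φ (M.act W (F.e j)) x‖ +
          |Real.sinh (2 * t')| * ‖φ (M.act LB (F.e j)) x‖ ≤
          Real.cosh (2 * T) * (E₁ * N ^ 2) + Real.cosh (2 * T) * (E₁ * N ^ 2) := by
            gcongr
            · exact hWb x
            · exact hBb x
        _ = E * N ^ 2 := by rw [hE]; ring
    have e3 := hφ.mvt_theta (F.e j) (aa t') e2 1 θ θ'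
    simpa using e3
  have h1 := norm_sub_le_norm_sub_add_norm_sub (φ (F.e j) (kk θ * aa t * kk ψ))
    (φ (F.e j) (kk θ * aa t * kk ψ')) (φ (F.e j) (kk θ' * aa t' * kk ψ'))
  have h2 := norm_sub_le_norm_sub_add_norm_sub (φ (F.e j) (kk θ * aa t * kk ψ'))
    (φ (F.e j) (kk θ * aa t' * kk ψ')) (φ (F.e j) (kk θ' * aa t' * kk ψ'))
  linarith

lemma family2 (F : Frame M) (h : USys M mc) {φ : V →ₗ[ℂ] (G → ℂ)} (hφ : OF M φ) {B : ℝ}
    (hB : ∀ g, ‖φ (F.e 0) g‖ ≤ B) {CBR : ℝ} (hCBR : 0 ≤ CBR)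
    (hBR : ∀ N : ℝ, 1 ≤ N → ∀ g, ∀ S : Finset ℤ, (∀ j ∈ S, |(F.n j : ℝ)| ≤ N) →
      ∑ j ∈ S, ‖φ (F.e j) g‖ ^ 2 ≤ CBR * N) (T : ℝ) (hT0 : 0 ≤ T)
    (hT : ∀ g, ∃ θ t ψ : ℝ, 0 ≤ t ∧ t ≤ T ∧ ∀ v, φ v g = φ v (kk θ * aa t * kk ψ))
    (s : ℝ) (hs : 0 ≤ s) :
    ∃ D : ℝ, 0 < D ∧ ∃ c : ℕ, ∃ N₁ : ℕ, ∀ N : ℕ, N₁ ≤ N → ∀ S : Finset ℤ,
      Block F mc N S → ∃ T : Finset (ℤ → ℂ), T.card ≤ c * N ^ 12 ∧
      (∀ x ∈ T, ∑ j ∈ S, ‖x j‖ ^ 2 ≤ 1) ∧
      ∀ ε : ℤ → ℝ, (∀ j, ε j = 1 ∨ ε j = -1) → ∀ r : ℝ, 0 ≤ r →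
        (∀ x ∈ T, ‖∑ j ∈ S, (ε j : ℂ) * x j‖ ≤ r) →
        ∀ g, ‖∑ j ∈ S, (ε j : ℂ) * ((((1 + (F.n j : ℝ) ^ 2) ^ (s / 2) : ℝ) : ℂ) *
          φ (F.e j) g)‖ ≤ D * (N : ℝ) ^ (s + 1 / 2) * (r + 1) := by
  classical
  obtain ⟨E, hE0, hE⟩ := phi_lip F h hφ hB T
  set D : ℝ := Real.sqrt ((26 : ℝ) ^ s * (5 * (CBR + 1))) with hD
  have hD0 : 0 < D := Real.sqrt_pos.mpr (by positivity)
  have hDsq : D ^ 2 = (26 : ℝ) ^ s * (5 * (CBR + 1)) := Real.sq_sqrt (by positivity)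
  refine ⟨D, hD0, ⌈T⌉₊ + 1, ⌈E * (4 * Real.pi + 1)⌉₊ + 1, fun N hN S hS => ?_⟩
  have hN1 : 1 ≤ N := by omega
  have hNr1 : (1 : ℝ) ≤ N := by exact_mod_cast hN1
  have hN0 : (0 : ℝ) < N := by linarith
  have hNE : E * (4 * Real.pi + 1) ≤ N := by
    have h1 : E * (4 * Real.pi + 1) ≤ (⌈E * (4 * Real.pi + 1)⌉₊ : ℝ) := Nat.le_ceil _
    have h2 : ((⌈E * (4 * Real.pi + 1)⌉₊ + 1 : ℕ) : ℝ) ≤ N := by exact_mod_cast hN
    push_cast at h2
    linarith
  set R : ℝ := D * (N : ℝ) ^ (s + 1 / 2) with hR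
  have hR0 : 0 < R := by positivity
  have hRsq : R ^ 2 = (26 : ℝ) ^ s * (5 * (CBR + 1)) * ((N : ℝ) ^ (2 * s) * N) := by
    rw [hR, mul_pow, hDsq]
    congr 1
    rw [← Real.rpow_natCast, ← Real.rpow_mul hN0.le, ← Real.rpow_add_one hN0.ne']
    congr 1
    push_cast
    ring
  set w : ℤ → ℝ := fun j => (1 + (F.n j : ℝ) ^ 2) ^ (s / 2) with hw
  have hw0 : ∀ j, 0 ≤ w j := fun j => by simp only [hw]; positivity
  have hwsq : ∀ j, w j ^ 2 = (1 + (F.n j : ℝ) ^ 2) ^ s := by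
    intro j
    simp only [hw]
    rw [← Real.rpow_natCast, ← Real.rpow_mul (by positivity)]
    congr 1
    push_cast
    ring
  have hwb : ∀ j ∈ S, w j ^ 2 ≤ (26 : ℝ) ^ s * (N : ℝ) ^ (2 * s) := by
    intro j hj
    rw [hwsq]
    have h1 : 1 + (F.n j : ℝ) ^ 2 ≤ 26 * (N : ℝ) ^ 2 := by
      have h2 := hS.hi j hj
      have h3 : (F.n j : ℝ) ^ 2 ≤ (5 * N) ^ 2 := by
        rw [← sq_abs]
        gcongr
      nlinarith
    calc (1 + (F.n j : ℝ) ^ 2) ^ s ≤ (26 * (N : ℝ) ^ 2) ^ s := by gcongr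
      _ = (26 : ℝ) ^ s * (N : ℝ) ^ (2 * s) := by
          rw [Real.mul_rpow (by norm_num) (by positivity), ← Real.rpow_natCast,
            ← Real.rpow_mul hN0.le]
          norm_num
  have hφS : ∀ g, ∑ j ∈ S, ‖φ (F.e j) g‖ ^ 2 ≤ CBR * (5 * N) := by
    intro g
    exact hBR (5 * N) (by linarith) g S (fun j hj => hS.hi j hj)
  have hsum : ∀ g, ∑ j ∈ S, (w j * ‖φ (F.e j) g‖) ^ 2 ≤ R ^ 2 := by
    intro g
    calc ∑ j ∈ S, (w j * ‖φ (F.e j) g‖) ^ 2 ≤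
        ∑ j ∈ S, (26 : ℝ) ^ s * (N : ℝ) ^ (2 * s) * ‖φ (F.e j) g‖ ^ 2 := by
          refine Finset.sum_le_sum fun j hj => ?_
          rw [mul_pow]
          have := hwb j hj
          gcongr
      _ = (26 : ℝ) ^ s * (N : ℝ) ^ (2 * s) * ∑ j ∈ S, ‖φ (F.e j) g‖ ^ 2 := by
          rw [Finset.mul_sum]
      _ ≤ (26 : ℝ) ^ s * (N : ℝ) ^ (2 * s) * (CBR * (5 * N)) := by
          gcongr
          exact hφS g
      _ ≤ R ^ 2 := by
          rw [hRsq]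
          have h1 : 0 ≤ (26 : ℝ) ^ s * (N : ℝ) ^ (2 * s) * (5 * N) := by positivity
          nlinarith
  have hwR : ∀ j ∈ S, w j ≤ R := by
    intro j hj
    have h1 := hwb j hj
    have h2 : w j ^ 2 ≤ R ^ 2 := by
      rw [hRsq]
      refine h1.trans ?_
      have h3 : 0 ≤ (26 : ℝ) ^ s * (N : ℝ) ^ (2 * s) := by positivity
      have h4 : 1 ≤ 5 * (CBR + 1) * N := by nlinarith
      calc (26 : ℝ) ^ s * (N : ℝ) ^ (2 * s) = (26 : ℝ) ^ s * (N : ℝ) ^ (2 * s) * 1 := by ring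
        _ ≤ (26 : ℝ) ^ s * (N : ℝ) ^ (2 * s) * (5 * (CBR + 1) * N) := by gcongr
        _ = _ := by ring
    exact le_of_sq_le_sq h2 hR0.le
  set A : ℕ := N ^ 4 with hA
  have hA0 : 0 < A := by positivity
  have hAr : (A : ℝ) = (N : ℝ) ^ 4 := by rw [hA]; push_cast; ring
  have hAr0 : (0 : ℝ) < A := by exact_mod_cast hA0
  set pt : ℕ × ℕ × ℕ → G := fun p =>
    kk (2 * Real.pi * p.1 / A) * aa (p.2.1 / A) * kk (2 * Real.pi * p.2.2 / A) with hpt
  set vec : ℕ × ℕ × ℕ → ℤ → ℂ := fun p j => (R : ℂ)⁻¹ * ((w j : ℂ) * φ (F.e j) (pt p)) with hvec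
  refine ⟨(Finset.range A ×ˢ (Finset.range (⌈T⌉₊ * A + 1) ×ˢ Finset.range A)).image vec,
    ?_, ?_, ?_⟩
  · refine Finset.card_image_le.trans ?_
    rw [Finset.card_product, Finset.card_product, Finset.card_range, Finset.card_range]
    calc A * ((⌈T⌉₊ * A + 1) * A) ≤ A * ((⌈T⌉₊ * A + A) * A) := by gcongr; exact hA0
      _ = (⌈T⌉₊ + 1) * N ^ 12 := by rw [hA]; ring
  · intro x hx
    rw [Finset.mem_image] at hx
    obtain ⟨p, _, rfl⟩ := hx
    have h1 : ∀ j, ‖vec p j‖ ^ 2 = (R ^ 2)⁻¹ * (w j * ‖φ (F.e j) (pt p)‖) ^ 2 := by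
      intro j
      simp only [hvec]
      rw [norm_mul, norm_mul, norm_inv, Complex.norm_real, Complex.norm_real, Real.norm_eq_abs,
        Real.norm_eq_abs, abs_of_pos hR0, abs_of_nonneg (hw0 j), mul_pow, inv_pow]
    simp only [h1]
    rw [← Finset.mul_sum, inv_mul_le_iff₀ (by positivity), mul_one]
    exact hsum _
  · intro ε hε r hr hTT g
    have hε1 : ∀ j, ‖(ε j : ℂ)‖ = 1 := by
      intro j
      rcases hε j with h' | h' <;> rw [h'] <;> simp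
    obtain ⟨θ, t, ψ, ht, htT, hφg⟩ := hT g
    obtain ⟨a, ha, θ', hθ', m, hm⟩ := circle_net A hA0 θ
    obtain ⟨b, hb, ψ', hψ', m', hm'⟩ := circle_net A hA0 ψ
    set k : ℕ := ⌊t * A⌋₊ with hk
    have h1 : (k : ℝ) ≤ t * A := Nat.floor_le (by positivity)
    have h2 : t * A < k + 1 := Nat.lt_floor_add_one _
    have h3 : (k : ℝ) / A ≤ t := by rw [div_le_iff₀ hAr0]; exact h1
    have h4 : t ≤ (k + 1) / A := by rw [le_div_iff₀ hAr0]; exact h2.le
    have hkT : |(k : ℝ) / A| ≤ T := by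
      rw [abs_of_nonneg (by positivity)]; linarith
    have hkt : |t - k / A| ≤ 1 / A := by
      have : ((k : ℝ) + 1) / A = k / A + 1 / A := by ring
      rw [abs_le]
      constructor
      · have : 0 < 1 / (A : ℝ) := by positivity
        linarith
      · linarith
    have hkr : k ∈ Finset.range (⌈T⌉₊ * A + 1) := by
      rw [Finset.mem_range, Nat.lt_succ_iff]
      have h5 : (k : ℝ) ≤ ((⌈T⌉₊ * A : ℕ) : ℝ) := by
        push_cast
        refine h1.trans ?_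
        have := Nat.le_ceil T
        gcongr
        linarith
      exact_mod_cast h5
    have hpteq : pt (a, k, b) = kk θ' * aa (k / A) * kk ψ' := by
      simp only [hpt]
      rw [hm, hm', kk_add_int, kk_add_int]
    have hx := hTT (vec (a, k, b)) (Finset.mem_image.mpr ⟨(a, k, b),
      Finset.mem_product.mpr ⟨ha, Finset.mem_product.mpr ⟨hkr, hb⟩⟩, rfl⟩)
    have hdiff : ∀ j ∈ S, ‖(ε j : ℂ) * ((w j : ℂ) * φ (F.e j) g) -
        (R : ℂ) * ((ε j : ℂ) * vec (a, k, b) j)‖ ≤ R * (E * N ^ 2 * ((4 * Real.pi + 1) / A)) := by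
      intro j hj
      have e1 : (ε j : ℂ) * ((w j : ℂ) * φ (F.e j) g) -
          (R : ℂ) * ((ε j : ℂ) * vec (a, k, b) j) = (ε j : ℂ) * ((w j : ℂ) *
          (φ (F.e j) (kk θ * aa t * kk ψ) - φ (F.e j) (kk θ' * aa (k / A) * kk ψ'))) := by
        simp only [hvec]
        rw [hφg, hpteq]
        have : (R : ℂ) ≠ 0 := by exact_mod_cast hR0.ne'
        field_simp
      rw [e1, norm_mul, hε1, one_mul, norm_mul, Complex.norm_real, Real.norm_eq_abs,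
        abs_of_nonneg (hw0 j)]
      have e2 := hE N hN1 j (hS.hi j hj) (hS.idx j hj) θ t ψ θ' (k / A) ψ' hkT
      have e3 := hwR j hj
      have e4 : |θ - θ'| + |t - k / A| + |ψ - ψ'| ≤ (4 * Real.pi + 1) / A := by
        have : (4 * Real.pi + 1) / (A : ℝ) = 2 * Real.pi / A + 1 / A + 2 * Real.pi / A := by ring
        rw [this]
        linarith
      gcongr
      refine e2.trans ?_
      gcongr
    have hsumdiff : ‖∑ j ∈ S, (ε j : ℂ) * ((w j : ℂ) * φ (F.e j) g) -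
        (R : ℂ) * ∑ j ∈ S, (ε j : ℂ) * vec (a, k, b) j‖ ≤ R * 1 := by
      rw [Finset.mul_sum, ← Finset.sum_sub_distrib]
      refine (norm_sum_le _ _).trans ((Finset.sum_le_sum hdiff).trans ?_)
      rw [Finset.sum_const, hS.card, nsmul_eq_mul, hAr]
      have e1 : (N : ℝ) * (R * (E * N ^ 2 * ((4 * Real.pi + 1) / N ^ 4))) =
          R * ((E * (4 * Real.pi + 1)) / N) := by
        field_simp
      rw [e1]
      gcongr
      rw [div_le_one hN0]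
      exact hNE
    have h5 : ‖(R : ℂ) * ∑ j ∈ S, (ε j : ℂ) * vec (a, k, b) j‖ ≤ R * r := by
      rw [norm_mul, Complex.norm_real, Real.norm_eq_abs, abs_of_pos hR0]
      gcongr
    have h6 := norm_add_le (∑ j ∈ S, (ε j : ℂ) * ((w j : ℂ) * φ (F.e j) g) -
        (R : ℂ) * ∑ j ∈ S, (ε j : ℂ) * vec (a, k, b) j)
        ((R : ℂ) * ∑ j ∈ S, (ε j : ℂ) * vec (a, k, b) j)
    rw [sub_add_cancel] at h6
    refine h6.trans ?_
    linarith

end AutNorm
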