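import Pool.Agent.Helper57.AN.Cartan

/-! Orbit families: `Φ v g = λ(g·v)` for a functional `λ` on a globalization. -/

open Filter Topology

universe u v

namespace AutNorm

variable {V : Type u} [AddCommGroup V] [Module ℂ V]

/-- orbit family -/
structure OF (M : LieMod V) (Φ : V →ₗ[ℂ] (G → ℂ)) : Prop where
  cont : ∀ v, Continuous (Φ v)
  der : ∀ (X : Lie2) (γ : ℝ → G), IsOneParam X γ → ∀ v g,
    HasDerivAt (fun t : ℝ => Φ v (g * γ t)) (Φ (M.act X v) g) 0

variable {M : LieMod V} {Φ : V →ₗ[ℂ] (G → ℂ)}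

lemma OF.der_at (h : OF M Φ) {X : Lie2} {γ : ℝ → G} (hγ : IsOneParam X γ) (v : V) (g : G) (t : ℝ) :
    HasDerivAt (fun s : ℝ => Φ v (g * γ s)) (Φ (M.act X v) (g * γ t)) t := by
  have h1 := h.der X γ hγ v (g * γ t)
  have h1' : HasDerivAt (fun s : ℝ => Φ v (g * γ t * γ s)) (Φ (M.act X v) (g * γ t)) (t - t) := by
    rwa [sub_self]
  have h3 := HasDerivAt.comp_sub_const t t h1'
  refine h3.congr_of_eventuallyEq (Eventually.of_forall fun s => ?_)
  simp only
  rw [mul_assoc, ← hγ.map_add]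
  congr 3; ring

/-- left translate of an orbit family -/
def translate (Φ : V →ₗ[ℂ] (G → ℂ)) (h : G) : V →ₗ[ℂ] (G → ℂ) where
  toFun v g := Φ v (h * g)
  map_add' v w := by ext g; simp
  map_smul' c v := by ext g; simp

@[simp] lemma translate_apply (Φ : V →ₗ[ℂ] (G → ℂ)) (h : G) (v : V) (g : G) :
    translate Φ h v g = Φ v (h * g) := rfl

lemma OF.translate (hΦ : OF M Φ) (h : G) : OF M (translate Φ h) where
  cont v := (hΦ.cont v).comp (continuous_const.mul continuous_id)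
  der X γ hγ v g := by
    have := hΦ.der X γ hγ v (h * g)
    simpa [mul_assoc] using this

lemma OF.smul (hΦ : OF M Φ) (c : ℂ) : OF M (c • Φ) where
  cont v := (hΦ.cont v).const_smul c
  der X γ hγ v g := (hΦ.der X γ hγ v g).const_smul c

/-- on a `K`-type -/
lemma OF.kk_eq (hΦ : OF M Φ) {n : ℤ} {v : V} (hv : M.act W v = ((n : ℂ) * Complex.I) • v) (g : G)
    (θ : ℝ) : Φ v (g * kk θ) = Complex.exp (n * θ * Complex.I) * Φ v g := by
  have h1 : ∀ s : ℝ, HasDerivAt (fun s : ℝ => Complex.exp (-(n * s * Complex.I)) * Φ v (g * kk s))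
      0 s := by
    intro s
    have ha := hΦ.der_at oneParam_kk v g s
    rw [hv, map_smul] at ha
    have hb : HasDerivAt (fun s : ℝ => Complex.exp (-(n * s * Complex.I)))
        (Complex.exp (-(n * s * Complex.I)) * (-(n * Complex.I))) s := by
      have hc : HasDerivAt (fun s : ℝ => -(n * (s : ℂ) * Complex.I)) (-(n * Complex.I)) s := by
        have := ((Complex.ofRealCLM.hasDerivAt (x := s)).const_mul (n : ℂ)).mul_const Complex.I
        simpa using this.fun_neg
      exact hc.cexp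
    refine (hb.fun_mul ha).congr_deriv ?_
    simp only [Pi.smul_apply, smul_eq_mul]
    ring
  have h2 : ∀ s : ℝ, Complex.exp (-(n * s * Complex.I)) * Φ v (g * kk s) = Φ v g := by
    intro s
    have := is_const_of_deriv_eq_zero (f := fun s : ℝ =>
      Complex.exp (-(n * s * Complex.I)) * Φ v (g * kk s))
      (fun x => (h1 x).differentiableAt) (fun x => (h1 x).deriv) s 0
    simpa using this
  rw [← h2 θ, ← mul_assoc, ← Complex.exp_add]
  simp

/-- derivative along the `K`-direction before `a_t` -/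
lemma OF.der_theta (hΦ : OF M Φ) (v : V) (g h : G) (θ : ℝ) :
    HasDerivAt (fun θ : ℝ => Φ v (g * AutNorm.kk θ * h))
      (Φ (M.act (Ad h⁻¹ W) v) (g * AutNorm.kk θ * h)) θ := by
  have h1 := hΦ.der_at (oneParam_kk.conj h⁻¹) v (g * h) θ
  have e : ∀ s, g * h * (h⁻¹ * AutNorm.kk s * h⁻¹⁻¹) = g * AutNorm.kk s * h := by
    intro s; group
  simp only [e] at h1
  exact h1

lemma OF.mvt (hΦ : OF M Φ) {X : Lie2} {γ : ℝ → G} (hγ : IsOneParam X γ) (v : V) {C : ℝ}
    (hC : ∀ x, ‖Φ (M.act X v) x‖ ≤ C) (g : G) (t : ℝ) :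
    ‖Φ v (g * γ t) - Φ v g‖ ≤ C * |t| := by
  have := Convex.norm_image_sub_le_of_norm_hasDerivWithin_le (f := fun s : ℝ => Φ v (g * γ s))
    (f' := fun s => Φ (M.act X v) (g * γ s)) (C := C) (s := Set.univ) (x := 0) (y := t)
    (fun x _ => (hΦ.der_at hγ v g x).hasDerivWithinAt) (fun x _ => hC _) convex_univ
    (Set.mem_univ _) (Set.mem_univ _)
  simpa [hγ.map_zero] using this

lemma OF.mvt_theta (hΦ : OF M Φ) (v : V) (h : G) {C : ℝ}
    (hC : ∀ x, ‖Φ (M.act (Ad h⁻¹ W) v) x‖ ≤ C) (g : G) (θ θ' : ℝ) :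
    ‖Φ v (g * AutNorm.kk θ * h) - Φ v (g * AutNorm.kk θ' * h)‖ ≤ C * |θ - θ'| := by
  have := Convex.norm_image_sub_le_of_norm_hasDerivWithin_le
    (f := fun s : ℝ => Φ v (g * AutNorm.kk s * h))
    (f' := fun s => Φ (M.act (Ad h⁻¹ W) v) (g * AutNorm.kk s * h)) (C := C) (s := Set.univ)
    (x := θ') (y := θ)
    (fun x _ => (hΦ.der_theta v g h x).hasDerivWithinAt) (fun x _ => hC _) convex_univ
    (Set.mem_univ _) (Set.mem_univ _)
  simpa using this

/-- first order Taylor estimate -/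
lemma OF.taylor (hΦ : OF M Φ) {X : Lie2} {γ : ℝ → G} (hγ : IsOneParam X γ) (v : V) {C : ℝ}
    (hC : ∀ x, ‖Φ (M.act X (M.act X v)) x‖ ≤ C) (g : G) (t : ℝ) :
    ‖Φ v (g * γ t) - Φ v g - (t : ℂ) * Φ (M.act X v) g‖ ≤ C * |t| * |t| := by
  have hd : ∀ s : ℝ, HasDerivAt (fun s : ℝ => Φ v (g * γ s) - Φ v g - (s : ℂ) * Φ (M.act X v) g)
      (Φ (M.act X v) (g * γ s) - Φ (M.act X v) g) s := by
    intro s
    have h1 := (hΦ.der_at hγ v g s).sub_const (Φ v g)
    have h2 : HasDerivAt (fun s : ℝ => (s : ℂ) * Φ (M.act X v) g) (Φ (M.act X v) g) s := by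
      simpa using (Complex.ofRealCLM.hasDerivAt (x := s)).mul_const (Φ (M.act X v) g)
    exact h1.sub h2
  have hC0 : 0 ≤ C := (norm_nonneg _).trans (hC 1)
  have := Convex.norm_image_sub_le_of_norm_hasDerivWithin_le
    (f := fun s : ℝ => Φ v (g * γ s) - Φ v g - (s : ℂ) * Φ (M.act X v) g)
    (f' := fun s => Φ (M.act X v) (g * γ s) - Φ (M.act X v) g) (C := C * |t|)
    (s := Set.uIcc 0 t) (x := 0) (y := t)
    (fun x _ => (hd x).hasDerivWithinAt)
    (fun x hx => (hΦ.mvt hγ (M.act X v) hC g x).trans (by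
      have : |x| ≤ |t| := by
        have := Set.abs_sub_left_of_mem_uIcc hx
        simpa using this
      gcongr))
    (convex_uIcc 0 t) Set.left_mem_uIcc Set.right_mem_uIcc
  simpa [hγ.map_zero] using this

/-- the orbit family of a functional on a globalization -/
noncomputable def glob {E : Type v} [AddCommGroup E] [Module ℂ E]
    [TopologicalSpace E] (π : G →* (E →L[ℂ] E)) (j : V →ₗ[ℂ] E) (l : E →L[ℂ] ℂ) :
    V →ₗ[ℂ] (G → ℂ) where
  toFun v g := l (π g (j v))
  map_add' v w := by ext g; simp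
  map_smul' c v := by ext g; simp

lemma OF.glob {E : Type v} [AddCommGroup E] [Module ℂ E]
    [TopologicalSpace E] {π : G →* (E →L[ℂ] E)} {j : V →ₗ[ℂ] E} (h : M.IsGlobalization π j)
    (l : E →L[ℂ] ℂ) : OF M (glob π j l) where
  cont v := l.continuous.comp (h.continuous.comp (continuous_id.prodMk continuous_const))
  der X γ hγ v g := by
    rw [hasDerivAt_iff_tendsto_slope]
    have h1 := h.deriv X γ hγ v
    have h2 : Tendsto (fun t : ℝ => (l.comp (π g)) (((t : ℂ)⁻¹) • (π (γ t) (j v) - j v)))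
        (𝓝[≠] 0) (𝓝 ((l.comp (π g)) (j (M.act X v)))) :=
      ((l.comp (π g)).continuous.tendsto _).comp h1
    refine h2.congr fun t => ?_
    simp only [slope_def_module, ContinuousLinearMap.comp_apply, map_smul, map_sub, sub_zero,
      AutNorm.glob, LinearMap.coe_mk, AddHom.coe_mk, hγ.map_zero, mul_one, map_mul]
    simp [ContinuousLinearMap.mul_apply]

end AutNorm
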