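import Pool.Agent.Helper57.AN.Defs

/-! Group elements, one-parameter subgroups, adjoint action, Cartan decomposition. -/

open Filter Topology

namespace AutNorm

open Real in
/-- rotation -/
noncomputable def kk (θ : ℝ) : G :=
  ⟨!![Real.cos θ, Real.sin θ; -Real.sin θ, Real.cos θ], by
    rw [Matrix.det_fin_two_of]; nlinarith [Real.sin_sq_add_cos_sq θ]⟩

/-- diagonal -/
noncomputable def aa (t : ℝ) : G :=
  ⟨!![Real.exp t, 0; 0, Real.exp (-t)], by
    rw [Matrix.det_fin_two_of, ← Real.exp_add]; simp⟩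

def LA : Lie2 :=
  ⟨!![1, 0; 0, -1], by
    show _ ∈ LinearMap.ker _
    simp [Matrix.trace_fin_two]⟩

def LB : Lie2 :=
  ⟨!![0, 1; 1, 0], by
    show _ ∈ LinearMap.ker _
    simp [Matrix.trace_fin_two]⟩

lemma G_ext {g h : G} (h00 : g.1 0 0 = h.1 0 0) (h01 : g.1 0 1 = h.1 0 1)
    (h10 : g.1 1 0 = h.1 1 0) (h11 : g.1 1 1 = h.1 1 1) : g = h := by
  apply Subtype.ext
  ext i j
  fin_cases i <;> fin_cases j <;> simp_all

lemma Lie_ext {X Y : Lie2} (h00 : X.1 0 0 = Y.1 0 0) (h01 : X.1 0 1 = Y.1 0 1)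
    (h10 : X.1 1 0 = Y.1 1 0) (h11 : X.1 1 1 = Y.1 1 1) : X = Y := by
  apply Subtype.ext
  ext i j
  fin_cases i <;> fin_cases j <;> simp_all

lemma mul_val (g h : G) (i j : Fin 2) :
    (g * h).1 i j = g.1 i 0 * h.1 0 j + g.1 i 1 * h.1 1 j := by
  rw [Matrix.SpecialLinearGroup.coe_mul, Matrix.mul_apply, Fin.sum_univ_two]

@[simp] lemma kk_00 (θ : ℝ) : (kk θ).1 0 0 = Real.cos θ := rfl
@[simp] lemma kk_01 (θ : ℝ) : (kk θ).1 0 1 = Real.sin θ := rfl
@[simp] lemma kk_10 (θ : ℝ) : (kk θ).1 1 0 = -Real.sin θ := rfl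
@[simp] lemma kk_11 (θ : ℝ) : (kk θ).1 1 1 = Real.cos θ := rfl
@[simp] lemma aa_00 (t : ℝ) : (aa t).1 0 0 = Real.exp t := rfl
@[simp] lemma aa_01 (t : ℝ) : (aa t).1 0 1 = 0 := rfl
@[simp] lemma aa_10 (t : ℝ) : (aa t).1 1 0 = 0 := rfl
@[simp] lemma aa_11 (t : ℝ) : (aa t).1 1 1 = Real.exp (-t) := rfl

lemma kk_add (s t : ℝ) : kk (s + t) = kk s * kk t := by
  apply G_ext <;> simp only [mul_val, kk_00, kk_01, kk_10, kk_11, Real.cos_add, Real.sin_add] <;>
    ring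

lemma aa_add (s t : ℝ) : aa (s + t) = aa s * aa t := by
  apply G_ext <;> simp only [mul_val, aa_00, aa_01, aa_10, aa_11, neg_add, Real.exp_add] <;> ring

@[simp] lemma kk_zero : kk 0 = 1 := by
  apply G_ext <;> simp
@[simp] lemma aa_zero : aa 0 = 1 := by
  apply G_ext <;> simp

lemma kk_neg (t : ℝ) : kk (-t) = (kk t)⁻¹ := by
  rw [eq_inv_iff_mul_eq_one, ← kk_add]; simp

lemma aa_neg (t : ℝ) : aa (-t) = (aa t)⁻¹ := by
  rw [eq_inv_iff_mul_eq_one, ← aa_add]; simp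

lemma kk_two_pi : kk (2 * Real.pi) = 1 := by
  apply G_ext <;> simp

lemma oneParam_kk : IsOneParam W kk where
  map_add := kk_add
  hasDerivAt := by
    intro i j
    fin_cases i <;> fin_cases j
    · simpa [W] using Real.hasDerivAt_cos 0
    · simpa [W] using Real.hasDerivAt_sin 0
    · simpa [W] using (Real.hasDerivAt_sin 0).fun_neg
    · simpa [W] using Real.hasDerivAt_cos 0

lemma oneParam_aa : IsOneParam LA aa where
  map_add := aa_add
  hasDerivAt := by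
    intro i j
    fin_cases i <;> fin_cases j
    · simpa [LA] using Real.hasDerivAt_exp 0
    · simpa [LA] using hasDerivAt_const (0:ℝ) (0:ℝ)
    · simpa [LA] using hasDerivAt_const (0:ℝ) (0:ℝ)
    · have := (Real.hasDerivAt_exp (-0)).comp 0 (hasDerivAt_neg (0:ℝ))
      simpa [LA, Function.comp_def] using this

/-- adjoint action -/
noncomputable def Ad (g : G) (X : Lie2) : Lie2 :=
  ⟨g.1 * X.1 * (g⁻¹).1, by
    show _ ∈ LinearMap.ker _
    have hX : X.1 ∈ LinearMap.ker (Matrix.traceLinearMap (Fin 2) ℝ ℝ) := X.2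
    rw [LinearMap.mem_ker] at hX ⊢
    simp only [Matrix.traceLinearMap_apply] at hX ⊢
    rw [Matrix.mul_assoc, Matrix.trace_mul_comm, Matrix.mul_assoc,
      ← Matrix.SpecialLinearGroup.coe_mul]
    simpa using hX⟩

lemma IsOneParam.map_zero {X : Lie2} {γ : ℝ → G} (h : IsOneParam X γ) : γ 0 = 1 := by
  have := h.map_add 0 0
  simp only [add_zero] at this
  exact (left_eq_mul.mp this)

lemma IsOneParam.map_neg {X : Lie2} {γ : ℝ → G} (h : IsOneParam X γ) (t : ℝ) :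
    γ (-t) = (γ t)⁻¹ := by
  rw [eq_inv_iff_mul_eq_one, ← h.map_add]; simp [h.map_zero]

lemma IsOneParam.conj {X : Lie2} {γ : ℝ → G} (h : IsOneParam X γ) (g : G) :
    IsOneParam (Ad g X) (fun t => g * γ t * g⁻¹) where
  map_add s t := by rw [h.map_add]; group
  hasDerivAt i j := by
    have e : ∀ t, (g * γ t * g⁻¹).1 i j =
        (g.1 i 0 * (γ t).1 0 0 + g.1 i 1 * (γ t).1 1 0) * (g⁻¹).1 0 j +
        (g.1 i 0 * (γ t).1 0 1 + g.1 i 1 * (γ t).1 1 1) * (g⁻¹).1 1 j := by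
      intro t
      simp only [mul_val]
    simp only [e]
    have e2 : (Ad g X).1 i j =
        (g.1 i 0 * X.1 0 0 + g.1 i 1 * X.1 1 0) * (g⁻¹).1 0 j +
        (g.1 i 0 * X.1 0 1 + g.1 i 1 * X.1 1 1) * (g⁻¹).1 1 j := by
      simp only [Ad, Matrix.mul_apply, Fin.sum_univ_two]
    rw [e2]
    exact ((((h.hasDerivAt 0 0).const_mul _).add ((h.hasDerivAt 1 0).const_mul _)).mul_const _).add
      ((((h.hasDerivAt 0 1).const_mul _).add ((h.hasDerivAt 1 1).const_mul _)).mul_const _)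

lemma Ad_aa_W (t : ℝ) : Ad (aa t) W = Real.cosh (2 * t) • W + Real.sinh (2 * t) • LB := by
  have h1 : Real.exp t * Real.exp t = Real.cosh (2 * t) + Real.sinh (2 * t) := by
    rw [← Real.exp_add, Real.cosh_add_sinh]; ring_nf
  have h2 : Real.exp (-t) * Real.exp (-t) = Real.cosh (2 * t) - Real.sinh (2 * t) := by
    rw [← Real.exp_add, Real.cosh_sub_sinh]; ring_nf
  apply Lie_ext
  all_goals
    simp only [Ad, ← aa_neg, Matrix.mul_apply, Fin.sum_univ_two, aa_00, aa_01, aa_10, aa_11, W, LB,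
      neg_neg]
    simp
  · rw [h1, Real.cosh_add_sinh]
  · rw [h2]; ring

lemma Ad_aa_A (t : ℝ) : Ad (aa t) LA = LA := by
  have h1 : Real.exp t * Real.exp (-t) = 1 := by
    rw [← Real.exp_add]; simp
  apply Lie_ext
  all_goals
    simp only [Ad, ← aa_neg, Matrix.mul_apply, Fin.sum_univ_two, aa_00, aa_01, aa_10, aa_11, LA,
      neg_neg]
    simp
  · linarith
  · linarith

lemma Ad_one (X : Lie2) : Ad 1 X = X := by
  apply Subtype.ext
  simp [Ad]

lemma Ad_mul (g h : G) (X : Lie2) : Ad (g * h) X = Ad g (Ad h X) := by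
  apply Subtype.ext
  simp [Ad, Matrix.mul_assoc, mul_inv_rev]

end AutNorm
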