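import Pool.Agent.Helper57.AN.CL2

/-! Sobolev bound for bounded orbit families. -/

open Filter Topology ComplexConjugate MeasureTheory

universe u v

namespace AutNorm

/-- Bessel inequality for the `K`-Fourier coefficients -/
lemma besselK {f : ℝ → ℂ} (hf : Continuous f) {B : ℝ} (hB : ∀ θ, ‖f θ‖ ≤ B) (S : Finset ℤ) :
    ∑ n ∈ S, ‖∫ θ in (0 : ℝ)..(2 * Real.pi), Complex.exp (-(n * θ * Complex.I)) * f θ‖ ^ 2 ≤
      (2 * Real.pi * B) ^ 2 := by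
  have hpi : (0 : ℝ) < 2 * Real.pi := by positivity
  have hB0 : 0 ≤ B := (norm_nonneg _).trans (hB 0)
  have hL2 : MemLp f 2 (volume.restrict (Set.Ioc 0 (2 * Real.pi))) := by
    refine MemLp.of_bound hf.aestronglyMeasurable B (Eventually.of_forall hB)
  have h1 := hasSum_sq_fourierCoeffOn hpi hL2
  have h2 := sum_le_hasSum S (fun i _ => by positivity) h1
  have h3 : ∀ n : ℤ, ‖∫ θ in (0 : ℝ)..(2 * Real.pi), Complex.exp (-(n * θ * Complex.I)) * f θ‖ ^ 2 =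
      (2 * Real.pi) ^ 2 * ‖fourierCoeffOn hpi f n‖ ^ 2 := by
    intro n
    rw [fourierCoeffOn_eq_integral, norm_smul]
    have e1 : ‖1 / (2 * Real.pi - 0)‖ = (2 * Real.pi)⁻¹ := by
      rw [sub_zero, Real.norm_eq_abs, abs_of_pos (by positivity), one_div]
    rw [e1, mul_pow ((2 * Real.pi)⁻¹), ← mul_assoc, ← mul_pow, mul_inv_cancel₀ hpi.ne', one_pow,
      one_mul]
    congr 2
    refine intervalIntegral.integral_congr fun θ _ => ?_
    simp only [smul_eq_mul]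
    congr 1
    rw [fourier_coe_apply]
    congr 1
    push_cast
    have : (Real.pi : ℂ) ≠ 0 := by exact_mod_cast Real.pi_ne_zero
    field_simp
    ring
  simp only [h3]
  rw [← Finset.mul_sum]
  have h4 : (2 * Real.pi - 0)⁻¹ • ∫ x in (0 : ℝ)..(2 * Real.pi), ‖f x‖ ^ 2 ≤ B ^ 2 := by
    rw [sub_zero, smul_eq_mul, inv_mul_le_iff₀ hpi]
    have h5 : ∫ x in (0 : ℝ)..(2 * Real.pi), ‖f x‖ ^ 2 ≤ ∫ x in (0 : ℝ)..(2 * Real.pi), B ^ 2 := by
      refine intervalIntegral.integral_mono_on hpi.le ?_ ?_ ?_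
      · exact (hf.norm.pow 2).intervalIntegrable _ _
      · exact intervalIntegrable_const
      · intro x _
        have := hB x
        gcongr
    rw [intervalIntegral.integral_const, smul_eq_mul, sub_zero] at h5
    exact h5
  have h6 := h2.trans h4
  calc (2 * Real.pi) ^ 2 * ∑ n ∈ S, ‖fourierCoeffOn hpi f n‖ ^ 2 ≤ (2 * Real.pi) ^ 2 * B ^ 2 := by
        gcongr
    _ = (2 * Real.pi * B) ^ 2 := by ring

variable {V : Type u} [NormedAddCommGroup V] [InnerProductSpace ℂ V]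
variable {M : LieMod V} {mc : V → V →ₗ[ℂ] (G → ℂ)}

lemma Fc_bessel (F : Frame M) {Φ : V →ₗ[ℂ] (G → ℂ)} (hΦ : OF M Φ) (i : ℤ) {B : ℝ}
    (hB : ∀ g, ‖Φ (F.e i) g‖ ≤ B) (g : G) (t : ℝ) (S : Finset ℤ) :
    ∑ J ∈ S, ‖Fc Φ (F.n J) g (F.e i) t‖ ^ 2 ≤ (2 * Real.pi * B) ^ 2 := by
  have hinj : Function.Injective F.n := by
    intro a b hab
    simp only [Frame.n] at hab
    omega
  have h1 := besselK (f := fun θ => Φ (F.e i) (g * kk θ * aa t))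
    ((hΦ.cont _).comp ((continuous_const.mul continuous_kk).mul continuous_const))
    (fun θ => hB _) (S.map ⟨F.n, hinj⟩)
  rw [Finset.sum_map] at h1
  exact h1

lemma U_bessel (F : Frame M) (h : USys M mc) {Φ : V →ₗ[ℂ] (G → ℂ)} (hΦ : OF M Φ) (i : ℤ) {B : ℝ}
    (hB : ∀ g, ‖Φ (F.e i) g‖ ≤ B) (g : G) (t : ℝ) (ht : 0 ≤ t) (S : Finset ℤ) :
    ∑ J ∈ S, ‖F.c mc i J t‖ ^ 2 * ‖Φ (F.e J) g‖ ^ 2 ≤ B ^ 2 := by
  have h1 := Fc_bessel F hΦ i hB g t S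
  have h2 : ∀ J, (2 * Real.pi) ^ 2 * (‖F.c mc i J t‖ ^ 2 * ‖Φ (F.e J) g‖ ^ 2) ≤
      ‖Fc Φ (F.n J) g (F.e i) t‖ ^ 2 := by
    intro J
    by_cases hJ : F.e J = 0
    · rw [hJ]
      simp only [map_zero, Pi.zero_apply, norm_zero, ne_eq, OfNat.ofNat_ne_zero, not_false_eq_true,
        zero_pow, mul_zero]
      positivity
    · rw [CL F h hΦ J hJ g i t ht]
      rw [norm_mul, norm_mul, norm_mul]
      have e1 : ‖(2 : ℂ)‖ = 2 := by simp
      have e2 : ‖(Real.pi : ℂ)‖ = Real.pi := by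
        rw [Complex.norm_real, Real.norm_eq_abs, abs_of_pos Real.pi_pos]
      rw [e1, e2]
      apply le_of_eq
      ring
  have h3 : (2 * Real.pi) ^ 2 * ∑ J ∈ S, ‖F.c mc i J t‖ ^ 2 * ‖Φ (F.e J) g‖ ^ 2 ≤
      (2 * Real.pi) ^ 2 * B ^ 2 := by
    rw [Finset.mul_sum]
    calc _ ≤ ∑ J ∈ S, ‖Fc Φ (F.n J) g (F.e i) t‖ ^ 2 := Finset.sum_le_sum fun J _ => h2 J
      _ ≤ _ := h1
      _ = _ := by ring
  exact le_of_mul_le_mul_left h3 (by positivity)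

lemma sup_bound (F : Frame M) (h : USys M mc) (i J : ℤ) (hi : F.e i ≠ 0) :
    ∃ C : ℝ, 0 ≤ C ∧ ∀ Φ : V →ₗ[ℂ] (G → ℂ), OF M Φ → ∀ B : ℝ, (∀ g, ‖Φ (F.e i) g‖ ≤ B) →
      ∀ g, ‖Φ (F.e J) g‖ ≤ C * B := by
  by_cases hJ : F.e J = 0
  · refine ⟨0, le_rfl, fun Φ hΦ B hB g => ?_⟩
    rw [hJ]; simp
  obtain ⟨t, ht, hc⟩ := c_ne_zero F h i J hi hJ
  have hc' : 0 < ‖F.c mc i J t‖ := norm_pos_iff.mpr hc
  refine ⟨‖F.c mc i J t‖⁻¹, by positivity, fun Φ hΦ B hB g => ?_⟩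
  have hB0 : 0 ≤ B := (norm_nonneg _).trans (hB 1)
  have h1 := U_bessel F h hΦ i hB g t ht.le {J}
  rw [Finset.sum_singleton, ← mul_pow] at h1
  have h2 : ‖F.c mc i J t‖ * ‖Φ (F.e J) g‖ ≤ B := by
    exact le_of_sq_le_sq h1 hB0 
  rw [inv_mul_eq_div, le_div_iff₀ hc', mul_comm]
  exact h2

/-- one-sided estimate -/
lemma U_side (F : Frame M) (h : USys M mc) (i : ℤ) {c₁ : ℝ} (hc₁ : 0 < c₁) (Q : ℤ → Prop)
    (hQ1 : ∀ J, Q J → (1 : ℝ) ≤ |(F.n J : ℝ)|)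
    (hQ : ∀ J, Q J → c₁ / |(F.n J : ℝ)| ≤
      ∫ t in (1 : ℝ)..(Real.log (8 * |(F.n J : ℝ)|) / 2), ‖F.c mc i J t‖ ^ 2)
    (s : ℝ) (hs : 1 / 2 < s) :
    ∃ C : ℝ, 0 ≤ C ∧ ∀ Φ : V →ₗ[ℂ] (G → ℂ), OF M Φ → ∀ B : ℝ, (∀ g, ‖Φ (F.e i) g‖ ≤ B) →
      ∀ g, ∀ S : Finset ℤ, (∀ J ∈ S, Q J) →
        ∑ J ∈ S, ‖Φ (F.e J) g‖ ^ 2 * (1 + (F.n J : ℝ) ^ 2) ^ (-s) ≤ C * B ^ 2 := by
  obtain ⟨ε, hε⟩ : ∃ ε, ε = 2 * s - 1 := ⟨_, rfl⟩
  have hε0 : 0 < ε := by linarith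
  refine ⟨(8 : ℝ) ^ ε / (2 * ε * c₁), by positivity, fun Φ hΦ B hB g S hS => ?_⟩
  set T : ℝ := 1 + ∑ J ∈ S, |Real.log (8 * |(F.n J : ℝ)|) / 2| with hT
  have hT1 : 1 ≤ T := by
    have : 0 ≤ ∑ J ∈ S, |Real.log (8 * |(F.n J : ℝ)|) / 2| :=
      Finset.sum_nonneg fun _ _ => abs_nonneg _
    linarith
  have hTJ : ∀ J ∈ S, Real.log (8 * |(F.n J : ℝ)|) / 2 ≤ T := by
    intro J hJ
    have h1 := Finset.single_le_sum (f := fun J => |Real.log (8 * |(F.n J : ℝ)|) / 2|)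
      (fun _ _ => abs_nonneg _) hJ
    have h2 := le_abs_self (Real.log (8 * |(F.n J : ℝ)|) / 2)
    linarith
  have hcq : ∀ J, Continuous fun t => ‖F.c mc i J t‖ ^ 2 := fun J =>
    (continuous_iff_continuousAt.mpr fun t => (h.deriv_left F i J t).continuousAt).norm.pow 2
  have hexp : Continuous fun t : ℝ => Real.exp (-(2 * ε * t) / 2) := by fun_prop
  -- upper bound of the weighted integral
  have hup : ∫ t in (1 : ℝ)..T, ∑ J ∈ S,
      ‖Φ (F.e J) g‖ ^ 2 * (Real.exp (-(2 * ε * t)) * ‖F.c mc i J t‖ ^ 2) ≤ B ^ 2 / (2 * ε) := by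
    have h1 : ∫ t in (1 : ℝ)..T, ∑ J ∈ S,
        ‖Φ (F.e J) g‖ ^ 2 * (Real.exp (-(2 * ε * t)) * ‖F.c mc i J t‖ ^ 2) ≤
        ∫ t in (1 : ℝ)..T, B ^ 2 * Real.exp (-(2 * ε * t)) := by
      refine intervalIntegral.integral_mono_on hT1 ?_ ?_ ?_
      · refine (continuous_finsetSum S fun J _ => ?_).intervalIntegrable _ _
        exact continuous_const.mul (Continuous.mul (by fun_prop) (hcq J))
      · exact (Continuous.mul continuous_const (by fun_prop)).intervalIntegrable _ _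
      · intro t ht
        have h2 := U_bessel F h hΦ i hB g t (by linarith [ht.1]) S
        have h3 : ∑ J ∈ S, ‖Φ (F.e J) g‖ ^ 2 * (Real.exp (-(2 * ε * t)) * ‖F.c mc i J t‖ ^ 2) =
            Real.exp (-(2 * ε * t)) * ∑ J ∈ S, ‖F.c mc i J t‖ ^ 2 * ‖Φ (F.e J) g‖ ^ 2 := by
          rw [Finset.mul_sum]
          exact Finset.sum_congr rfl fun J _ => by ring
        rw [h3, mul_comm (B ^ 2)]
        gcongr
    have h4 : ∫ t in (1 : ℝ)..T, B ^ 2 * Real.exp (-(2 * ε * t)) ≤ B ^ 2 / (2 * ε) := by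
      rw [intervalIntegral.integral_const_mul, div_eq_mul_inv]
      have h5 : ∫ t in (1 : ℝ)..T, Real.exp (-(2 * ε * t)) =
          -(2 * ε)⁻¹ * Real.exp (-(2 * ε * T)) - -(2 * ε)⁻¹ * Real.exp (-(2 * ε * 1)) := by
        refine intervalIntegral.integral_eq_sub_of_hasDerivAt
          (f := fun t => -(2 * ε)⁻¹ * Real.exp (-(2 * ε * t))) (fun t _ => ?_) ?_
        · have : HasDerivAt (fun t : ℝ => -(2 * ε * t)) (-(2 * ε)) t := by
            simpa using ((hasDerivAt_id t).const_mul (2 * ε)).fun_neg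
          refine (this.exp.const_mul _).congr_deriv ?_
          field_simp
        · exact Continuous.intervalIntegrable (by fun_prop) _ _
      rw [h5]
      have h6 : Real.exp (-(2 * ε * 1)) ≤ 1 := Real.exp_le_one_iff.mpr (by linarith)
      have h7 := Real.exp_pos (-(2 * ε * T))
      have h8 : 0 < (2 * ε)⁻¹ := by positivity
      have h9 : -(2 * ε)⁻¹ * Real.exp (-(2 * ε * T)) - -(2 * ε)⁻¹ * Real.exp (-(2 * ε * 1)) ≤
          (2 * ε)⁻¹ := by nlinarith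
      gcongr
    exact h1.trans h4
  have hII : ∀ J ∈ S, IntervalIntegrable (fun t : ℝ =>
      ‖Φ (F.e J) g‖ ^ 2 * (Real.exp (-(2 * ε * t)) * ‖F.c mc i J t‖ ^ 2)) volume 1 T :=
    fun J _ => (continuous_const.mul (Continuous.mul (by fun_prop) (hcq J))).intervalIntegrable _ _
  rw [intervalIntegral.integral_finsetSum hII] at hup
  simp only [intervalIntegral.integral_const_mul] at hup
  -- lower bound of each term
  have hlow : ∀ J ∈ S, (1 + (F.n J : ℝ) ^ 2) ^ (-s) * (c₁ / 8 ^ ε) ≤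
      ∫ t in (1 : ℝ)..T, Real.exp (-(2 * ε * t)) * ‖F.c mc i J t‖ ^ 2 := by
    intro J hJ
    set N : ℝ := |(F.n J : ℝ)| with hN
    have hN1 : 1 ≤ N := hQ1 J (hS J hJ)
    set TJ := Real.log (8 * N) / 2 with hTJdef
    have hTJ1 : 1 ≤ TJ := Core.one_le_logT hN1
    have hint : Continuous fun t : ℝ => Real.exp (-(2 * ε * t)) * ‖F.c mc i J t‖ ^ 2 :=
      Continuous.mul (by fun_prop) (hcq J)
    have h1 : ∫ t in (1 : ℝ)..TJ, Real.exp (-(2 * ε * t)) * ‖F.c mc i J t‖ ^ 2 ≤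
        ∫ t in (1 : ℝ)..T, Real.exp (-(2 * ε * t)) * ‖F.c mc i J t‖ ^ 2 := by
      refine intervalIntegral.integral_mono_interval le_rfl hTJ1 (hTJ J hJ) ?_
        (hint.intervalIntegrable _ _)
      exact Eventually.of_forall fun t => by positivity
    have h2 : ∫ t in (1 : ℝ)..TJ, Real.exp (-(2 * ε * TJ)) * ‖F.c mc i J t‖ ^ 2 ≤
        ∫ t in (1 : ℝ)..TJ, Real.exp (-(2 * ε * t)) * ‖F.c mc i J t‖ ^ 2 := by
      refine intervalIntegral.integral_mono_on hTJ1 ?_ ?_ ?_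
      · exact (continuous_const.mul (hcq J)).intervalIntegrable _ _
      · exact hint.intervalIntegrable _ _
      · intro t ht
        have h3 : Real.exp (-(2 * ε * TJ)) ≤ Real.exp (-(2 * ε * t)) := by
          rw [Real.exp_le_exp]
          have := ht.2
          nlinarith
        gcongr
    rw [intervalIntegral.integral_const_mul] at h2
    have h4 : Real.exp (-(2 * ε * TJ)) = (8 * N) ^ (-ε) := by
      rw [Real.rpow_def_of_pos (by linarith), hTJdef]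
      congr 1
      ring
    have h5 := hQ J (hS J hJ)
    have h6 : (8 * N) ^ (-ε) * (c₁ / N) ≤ ∫ t in (1 : ℝ)..T,
        Real.exp (-(2 * ε * t)) * ‖F.c mc i J t‖ ^ 2 := by
      rw [h4] at h2
      have : 0 ≤ (8 * N) ^ (-ε) := by positivity
      calc (8 * N) ^ (-ε) * (c₁ / N) ≤
          (8 * N) ^ (-ε) * ∫ t in (1 : ℝ)..TJ, ‖F.c mc i J t‖ ^ 2 := by gcongr
        _ ≤ _ := h2
        _ ≤ _ := h1
    refine le_trans ?_ h6
    have hN0 : 0 < N := by linarith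
    have h7 : (1 + (F.n J : ℝ) ^ 2) ^ (-s) ≤ N ^ (-(1 + ε)) := by
      have h8 : N ^ (-(1 + ε)) = (N ^ 2) ^ (-s) := by
        rw [← Real.rpow_natCast N 2, ← Real.rpow_mul hN0.le]
        congr 1
        rw [hε]; push_cast; ring
      rw [h8]
      have h9 : N ^ 2 = (F.n J : ℝ) ^ 2 := by rw [hN, sq_abs]
      rw [h9]
      refine Real.rpow_le_rpow_of_nonpos ?_ (by linarith) (by linarith)
      rw [← h9]; positivity
    have h10 : (8 * N) ^ (-ε) * (c₁ / N) = N ^ (-(1 + ε)) * (c₁ / 8 ^ ε) := by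
      rw [Real.mul_rpow (by norm_num) hN0.le, Real.rpow_neg (by norm_num) ε, neg_add,
        Real.rpow_add hN0, Real.rpow_neg_one]
      ring
    rw [h10]
    have : 0 < c₁ / 8 ^ ε := by positivity
    gcongr
  have h1 : ∑ J ∈ S, ‖Φ (F.e J) g‖ ^ 2 * ((1 + (F.n J : ℝ) ^ 2) ^ (-s) * (c₁ / 8 ^ ε)) ≤
      B ^ 2 / (2 * ε) := by
    refine le_trans (Finset.sum_le_sum fun J hJ => ?_) hup
    have := hlow J hJ
    gcongr
  have h2 : ∑ J ∈ S, ‖Φ (F.e J) g‖ ^ 2 * ((1 + (F.n J : ℝ) ^ 2) ^ (-s) * (c₁ / 8 ^ ε)) =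
      (c₁ / 8 ^ ε) * ∑ J ∈ S, ‖Φ (F.e J) g‖ ^ 2 * (1 + (F.n J : ℝ) ^ 2) ^ (-s) := by
    rw [Finset.mul_sum]
    exact Finset.sum_congr rfl fun J _ => by ring
  rw [h2] at h1
  have h3 : 0 < c₁ / (8 : ℝ) ^ ε := by positivity
  have h4 : (c₁ / (8 : ℝ) ^ ε) * ∑ J ∈ S, ‖Φ (F.e J) g‖ ^ 2 * (1 + (F.n J : ℝ) ^ 2) ^ (-s) ≤
      (c₁ / (8 : ℝ) ^ ε) * ((8 : ℝ) ^ ε / (2 * ε * c₁) * B ^ 2) := by
    refine h1.trans (le_of_eq ?_)
    have : (8 : ℝ) ^ ε ≠ 0 := by positivity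
    field_simp
  exact le_of_mul_le_mul_left h4 h3

end AutNorm
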