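import Pool.Agent.Helper57.AN.U2

/-! Sobolev bound for bounded orbit families: assembly. -/

open Filter Topology ComplexConjugate MeasureTheory

universe u v

namespace AutNorm

variable {V : Type u} [NormedAddCommGroup V] [InnerProductSpace ℂ V]
variable {M : LieMod V} {mc : V → V →ₗ[ℂ] (G → ℂ)}

lemma lower_pos (F : Frame M) (h : USys M mc) (i : ℤ) (hi : F.e i ≠ 0) (hm : 1 ≤ F.n i) :
    ∃ c₁ : ℝ, 0 < c₁ ∧ ∃ N₀ : ℕ, 1 ≤ N₀ ∧ ∀ J : ℤ, (N₀ : ℤ) ≤ F.n J →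
      c₁ / |(F.n J : ℝ)| ≤
        ∫ t in (1 : ℝ)..(Real.log (8 * |(F.n J : ℝ)|) / 2), ‖F.c mc i J t‖ ^ 2 := by
  obtain ⟨c₁, hc₁, N₀, hN₀, hl⟩ := (h.core F i hi).lower hm
  refine ⟨c₁, hc₁, N₀, hN₀, fun J hJ => ?_⟩
  have h1 := hl J hJ
  have h2 : |(F.n J : ℝ)| = ((F.n₀ + 2 * J : ℤ) : ℝ) := by
    rw [abs_of_nonneg]
    · rfl
    · have : (0 : ℤ) ≤ F.n J := by omega
      exact_mod_cast this
  rw [h2]
  exact h1

lemma lower_neg (F : Frame M) (h : USys M mc) (i : ℤ) (hi : F.e i ≠ 0) (hm : F.n i ≤ -1) :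
    ∃ c₁ : ℝ, 0 < c₁ ∧ ∃ N₀ : ℕ, 1 ≤ N₀ ∧ ∀ J : ℤ, (N₀ : ℤ) ≤ -F.n J →
      c₁ / |(F.n J : ℝ)| ≤
        ∫ t in (1 : ℝ)..(Real.log (8 * |(F.n J : ℝ)|) / 2), ‖F.c mc i J t‖ ^ 2 := by
  obtain ⟨c₁, hc₁, N₀, hN₀, hl⟩ := (h.core F i hi).mirror.lower (by omega)
  refine ⟨c₁, hc₁, N₀, hN₀, fun J hJ => ?_⟩
  have h0 : -F.n₀ + 2 * (-J) = -F.n J := by simp only [Frame.n]; ring
  have h1 := hl (-J) (by rw [h0]; exact hJ)
  have h2 : |(F.n J : ℝ)| = ((-F.n₀ + 2 * (-J) : ℤ) : ℝ) := by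
    rw [h0, ← abs_neg, abs_of_nonneg]
    · push_cast; rfl
    · have : (0 : ℤ) ≤ -F.n J := by omega
      exact_mod_cast this
  rw [h2]
  simpa using h1

lemma side_pos (F : Frame M) (h : USys M mc) (s : ℝ) (hs : 1 / 2 < s) :
    ∃ N : ℕ, ∃ C : ℝ, 0 ≤ C ∧ ∀ Φ : V →ₗ[ℂ] (G → ℂ), OF M Φ → ∀ B : ℝ,
      (∀ g, ‖Φ (F.e 0) g‖ ≤ B) → ∀ g, ∀ S : Finset ℤ, (∀ J ∈ S, (N : ℤ) ≤ F.n J) →
        ∑ J ∈ S, ‖Φ (F.e J) g‖ ^ 2 * (1 + (F.n J : ℝ) ^ 2) ^ (-s) ≤ C * B ^ 2 := by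
  by_cases hu : ∀ i, ∃ k, i ≤ k ∧ F.e k ≠ 0
  · obtain ⟨k, hk1, hk2⟩ := hu (|F.n₀| + 1)
    have hnk : 1 ≤ F.n k := by
      simp only [Frame.n]
      have := neg_abs_le F.n₀
      have := abs_nonneg F.n₀
      omega
    obtain ⟨c₁, hc₁, N₀, hN₀, hl⟩ := lower_pos F h k hk2 hnk
    obtain ⟨C', hC', hC⟩ := U_side F h k hc₁ (fun J => (N₀ : ℤ) ≤ F.n J)
      (fun J hJ => by
        have : (1 : ℤ) ≤ |F.n J| := le_trans (by omega) (le_abs_self _)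
        exact_mod_cast this) hl s hs
    obtain ⟨D, hD, hDb⟩ := sup_bound F h 0 k F.base
    refine ⟨N₀, C' * D ^ 2, by positivity, fun Φ hΦ B hB g S hS => ?_⟩
    have := hC Φ hΦ (D * B) (hDb Φ hΦ B hB) g S hS
    refine this.trans (le_of_eq ?_)
    ring
  · push Not at hu
    obtain ⟨i₀, hi₀⟩ := hu
    refine ⟨(|F.n₀| + 2 * |i₀|).toNat, 0, le_rfl, fun Φ hΦ B hB g S hS => ?_⟩
    rw [zero_mul]
    refine le_of_eq (Finset.sum_eq_zero fun J hJ => ?_)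
    have h1 := hS J hJ
    have h2 : i₀ ≤ J := by
      simp only [Frame.n] at h1
      have := le_abs_self F.n₀
      have := le_abs_self i₀
      have := abs_nonneg F.n₀
      have := abs_nonneg i₀
      omega
    rw [hi₀ J h2]
    simp

lemma side_neg (F : Frame M) (h : USys M mc) (s : ℝ) (hs : 1 / 2 < s) :
    ∃ N : ℕ, ∃ C : ℝ, 0 ≤ C ∧ ∀ Φ : V →ₗ[ℂ] (G → ℂ), OF M Φ → ∀ B : ℝ,
      (∀ g, ‖Φ (F.e 0) g‖ ≤ B) → ∀ g, ∀ S : Finset ℤ, (∀ J ∈ S, (N : ℤ) ≤ -F.n J) →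
        ∑ J ∈ S, ‖Φ (F.e J) g‖ ^ 2 * (1 + (F.n J : ℝ) ^ 2) ^ (-s) ≤ C * B ^ 2 := by
  by_cases hu : ∀ i, ∃ k, k ≤ i ∧ F.e k ≠ 0
  · obtain ⟨k, hk1, hk2⟩ := hu (-(|F.n₀| + 1))
    have hnk : F.n k ≤ -1 := by
      simp only [Frame.n]
      have := le_abs_self F.n₀
      have := abs_nonneg F.n₀
      omega
    obtain ⟨c₁, hc₁, N₀, hN₀, hl⟩ := lower_neg F h k hk2 hnk
    obtain ⟨C', hC', hC⟩ := U_side F h k hc₁ (fun J => (N₀ : ℤ) ≤ -F.n J)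
      (fun J hJ => by
        have : (1 : ℤ) ≤ |F.n J| := le_trans (by omega) (neg_le_abs _)
        exact_mod_cast this) hl s hs
    obtain ⟨D, hD, hDb⟩ := sup_bound F h 0 k F.base
    refine ⟨N₀, C' * D ^ 2, by positivity, fun Φ hΦ B hB g S hS => ?_⟩
    have := hC Φ hΦ (D * B) (hDb Φ hΦ B hB) g S hS
    refine this.trans (le_of_eq ?_)
    ring
  · push Not at hu
    obtain ⟨i₀, hi₀⟩ := hu
    refine ⟨(|F.n₀| + 2 * |i₀|).toNat, 0, le_rfl, fun Φ hΦ B hB g S hS => ?_⟩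
    rw [zero_mul]
    refine le_of_eq (Finset.sum_eq_zero fun J hJ => ?_)
    have h1 := hS J hJ
    have h2 : J ≤ i₀ := by
      simp only [Frame.n] at h1
      have := neg_abs_le F.n₀
      have := neg_abs_le i₀
      have := abs_nonneg F.n₀
      have := abs_nonneg i₀
      omega
    rw [hi₀ J h2]
    simp

/-- The Sobolev bound. -/
theorem U_main (F : Frame M) (h : USys M mc) (s : ℝ) (hs : 1 / 2 < s) :
    ∃ C : ℝ, 0 ≤ C ∧ ∀ Φ : V →ₗ[ℂ] (G → ℂ), OF M Φ → ∀ B : ℝ,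
      (∀ g, ‖Φ (F.e 0) g‖ ≤ B) → ∀ g, ∀ S : Finset ℤ,
        ∑ J ∈ S, ‖Φ (F.e J) g‖ ^ 2 * (1 + (F.n J : ℝ) ^ 2) ^ (-s) ≤ C * B ^ 2 := by
  obtain ⟨N1, C1, hC1, h1⟩ := side_pos F h s hs
  obtain ⟨N2, C2, hC2, h2⟩ := side_neg F h s hs
  choose D hD hDb using fun J => sup_bound F h 0 J F.base
  set R : ℤ := |F.n₀| + N1 + N2 with hR
  refine ⟨C1 + C2 + ∑ J ∈ Finset.Icc (-R) R, D J ^ 2, ?_, fun Φ hΦ B hB g S => ?_⟩
  · have : 0 ≤ ∑ J ∈ Finset.Icc (-R) R, D J ^ 2 := Finset.sum_nonneg fun _ _ => by positivity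
    positivity
  set f : ℤ → ℝ := fun J => ‖Φ (F.e J) g‖ ^ 2 * (1 + (F.n J : ℝ) ^ 2) ^ (-s) with hf
  have hf0 : ∀ J, 0 ≤ f J := fun J => by simp only [hf]; positivity
  have e1 := h1 Φ hΦ B hB g (S.filter fun J => (N1 : ℤ) ≤ F.n J)
    (fun J hJ => (Finset.mem_filter.mp hJ).2)
  have e2 := h2 Φ hΦ B hB g (S.filter fun J => (N2 : ℤ) ≤ -F.n J)
    (fun J hJ => (Finset.mem_filter.mp hJ).2)
  have e3 : ∑ J ∈ Finset.Icc (-R) R, f J ≤ (∑ J ∈ Finset.Icc (-R) R, D J ^ 2) * B ^ 2 := by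
    rw [Finset.sum_mul]
    refine Finset.sum_le_sum fun J _ => ?_
    have hb := hDb J Φ hΦ B hB g
    have hb2 : (1 + (F.n J : ℝ) ^ 2) ^ (-s) ≤ 1 := by
      refine Real.rpow_le_one_of_one_le_of_nonpos ?_ (by linarith)
      have : 0 ≤ (F.n J : ℝ) ^ 2 := by positivity
      linarith
    calc f J ≤ (D J * B) ^ 2 * 1 := by
          simp only [hf]
          have : 0 ≤ (1 + (F.n J : ℝ) ^ 2) ^ (-s) := by positivity
          gcongr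
      _ = D J ^ 2 * B ^ 2 := by ring
  have hsub : S ⊆ (S.filter fun J => (N1 : ℤ) ≤ F.n J) ∪
      ((S.filter fun J => (N2 : ℤ) ≤ -F.n J) ∪ Finset.Icc (-R) R) := by
    intro J hJ
    simp only [Finset.mem_union, Finset.mem_filter, Finset.mem_Icc]
    by_cases ha : (N1 : ℤ) ≤ F.n J
    · exact Or.inl ⟨hJ, ha⟩
    · by_cases hb : (N2 : ℤ) ≤ -F.n J
      · exact Or.inr (Or.inl ⟨hJ, hb⟩)
      · refine Or.inr (Or.inr ?_)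
        simp only [Frame.n] at ha hb
        have := neg_abs_le F.n₀
        have := le_abs_self F.n₀
        omega
  calc ∑ J ∈ S, f J ≤ ∑ J ∈ (S.filter fun J => (N1 : ℤ) ≤ F.n J) ∪
      ((S.filter fun J => (N2 : ℤ) ≤ -F.n J) ∪ Finset.Icc (-R) R), f J :=
        Finset.sum_le_sum_of_subset_of_nonneg hsub fun J _ _ => hf0 J
    _ ≤ ∑ J ∈ (S.filter fun J => (N1 : ℤ) ≤ F.n J), f J +
        ∑ J ∈ ((S.filter fun J => (N2 : ℤ) ≤ -F.n J) ∪ Finset.Icc (-R) R), f J := by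
        have := Finset.sum_union_inter (s₁ := (S.filter fun J => (N1 : ℤ) ≤ F.n J))
          (s₂ := ((S.filter fun J => (N2 : ℤ) ≤ -F.n J) ∪ Finset.Icc (-R) R)) (f := f)
        have h0 : 0 ≤ ∑ J ∈ (S.filter fun J => (N1 : ℤ) ≤ F.n J) ∩
          ((S.filter fun J => (N2 : ℤ) ≤ -F.n J) ∪ Finset.Icc (-R) R), f J :=
          Finset.sum_nonneg fun J _ => hf0 J
        linarith
    _ ≤ ∑ J ∈ (S.filter fun J => (N1 : ℤ) ≤ F.n J), f J +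
        (∑ J ∈ (S.filter fun J => (N2 : ℤ) ≤ -F.n J), f J +
        ∑ J ∈ Finset.Icc (-R) R, f J) := by
        have := Finset.sum_union_inter (s₁ := (S.filter fun J => (N2 : ℤ) ≤ -F.n J))
          (s₂ := Finset.Icc (-R) R) (f := f)
        have h0 : 0 ≤ ∑ J ∈ (S.filter fun J => (N2 : ℤ) ≤ -F.n J) ∩ Finset.Icc (-R) R, f J :=
          Finset.sum_nonneg fun J _ => hf0 J
        linarith
    _ ≤ C1 * B ^ 2 + (C2 * B ^ 2 + (∑ J ∈ Finset.Icc (-R) R, D J ^ 2) * B ^ 2) := by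
        gcongr
    _ = _ := by ring

/-- polynomial growth -/
lemma U_poly (F : Frame M) (h : USys M mc) :
    ∃ C : ℝ, 0 < C ∧ ∀ Φ : V →ₗ[ℂ] (G → ℂ), OF M Φ → ∀ B : ℝ,
      (∀ g, ‖Φ (F.e 0) g‖ ≤ B) → ∀ g J, ‖Φ (F.e J) g‖ ≤ C * B * (1 + |(J : ℝ)|) := by
  obtain ⟨C, hC, hU⟩ := U_main F h 1 (by norm_num)
  set A : ℝ := 2 + |(F.n₀ : ℝ)| with hA
  have hA0 : 0 < A := by positivity
  refine ⟨(Real.sqrt C + 1) * A, by positivity, fun Φ hΦ B hB g J => ?_⟩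
  have hB0 : 0 ≤ B := (norm_nonneg _).trans (hB 1)
  have h1 := hU Φ hΦ B hB g {J}
  rw [Finset.sum_singleton, Real.rpow_neg_one, ← div_eq_mul_inv,
    div_le_iff₀ (by positivity)] at h1
  have h2 : 1 + (F.n J : ℝ) ^ 2 ≤ (A * (1 + |(J : ℝ)|)) ^ 2 := by
    have e1 : |(F.n J : ℝ)| ≤ |(F.n₀ : ℝ)| + 2 * |(J : ℝ)| := by
      simp only [Frame.n]
      push_cast
      refine (abs_add_le _ _).trans ?_
      rw [abs_mul, abs_two]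
    have e2 : (F.n J : ℝ) ^ 2 = |(F.n J : ℝ)| ^ 2 := (sq_abs _).symm
    rw [e2]
    have e3 : 0 ≤ |(F.n J : ℝ)| := abs_nonneg _
    have e4 : 0 ≤ |(J : ℝ)| := abs_nonneg _
    have e5 : 0 ≤ |(F.n₀ : ℝ)| := abs_nonneg _
    have e6 : 1 + |(F.n J : ℝ)| ≤ A * (1 + |(J : ℝ)|) := by
      rw [hA]; nlinarith
    nlinarith
  have h3 : ‖Φ (F.e J) g‖ ^ 2 ≤ ((Real.sqrt C + 1) * A * B * (1 + |(J : ℝ)|)) ^ 2 := by
    calc ‖Φ (F.e J) g‖ ^ 2 ≤ C * B ^ 2 * (1 + (F.n J : ℝ) ^ 2) := h1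
      _ ≤ (Real.sqrt C + 1) ^ 2 * B ^ 2 * (A * (1 + |(J : ℝ)|)) ^ 2 := by
          have e7 : C ≤ (Real.sqrt C + 1) ^ 2 := by
            have := Real.sq_sqrt hC
            have := Real.sqrt_nonneg C
            nlinarith
          gcongr
      _ = _ := by ring
  exact le_of_sq_le_sq h3 (by positivity)

end AutNorm
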